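import Pool.Agent.H93Tate.CycleMain

/-! Weil polynomials whose conjugate pairs are separated by automorphisms preserving all
pairs. -/

set_option linter.unusedSectionVars false

namespace Pool.Agent.H93Tate

open Polynomial

section Comb

variable {G X : Type*} [Group G] [Fintype X] [DecidableEq X] [MulAction G X]

lemma rel_translate {u m : X → ℤ} (h : IsRel G u m) (σ : G) :
    IsRel G u (fun x => m (σ⁻¹ • x)) := by
  intro g
  have h1 := h (g * σ)
  rw [← h1]
  refine Finset.sum_nbij' (fun x => σ⁻¹ • x) (fun x => σ • x) ?_ ?_ ?_ ?_ ?_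
  · intro x _; exact Finset.mem_univ _
  · intro x _; exact Finset.mem_univ _
  · intro x _; simp
  · intro x _; simp
  · intro x _
    show m (σ⁻¹ • x) * u (g • x) = m (σ⁻¹ • x) * u ((g * σ) • σ⁻¹ • x)
    rw [smul_smul, mul_assoc, mul_inv_cancel, mul_one]

theorem sep_trivial [MulAction.IsPretransitive G X] {ι : X → X} (hι : ∀ x, ι (ι x) = x)
    (hf : ∀ x, ι x ≠ x) (hG : ∀ (g : G) x, ι (g • x) = g • ι x)
    (hsep : ∀ x y : X, y ≠ x → y ≠ ι x → ∃ σ : G, (∀ z, σ • z = z ∨ σ • z = ι z) ∧
      σ • x = x ∧ σ • y = ι y)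
    (u : X → ℤ) (hu : ∀ x, u (ι x) = - u x) (hu0 : ∃ x, u x ≠ 0) :
    ∀ (N : ℕ) (m : X → ℤ), (Finset.univ.filter (fun x => m x ≠ 0)).card ≤ N → IsOdd ι m →
      IsRel G u m → ∀ x, m x = 0 := by
  intro N
  induction N with
  | zero =>
    intro m hN _ _ x
    by_contra hx
    have h1 : x ∈ Finset.univ.filter (fun x => m x ≠ 0) :=
      Finset.mem_filter.2 ⟨Finset.mem_univ _, hx⟩
    have h2 := Finset.card_pos.2 ⟨x, h1⟩
    omega
  | succ N ih =>
    intro m hN hodd hrel x
    by_contra hx
    -- is there another pair in the support?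
    by_cases hex : ∃ y, m y ≠ 0 ∧ y ≠ x ∧ y ≠ ι x
    · obtain ⟨y, hy, hyx, hyx'⟩ := hex
      obtain ⟨σ, hσ, hσx, hσy⟩ := hsep x y hyx hyx'
      have hσinv : ∀ z, m (σ⁻¹ • z) = m z ∨ m (σ⁻¹ • z) = - m z := by
        intro z
        rcases hσ (σ⁻¹ • z) with h | h
        · rw [smul_inv_smul] at h
          left; rw [← h]
        · rw [smul_inv_smul] at h
          right
          conv_rhs => rw [h, hodd, neg_neg]
      let m' : X → ℤ := fun z => m z + m (σ⁻¹ • z)
      have hm'odd : IsOdd ι m' := by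
        intro z
        show m (ι z) + m (σ⁻¹ • ι z) = -(m z + m (σ⁻¹ • z))
        rw [← hG, hodd, hodd]; ring
      have hm'rel : IsRel G u m' := by
        intro g
        have h1 := hrel g
        have h2 := rel_translate hrel σ g
        show ∑ z, (m z + m (σ⁻¹ • z)) * u (g • z) = 0
        simp only [add_mul, Finset.sum_add_distrib]
        rw [h1]
        simpa using h2
      have hm'x : m' x ≠ 0 := by
        have h1 : σ⁻¹ • x = x := by
          rw [inv_smul_eq_iff, hσx]
        show m x + m (σ⁻¹ • x) ≠ 0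
        rw [h1]
        omega
      have hm'y : m' y = 0 := by
        have h1 : σ⁻¹ • y = ι y := by
          rw [inv_smul_eq_iff, ← hG, hσy, hι]
        show m y + m (σ⁻¹ • y) = 0
        rw [h1, hodd]; ring
      have hsub : Finset.univ.filter (fun z => m' z ≠ 0) ⊂ Finset.univ.filter (fun z => m z ≠ 0) := by
        refine ⟨?_, ?_⟩
        · intro z hz
          rw [Finset.mem_filter] at hz ⊢
          refine ⟨hz.1, fun h0 => hz.2 ?_⟩
          show m z + m (σ⁻¹ • z) = 0
          rcases hσinv z with h | h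
          · rw [h, h0]; ring
          · rw [h, h0]; ring
        · intro hc
          have h1 : y ∈ Finset.univ.filter (fun z => m z ≠ 0) :=
            Finset.mem_filter.2 ⟨Finset.mem_univ _, hy⟩
          have h2 := hc h1
          rw [Finset.mem_filter] at h2
          exact h2.2 hm'y
      have hlt := Finset.card_lt_card hsub
      exact hm'x (ih m' (by omega) hm'odd hm'rel x)
    · push Not at hex
      -- the relation is supported on a single pair
      obtain ⟨w, hw⟩ := hu0
      obtain ⟨g, hg⟩ := MulAction.exists_smul_eq G x w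
      have h1 := hrel g
      have h2 : ∑ z, m z * u (g • z) = ∑ z ∈ ({x, ι x} : Finset X), m z * u (g • z) := by
        symm
        apply Finset.sum_subset (Finset.subset_univ _)
        intro z _ hz
        have h3 : m z = 0 := by
          by_contra hmz
          apply hz
          rw [Finset.mem_insert, Finset.mem_singleton]
          by_contra hcon
          push Not at hcon
          exact hcon.2 (hex z hmz hcon.1)
        rw [h3, zero_mul]
      rw [h2, Finset.sum_pair (hf x).symm, hodd, ← hG, hu, hg] at h1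
      have h3 : m x * u w = 0 := by
        have h4 : 2 * (m x * u w) = 0 := by linear_combination h1
        omega
      rcases mul_eq_zero.1 h3 with h4 | h4
      · exact hx h4
      · exact hw h4

end Comb

/-- **Separated pairs.** -/
theorem onlyTrivial_sep {p n : ℕ} [hp : Fact p.Prime] (hn : 0 < n)
    {P : ℚ[X]} (hP : Irreducible P) (hdeg2 : 2 < P.natDegree)
    (hweil : ∀ z : ℂ, aeval z P = 0 → ‖z‖ ^ 2 = (p : ℝ) ^ n)
    (hsep : ∀ x y : P.SplittingField, aeval x P = 0 → aeval y P = 0 → y ≠ x →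
      x * y ≠ (p : P.SplittingField) ^ n →
      ∃ σ : P.SplittingField ≃ₐ[ℚ] P.SplittingField,
        (∀ z, aeval z P = 0 → σ z = z ∨ z * σ z = (p : P.SplittingField) ^ n) ∧
        σ x = x ∧ y * σ y = (p : P.SplittingField) ^ n)
    (hns : ∃ y : PadicAlgCl p, aeval y P = 0 ∧ slope p n y ≠ 1 / 2) : OnlyTrivial hweil := by
  classical
  intro jp m hrelR
  let L := P.SplittingField
  have hrootp : ∀ x : Rt P, aeval (jp x.1) P = 0 := fun x => by
    rw [aeval_algHom_apply, rt_root, map_zero]
  have hne : ∀ x : Rt P, jp x.1 ≠ 0 := fun x => by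
    rw [Ne, map_eq_zero]; exact root_ne_zero hweil x.2
  have hq : ∀ x : Rt P, ∃ q : ℚ, slope p n (jp x.1) = q := fun x =>
    slope_rational hn _ (hne x)
  choose q hq using hq
  let D : ℕ := ∏ x : Rt P, (2 * q x - 1).den
  have hD : D ≠ 0 := Finset.prod_ne_zero_iff.2 fun x _ => (2 * q x - 1).den_ne_zero
  have hu : ∀ x : Rt P, ∃ k : ℤ, (k : ℝ) = D * (2 * slope p n (jp x.1) - 1) := by
    intro x
    obtain ⟨c, hc⟩ : (2 * q x - 1).den ∣ D := Finset.dvd_prod_of_mem _ (Finset.mem_univ x)
    refine ⟨c * (2 * q x - 1).num, ?_⟩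
    rw [hq x, hc]
    have h1 : ((2 * q x - 1).num : ℝ) = (2 * q x - 1).den * (2 * (q x : ℝ) - 1) := by
      have h2 : (((2 * q x - 1).num : ℚ)) = (2 * q x - 1).den * (2 * q x - 1) := by
        exact ((mul_comm _ _).trans (Rat.mul_den_eq_num _)).symm
      exact_mod_cast h2
    push_cast
    rw [h1]
    ring
  choose u hu using hu
  have hD' : (D : ℝ) ≠ 0 := by exact_mod_cast hD
  have hodd : ∀ x : Rt P, u (inv hweil x) = - u x := by
    intro x
    have h4 : ((u (inv hweil x) : ℤ) : ℝ) = ((- u x : ℤ) : ℝ) := by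
      rw [hu]
      push_cast
      rw [hu, slope_inv hn hweil jp x]
      ring
    exact_mod_cast h4
  have hrel : IsRel (L ≃ₐ[ℚ] L) u m := by
    intro g
    have h1 : ((∑ x : Rt P, m x * u (g • x) : ℤ) : ℝ) = 0 := by
      push_cast
      have h2 : ∀ x : Rt P, (m x : ℝ) * (u (g • x) : ℝ) =
          D * ((m x : ℝ) * (2 * slope p n (jp (g • x).1) - 1)) := by
        intro x
        rw [hu (g • x)]
        ring
      rw [Finset.sum_congr rfl (fun x _ => h2 x), ← Finset.mul_sum, hrelR g, mul_zero]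
    exact_mod_cast h1
  let d : Rt P → ℤ := fun x => m x - m (inv hweil x)
  have hdodd : IsOdd (inv hweil) d := fun x => by
    show m (inv hweil x) - m (inv hweil (inv hweil x)) = -(m x - m (inv hweil x))
    rw [inv_inv']; ring
  have hι' : Function.Bijective (inv hweil) :=
    ⟨fun x y h => by rw [← inv_inv' hweil x, h, inv_inv' hweil y],
      fun x => ⟨inv hweil x, inv_inv' hweil x⟩⟩
  have hdrel : IsRel (L ≃ₐ[ℚ] L) u d := by
    intro g
    have h1 : ∑ x, m (inv hweil x) * u (g • x) = - ∑ x, m x * u (g • x) := by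
      rw [← Finset.sum_neg_distrib]
      rw [← hι'.sum_comp (fun x => -(m x * u (g • x)))]
      refine Finset.sum_congr rfl fun x _ => ?_
      show m (inv hweil x) * u (g • x) = -(m (inv hweil x) * u (g • inv hweil x))
      rw [← inv_smul', hodd]; ring
    show ∑ x, (m x - m (inv hweil x)) * u (g • x) = 0
    simp only [sub_mul, Finset.sum_sub_distrib, h1, hrel g]
    ring
  have hu0 : ∃ x, u x ≠ 0 := by
    obtain ⟨y, hy, hys⟩ := hns
    have h1 := (SplittingField.splits P).image_rootSet jp
    have h2 : y ∈ P.rootSet (PadicAlgCl p) := mem_rootSet.2 ⟨hP.ne_zero, hy⟩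
    rw [← h1] at h2
    obtain ⟨z, hz, hzy⟩ := h2
    have hzy' : jp z = y := hzy
    refine ⟨⟨z, hz⟩, fun h0 => hys ?_⟩
    have h3 := hu ⟨z, hz⟩
    rw [h0] at h3
    have h4 : (D : ℝ) * (2 * slope p n (jp z) - 1) = 0 := by
      rw [← h3]; simp
    rcases mul_eq_zero.1 h4 with h5 | h5
    · exact absurd h5 hD'
    · rw [← hzy']; linarith
  have htrans := pretransitive hP
  -- translation of the separation hypothesis
  have hpair : ∀ (z w : Rt P), z.1 * w.1 = (p : L) ^ n → w = inv hweil z := by
    intro z w h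
    apply Subtype.ext
    show w.1 = (p : L) ^ n / z.1
    rw [eq_div_iff (root_ne_zero hweil z.2), mul_comm]
    exact h
  have hsep' : ∀ x y : Rt P, y ≠ x → y ≠ inv hweil x → ∃ σ : L ≃ₐ[ℚ] L,
      (∀ z : Rt P, σ • z = z ∨ σ • z = inv hweil z) ∧ σ • x = x ∧ σ • y = inv hweil y := by
    intro x y hyx hyx'
    obtain ⟨σ, h1, h2, h3⟩ := hsep x.1 y.1 (rt_root x) (rt_root y)
      (fun h => hyx (Subtype.ext h)) (fun h => hyx' (hpair x y h))
    refine ⟨σ, fun z => ?_, Subtype.ext h2, hpair y (σ • y) h3⟩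
    rcases h1 z.1 (rt_root z) with h4 | h4
    · left; exact Subtype.ext h4
    · right; exact hpair z (σ • z) h4
  have hd0 := sep_trivial (G := L ≃ₐ[ℚ] L) (X := Rt P) (inv_inv' hweil)
    (fun x hx => inv_ne hP hdeg2 hweil x.2 (congrArg Subtype.val hx)) (inv_smul' hweil)
    hsep' u hodd hu0 _ d le_rfl hdodd hdrel
  intro x
  have h1 : m x - m (inv hweil x) = 0 := hd0 x
  omega

end Pool.Agent.H93Tate
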