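import Pool.Agent.H93Tate.Cycle

/-! Weil polynomials of degree `2^(a+1)` whose Galois group contains a full cycle. -/

set_option linter.unusedSectionVars false

namespace Pool.Agent.H93Tate

open Polynomial

/-- slopes are rational -/
lemma slope_rational {p n : ℕ} [hp : Fact p.Prime] (hn : 0 < n) (y : PadicAlgCl p) (hy : y ≠ 0) :
    ∃ q : ℚ, slope p n y = q := by
  have h1 : ‖y‖ = ‖(minpoly ℚ_[p] y).coeff 0‖ ^ (1 / (minpoly ℚ_[p] y).natDegree : ℝ) := by
    rw [← PadicAlgCl.spectralNorm_eq]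
    exact spectralNorm.spectralNorm_eq_norm_coeff_zero_rpow (K := ℚ_[p]) (L := PadicAlgCl p) y
  have h0 : (minpoly ℚ_[p] y).coeff 0 ≠ 0 :=
    minpoly.coeff_zero_ne_zero (Algebra.IsIntegral.isIntegral y) hy
  have h2 := Padic.norm_eq_zpow_neg_valuation h0
  have hp1 : (1 : ℝ) < p := by exact_mod_cast hp.out.one_lt
  have hp0 : (0 : ℝ) < p := by linarith
  refine ⟨((minpoly ℚ_[p] y).coeff 0).valuation / ((minpoly ℚ_[p] y).natDegree * n), ?_⟩
  unfold slope
  rw [h1, h2, Real.logb, Real.log_rpow (zpow_pos hp0 _), Real.log_zpow, Real.log_pow]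
  have h3 : Real.log (p : ℝ) ≠ 0 := (Real.log_pos hp1).ne'
  have h4 : ((minpoly ℚ_[p] y).natDegree : ℝ) ≠ 0 := by
    exact_mod_cast (minpoly.natDegree_pos (Algebra.IsIntegral.isIntegral y)).ne'
  have h5 : (n : ℝ) ≠ 0 := by exact_mod_cast hn.ne'
  push_cast
  field_simp

/-- **Full cycle case.** -/
theorem onlyTrivial_cycle {p n a : ℕ} [hp : Fact p.Prime] (hn : 0 < n) (ha : 0 < a)
    {P : ℚ[X]} (hP : Irreducible P) (hdeg : P.natDegree = 2 ^ (a + 1))
    (hweil : ∀ z : ℂ, aeval z P = 0 → ‖z‖ ^ 2 = (p : ℝ) ^ n)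
    (σ : P.SplittingField ≃ₐ[ℚ] P.SplittingField)
    (hσ : ∀ x y : P.SplittingField, aeval x P = 0 → aeval y P = 0 → ∃ k : ℕ, (σ ^ k) x = y)
    (hns : ∃ y : PadicAlgCl p, aeval y P = 0 ∧ slope p n y ≠ 1 / 2) : OnlyTrivial hweil := by
  classical
  intro jp m hrelR
  let L := P.SplittingField
  have hrootp : ∀ x : Rt P, aeval (jp x.1) P = 0 := fun x => by
    rw [aeval_algHom_apply, rt_root, map_zero]
  have hne : ∀ x : Rt P, jp x.1 ≠ 0 := fun x => by
    rw [Ne, map_eq_zero]; exact root_ne_zero hweil x.2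
  -- a common denominator for the slopes
  have hq : ∀ x : Rt P, ∃ q : ℚ, slope p n (jp x.1) = q := fun x =>
    slope_rational hn _ (hne x)
  choose q hq using hq
  let D : ℕ := ∏ x : Rt P, (2 * q x - 1).den
  have hD : D ≠ 0 := Finset.prod_ne_zero_iff.2 fun x _ => (2 * q x - 1).den_ne_zero
  have hu : ∀ x : Rt P, ∃ k : ℤ, (k : ℝ) = D * (2 * slope p n (jp x.1) - 1) := by
    intro x
    obtain ⟨c, hc⟩ : (2 * q x - 1).den ∣ D := Finset.dvd_prod_of_mem _ (Finset.mem_univ x)
    refine ⟨c * (2 * q x - 1).num, ?_⟩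
    rw [hq x, hc]
    have h1 : ((2 * q x - 1).num : ℝ) = (2 * q x - 1).den * (2 * (q x : ℝ) - 1) := by
      have h2 : (((2 * q x - 1).num : ℚ)) = (2 * q x - 1).den * (2 * q x - 1) := by
        exact ((mul_comm _ _).trans (Rat.mul_den_eq_num _)).symm
      exact_mod_cast h2
    push_cast
    rw [h1]
    ring
  choose u hu using hu
  let D' : ℝ := D
  have hD' : (D : ℝ) ≠ 0 := by exact_mod_cast hD
  have hodd : ∀ x : Rt P, u (inv hweil x) = - u x := by
    intro x
    have h4 : ((u (inv hweil x) : ℤ) : ℝ) = ((- u x : ℤ) : ℝ) := by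
      rw [hu]
      push_cast
      rw [hu, slope_inv hn hweil jp x]
      ring
    exact_mod_cast h4
  have hrel : ∀ g : L ≃ₐ[ℚ] L, ∑ x : Rt P, m x * u (g • x) = 0 := by
    intro g
    have h1 : ((∑ x : Rt P, m x * u (g • x) : ℤ) : ℝ) = 0 := by
      push_cast
      have h2 : ∀ x : Rt P, (m x : ℝ) * (u (g • x) : ℝ) =
          D * ((m x : ℝ) * (2 * slope p n (jp (g • x).1) - 1)) := by
        intro x
        rw [hu (g • x)]
        ring
      rw [Finset.sum_congr rfl (fun x _ => h2 x), ← Finset.mul_sum, hrelR g, mul_zero]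
    exact_mod_cast h1
  -- odd part
  let d : Rt P → ℤ := fun x => m x - m (inv hweil x)
  have hdodd : IsOdd (inv hweil) d := fun x => by
    show m (inv hweil x) - m (inv hweil (inv hweil x)) = -(m x - m (inv hweil x))
    rw [inv_inv']; ring
  have hι' : Function.Bijective (inv hweil) :=
    ⟨fun x y h => by rw [← inv_inv' hweil x, h, inv_inv' hweil y],
      fun x => ⟨inv hweil x, inv_inv' hweil x⟩⟩
  have hdrel : ∀ g : L ≃ₐ[ℚ] L, ∑ x : Rt P, d x * u (g • x) = 0 := by
    intro g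
    have h1 : ∑ x, m (inv hweil x) * u (g • x) = - ∑ x, m x * u (g • x) := by
      rw [← Finset.sum_neg_distrib]
      rw [← hι'.sum_comp (fun x => -(m x * u (g • x)))]
      refine Finset.sum_congr rfl fun x _ => ?_
      show m (inv hweil x) * u (g • x) = -(m (inv hweil x) * u (g • inv hweil x))
      rw [← inv_smul', hodd]; ring
    show ∑ x, (m x - m (inv hweil x)) * u (g • x) = 0
    simp only [sub_mul, Finset.sum_sub_distrib, h1, hrel g]
    ring
  -- some entry of `u` is nonzero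
  have hu0 : ∃ x, u x ≠ 0 := by
    obtain ⟨y, hy, hys⟩ := hns
    have h1 := (SplittingField.splits P).image_rootSet jp
    have h2 : y ∈ P.rootSet (PadicAlgCl p) := mem_rootSet.2 ⟨hP.ne_zero, hy⟩
    rw [← h1] at h2
    obtain ⟨z, hz, hzy⟩ := h2
    have hzy' : jp z = y := hzy
    refine ⟨⟨z, hz⟩, fun h0 => hys ?_⟩
    have h3 := hu ⟨z, hz⟩
    rw [h0] at h3
    have h4 : (D : ℝ) * (2 * slope p n (jp z) - 1) = 0 := by
      rw [← h3]; simp
    rcases mul_eq_zero.1 h4 with h5 | h5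
    · exact absurd h5 hD'
    · rw [← hzy']; linarith
  have hdeg2 : 2 < P.natDegree := by
    rw [hdeg, pow_succ]
    have h1 : 2 ^ 1 ≤ 2 ^ a := Nat.pow_le_pow_right (by norm_num) ha
    omega
  have hit : ∀ (k : ℕ) (x : Rt P), (fun x : Rt P => σ • x)^[k] x = (σ ^ k) • x := by
    intro k
    induction k with
    | zero => intro x; simp
    | succ k ih =>
      intro x
      rw [Function.iterate_succ_apply, ih, smul_smul, ← pow_succ]
  have hd0 := cycle_trivial (X := Rt P) (a := a) (by rw [card_rt hP, hdeg]) (inv_inv' hweil)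
    (fun x hx => inv_ne hP hdeg2 hweil x.2 (congrArg Subtype.val hx))
    (fun x => σ • x) (fun x => inv_smul' hweil σ x)
    (fun x y => by
      obtain ⟨k, hk⟩ := hσ x.1 y.1 (rt_root x) (rt_root y)
      refine ⟨k, ?_⟩
      rw [hit]
      exact Subtype.ext hk) u hodd hu0 d hdodd
    (fun k => by
      have h1 := hdrel (σ ^ k)
      rw [← h1]
      refine Finset.sum_congr rfl fun x _ => ?_
      rw [hit])
  intro x
  have h1 : m x - m (inv hweil x) = 0 := hd0 x
  omega

end Pool.Agent.H93Tate
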