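import Pool.Agent.H93Tate.Frame

/-! Generic frame: triviality of all relations between slope vectors implies generation of Tate
classes in degree two. -/

set_option linter.unusedSectionVars false

namespace Pool.Agent.H93Tate

open Polynomial TensorProduct ExteriorAlgebra

/-- only trivial relations between the translates of the slope vector, for one embedding -/
def OnlyTrivialAt {p n : ℕ} [hp : Fact p.Prime] {P : ℚ[X]}
    (hweil : ∀ z : ℂ, aeval z P = 0 → ‖z‖ ^ 2 = (p : ℝ) ^ n)
    (jp : P.SplittingField →ₐ[ℚ] PadicAlgCl p) : Prop :=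
  ∀ m : Rt P → ℤ,
    (∀ g : P.SplittingField ≃ₐ[ℚ] P.SplittingField,
      ∑ x : Rt P, (m x : ℝ) * (2 * slope p n (jp (g • x).1) - 1) = 0) →
    ∀ x, m (inv hweil x) = m x

theorem key_genAt {p c : ℕ} [hp : Fact p.Prime] (hc : 0 < c)
    {P : ℚ[X]} (hP : Irreducible P)
    (hweil : ∀ z : ℂ, aeval z P = 0 → ‖z‖ ^ 2 = (p : ℝ) ^ c)
    (jp : P.SplittingField →ₐ[ℚ] PadicAlgCl p) (TR : OnlyTrivialAt hweil jp)
    {E : Type*} [Field E] [CharZero E] [IsAlgClosed E] [DecidableEq E] (s T : ℕ) (hs : 0 < s)
    (xs : List E) (hxs : ∀ x ∈ xs, aeval x P = 0) (h : xs.prod ^ s = ((p : E) ^ c) ^ T)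
    (x : E) (hx : aeval x P = 0) : xs.count x = xs.count ((p : E) ^ c / x) := by
  classical
  have hp0 : (0 : ℝ) < (p : ℝ) ^ c := pow_pos (by exact_mod_cast hp.out.pos) c
  let L := P.SplittingField
  let jE : L →ₐ[ℚ] E := IsAlgClosed.lift
  let jC : L →ₐ[ℚ] ℂ := IsAlgClosed.lift
  let m : Rt P → ℕ := fun x => xs.count (jE x.1)
  -- every root in `E` comes from the splitting field
  have hsurj : ∀ y : E, aeval y P = 0 → ∃ x : Rt P, jE x.1 = y := by
    intro y hy
    have h1 := (SplittingField.splits P).image_rootSet jE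
    have h2 : y ∈ P.rootSet E := mem_rootSet.2 ⟨hP.ne_zero, hy⟩
    rw [← h1] at h2
    obtain ⟨z, hz, hzy⟩ := h2
    exact ⟨⟨z, hz⟩, hzy⟩
  have hinjE : Function.Injective (fun x : Rt P => jE x.1) :=
    fun x y hxy => Subtype.ext (jE.toRingHom.injective hxy)
  -- the product in `E`
  have hprod : xs.prod = ∏ x : Rt P, (jE x.1) ^ (m x) := by
    rw [Finset.prod_list_count]
    symm
    rw [← Finset.prod_image (s := Finset.univ) (g := fun x : Rt P => jE x.1)
      (f := fun y => y ^ xs.count y) (fun x _ y _ hxy => hinjE hxy)]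
    symm
    apply Finset.prod_subset
    · intro y hy
      rw [List.mem_toFinset] at hy
      obtain ⟨x, hx⟩ := hsurj y (hxs y hy)
      exact Finset.mem_image.2 ⟨x, Finset.mem_univ _, hx⟩
    · intro y _ hy
      rw [List.mem_toFinset] at hy
      rw [List.count_eq_zero_of_not_mem hy, pow_zero]
  -- the relation in the splitting field
  have hrelL : (∏ x : Rt P, x.1 ^ (m x)) ^ s = ((p : L) ^ c) ^ T := by
    apply jE.toRingHom.injective
    show jE _ = jE _
    rw [map_pow, map_prod, map_pow, map_pow, map_natCast, ← h, hprod]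
    simp only [map_pow]
  -- archimedean size
  have harch : (s : ℝ) * ∑ x : Rt P, (m x : ℝ) = 2 * T := by
    have h1 : ∀ x : Rt P, Real.log ‖jC x.1‖ = (1 / 2) * Real.log ((p : ℝ) ^ c) := by
      intro x
      have h2 := hweil (jC x.1) (by rw [aeval_algHom_apply, rt_root, map_zero])
      rw [← h2, Real.log_pow]
      push_cast
      ring
    have hne : ∀ x : Rt P, ‖jC x.1‖ ≠ 0 := by
      intro x
      rw [norm_ne_zero_iff, Ne, map_eq_zero]
      exact root_ne_zero hweil x.2
    have h2 : Real.log ‖jC ((∏ x : Rt P, x.1 ^ (m x)) ^ s)‖ =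
        Real.log ‖jC (((p : L) ^ c) ^ T)‖ := by rw [hrelL]
    rw [map_pow, map_prod, norm_pow, Real.log_pow, norm_prod, Real.log_prod, map_pow, map_pow,
      map_natCast, norm_pow, norm_pow, Complex.norm_natCast, Real.log_pow] at h2
    · have h3 : ∀ x : Rt P, Real.log ‖jC (x.1 ^ m x)‖ =
          (m x : ℝ) * ((1 / 2) * Real.log ((p : ℝ) ^ c)) := by
        intro x
        rw [map_pow, norm_pow, Real.log_pow, h1]
      rw [Finset.sum_congr rfl (fun x _ => h3 x), ← Finset.sum_mul] at h2
      have h4 : 0 < Real.log ((p : ℝ) ^ c) := Real.log_pos (one_lt_pow hc)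
      have h5 : ((s : ℝ) * ∑ x : Rt P, (m x : ℝ) - 2 * T) * Real.log ((p : ℝ) ^ c) = 0 := by
        linear_combination 2 * h2
      rcases mul_eq_zero.1 h5 with h6 | h6
      · linarith
      · exact absurd h6 h4.ne'
    · intro x _
      rw [map_pow, norm_pow]
      exact pow_ne_zero _ (hne x)
  -- p-adic size for every translate
  have hpadic : ∀ g : L ≃ₐ[ℚ] L,
      (s : ℝ) * ∑ x : Rt P, (m x : ℝ) * slope p c (jp (g • x).1) = T := by
    intro g
    have hne : ∀ x : Rt P, jp (g x.1) ≠ 0 := by
      intro x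
      rw [Ne, map_eq_zero, map_eq_zero]
      exact root_ne_zero hweil x.2
    have h2 : slope p c (jp (g ((∏ x : Rt P, x.1 ^ (m x)) ^ s))) =
        slope p c (jp (g (((p : L) ^ c) ^ T))) := by rw [hrelL]
    rw [map_pow, map_pow, slope_pow, map_prod, map_prod, slope_prod] at h2
    · have h3 : slope p c (jp (g (((p : L) ^ c) ^ T))) = T := by
        rw [map_pow, map_pow, slope_pow, map_pow, map_pow, map_natCast, map_natCast, slope_N hc,
          mul_one]
      rw [h3] at h2
      rw [← h2]
      congr 1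
      refine Finset.sum_congr rfl fun x _ => ?_
      rw [map_pow, map_pow, slope_pow, smul_val]
    · intro x _
      rw [map_pow, map_pow]
      exact pow_ne_zero _ (hne x)
  have hrel : ∀ g : L ≃ₐ[ℚ] L,
      ∑ x : Rt P, ((m x : ℤ) : ℝ) * (2 * slope p c (jp (g • x).1) - 1) = 0 := by
    intro g
    have h2 : ∀ x : Rt P, ((m x : ℤ) : ℝ) * (2 * slope p c (jp (g • x).1) - 1) =
        2 * ((m x : ℝ) * slope p c (jp (g • x).1)) - (m x : ℝ) := by
      intro x
      push_cast
      ring
    rw [Finset.sum_congr rfl (fun x _ => h2 x), Finset.sum_sub_distrib, ← Finset.mul_sum]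
    have h3 : (s : ℝ) * (2 * ∑ x : Rt P, (m x : ℝ) * slope p c (jp (g • x).1)
        - ∑ x : Rt P, (m x : ℝ)) = 0 := by
      linear_combination 2 * hpadic g - harch
    rcases mul_eq_zero.1 h3 with h4 | h4
    · exact absurd h4 (by positivity)
    · exact h4
  obtain ⟨x0, rfl⟩ := hsurj x hx
  have hfin := TR (fun x => (m x : ℤ)) hrel x0
  have hjEι : jE (inv hweil x0).1 = (p : E) ^ c / jE x0.1 := by
    show jE ((p : L) ^ c / x0.1) = _
    rw [map_div₀, map_pow, map_natCast]
  have h9 : m (inv hweil x0) = m x0 := by exact_mod_cast hfin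
  show m x0 = xs.count ((p : E) ^ c / jE x0.1)
  rw [← hjEι]
  exact h9.symm

section Closed

variable {p n : ℕ} [hp : Fact p.Prime] {P : ℚ[X]}

/-- the statement over an algebraically closed coefficient field -/
theorem frame_closedAt (hn : 0 < n) (hP : Irreducible P) (hdeg2 : 2 < P.natDegree)
    (hweil : ∀ z : ℂ, aeval z P = 0 → ‖z‖ ^ 2 = (p : ℝ) ^ n) (jp : P.SplittingField →ₐ[ℚ] PadicAlgCl p)
    (TR : OnlyTrivialAt hweil jp)
    {K : Type*} [Field K] [CharZero K] [IsAlgClosed K] {W : Type*} [AddCommGroup W] [Module K W]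
    [FiniteDimensional K W] (F : W →ₗ[K] W) (hF : aeval F (P.map (algebraMap ℚ K)) = 0)
    (s i : ℕ) (hs : 0 < s) (t : ExteriorAlgebra K W)
    (ht : ExteriorAlgebra.map (F ^ s) t = (((p : K) ^ n) ^ i) • t) :
    t ∈ Algebra.adjoin K (deg2 F ((p : K) ^ n)) := by
  classical
  have hfacts := fun (x : K) (hx : aeval x P = 0) => root_facts (n := n) hP hdeg2 hweil x hx
  -- eigenvectors span
  have hsq : Squarefree (P.map (algebraMap ℚ K)) :=
    (Polynomial.separable_map (algebraMap ℚ K)).2 hP.separable |>.squarefree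
  have hss : Module.End.IsSemisimple F := Module.End.isSemisimple_of_squarefree_aeval_eq_zero hsq hF
  have htop := hss.iSup_eigenspace_eq_top
  have heig : ∀ (μ : K) (w : W), F w = μ • w → w ≠ 0 → aeval μ P = 0 := by
    intro μ w hw hne
    have h1 : aeval F (P.map (algebraMap ℚ K)) w = 0 := by rw [hF]; rfl
    have h2 := Module.End.aeval_apply_of_hasEigenvector (p := P.map (algebraMap ℚ K))
      (f := F) (μ := μ) (x := w) ⟨Module.End.mem_eigenspace_iff.2 hw, hne⟩
    rw [h1] at h2
    rcases smul_eq_zero.1 h2.symm with h3 | h3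
    · rw [eval_map_algebraMap] at h3
      exact h3
    · exact absurd h3 hne
  have hFs : ∀ (μ : K) (w : W), F w = μ • w → ∀ k : ℕ, (F ^ k) w = μ ^ k • w := by
    intro μ w hw k
    induction k with
    | zero => simp
    | succ k ih =>
      rw [pow_succ', Module.End.mul_apply, ih, map_smul, hw, smul_smul, pow_succ]
  have hmain := tate_gen (E := K) (R := ExteriorAlgebra K W) (Φ := ExteriorAlgebra.map F)
    (Ψ := ExteriorAlgebra.map (F ^ s)) (V := LinearMap.range (ι K (M := W)))
    (X := {x : K | aeval x P = 0}) (s := s) (ε := -1) (q := (p : K) ^ n)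
    (ν := ((p : K) ^ n) ^ i) ?_ (fun x hx => (hfacts x hx).1) (fun x hx => (hfacts x hx).2) ?_ ?_ ?_
    t ht
  · exact hmain
  · rintro _ ⟨v, rfl⟩ _ ⟨w, rfl⟩
    have h := ι_add_mul_swap (R := K) v w
    rw [neg_one_smul, eq_neg_iff_add_eq_zero]
    exact h
  · have := CliffordAlgebra.adjoin_range_ι (Q := (0 : QuadraticForm K W))
    exact this
  · rintro _ ⟨v, rfl⟩
    have hv : v ∈ ⨆ μ : K, Module.End.eigenspace F μ := by rw [htop]; trivial
    induction hv using Submodule.iSup_induction' with
    | mem μ w hw =>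
      by_cases hw0 : w = 0
      · rw [hw0, map_zero]; exact Submodule.zero_mem _
      · rw [Module.End.mem_eigenspace_iff] at hw
        apply Submodule.subset_span
        refine ⟨μ, ⟨w, rfl⟩, heig μ w hw hw0, ?_, ?_⟩
        · show ExteriorAlgebra.map F (ι K w) = μ • ι K w
          rw [map_apply_ι, hw, map_smul]
        · show ExteriorAlgebra.map (F ^ s) (ι K w) = μ ^ s • ι K w
          rw [map_apply_ι, hFs μ w hw s, map_smul]
    | zero => rw [map_zero]; exact Submodule.zero_mem _
    | add x y _ _ hx hy => rw [map_add]; exact Submodule.add_mem _ hx hy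
  · intro xs hxs hprod x hx
    exact key_genAt hn hP hweil jp TR s i hs xs hxs hprod x hx

/-- the statement over any coefficient field of characteristic zero -/
theorem frameAt (hn : 0 < n) (hP : Irreducible P) (hdeg2 : 2 < P.natDegree)
    (hweil : ∀ z : ℂ, aeval z P = 0 → ‖z‖ ^ 2 = (p : ℝ) ^ n) (jp : P.SplittingField →ₐ[ℚ] PadicAlgCl p)
    (TR : OnlyTrivialAt hweil jp)
    {E : Type*} [Field E] [CharZero E] {V : Type*} [AddCommGroup V] [Module E V]
    [FiniteDimensional E V] (F : V →ₗ[E] V) (hF : aeval F (P.map (algebraMap ℚ E)) = 0)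
    (s i : ℕ) (hs : 0 < s) (t : ExteriorAlgebra E V)
    (ht : ExteriorAlgebra.map (F ^ s) t = (((p : E) ^ n) ^ i) • t) :
    t ∈ Algebra.adjoin E (deg2 F ((p : E) ^ n)) := by
  let K := AlgebraicClosure E
  have hcz : CharZero K := charZero_of_injective_algebraMap (algebraMap E K).injective
  apply descend K F ((p : E) ^ n) t
  rw [map_pow, map_natCast]
  have hpow : (F ^ s).baseChange K = (F.baseChange K) ^ s := by
    exact map_pow (Module.End.baseChangeHom E K V) F s
  apply frame_closedAt hn hP hdeg2 hweil jp TR (F.baseChange K) ?_ s i hs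
  · rw [← hpow, ← theta_map, ht, map_smul, ← map_natCast (algebraMap E K), ← map_pow, ← map_pow,
      algebraMap_smul]
  · have h1 : aeval (F.baseChange K) (P.map (algebraMap ℚ E)) = 0 := by
      have h2 := aeval_algHom_apply (Module.End.baseChangeHom E K V) F (P.map (algebraMap ℚ E))
      rw [hF, map_zero] at h2
      exact h2
    have h2 : P.map (algebraMap ℚ K) = (P.map (algebraMap ℚ E)).map (algebraMap E K) := by
      rw [Polynomial.map_map]
      congr 1
    rw [h2, aeval_map_algebraMap]
    exact h1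

end Closed

end Pool.Agent.H93Tate
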