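import Pool.Agent.H93Tate.PairClass
import Pool.Agent.H93Tate.FrameAt

/-! Weil polynomials whose classes of non-separated pairs have prime power size. -/

set_option linter.unusedSectionVars false

namespace Pool.Agent.H93Tate

open Polynomial

/-- **Classes of prime power size.** -/
theorem onlyTrivial_class {p n r a : ℕ} [hp : Fact p.Prime] (hn : 0 < n) (hr : r.Prime)
    {P : ℚ[X]} (hP : Irreducible P) (hdeg2 : 2 < P.natDegree)
    (hweil : ∀ z : ℂ, aeval z P = 0 → ‖z‖ ^ 2 = (p : ℝ) ^ n)
    (j : P.SplittingField →ₐ[ℚ] PadicAlgCl p)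
    (x₀ : P.SplittingField) (hx₀ : aeval x₀ P = 0) (b : Finset P.SplittingField)
    (hb : ∀ y, y ∈ b ↔ aeval y P = 0 ∧ ∀ σ : P.SplittingField ≃ₐ[ℚ] P.SplittingField,
      (∀ z, aeval z P = 0 → σ z = z ∨ z * σ z = (p : P.SplittingField) ^ n) →
        (σ x₀ = x₀ ↔ σ y = y))
    (hcard : b.card = 2 * r ^ a) (D : ℤ) (u : P.SplittingField → ℤ)
    (hu : ∀ y ∈ b, (u y : ℝ) = D * (2 * slope p n (j y) - 1))
    (hcond : ∀ Φ : Finset P.SplittingField, Φ ⊆ b →
      (∀ y ∈ b, (y ∈ Φ ↔ (p : P.SplittingField) ^ n / y ∉ Φ)) → ¬ (r : ℤ) ∣ ∑ y ∈ Φ, u y) :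
    OnlyTrivialAt hweil j := by
  classical
  have hrF : Fact r.Prime := ⟨hr⟩
  intro m hrelR
  let L := P.SplittingField
  have htrans := pretransitive hP
  let X₀ : Rt P := ⟨x₀, mem_rootSet.2 ⟨hP.ne_zero, hx₀⟩⟩
  have hpair : ∀ (z w : Rt P), z.1 * w.1 = (p : L) ^ n ↔ w = inv hweil z := by
    intro z w
    have hz := root_ne_zero hweil z.2
    constructor
    · intro h
      apply Subtype.ext
      show w.1 = (p : L) ^ n / z.1
      rw [eq_div_iff hz, mul_comm]
      exact h
    · rintro rfl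
      show z.1 * ((p : L) ^ n / z.1) = (p : L) ^ n
      rw [mul_div_cancel₀ _ hz]
  have hpres : ∀ σ : L ≃ₐ[ℚ] L, (∀ z : Rt P, σ • z = z ∨ σ • z = inv hweil z) ↔
      (∀ z : L, aeval z P = 0 → σ z = z ∨ z * σ z = (p : L) ^ n) := by
    intro σ
    constructor
    · intro h z hz
      let Z : Rt P := ⟨z, mem_rootSet.2 ⟨hP.ne_zero, hz⟩⟩
      rcases h Z with h1 | h1
      · left; exact congrArg Subtype.val h1
      · right; exact (hpair Z (σ • Z)).2 h1
    · intro h z
      rcases h z.1 (rt_root z) with h1 | h1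
      · left; exact Subtype.ext h1
      · right; exact (hpair z (σ • z)).1 h1
  let b' : Finset (Rt P) := Finset.univ.filter (fun y => y.1 ∈ b)
  have hb' : ∀ y : Rt P, y ∈ b' ↔ SameClass (L ≃ₐ[ℚ] L) (inv hweil) X₀ y := by
    intro y
    simp only [b', Finset.mem_filter, Finset.mem_univ, true_and]
    rw [hb]
    constructor
    · rintro ⟨_, h⟩ σ hσ
      have h1 := h σ ((hpres σ).1 hσ)
      constructor
      · intro h2
        exact Subtype.ext (h1.1 (congrArg Subtype.val h2))
      · intro h2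
        exact Subtype.ext (h1.2 (congrArg Subtype.val h2))
    · intro h
      refine ⟨rt_root y, fun σ hσ => ?_⟩
      have h1 := h σ ((hpres σ).2 hσ)
      constructor
      · intro h2
        have h3 := h1.1 (Subtype.ext h2)
        exact congrArg Subtype.val h3
      · intro h2
        have h3 := h1.2 (Subtype.ext h2)
        exact congrArg Subtype.val h3
  have himage : b'.image (fun y : Rt P => y.1) = b := by
    ext y
    constructor
    · intro hy
      obtain ⟨z, hz, rfl⟩ := Finset.mem_image.1 hy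
      exact (Finset.mem_filter.1 hz).2
    · intro hy
      refine Finset.mem_image.2 ⟨⟨y, mem_rootSet.2 ⟨hP.ne_zero, ((hb y).1 hy).1⟩⟩, ?_, rfl⟩
      exact Finset.mem_filter.2 ⟨Finset.mem_univ _, hy⟩
  have hinjv : Function.Injective (fun y : Rt P => y.1) := fun x y h => Subtype.ext h
  have hcard' : b'.card = 2 * r ^ a := by
    rw [← hcard, ← himage, Finset.card_image_of_injective _ hinjv]
  have hw : ∀ x : Rt P, (2 * slope p n (j (inv hweil x).1) - 1) = -(2 * slope p n (j x.1) - 1) :=
    fun x => slope_inv hn hweil j x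
  -- odd part
  let d : Rt P → ℤ := fun x => m x - m (inv hweil x)
  have hdodd : IsOdd (inv hweil) d := fun x => by
    show m (inv hweil x) - m (inv hweil (inv hweil x)) = -(m x - m (inv hweil x))
    rw [inv_inv']; ring
  have hι' : Function.Bijective (inv hweil) :=
    ⟨fun x y h => by rw [← inv_inv' hweil x, h, inv_inv' hweil y],
      fun x => ⟨inv hweil x, inv_inv' hweil x⟩⟩
  have hdrel : IsRelR (L ≃ₐ[ℚ] L) (fun x : Rt P => 2 * slope p n (j x.1) - 1) d := by
    intro g
    have h1 : ∑ x : Rt P, (m (inv hweil x) : ℝ) * (2 * slope p n (j (g • x).1) - 1) =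
        - ∑ x : Rt P, (m x : ℝ) * (2 * slope p n (j (g • x).1) - 1) := by
      rw [← Finset.sum_neg_distrib]
      rw [← hι'.sum_comp (fun x => -((m x : ℝ) * (2 * slope p n (j (g • x).1) - 1)))]
      refine Finset.sum_congr rfl fun x _ => ?_
      show (m (inv hweil x) : ℝ) * (2 * slope p n (j (g • x).1) - 1) =
        -((m (inv hweil x) : ℝ) * (2 * slope p n (j (g • inv hweil x).1) - 1))
      rw [← inv_smul', hw]; ring
    have h2 : ∀ x : Rt P, ((m x - m (inv hweil x) : ℤ) : ℝ) * (2 * slope p n (j (g • x).1) - 1) =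
        (m x : ℝ) * (2 * slope p n (j (g • x).1) - 1) -
          (m (inv hweil x) : ℝ) * (2 * slope p n (j (g • x).1) - 1) := by
      intro x; push_cast; ring
    show ∑ x : Rt P, ((m x - m (inv hweil x) : ℤ) : ℝ) * (2 * slope p n (j (g • x).1) - 1) = 0
    rw [Finset.sum_congr rfl (fun x _ => h2 x), Finset.sum_sub_distrib, h1, hrelR g]
    ring
  have hD : D ≠ 0 := by
    rintro rfl
    -- all `u` vanish on the class, contradiction with any half system
    obtain ⟨Ψ, hΨ⟩ := exists_half (ι := inv hweil) (inv_inv' hweil)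
      (fun x hx => inv_ne hP hdeg2 hweil x.2 (congrArg Subtype.val hx))
    refine hcond ((Ψ.filter (fun y => y ∈ b')).image (fun y : Rt P => y.1)) ?_ ?_ ?_
    · intro y hy
      obtain ⟨z, hz, rfl⟩ := Finset.mem_image.1 hy
      exact (Finset.mem_filter.1 (Finset.mem_filter.1 hz).2).2
    · intro y hy
      have hyr := ((hb y).1 hy).1
      let Y : Rt P := ⟨y, mem_rootSet.2 ⟨hP.ne_zero, hyr⟩⟩
      have h1 : ∀ z : Rt P, z ∈ b' → (z.1 ∈ (Ψ.filter (fun y => y ∈ b')).image
          (fun y : Rt P => y.1) ↔ z ∈ Ψ) := by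
        intro z hz
        constructor
        · intro h
          obtain ⟨v, hv, hvz⟩ := Finset.mem_image.1 h
          have : v = z := Subtype.ext hvz
          rw [← this]
          exact (Finset.mem_filter.1 hv).1
        · intro h
          exact Finset.mem_image.2 ⟨z, Finset.mem_filter.2 ⟨h, hz⟩, rfl⟩
      have hY : Y ∈ b' := Finset.mem_filter.2 ⟨Finset.mem_univ _, hy⟩
      have hY' : inv hweil Y ∈ b' :=
        (hb' _).2 (sameClass_trans ((hb' Y).1 hY)
          (sameClass_inv (inv_inv' hweil) (inv_smul' hweil) Y))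
      have h2 := h1 Y hY
      have h3 := h1 (inv hweil Y) hY'
      show Y.1 ∈ _ ↔ (inv hweil Y).1 ∉ _
      rw [h2, h3]
      exact hΨ Y
    · have h0 : ∀ y ∈ (Ψ.filter (fun y => y ∈ b')).image (fun y : Rt P => y.1), u y = 0 := by
        intro y hy
        obtain ⟨z, hz, rfl⟩ := Finset.mem_image.1 hy
        have h1 := hu z.1 (Finset.mem_filter.1 (Finset.mem_filter.1 hz).2).2
        have h2 : (u z.1 : ℝ) = 0 := by rw [h1]; simp
        exact_mod_cast h2
      rw [Finset.sum_eq_zero h0]
      exact dvd_zero _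
  have hd0 := class_trivial (G := L ≃ₐ[ℚ] L) (X := Rt P) (r := r) (a := a) (inv_inv' hweil)
    (fun x hx => inv_ne hP hdeg2 hweil x.2 (congrArg Subtype.val hx)) (inv_smul' hweil)
    (fun x : Rt P => 2 * slope p n (j x.1) - 1) hw X₀ b' hb' hcard' D hD (fun x => u x.1)
    (fun y hy => hu y.1 (Finset.mem_filter.1 hy).2)
    (by
      intro Φ hΦb hΦ
      have h1 := hcond (Φ.image (fun y : Rt P => y.1)) ?_ ?_
      · rwa [Finset.sum_image (g := fun y : Rt P => y.1) (fun x _ y _ h => hinjv h)] at h1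
      · intro y hy
        obtain ⟨z, hz, rfl⟩ := Finset.mem_image.1 hy
        exact (Finset.mem_filter.1 (hΦb hz)).2
      · intro y hy
        have hyr := ((hb y).1 hy).1
        let Y : Rt P := ⟨y, mem_rootSet.2 ⟨hP.ne_zero, hyr⟩⟩
        have hY : Y ∈ b' := Finset.mem_filter.2 ⟨Finset.mem_univ _, hy⟩
        have h2 : ∀ z : Rt P, z.1 ∈ Φ.image (fun y : Rt P => y.1) ↔ z ∈ Φ := by
          intro z
          constructor
          · intro h
            obtain ⟨v, hv, hvz⟩ := Finset.mem_image.1 h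
            have : v = z := Subtype.ext hvz
            rwa [← this]
          · intro h
            exact Finset.mem_image.2 ⟨z, h, rfl⟩
        have h3 := hΦ Y hY
        show Y.1 ∈ _ ↔ (inv hweil Y).1 ∉ _
        rw [h2, h2]
        exact h3)
    d hdodd hdrel
  intro x
  have h1 : m x - m (inv hweil x) = 0 := hd0 x
  omega

end Pool.Agent.H93Tate
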