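import Pool.Agent.H93Tate.Group

/-! Odd prime version: only the orbits of Sylow subgroups matter. -/

set_option linter.unusedSectionVars false

namespace Pool.Agent.H93Tate

open Finset

variable {G X : Type*} [Group G] [Finite G] [Fintype X] [DecidableEq X] [MulAction G X]

lemma no_primitive_rel_odd {r a : ℕ} [Fact r.Prime] [MulAction.IsPretransitive G X]
    (hr2 : r ≠ 2)
    (hcard : Fintype.card X = 2 * r ^ a) {ι : X → X} (hι : ∀ x, ι (ι x) = x)
    (hG : ∀ (g : G) x, ι (g • x) = g • ι x) (u : X → ℤ)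
    (hu : ∀ x, u (ι x) = - u x)
    (H : ∀ (S : Sylow r G) (x₀ : X) (Φ : Finset X), (∀ x, x ∈ Φ ↔ ι x ∉ Φ) →
      (∀ x, x ∈ Φ ↔ x ∈ MulAction.orbit S x₀) → ¬ (r : ℤ) ∣ ∑ x ∈ Φ, u x)
    (m : X → ℤ) (hodd : IsOdd ι m) (hrel : IsRel G u m) (hm : ∃ x, ¬ (r : ℤ) ∣ m x) : False := by
  classical
  have hr : r.Prime := Fact.out
  have : NeZero r := ⟨hr.ne_zero⟩
  obtain ⟨S⟩ : Nonempty (Sylow r G) := inferInstance
  obtain ⟨l, hlo, hlr, ⟨x0, hx0⟩, hfix⟩ := exists_fixed S hG u m hodd hrel hm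
  have horb : ∀ x ∈ MulAction.orbit S x0, (l x : ZMod r) = (l x0 : ZMod r) := by
    rintro x ⟨s, rfl⟩
    exact hfix s x0
  have hra : ∀ x : X, Nat.card (MulAction.orbit S x) = r ^ a := by
    intro x
    have h1 : r ^ a ∣ Nat.card (MulAction.orbit S x) := by
      apply dvd_card_orbit S
      rw [hcard]
      exact ⟨2, by ring⟩
    obtain ⟨e, he⟩ := card_orbit_pow S x
    have h2 : Nat.card (MulAction.orbit S x) ≤ Fintype.card X := by
      rw [← Nat.card_eq_fintype_card]
      exact Nat.card_le_card_of_injective _ Subtype.val_injective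
    rw [he] at h1 h2 ⊢
    have h3 : a ≤ e := (Nat.pow_dvd_pow_iff_le_right hr.one_lt).1 h1
    have h4 : e < a + 1 := by
      by_contra hc
      push Not at hc
      have h5 : r ^ (a + 1) ≤ r ^ e := Nat.pow_le_pow_right hr.pos hc
      have h6 : 3 ≤ r := by
        have := hr.two_le
        omega
      have h7 : 3 * r ^ a ≤ r ^ (a + 1) := by
        rw [pow_succ, mul_comm]
        exact Nat.mul_le_mul_left _ h6
      have h8 : 0 < r ^ a := pow_pos hr.pos a
      rw [hcard] at h2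
      omega
    have : e = a := by omega
    rw [this]
  let Φ : Finset X := (MulAction.orbit S x0).toFinset
  have hmem : ∀ x, x ∈ Φ ↔ x ∈ MulAction.orbit S x0 := fun x => Set.mem_toFinset
  have hcardΦ : Φ.card = r ^ a := by
    rw [← hra x0, ← Set.ncard_eq_toFinset_card', Nat.card_coe_set_eq]
  have hl0 : (l x0 : ZMod r) ≠ 0 := fun h =>
    hx0 ((ZMod.intCast_zmod_eq_zero_iff_dvd _ _).1 h)
  have hneg : -(l x0 : ZMod r) ≠ (l x0 : ZMod r) := by
    intro h
    have h2 : (2 : ZMod r) * (l x0 : ZMod r) = 0 := by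
      calc (2 : ZMod r) * (l x0 : ZMod r) = (l x0 : ZMod r) + (l x0 : ZMod r) := by ring
        _ = (l x0 : ZMod r) + -(l x0 : ZMod r) := by rw [h]
        _ = 0 := by ring
    rcases mul_eq_zero.1 h2 with h3 | h3
    · have h4 : ((2 : ℕ) : ZMod r) = 0 := by exact_mod_cast h3
      rw [ZMod.natCast_eq_zero_iff] at h4
      rcases (Nat.dvd_prime Nat.prime_two).1 h4 with h5 | h5
      · exact hr.one_lt.ne' h5
      · exact hr2 h5
    · exact hl0 h3
  have hdisj : ∀ x ∈ Φ, ι x ∉ Φ := by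
    intro x hx hιx
    have h1 := horb x ((hmem x).1 hx)
    have h2 := horb _ ((hmem _).1 hιx)
    rw [hlo x, Int.cast_neg, h1] at h2
    exact hneg h2
  have hinj : Function.Injective ι := fun x y h => by rw [← hι x, h, hι y]
  have hunion : Φ ∪ Φ.image ι = Finset.univ := by
    apply Finset.eq_univ_of_card
    rw [Finset.card_union_of_disjoint, Finset.card_image_of_injective _ hinj, hcardΦ, hcard]
    · ring
    · rw [Finset.disjoint_left]
      intro x hx hx'
      obtain ⟨y, hy, rfl⟩ := Finset.mem_image.1 hx'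
      exact hdisj y hy hx
  have hΦ : ∀ x, x ∈ Φ ↔ ι x ∉ Φ := by
    refine fun x => ⟨fun hx => hdisj x hx, fun hx => ?_⟩
    have h1 : x ∈ Φ ∪ Φ.image ι := by rw [hunion]; exact Finset.mem_univ x
    rcases Finset.mem_union.1 h1 with h2 | h2
    · exact h2
    · exfalso
      obtain ⟨y, hy, rfl⟩ := Finset.mem_image.1 h2
      rw [hι] at hx
      exact hx hy
  have h1 : ∑ x, l x * u x = 0 := by
    have := hlr 1
    simpa using this
  have h2 := sum_half hι Φ hΦ (fun x => l x * u x) (fun x => by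
    show l (ι x) * u (ι x) = l x * u x
    rw [hlo x, hu x]; ring)
  have h3 : ∑ x ∈ Φ, l x * u x = 0 := by
    have : (2 : ℤ) * ∑ x ∈ Φ, l x * u x = 0 := by rw [← h2, h1]
    omega
  have h4 : ((∑ x ∈ Φ, l x * u x : ℤ) : ZMod r) = 0 := by rw [h3]; simp
  have h5 : (l x0 : ZMod r) * ((∑ x ∈ Φ, u x : ℤ) : ZMod r) = 0 := by
    rw [← h4]
    push_cast
    rw [Finset.mul_sum]
    refine Finset.sum_congr rfl fun x hx => ?_
    rw [horb x ((hmem x).1 hx)]
  rcases mul_eq_zero.1 h5 with h6 | h6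
  · exact hx0 ((ZMod.intCast_zmod_eq_zero_iff_dvd _ _).1 h6)
  · exact H S x0 Φ hΦ hmem ((ZMod.intCast_zmod_eq_zero_iff_dvd _ _).1 h6)

end Pool.Agent.H93Tate
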