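import Pool.Agent.H93Tate.Frame
import Pool.Agent.H93Tate.GroupOdd

/-! Weil polynomials of odd prime power dimension that split over an imaginary quadratic
field. -/

set_option linter.unusedSectionVars false

namespace Pool.Agent.H93Tate

open Polynomial

section General

variable {G X : Type*} [Group G] [Finite G] [Fintype X] [DecidableEq X] [MulAction G X]

/-- passing from primitive odd relations to all relations -/
lemma rel_trivial_of {r : ℕ} [Fact r.Prime] {ι : X → X} (hι : ∀ x, ι (ι x) = x)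
    (hG : ∀ (g : G) x, ι (g • x) = g • ι x) (u : X → ℤ)
    (hu : ∀ x, u (ι x) = - u x)
    (H : ∀ m : X → ℤ, IsOdd ι m → IsRel G u m → (∃ x, ¬ (r : ℤ) ∣ m x) → False)
    (m : X → ℤ) (hrel : IsRel G u m) (x : X) : m (ι x) = m x := by
  classical
  have hr : r.Prime := Fact.out
  let d : X → ℤ := fun x => m x - m (ι x)
  have hdodd : IsOdd ι d := fun x => by
    show m (ι x) - m (ι (ι x)) = -(m x - m (ι x))
    rw [hι]; ring
  have hι' : Function.Bijective ι :=
    ⟨fun x y h => by rw [← hι x, h, hι y], fun x => ⟨ι x, hι x⟩⟩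
  have hdrel : IsRel G u d := by
    intro g
    have h1 : ∑ x, m (ι x) * u (g • x) = - ∑ x, m x * u (g • x) := by
      rw [← Finset.sum_neg_distrib]
      rw [← hι'.sum_comp (fun x => -(m x * u (g • x)))]
      refine Finset.sum_congr rfl fun x _ => ?_
      show m (ι x) * u (g • x) = -(m (ι x) * u (g • ι x))
      rw [← hG, hu]; ring
    show ∑ x, (m x - m (ι x)) * u (g • x) = 0
    simp only [sub_mul, Finset.sum_sub_distrib, h1, hrel g]
    ring
  by_contra hne
  have hd : ∃ x, d x ≠ 0 := ⟨x, fun h => hne (by have : m x - m (ι x) = 0 := h; omega)⟩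
  obtain ⟨y, hy⟩ := hd
  obtain ⟨d', hd', hgcd⟩ := Finset.extract_gcd d (Finset.univ_nonempty_iff.2 ⟨x⟩)
  set c := Finset.univ.gcd d with hc
  have hc0 : c ≠ 0 := by
    intro h
    exact hy (by rw [hd' y (Finset.mem_univ _), h, zero_mul])
  have hodd' : IsOdd ι d' := fun z => by
    have h1 := hdodd z
    rw [hd' _ (Finset.mem_univ _), hd' z (Finset.mem_univ _)] at h1
    have h2 : c * (d' (ι z) + d' z) = 0 := by linear_combination h1
    rcases mul_eq_zero.1 h2 with h3 | h3
    · exact absurd h3 hc0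
    · omega
  have hrel' : IsRel G u d' := fun g => by
    have h1 := hdrel g
    have h2 : ∑ x, d x * u (g • x) = c * ∑ x, d' x * u (g • x) := by
      rw [Finset.mul_sum]
      refine Finset.sum_congr rfl fun z hz => ?_
      rw [hd' z hz]; ring
    rw [h2] at h1
    rcases mul_eq_zero.1 h1 with h3 | h3
    · exact absurd h3 hc0
    · exact h3
  refine H d' hodd' hrel' ?_
  by_contra hcon
  push Not at hcon
  have h1 : (r : ℤ) ∣ Finset.univ.gcd d' := Finset.dvd_gcd fun z _ => hcon z
  rw [hgcd] at h1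
  have h2 : (r : ℤ) ≤ 1 := Int.le_of_dvd one_pos h1
  have h3 := hr.two_le
  omega

end General

section Weil

variable {p n : ℕ} [hp : Fact p.Prime] {P : ℚ[X]}

lemma inv_inv' (hweil : ∀ z : ℂ, aeval z P = 0 → ‖z‖ ^ 2 = (p : ℝ) ^ n) (x : Rt P) :
    inv hweil (inv hweil x) = x := by
  have hN0 : (p : P.SplittingField) ^ n ≠ 0 := pow_ne_zero _ (by exact_mod_cast hp.out.ne_zero)
  apply Subtype.ext
  show (p : P.SplittingField) ^ n / ((p : P.SplittingField) ^ n / x.1) = x.1
  rw [div_div_cancel₀ hN0]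

lemma inv_smul' (hweil : ∀ z : ℂ, aeval z P = 0 → ‖z‖ ^ 2 = (p : ℝ) ^ n)
    (g : P.SplittingField ≃ₐ[ℚ] P.SplittingField) (x : Rt P) :
    inv hweil (g • x) = g • inv hweil x := by
  apply Subtype.ext
  show (p : P.SplittingField) ^ n / g x.1 = g ((p : P.SplittingField) ^ n / x.1)
  rw [map_div₀, map_pow, map_natCast]

lemma slope_inv (hn : 0 < n) (hweil : ∀ z : ℂ, aeval z P = 0 → ‖z‖ ^ 2 = (p : ℝ) ^ n)
    (jp : P.SplittingField →ₐ[ℚ] PadicAlgCl p) (x : Rt P) :
    2 * slope p n (jp (inv hweil x).1) - 1 = -(2 * slope p n (jp x.1) - 1) := by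
  have hNp : (p : PadicAlgCl p) ^ n ≠ 0 := pow_ne_zero _ (by exact_mod_cast hp.out.ne_zero)
  have hjpι : jp (inv hweil x).1 = (p : PadicAlgCl p) ^ n / jp x.1 := by
    show jp ((p : P.SplittingField) ^ n / x.1) = _
    rw [map_div₀, map_pow, map_natCast]
  have hx0 : jp x.1 ≠ 0 := by
    rw [Ne, map_eq_zero]; exact root_ne_zero hweil x.2
  have hy0 : (p : PadicAlgCl p) ^ n / jp x.1 ≠ 0 := div_ne_zero hNp hx0
  have h1 : slope p n ((p : PadicAlgCl p) ^ n / jp x.1) + slope p n (jp x.1) = 1 := by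
    rw [← slope_mul hy0 hx0, div_mul_cancel₀ _ hx0, slope_N hn]
  rw [hjpι]
  linear_combination 2 * h1

end Weil

/-- **Imaginary quadratic case.** -/
theorem onlyTrivial_quad {p n r a : ℕ} [hp : Fact p.Prime] (hn : 0 < n) (hr : r.Prime)
    (hr2 : r ≠ 2) {P : ℚ[X]} (hP : Irreducible P) (hdeg : P.natDegree = 2 * r ^ a)
    (hweil : ∀ z : ℂ, aeval z P = 0 → ‖z‖ ^ 2 = (p : ℝ) ^ n)
    (A B : ℚ[X]) (d : ℚ) (hd : 0 < d) (hAB : P = A ^ 2 + C d * B ^ 2)
    (δ : PadicAlgCl p) (hδ : δ ^ 2 = -(d : PadicAlgCl p))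
    (D : ℤ) (u : PadicAlgCl p → ℤ)
    (hu : ∀ y : PadicAlgCl p, aeval y P = 0 → (u y : ℝ) = D * (2 * slope p n y - 1))
    (Φ₀ : Finset (PadicAlgCl p)) (hΦ₀ : ∀ y, y ∈ Φ₀ ↔ aeval y A + δ * aeval y B = 0)
    (hcond : ¬ (r : ℤ) ∣ ∑ y ∈ Φ₀, u y) : OnlyTrivial hweil := by
  classical
  have hrF : Fact r.Prime := ⟨hr⟩
  intro jp m hrelR
  let L := P.SplittingField
  -- the integral relation
  have hrootp : ∀ x : Rt P, aeval (jp x.1) P = 0 := fun x => by
    rw [aeval_algHom_apply, rt_root, map_zero]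
  have hrel : IsRel (L ≃ₐ[ℚ] L) (fun x : Rt P => u (jp x.1)) m := by
    intro g
    have h1 : ((∑ x : Rt P, m x * u (jp (g • x).1) : ℤ) : ℝ) = 0 := by
      push_cast
      have h2 : ∀ x : Rt P, (m x : ℝ) * (u (jp (g • x).1) : ℝ) =
          D * ((m x : ℝ) * (2 * slope p n (jp (g • x).1) - 1)) := by
        intro x
        rw [hu _ (hrootp (g • x))]
        ring
      rw [Finset.sum_congr rfl (fun x _ => h2 x), ← Finset.mul_sum, hrelR g, mul_zero]
    exact_mod_cast h1
  have hodd : ∀ x : Rt P, u (jp (inv hweil x).1) = - u (jp x.1) := by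
    intro x
    have h2 := hu _ (hrootp (inv hweil x))
    have h3 := hu _ (hrootp x)
    have h4 : ((u (jp (inv hweil x).1) : ℤ) : ℝ) = ((- u (jp x.1) : ℤ) : ℝ) := by
      rw [h2]
      push_cast
      rw [h3, slope_inv hn hweil jp x]
      ring
    exact_mod_cast h4
  have hvalL : ∀ z : L, aeval z P = (aeval z A) ^ 2 + (d : L) * (aeval z B) ^ 2 := by
    intro z
    have h := congrArg (fun Q => aeval z Q) hAB
    have h3 : (algebraMap ℚ L) d = (d : L) := eq_ratCast _ _
    simp only [map_add, map_mul, map_pow, aeval_C, h3] at h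
    exact h
  -- `B` does not vanish at a root
  have hBne : ∀ x : Rt P, aeval x.1 B ≠ 0 := by
    intro x hB
    have hA : aeval x.1 A = 0 := by
      have h1 := rt_root x
      rw [hvalL, hB] at h1
      simpa using h1
    have hPA : P ∣ A := by
      have h2 := minpoly.dvd ℚ x.1 hA
      rw [← minpoly.eq_of_irreducible hP (rt_root x)] at h2
      exact dvd_of_mul_right_dvd h2
    have hPB : P ∣ B := by
      have h2 := minpoly.dvd ℚ x.1 hB
      rw [← minpoly.eq_of_irreducible hP (rt_root x)] at h2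
      exact dvd_of_mul_right_dvd h2
    have h3 : P ^ 2 ∣ P := by
      conv_rhs => rw [hAB]
      exact dvd_add (pow_dvd_pow_of_dvd hPA 2) (Dvd.dvd.mul_left (pow_dvd_pow_of_dvd hPB 2) _)
    have h4 := natDegree_le_of_dvd h3 hP.ne_zero
    rw [natDegree_pow, hdeg] at h4
    have h5 : 0 < r ^ a := pow_pos hr.pos a
    omega
  obtain ⟨x₁⟩ : Nonempty (Rt P) := by
    rw [← Fintype.card_pos_iff, card_rt hP, hdeg]
    have h5 : 0 < r ^ a := pow_pos hr.pos a
    omega
  -- the square root of `-d` in the splitting field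
  obtain ⟨δL, hδL, hjδ⟩ : ∃ δL : L, δL ^ 2 = -(d : L) ∧ jp δL = δ := by
    have h1 : (aeval x₁.1 A) ^ 2 + (d : L) * (aeval x₁.1 B) ^ 2 = 0 := by
      have h2 := rt_root x₁
      rw [hvalL] at h2
      exact h2
    have h2 : (-(aeval x₁.1 A) / aeval x₁.1 B : L) ^ 2 = -(d : L) := by
      have hb := hBne x₁
      rw [div_pow, div_eq_iff (pow_ne_zero 2 hb)]
      linear_combination h1
    have h3 : (jp (-(aeval x₁.1 A) / aeval x₁.1 B)) ^ 2 = δ ^ 2 := by
      rw [← map_pow, h2, hδ, map_neg, map_ratCast]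
    rcases sq_eq_sq_iff_eq_or_eq_neg.1 h3 with h4 | h4
    · exact ⟨_, h2, h4⟩
    · refine ⟨-(-(aeval x₁.1 A) / aeval x₁.1 B), ?_, ?_⟩
      · rw [neg_sq]; exact h2
      · rw [map_neg, h4, neg_neg]
  have hδL0 : δL ≠ 0 := by
    intro h0
    rw [h0] at hδL
    have h1 : (d : L) = 0 := by
      have h2 : (0 : L) ^ 2 = 0 := by norm_num
      rw [h2] at hδL
      exact neg_eq_zero.1 hδL.symm
    exact hd.ne' (by exact_mod_cast h1)
  let χ : Rt P → Prop := fun x => aeval x.1 A + δL * aeval x.1 B = 0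
  have hχ' : ∀ x, ¬ χ x → aeval x.1 A - δL * aeval x.1 B = 0 := by
    intro x hx
    have h2 := rt_root x
    rw [hvalL] at h2
    have h4 : (aeval x.1 A + δL * aeval x.1 B) * (aeval x.1 A - δL * aeval x.1 B) = 0 := by
      linear_combination h2 - (aeval x.1 B) ^ 2 * hδL
    rcases mul_eq_zero.1 h4 with h5 | h5
    · exact absurd h5 hx
    · exact h5
  have hχneg : ∀ x, aeval x.1 A - δL * aeval x.1 B = 0 → ¬ χ x := by
    intro x h1 h2
    have h3 : (2 : L) * (δL * aeval x.1 B) = 0 := by
      have h2' : aeval x.1 A + δL * aeval x.1 B = 0 := h2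
      linear_combination h2' - h1
    rcases mul_eq_zero.1 h3 with h4 | h4
    · norm_num at h4
    · rcases mul_eq_zero.1 h4 with h5 | h5
      · exact hδL0 h5
      · exact hBne x h5
  -- the involution exchanges the two factors
  have hιχ : ∀ x, χ (inv hweil x) ↔ ¬ χ x := by
    have key1 : ∀ (x : Rt P) (e : L), e ^ 2 = -(d : L) → aeval x.1 A + e * aeval x.1 B = 0 →
        aeval (inv hweil x).1 A - e * aeval (inv hweil x).1 B = 0 := by
      intro x e he hx
      let jC : L →ₐ[ℚ] ℂ := IsAlgClosed.lift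
      have h1 : aeval (jC x.1) A + jC e * aeval (jC x.1) B = 0 := by
        rw [aeval_algHom_apply, aeval_algHom_apply, ← map_mul, ← map_add, hx, map_zero]
      have h2 : (starRingEnd ℂ) (jC x.1) = jC (inv hweil x).1 := by
        have h4 := hweil (jC x.1) (by rw [aeval_algHom_apply, rt_root, map_zero])
        have h5 : jC x.1 ≠ 0 := by
          rw [Ne, map_eq_zero]; exact root_ne_zero hweil x.2
        show _ = jC ((p : L) ^ n / x.1)
        rw [map_div₀, map_pow, map_natCast, eq_div_iff h5, mul_comm, Complex.mul_conj,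
          Complex.normSq_eq_norm_sq, h4]
        push_cast
        rfl
      have h3 : (starRingEnd ℂ) (jC e) = - jC e := by
        have h4 : (jC e) ^ 2 = -((d : ℝ) : ℂ) := by
          rw [← map_pow, he, map_neg, map_ratCast]
          push_cast
          rfl
        -- the square is a negative real, so the number is purely imaginary
        have hre : (jC e).re = 0 := by
          have h5 := congrArg Complex.im h4
          have h6 := congrArg Complex.re h4
          simp only [pow_two, Complex.mul_im, Complex.mul_re, Complex.neg_im, Complex.neg_re,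
            Complex.ofReal_im, Complex.ofReal_re, neg_zero] at h5 h6
          have h7 : (jC e).re * (jC e).im = 0 := by linarith
          rcases mul_eq_zero.1 h7 with h8 | h8
          · exact h8
          · rw [h8] at h6
            have h9 : (0 : ℝ) < (d : ℝ) := by exact_mod_cast hd
            nlinarith [sq_nonneg (jC e).re]
        apply Complex.ext
        · rw [Complex.conj_re, Complex.neg_re, hre, neg_zero]
        · rw [Complex.conj_im, Complex.neg_im]
      have hc : ∀ (Q : ℚ[X]) (z : ℂ), (starRingEnd ℂ) (aeval z Q) = aeval ((starRingEnd ℂ) z) Q := by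
        intro Q z
        rw [aeval_def, hom_eval₂, aeval_def]
        congr 1
        exact (RingHom.ext fun q => by simp)
      have h4 := congrArg (starRingEnd ℂ) h1
      rw [map_add, map_mul, map_zero, hc, hc, h2, h3, aeval_algHom_apply, aeval_algHom_apply,
        ← map_neg, ← map_mul, ← map_add] at h4
      have h5 := (map_eq_zero jC).1 h4
      linear_combination h5
    intro x
    constructor
    · intro h1 h2
      have h3 := key1 x δL hδL h2
      exact hχneg _ h3 h1
    · intro h1
      have h2 := hχ' x h1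
      have h3 := key1 x (-δL) (by rw [neg_sq]; exact hδL) (by linear_combination h2)
      show aeval (inv hweil x).1 A + δL * aeval (inv hweil x).1 B = 0
      linear_combination h3
  -- sum over the factor
  have hinjp : Function.Injective (fun x : Rt P => jp x.1) :=
    fun x y hxy => Subtype.ext (jp.toRingHom.injective hxy)
  have hsum : ∑ x ∈ Finset.univ.filter χ, u (jp x.1) = ∑ y ∈ Φ₀, u y := by
    rw [← Finset.sum_image (s := Finset.univ.filter χ) (g := fun x : Rt P => jp x.1)
      (f := u) (fun x _ y _ hxy => hinjp hxy)]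
    apply Finset.sum_congr _ (fun _ _ => rfl)
    ext y
    rw [hΦ₀]
    constructor
    · intro hy
      obtain ⟨x, hx, rfl⟩ := Finset.mem_image.1 hy
      have hx' : aeval x.1 A + δL * aeval x.1 B = 0 := (Finset.mem_filter.1 hx).2
      rw [aeval_algHom_apply, aeval_algHom_apply, ← hjδ, ← map_mul, ← map_add, hx', map_zero]
    · intro hy
      have hPy : aeval y P = 0 := by
        rw [hAB, map_add, map_mul, map_pow, map_pow, aeval_C]
        have h3 : (algebraMap ℚ (PadicAlgCl p)) d = (d : PadicAlgCl p) := eq_ratCast _ _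
        rw [h3]
        linear_combination (aeval y A - δ * aeval y B) * hy + (aeval y B) ^ 2 * hδ
      have h1 := (SplittingField.splits P).image_rootSet jp
      have h2 : y ∈ P.rootSet (PadicAlgCl p) := mem_rootSet.2 ⟨hP.ne_zero, hPy⟩
      rw [← h1] at h2
      obtain ⟨z, hz, hzy⟩ := h2
      have hzy' : jp z = y := hzy
      refine Finset.mem_image.2 ⟨⟨z, hz⟩, ?_, hzy⟩
      refine Finset.mem_filter.2 ⟨Finset.mem_univ _, ?_⟩
      show aeval z A + δL * aeval z B = 0
      rw [← hzy', aeval_algHom_apply, aeval_algHom_apply, ← hjδ, ← map_mul, ← map_add] at hy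
      exact (map_eq_zero jp).1 hy
  have htrans := pretransitive hP
  have hTR := rel_trivial_of (G := L ≃ₐ[ℚ] L) (r := r) (inv_inv' hweil) (inv_smul' hweil)
    (fun x : Rt P => u (jp x.1)) hodd ?_ m hrel
  · exact hTR
  intro m' hm'1 hm'2 hm'3
  refine no_primitive_rel_odd (G := L ≃ₐ[ℚ] L) (a := a) hr2 (by rw [card_rt hP, hdeg])
    (inv_inv' hweil) (inv_smul' hweil) (fun x : Rt P => u (jp x.1)) hodd ?_ m' hm'1 hm'2 hm'3
  intro S x₀ Φ hΦ hΦorb
  -- elements of an odd order group fix `δL`
  have hfixδ : ∀ σ : S, (σ : L ≃ₐ[ℚ] L) δL = δL := by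
    intro σ
    have h1 : ((σ : L ≃ₐ[ℚ] L) δL) ^ 2 = δL ^ 2 := by
      rw [← map_pow, hδL, map_neg, map_ratCast]
    rcases sq_eq_sq_iff_eq_or_eq_neg.1 h1 with h2 | h2
    · exact h2
    · exfalso
      obtain ⟨k, hk⟩ := S.isPGroup' σ
      have h3 : ∀ N : ℕ, ((σ : L ≃ₐ[ℚ] L) ^ N) δL = (-1) ^ N * δL := by
        intro N
        induction N with
        | zero => simp
        | succ N ih =>
          rw [pow_succ', AlgEquiv.mul_apply, ih, map_mul, map_pow, map_neg, map_one, h2, pow_succ]
          ring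
      have h4 : ((σ : L ≃ₐ[ℚ] L) ^ (r ^ k)) = 1 := by
        have := congrArg (fun z : S => (z : L ≃ₐ[ℚ] L)) hk
        simpa using this
      have h5 := h3 (r ^ k)
      have hoddr : Odd (r ^ k) := (hr.odd_of_ne_two hr2).pow
      rw [h4, hoddr.neg_one_pow, AlgEquiv.one_apply] at h5
      have h6 : (2 : L) * δL = 0 := by linear_combination h5
      rcases mul_eq_zero.1 h6 with h7 | h7
      · norm_num at h7
      · exact hδL0 h7
  have hχS : ∀ (σ : S) (x : Rt P), χ x → χ ((σ : L ≃ₐ[ℚ] L) • x) := by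
    intro σ x hx
    show aeval ((σ : L ≃ₐ[ℚ] L) x.1) A + δL * aeval ((σ : L ≃ₐ[ℚ] L) x.1) B = 0
    have h1 : ∀ Q : ℚ[X], aeval ((σ : L ≃ₐ[ℚ] L) x.1) Q = (σ : L ≃ₐ[ℚ] L) (aeval x.1 Q) := by
      intro Q
      exact aeval_algHom_apply (σ : L ≃ₐ[ℚ] L).toAlgHom x.1 Q
    rw [h1, h1]
    conv_lhs => rw [← hfixδ σ]
    rw [← map_mul, ← map_add]
    have hx' : aeval x.1 A + δL * aeval x.1 B = 0 := hx
    rw [hx', map_zero]
  have horbχ : ∀ x, x ∈ Φ → (χ x ↔ χ x₀) := by
    intro x hx
    obtain ⟨σ, rfl⟩ := (hΦorb x).1 hx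
    constructor
    · intro h
      have h1 := hχS σ⁻¹ _ h
      have h2 : ((σ⁻¹ : S) : L ≃ₐ[ℚ] L) • (σ • x₀) = x₀ := by
        show (σ⁻¹ : S) • (σ • x₀) = x₀
        rw [inv_smul_smul]
      rwa [h2] at h1
    · intro h
      exact hχS σ x₀ h
  by_cases h0 : χ x₀
  · -- `Φ` is the set of roots of the first factor
    have hΦeq : Φ = Finset.univ.filter χ := by
      ext x
      simp only [Finset.mem_filter, Finset.mem_univ, true_and]
      constructor
      · intro hx
        exact (horbχ x hx).2 h0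
      · intro hx
        by_contra hc
        have h1 : inv hweil x ∈ Φ := by
          by_contra hc2
          exact hc ((hΦ x).2 hc2)
        exact ((hιχ x).1 ((horbχ _ h1).2 h0)) hx
    rw [hΦeq, hsum]
    exact hcond
  · have hΦeq : Φ = Finset.univ.filter (fun x => ¬ χ x) := by
      ext x
      simp only [Finset.mem_filter, Finset.mem_univ, true_and]
      constructor
      · intro hx
        intro h
        exact h0 ((horbχ x hx).1 h)
      · intro hx
        by_contra hc
        have h1 : inv hweil x ∈ Φ := by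
          by_contra hc2
          exact hc ((hΦ x).2 hc2)
        exact h0 ((horbχ _ h1).1 ((hιχ x).2 hx))
    rw [hΦeq]
    have h2 : ∑ x ∈ Finset.univ.filter (fun x => ¬ χ x), u (jp x.1) =
        - ∑ x ∈ Finset.univ.filter χ, u (jp x.1) := by
      rw [← Finset.sum_neg_distrib]
      refine Finset.sum_nbij' (inv hweil) (inv hweil) ?_ ?_ ?_ ?_ ?_
      · intro x hx
        exact Finset.mem_filter.2 ⟨Finset.mem_univ _, (hιχ x).2 (Finset.mem_filter.1 hx).2⟩
      · intro x hx
        refine Finset.mem_filter.2 ⟨Finset.mem_univ _, ?_⟩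
        intro h
        exact ((hιχ x).1 h) (Finset.mem_filter.1 hx).2
      · intro x _; exact inv_inv' hweil x
      · intro x _; exact inv_inv' hweil x
      · intro x _
        show u (jp x.1) = - u (jp (inv hweil x).1)
        rw [hodd, neg_neg]
    rw [h2, hsum, dvd_neg]
    exact hcond

end Pool.Agent.H93Tate
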