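import Pool.Agent.H93Tate.Defs

/-! Fields of powers of roots and the criterion in degree twice a prime. -/

namespace Pool.Agent.H93Tate

open Polynomial

/-- The field generated by the `N`-th powers of the complex roots of `P`. -/
noncomputable def powField (N : ℕ) (P : ℚ[X]) : IntermediateField ℚ ℂ :=
  IntermediateField.adjoin ℚ {z | ∃ x : ℂ, aeval x P = 0 ∧ z = x ^ N}

/-- `P` has degree `2 r` with `r` prime, different complex roots have different `N`-th powers for
all `N ≥ 1`, and `r = 2` or no set of roots containing exactly one of `y`, `q / y` for each root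
`y` has slopes with sum `r / 2`. -/
def PrimeCond (p n : ℕ) [Fact p.Prime] (P : ℚ[X]) : Prop :=
  ∃ r : ℕ, r.Prime ∧ P.natDegree = 2 * r ∧
    (∀ x y : ℂ, aeval x P = 0 → aeval y P = 0 → ∀ N : ℕ, 0 < N → x ^ N = y ^ N → x = y) ∧
    (r = 2 ∨ ∀ Φ : Finset (PadicAlgCl p), (∀ y ∈ Φ, aeval y P = 0) →
      (∀ y, aeval y P = 0 → (y ∈ Φ ↔ (p : PadicAlgCl p) ^ n / y ∉ Φ)) →
      ∑ y ∈ Φ, slope p n y ≠ r / 2)

end Pool.Agent.H93Tate
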