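import Pool.Agent.H93Tate.FftSq
import Pool.Agent.H93Tate.CondDefs

/-!
# Weil polynomials of degree twice a prime

Let `P` be irreducible of degree `2 r` with `r` prime, such that no two different roots have a root
of unity as their quotient. If `r` is odd, an element of order `r` of the Galois group moves a root
`x` through a half system `x_0, …, x_(r-1)`, and the relations between the `x_i ^ 2 / q` form a
module over `ℤ[X] / (X ^ r - 1)`. Either it contains a multiple of `X - 1`, so that `x_1 / x_0` is a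
root of unity, or it consists of the multiples of `1 + X + ⋯ + X ^ (r-1)`, and the slopes of the
`x_i` have sum `r / 2`, or it is zero and `P` has maximal angle rank.
-/

set_option linter.unusedSectionVars false

namespace Pool.Agent.H93Tate

open Polynomial Pool.Agent.H91.Mono

section Poly

variable {L : Type*} [Field L]

/-- The automorphism on the multiplicative group. -/
noncomputable def mulAct (σ : L ≃+* L) : Module.End ℤ (Additive Lˣ) :=
  (MonoidHom.toAdditive (Units.map (σ : L →* L))).toIntLinearMap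

/-- The action of polynomials on the multiplicative group. -/
noncomputable def polyAct (σ : L ≃+* L) : ℤ[X] →ₐ[ℤ] Module.End ℤ (Additive Lˣ) :=
  Polynomial.aeval (R := ℤ) (mulAct σ)

lemma mulAct_pow (σ : L ≃+* L) (i : ℕ) (y : Additive Lˣ) :
    ((((mulAct σ) ^ i) y).toMul : L) = (σ ^ i) (y.toMul : L) := by
  induction i with
  | zero => simp
  | succ i ih =>
    rw [pow_succ', pow_succ', Module.End.mul_apply, RingAut.mul_apply, ← ih]
    rfl

lemma polyAct_X_pow (σ : L ≃+* L) (i : ℕ) (y : Additive Lˣ) :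
    ((polyAct σ (X ^ i) y).toMul : L) = (σ ^ i) (y.toMul : L) := by
  have h0 : polyAct σ (X ^ i) = (mulAct σ) ^ i := by
    unfold polyAct
    rw [map_pow, aeval_X]
  rw [h0, mulAct_pow]

lemma polyAct_sum (σ : L ≃+* L) (s : Finset ℕ) (u : ℕ → ℤ) (y : Additive Lˣ) :
    ((polyAct σ (∑ i ∈ s, C (u i) * X ^ i) y).toMul : L) =
      ∏ i ∈ s, ((σ ^ i) (y.toMul : L)) ^ (u i) := by
  classical
  induction s using Finset.induction_on with
  | empty => simp
  | insert a s ha ih =>
    rw [Finset.sum_insert ha, Finset.prod_insert ha, map_add, LinearMap.add_apply, toMul_add,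
      Units.val_mul, ih]
    congr 1
    rw [← polyAct_X_pow, C_mul', map_zsmul, LinearMap.smul_apply, toMul_zsmul,
      Units.val_zpow_eq_zpow_val]

lemma rat_num {f : ℚ[X]} : ∃ (c : ℤ) (F : ℤ[X]), c ≠ 0 ∧
    F.map (Int.castRingHom ℚ) = C (c : ℚ) * f := by
  obtain ⟨b, hb, hbf⟩ := IsLocalization.integerNormalization_spec (nonZeroDivisors ℤ) f
  refine ⟨b, IsLocalization.integerNormalization (nonZeroDivisors ℤ) f,
    nonZeroDivisors.ne_zero hb, ?_⟩
  have h1 : (Int.castRingHom ℚ) = algebraMap ℤ ℚ := rfl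
  rw [h1, hbf, ← Int.cast_smul_eq_zsmul ℚ, smul_eq_C_mul]

/-- Either the coefficients of `f` are equal, or a multiple of `X - 1` is a combination of `f` and
`X ^ r - 1`. -/
lemma prime_poly {r : ℕ} (hr : r.Prime) (u : ℕ → ℤ) :
    (∀ i < r, u i = u 0) ∨ ∃ (c : ℤ) (A B : ℤ[X]), c ≠ 0 ∧
      A * (∑ i ∈ Finset.range r, C (u i) * X ^ i) + B * (X ^ r - 1) = C c * (X - 1) := by
  classical
  have : Fact r.Prime := ⟨hr⟩
  set f : ℤ[X] := ∑ i ∈ Finset.range r, C (u i) * X ^ i with hf
  set fQ : ℚ[X] := f.map (Int.castRingHom ℚ) with hfQ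
  have hcyc : Irreducible (cyclotomic r ℚ) := cyclotomic.irreducible_rat hr.pos
  have hmul : cyclotomic r ℚ * (X - 1) = X ^ r - 1 := cyclotomic_prime_mul_X_sub_one ℚ r
  have hcoeff : ∀ i < r, f.coeff i = u i := by
    intro i hi
    rw [hf, finsetSum_coeff, Finset.sum_eq_single i]
    · rw [coeff_C_mul, coeff_X_pow_self, mul_one]
    · intro j _ hj
      rw [coeff_C_mul, coeff_X_pow, if_neg (Ne.symm hj), mul_zero]
    · intro h
      exact absurd (Finset.mem_range.2 hi) h
  by_cases hdvd : cyclotomic r ℚ ∣ fQ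
  · left
    obtain ⟨g, hg⟩ := hdvd
    have hdeg : fQ.natDegree < r := by
      refine lt_of_le_of_lt (natDegree_map_le) ?_
      rw [hf]
      refine lt_of_le_of_lt (natDegree_sum_le_of_forall_le (n := r - 1) _ _ ?_) ?_
      · intro i hi
        refine (natDegree_C_mul_X_pow_le _ _).trans ?_
        have := Finset.mem_range.1 hi
        omega
      · have := hr.pos
        omega
    have hg0 : g.natDegree = 0 := by
      by_cases h0 : g = 0
      · rw [h0, natDegree_zero]
      · rw [hg, natDegree_mul hcyc.ne_zero h0, natDegree_cyclotomic, Nat.totient_prime hr] at hdeg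
        omega
    obtain ⟨c, hc⟩ : ∃ c, g = C c := ⟨_, eq_C_of_natDegree_eq_zero hg0⟩
    have h1 : ∀ i < r, ((u i : ℤ) : ℚ) = c := by
      intro i hi
      have h2 : fQ.coeff i = c := by
        rw [hg, hc, mul_comm, coeff_C_mul, cyclotomic_prime, finsetSum_coeff,
          Finset.sum_eq_single i, coeff_X_pow_self, mul_one]
        · intro j _ hj
          rw [coeff_X_pow, if_neg (Ne.symm hj)]
        · intro h
          exact absurd (Finset.mem_range.2 hi) h
      rw [hfQ, coeff_map, hcoeff i hi] at h2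
      exact h2
    intro i hi
    have := (h1 i hi).trans (h1 0 hr.pos).symm
    exact_mod_cast this
  · right
    obtain ⟨a, b, hab⟩ := (hcyc.coprime_iff_not_dvd).2 hdvd
    obtain ⟨c1, F1, hc1, hF1⟩ := rat_num (f := a)
    obtain ⟨c2, F2, hc2, hF2⟩ := rat_num (f := b * (X - 1))
    refine ⟨c1 * c2, C c1 * F2, C c2 * F1, mul_ne_zero hc1 hc2, ?_⟩
    apply Polynomial.map_injective (Int.castRingHom ℚ) (Int.cast_injective)
    have e1 : (X ^ r - 1 : ℤ[X]).map (Int.castRingHom ℚ) = cyclotomic r ℚ * (X - 1) := by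
      rw [hmul]
      simp
    rw [Polynomial.map_add, Polynomial.map_mul, Polynomial.map_mul, Polynomial.map_mul,
      Polynomial.map_mul, hF1, hF2, e1, ← hfQ]
    have e2 : (C c1 : ℤ[X]).map (Int.castRingHom ℚ) = C (c1 : ℚ) := by
      rw [Polynomial.map_C, eq_intCast]
    have e3 : (C c2 : ℤ[X]).map (Int.castRingHom ℚ) = C (c2 : ℚ) := by
      rw [Polynomial.map_C, eq_intCast]
    rw [Polynomial.map_mul, Polynomial.map_sub, Polynomial.map_X, Polynomial.map_one, C_mul,
      Polynomial.map_mul, e2, e3]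
    linear_combination (C (c1 : ℚ) * C (c2 : ℚ) * (X - 1)) * hab

end Poly

section Half

variable {p n : ℕ} [hp : Fact p.Prime] {P : ℚ[X]}
  (hweil : ∀ z : ℂ, aeval z P = 0 → ‖z‖ ^ 2 = (p : ℝ) ^ n)

/-- The product over all roots as a product over a half system. -/
lemma prod_half (S : Finset (Rt P)) (hS : ∀ x, x ∈ S ↔ inv hweil x ∉ S) (u : Rt P → ℤ)
    (hu : ∀ x, u (inv hweil x) = - u x) :
    ∏ x : Rt P, x.1 ^ u x = ∏ x ∈ S, (x.1 ^ 2 / (p : P.SplittingField) ^ n) ^ u x := by
  classical
  have hne : ∀ x : Rt P, x.1 ≠ 0 := fun x => root_ne_zero hweil x.2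
  have hN0 : (p : P.SplittingField) ^ n ≠ 0 := pow_ne_zero _ (by exact_mod_cast hp.out.ne_zero)
  rw [← Finset.prod_mul_prod_compl S]
  have h1 : ∏ x ∈ Sᶜ, x.1 ^ u x = ∏ x ∈ S, (inv hweil x).1 ^ (- u x) := by
    refine Finset.prod_bij' (fun x _ => inv hweil x) (fun x _ => inv hweil x) ?_ ?_ ?_ ?_ ?_
    · intro x hx
      by_contra h
      exact (Finset.mem_compl.1 hx) ((hS x).2 h)
    · intro x hx
      exact Finset.mem_compl.2 ((hS x).1 hx)
    · intro x _
      exact inv_inv' hweil x
    · intro x _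
      exact inv_inv' hweil x
    · intro x _
      rw [inv_inv', hu, neg_neg]
  rw [h1, ← Finset.prod_mul_distrib]
  refine Finset.prod_congr rfl fun x _ => ?_
  have h2 : (inv hweil x).1 = (p : P.SplittingField) ^ n / x.1 := rfl
  rw [h2, div_zpow, div_zpow, zpow_neg, zpow_neg, ← zpow_natCast (x.1) 2, ← zpow_mul,
    mul_comm ((2 : ℕ) : ℤ), zpow_mul]
  have h3 : (x.1 ^ u x) ≠ 0 := zpow_ne_zero _ (hne x)
  have h4 : ((p : P.SplittingField) ^ n) ^ u x ≠ 0 := zpow_ne_zero _ hN0
  rw [zpow_natCast]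
  field_simp

/-- The relation satisfied by the differences of the multiplicities. -/
lemma rel_of_list (hn : 0 < n) (hP : Irreducible P) (jC : P.SplittingField →ₐ[ℚ] ℂ) {xs : List ℂ}
    {T : ℕ} (hxs : ∀ x ∈ xs, aeval x P = 0) (hprod : xs.prod = ((p : ℂ) ^ n) ^ T) :
    ∏ x : Rt P, x.1 ^ ((xs.count (jC x.1) : ℤ) - xs.count (jC (inv hweil x).1)) = 1 := by
  classical
  let m : Rt P → ℕ := fun x => xs.count (jC x.1)
  have hsurj : ∀ y : ℂ, aeval y P = 0 → ∃ x : Rt P, jC x.1 = y := by
    intro y hy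
    have h1 := (SplittingField.splits P).image_rootSet jC
    have h2 : y ∈ P.rootSet ℂ := mem_rootSet.2 ⟨hP.ne_zero, hy⟩
    rw [← h1] at h2
    obtain ⟨z, hz, hzy⟩ := h2
    exact ⟨⟨z, hz⟩, hzy⟩
  have hinj : Function.Injective (fun x : Rt P => jC x.1) :=
    fun x y hxy => Subtype.ext (jC.toRingHom.injective hxy)
  have hprod' : xs.prod = ∏ x : Rt P, (jC x.1) ^ (m x) := by
    rw [Finset.prod_list_count]
    symm
    rw [← Finset.prod_image (s := Finset.univ) (g := fun x : Rt P => jC x.1)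
      (f := fun y => y ^ xs.count y) (fun x _ y _ hxy => hinj hxy)]
    symm
    apply Finset.prod_subset
    · intro y hy
      rw [List.mem_toFinset] at hy
      obtain ⟨x, hx⟩ := hsurj y (hxs y hy)
      exact Finset.mem_image.2 ⟨x, Finset.mem_univ _, hx⟩
    · intro y _ hy
      rw [List.mem_toFinset] at hy
      rw [List.count_eq_zero_of_not_mem hy, pow_zero]
  have hrelL : (∏ x : Rt P, x.1 ^ (m x)) = ((p : P.SplittingField) ^ n) ^ T := by
    apply jC.toRingHom.injective
    show jC _ = jC _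
    rw [map_prod, map_pow, map_pow, map_natCast, ← hprod, hprod']
    simp only [map_pow]
  have hcard : ∑ x : Rt P, m x = 2 * T := by
    have h1 : ‖jC (∏ x : Rt P, x.1 ^ (m x))‖ ^ 2 = ((p : ℝ) ^ n) ^ (∑ x : Rt P, m x) := by
      rw [map_prod, norm_prod, ← Finset.prod_pow, ← Finset.prod_pow_eq_pow_sum]
      refine Finset.prod_congr rfl fun x _ => ?_
      rw [map_pow, norm_pow, ← pow_mul, mul_comm, pow_mul,
        hweil (jC x.1) (by rw [aeval_algHom_apply, rt_root, map_zero])]
    rw [hrelL, map_pow, map_pow, map_natCast, norm_pow, norm_pow, Complex.norm_natCast, ← pow_mul]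
      at h1
    have h2 := pow_right_injective₀ (lt_trans one_pos (one_lt_pow (p := p) hn))
      (one_lt_pow (p := p) hn).ne' h1
    omega
  have hne : ∀ x : Rt P, x.1 ≠ 0 := fun x => root_ne_zero hweil x.2
  have hN0 : (p : P.SplittingField) ^ n ≠ 0 := pow_ne_zero _ (by exact_mod_cast hp.out.ne_zero)
  have hbij : Function.Bijective (inv hweil) :=
    ⟨fun x y h => by rw [← inv_inv' hweil x, h, inv_inv' hweil y],
      fun x => ⟨inv hweil x, inv_inv' hweil x⟩⟩
  have h1 : ∏ x : Rt P, x.1 ^ (m (inv hweil x)) = ((p : P.SplittingField) ^ n) ^ T := by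
    have h2 : ∏ x : Rt P, x.1 ^ (m (inv hweil x)) = ∏ x : Rt P, (inv hweil x).1 ^ (m x) := by
      rw [← hbij.prod_comp (fun x : Rt P => (inv hweil x).1 ^ m x)]
      refine Finset.prod_congr rfl fun x _ => ?_
      rw [inv_inv']
    have h3 : (∏ x : Rt P, (inv hweil x).1 ^ (m x)) * (∏ x : Rt P, x.1 ^ (m x)) =
        ((p : P.SplittingField) ^ n) ^ (∑ x : Rt P, m x) := by
      rw [← Finset.prod_mul_distrib, ← Finset.prod_pow_eq_pow_sum]
      refine Finset.prod_congr rfl fun x _ => ?_
      rw [← mul_pow]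
      congr 1
      show (p : P.SplittingField) ^ n / x.1 * x.1 = _
      rw [div_mul_cancel₀ _ (hne x)]
    rw [hrelL, hcard, two_mul, pow_add] at h3
    rw [h2]
    exact mul_right_cancel₀ (pow_ne_zero _ hN0) h3
  have h2 : ∀ x : Rt P, x.1 ^ ((xs.count (jC x.1) : ℤ) - xs.count (jC (inv hweil x).1)) =
      x.1 ^ (m x) / x.1 ^ (m (inv hweil x)) := by
    intro x
    rw [zpow_sub₀ (hne x), zpow_natCast, zpow_natCast]
  rw [Finset.prod_congr rfl fun x _ => h2 x, Finset.prod_div_distrib, hrelL, h1,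
    div_self (pow_ne_zero _ hN0)]

/-- The translates of a relation. -/
lemma rel_smul {u : Rt P → ℤ} (h : ∏ x : Rt P, x.1 ^ u x = 1)
    (g : P.SplittingField ≃ₐ[ℚ] P.SplittingField) : ∏ x : Rt P, (g x.1) ^ u x = 1 := by
  have h1 := congrArg g h
  rw [map_prod, map_one] at h1
  rw [← h1]
  refine Finset.prod_congr rfl fun x _ => ?_
  rw [map_zpow₀]

/-- Different powers of different roots. -/
lemma pow_ne_of (jC : P.SplittingField →ₐ[ℚ] ℂ)
    (hgs : ∀ x y : ℂ, aeval x P = 0 → aeval y P = 0 → ∀ N : ℕ, 0 < N → x ^ N = y ^ N → x = y)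
    (x y : Rt P) {N : ℕ} (hN : 0 < N) (h : x.1 ^ N = y.1 ^ N) : x = y := by
  apply Subtype.ext
  apply jC.toRingHom.injective
  refine hgs _ _ ?_ ?_ N hN ?_
  · show aeval (jC x.1) P = 0
    rw [aeval_algHom_apply, rt_root, map_zero]
  · show aeval (jC y.1) P = 0
    rw [aeval_algHom_apply, rt_root, map_zero]
  · show (jC x.1) ^ N = (jC y.1) ^ N
    rw [← map_pow, h, map_pow]

include hweil in
/-- No power of `x ^ 2 / q` is one. -/
lemma zpow_sq_ne (hP : Irreducible P) (hdeg2 : 2 < P.natDegree)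
    (jC : P.SplittingField →ₐ[ℚ] ℂ)
    (hgs : ∀ x y : ℂ, aeval x P = 0 → aeval y P = 0 → ∀ N : ℕ, 0 < N → x ^ N = y ^ N → x = y)
    (x : Rt P) {c : ℤ} (h : (x.1 ^ 2 / (p : P.SplittingField) ^ n) ^ c = 1) : c = 0 := by
  by_contra hc
  have hne : x.1 ≠ 0 := root_ne_zero hweil x.2
  have hN0 : (p : P.SplittingField) ^ n ≠ 0 := pow_ne_zero _ (by exact_mod_cast hp.out.ne_zero)
  have h1 : (x.1 ^ 2 / (p : P.SplittingField) ^ n) ^ c.natAbs = 1 := by
    rcases Int.natAbs_eq c with h2 | h2
    · rw [h2] at h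
      rw [← zpow_natCast]
      exact h
    · rw [h2, zpow_neg, inv_eq_one] at h
      rw [← zpow_natCast]
      exact h
  have h2 : x.1 ^ c.natAbs = (inv hweil x).1 ^ c.natAbs := by
    show x.1 ^ c.natAbs = ((p : P.SplittingField) ^ n / x.1) ^ c.natAbs
    rw [div_pow, eq_div_iff (pow_ne_zero _ hne), ← mul_pow, ← pow_two]
    rw [div_pow, div_eq_one_iff_eq (pow_ne_zero _ hN0)] at h1
    exact h1
  have h3 := pow_ne_of jC hgs x (inv hweil x) (Int.natAbs_pos.2 hc) h2
  exact inv_ne hP hdeg2 hweil x.2 (congrArg Subtype.val h3).symm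

/-- Powers of `x ^ 2 / q` for different roots. -/
lemma zpow_sq_eq (jC : P.SplittingField →ₐ[ℚ] ℂ)
    (hgs : ∀ x y : ℂ, aeval x P = 0 → aeval y P = 0 → ∀ N : ℕ, 0 < N → x ^ N = y ^ N → x = y)
    (x y : Rt P) {c : ℤ} (hc : c ≠ 0) (h : (x.1 ^ 2 / (p : P.SplittingField) ^ n) ^ c =
      (y.1 ^ 2 / (p : P.SplittingField) ^ n) ^ c) : x = y := by
  have hN0 : (p : P.SplittingField) ^ n ≠ 0 := pow_ne_zero _ (by exact_mod_cast hp.out.ne_zero)
  have h1 : (x.1 ^ 2 / (p : P.SplittingField) ^ n) ^ c.natAbs =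
      (y.1 ^ 2 / (p : P.SplittingField) ^ n) ^ c.natAbs := by
    rcases Int.natAbs_eq c with h2 | h2
    · rw [h2, zpow_natCast, zpow_natCast] at h
      exact h
    · rw [h2, zpow_neg, zpow_neg, zpow_natCast, zpow_natCast] at h
      exact inv_injective h
  rw [div_pow, div_pow, div_left_inj' (pow_ne_zero _ hN0), ← pow_mul, ← pow_mul] at h1
  exact pow_ne_of jC hgs x y (Nat.mul_pos two_pos (Int.natAbs_pos.2 hc)) h1

/-- The Galois group has an element of order `r`, and it moves some root. -/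
lemma exists_order (hP : Irreducible P) {r : ℕ} (hr : r.Prime) (hdvd : r ∣ P.natDegree) :
    ∃ (g : P.SplittingField ≃ₐ[ℚ] P.SplittingField) (x : Rt P), g ^ r = 1 ∧ g • x ≠ x := by
  classical
  have : Fact r.Prime := ⟨hr⟩
  have htrans := pretransitive hP
  have hcard : Nat.card (Rt P) = P.natDegree := by
    rw [Nat.card_eq_fintype_card, card_rt hP]
  have hne : Nonempty (Rt P) := by
    rw [← Fintype.card_pos_iff, card_rt hP]
    exact hP.natDegree_pos
  obtain ⟨x0⟩ := hne
  have h1 : r ∣ Nat.card (P.SplittingField ≃ₐ[ℚ] P.SplittingField) := by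
    refine hdvd.trans ?_
    rw [← hcard, ← MulAction.index_stabilizer_of_transitive
      (P.SplittingField ≃ₐ[ℚ] P.SplittingField) x0]
    exact Subgroup.index_dvd_card _
  obtain ⟨g, hg⟩ := exists_prime_orderOf_dvd_card' r h1
  refine ⟨g, ?_⟩
  have hg1 : g ≠ 1 := by
    intro h
    rw [h, orderOf_one] at hg
    exact hr.one_lt.ne hg
  have h2 : ∃ x : Rt P, g • x ≠ x := by
    by_contra hcon
    push Not at hcon
    apply hg1
    have hs : IsSplittingField ℚ P.SplittingField P := splitting_any P _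
    have h3 := hs.adjoin_rootSet
    have h4 : (g : P.SplittingField →ₐ[ℚ] P.SplittingField) = AlgHom.id ℚ P.SplittingField := by
      apply AlgHom.ext_of_adjoin_eq_top h3
      intro z hz
      exact congrArg Subtype.val (hcon ⟨z, hz⟩)
    exact AlgEquiv.ext fun z => congrArg (fun φ => φ z) h4
  obtain ⟨x, hx⟩ := h2
  exact ⟨x, by rw [← hg]; exact pow_orderOf_eq_one g, hx⟩

include hweil in
/-- The case `r = 2`. -/
lemma quartic (hP : Irreducible P) (hdeg : P.natDegree = 4) (jC : P.SplittingField →ₐ[ℚ] ℂ)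
    (hgs : ∀ x y : ℂ, aeval x P = 0 → aeval y P = 0 → ∀ N : ℕ, 0 < N → x ^ N = y ^ N → x = y)
    (u : Rt P → ℤ) (hu : ∀ x, u (inv hweil x) = - u x) (hrel : ∏ x : Rt P, x.1 ^ u x = 1)
    (x : Rt P) : u x = 0 := by
  classical
  set Y : Rt P → P.SplittingField := fun x => x.1 ^ 2 / (p : P.SplittingField) ^ n with hY
  have hN0 : (p : P.SplittingField) ^ n ≠ 0 := pow_ne_zero _ (by exact_mod_cast hp.out.ne_zero)
  have hne : ∀ x : Rt P, x.1 ≠ 0 := fun x => root_ne_zero hweil x.2
  have hY0 : ∀ x, Y x ≠ 0 := fun x => div_ne_zero (pow_ne_zero _ (hne x)) hN0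
  have hinv : ∀ x, inv hweil x ≠ x := fun x hx =>
    inv_ne hP (by omega) hweil x.2 (congrArg Subtype.val hx)
  have hYinv : ∀ x, Y (inv hweil x) = (Y x)⁻¹ := by
    intro x
    show ((p : P.SplittingField) ^ n / x.1) ^ 2 / (p : P.SplittingField) ^ n = _
    rw [hY]
    have := hne x
    field_simp
  -- the second pair
  obtain ⟨x1, hx1⟩ : ∃ x1 : Rt P, x1 ∉ ({x, inv hweil x} : Finset (Rt P)) := by
    by_contra hcon
    push Not at hcon
    have h1 : Fintype.card (Rt P) ≤ ({x, inv hweil x} : Finset (Rt P)).card := by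
      rw [← Finset.card_univ]
      exact Finset.card_le_card fun y _ => hcon y
    have h2 := Finset.card_le_two (a := x) (b := inv hweil x)
    rw [card_rt hP, hdeg] at h1
    omega
  have hx1x : x1 ≠ x := fun h => hx1 (by rw [h]; simp)
  have hx1i : x1 ≠ inv hweil x := fun h => hx1 (by rw [h]; simp)
  have hix1 : inv hweil x1 ≠ x := fun h => hx1i (by rw [← h, inv_inv'])
  have hall : ∀ y : Rt P, y = x ∨ y = inv hweil x ∨ y = x1 ∨ y = inv hweil x1 := by
    have h1 : ({x, inv hweil x, x1, inv hweil x1} : Finset (Rt P)).card = 4 := by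
      rw [Finset.card_insert_of_notMem, Finset.card_insert_of_notMem, Finset.card_insert_of_notMem,
        Finset.card_singleton]
      · simpa using (hinv x1).symm
      · simp only [Finset.mem_insert, Finset.mem_singleton, not_or]
        refine ⟨hx1i.symm, fun h => hx1x ?_⟩
        rw [← inv_inv' hweil x, h, inv_inv']
      · simp only [Finset.mem_insert, Finset.mem_singleton, not_or]
        exact ⟨(hinv x).symm, hx1x.symm, hix1.symm⟩
    have h2 : ({x, inv hweil x, x1, inv hweil x1} : Finset (Rt P)) = Finset.univ := by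
      rw [← Finset.card_eq_iff_eq_univ, h1, card_rt hP, hdeg]
    intro y
    have h3 : y ∈ ({x, inv hweil x, x1, inv hweil x1} : Finset (Rt P)) := by
      rw [h2]
      exact Finset.mem_univ _
    simpa using h3
  have hS : ∀ y, y ∈ ({x, x1} : Finset (Rt P)) ↔ inv hweil y ∉ ({x, x1} : Finset (Rt P)) := by
    intro y
    have e1 := hinv x
    have e2 := hinv x1
    rcases hall y with rfl | rfl | rfl | rfl
    · simp [e1, hx1i.symm]
    · rw [inv_inv']
      simp [e1, hx1i.symm]
    · simp [e2, hix1]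
    · rw [inv_inv']
      simp [e2, hix1]
  have htrans := pretransitive hP
  obtain ⟨g, hg⟩ := MulAction.exists_smul_eq (P.SplittingField ≃ₐ[ℚ] P.SplittingField) x x1
  have hgY : ∀ y, g (Y y) = Y (g • y) := by
    intro y
    show g (y.1 ^ 2 / (p : P.SplittingField) ^ n) = (g y.1) ^ 2 / (p : P.SplittingField) ^ n
    rw [map_div₀, map_pow, map_pow, map_natCast]
  have hrel1 : Y x ^ u x * Y x1 ^ u x1 = 1 := by
    rw [← hrel, prod_half hweil {x, x1} hS u hu, Finset.prod_pair hx1x.symm]
  have hrel2 : Y x1 ^ u x * Y (g • x1) ^ u x1 = 1 := by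
    have h1 := congrArg g hrel1
    rw [map_mul, map_zpow₀, map_zpow₀, hgY, hgY, hg, map_one] at h1
    exact h1
  have hgx1 : g • x1 = x ∨ g • x1 = inv hweil x := by
    rcases hall (g • x1) with h | h | h | h
    · exact Or.inl h
    · exact Or.inr h
    · exfalso
      exact hx1x (smul_left_cancel g (h.trans hg.symm))
    · exfalso
      have h1 : g • x1 = g • inv hweil x := by rw [h, ← inv_smul', hg]
      exact hx1i (smul_left_cancel g h1)
  have hb0 : ∀ c : ℤ, Y x ^ c = 1 → c = 0 := fun c hc =>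
    zpow_sq_ne hweil hP (by omega) jC hgs x hc
  rcases hgx1 with h | h
  · rw [h] at hrel2
    have h1 : Y x ^ (u x * u x - u x1 * u x1) = 1 := by
      have h2 : (Y x ^ u x * Y x1 ^ u x1) ^ (u x) * ((Y x1 ^ u x * Y x ^ u x1) ^ (u x1))⁻¹ = 1 := by
        rw [hrel1, hrel2, one_zpow, one_zpow, inv_one, mul_one]
      rw [mul_zpow, mul_zpow, ← zpow_mul, ← zpow_mul, ← zpow_mul, ← zpow_mul] at h2
      rw [zpow_sub₀ (hY0 x), ← h2]
      have h3 := zpow_ne_zero (u x1 * u x) (hY0 x1)
      have h4 := zpow_ne_zero (u x1 * u x1) (hY0 x)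
      rw [mul_comm (u x) (u x1)]
      field_simp
    have h2 := hb0 _ h1
    have h3 : (u x - u x1) * (u x + u x1) = 0 := by linear_combination h2
    rcases mul_eq_zero.1 h3 with h4 | h4
    · by_contra hc
      have h5 : u x1 = u x := by linarith
      rw [h5] at hrel1
      apply hix1
      symm
      refine zpow_sq_eq (p := p) (n := n) jC hgs x (inv hweil x1) hc ?_
      show Y x ^ u x = Y (inv hweil x1) ^ u x
      rw [hYinv, inv_zpow, ← mul_eq_one_iff_eq_inv₀ (zpow_ne_zero _ (hY0 x1))]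
      exact hrel1
    · by_contra hc
      have h5 : u x1 = - u x := by linarith
      rw [h5] at hrel1
      apply hx1x
      symm
      refine zpow_sq_eq (p := p) (n := n) jC hgs x x1 hc ?_
      show Y x ^ u x = Y x1 ^ u x
      rw [zpow_neg, ← div_eq_mul_inv, div_eq_one_iff_eq (zpow_ne_zero _ (hY0 x1))] at hrel1
      exact hrel1
  · rw [h, hYinv] at hrel2
    have h1 : Y x ^ (u x * u x + u x1 * u x1) = 1 := by
      have h2 : (Y x ^ u x * Y x1 ^ u x1) ^ (u x) * ((Y x1 ^ u x * (Y x)⁻¹ ^ u x1) ^ (u x1))⁻¹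
          = 1 := by
        rw [hrel1, hrel2, one_zpow, one_zpow, inv_one, mul_one]
      rw [mul_zpow, mul_zpow, ← zpow_mul, ← zpow_mul, ← zpow_mul, ← zpow_mul, inv_zpow] at h2
      rw [zpow_add₀ (hY0 x), ← h2]
      have h3 := zpow_ne_zero (u x1 * u x) (hY0 x1)
      have h4 := zpow_ne_zero (u x1 * u x1) (hY0 x)
      rw [mul_comm (u x) (u x1)]
      field_simp
    have h2 := hb0 _ h1
    nlinarith [mul_self_nonneg (u x), mul_self_nonneg (u x1)]

include hweil in
/-- The case of an odd prime. -/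
lemma oddPrime (hn : 0 < n) (hP : Irreducible P) {r : ℕ} (hr : r.Prime) (hr2 : r ≠ 2)
    (hdeg : P.natDegree = 2 * r) (jC : P.SplittingField →ₐ[ℚ] ℂ)
    (jp : P.SplittingField →ₐ[ℚ] PadicAlgCl p)
    (hgs : ∀ x y : ℂ, aeval x P = 0 → aeval y P = 0 → ∀ N : ℕ, 0 < N → x ^ N = y ^ N → x = y)
    (hΦ : ∀ S : Finset (Rt P), (∀ x, x ∈ S ↔ inv hweil x ∉ S) →
      ∑ x ∈ S, (2 * slope p n (jp x.1) - 1) ≠ 0)
    (u : Rt P → ℤ) (hu : ∀ x, u (inv hweil x) = - u x) (hrel : ∏ x : Rt P, x.1 ^ u x = 1)
    (x : Rt P) : u x = 0 := by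
  classical
  have hdeg2 : 2 < P.natDegree := by
    have := hr.two_le
    omega
  set Y : Rt P → P.SplittingField := fun x => x.1 ^ 2 / (p : P.SplittingField) ^ n with hY
  have hN0 : (p : P.SplittingField) ^ n ≠ 0 := pow_ne_zero _ (by exact_mod_cast hp.out.ne_zero)
  have hne : ∀ x : Rt P, x.1 ≠ 0 := fun x => root_ne_zero hweil x.2
  have hY0 : ∀ x, Y x ≠ 0 := fun x => div_ne_zero (pow_ne_zero _ (hne x)) hN0
  have hinv : ∀ x, inv hweil x ≠ x := fun x hx =>
    inv_ne hP hdeg2 hweil x.2 (congrArg Subtype.val hx)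
  obtain ⟨g, x0, hgr, hgx⟩ := exists_order hP hr (by rw [hdeg]; exact Dvd.intro_left 2 rfl)
  have hper : ∀ k : ℕ, g ^ k • x0 = x0 → r ∣ k := by
    intro k hk
    have h1 : MulAction.period g x0 ∣ r := by
      rw [← MulAction.pow_smul_eq_iff_period_dvd, hgr, one_smul]
    rcases (Nat.dvd_prime hr).1 h1 with h2 | h2
    · exfalso
      apply hgx
      have h3 := MulAction.pow_period_smul g x0
      rw [h2, pow_one] at h3
      exact h3
    · rw [← h2]
      exact MulAction.pow_smul_eq_iff_period_dvd.1 hk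
  have hgrs : ∀ y : Rt P, g ^ r • y = y := fun y => by rw [hgr, one_smul]
  have hinvk : ∀ k : ℕ, g ^ k • x0 ≠ inv hweil x0 := by
    intro k hk
    have h1 : g ^ (k + k) • x0 = x0 := by
      rw [pow_add, mul_smul, hk, ← inv_smul', hk, inv_inv']
    have h2 := hper _ h1
    have h3 : r ∣ k := by
      rw [← two_mul] at h2
      rcases hr.dvd_mul.1 h2 with h4 | h4
      · exact absurd ((Nat.prime_dvd_prime_iff_eq hr Nat.prime_two).1 h4) hr2
      · exact h4
    obtain ⟨j, rfl⟩ := h3
    have h4 : g ^ (r * j) • x0 = x0 := by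
      rw [pow_mul, hgr, one_pow, one_smul]
    rw [h4] at hk
    exact hinv x0 hk.symm
  set S : Finset (Rt P) := (Finset.range r).image (fun i => g ^ i • x0) with hSdef
  have hinj : ∀ i ∈ Finset.range r, ∀ j ∈ Finset.range r, g ^ i • x0 = g ^ j • x0 → i = j := by
    have h1 : ∀ i j : ℕ, i ≤ j → j < r → g ^ i • x0 = g ^ j • x0 → i = j := by
      intro i j hij hj h
      have h2 : g ^ (j - i) • x0 = x0 := by
        apply smul_left_cancel (g ^ i)
        rw [← mul_smul, ← pow_add, Nat.add_sub_cancel' hij]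
        exact h.symm
      have h3 := hper _ h2
      have h4 := Nat.eq_zero_of_dvd_of_lt h3 (by omega)
      omega
    intro i hi j hj h
    rcases le_total i j with h2 | h2
    · exact h1 i j h2 (Finset.mem_range.1 hj) h
    · exact (h1 j i h2 (Finset.mem_range.1 hi) h.symm).symm
  have hScard : S.card = r := by
    rw [hSdef, Finset.card_image_of_injOn (fun i hi j hj h => hinj i hi j hj h), Finset.card_range]
  have hSinv : ∀ y ∈ S, inv hweil y ∉ S := by
    intro y hy h
    obtain ⟨i, hi, rfl⟩ := Finset.mem_image.1 hy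
    obtain ⟨j, hj, hij⟩ := Finset.mem_image.1 h
    rw [inv_smul'] at hij
    have hi' := Finset.mem_range.1 hi
    apply hinvk (r - i + j)
    rw [pow_add, mul_smul]
    have h5 : g ^ j • x0 = g ^ i • inv hweil x0 := hij
    rw [h5, ← mul_smul, ← pow_add, Nat.sub_add_cancel hi'.le, hgrs]
  have hbij : Function.Injective (inv hweil) :=
    fun x y h => by rw [← inv_inv' hweil x, h, inv_inv' hweil y]
  have hSall : ∀ y, y ∈ S ∨ inv hweil y ∈ S := by
    intro y
    have h1 : (S ∪ S.image (inv hweil)).card = Fintype.card (Rt P) := by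
      rw [Finset.card_union_of_disjoint, Finset.card_image_of_injective _ hbij, hScard, card_rt hP,
        hdeg]
      · ring
      · rw [Finset.disjoint_left]
        intro z hz hz'
        obtain ⟨w, hw, rfl⟩ := Finset.mem_image.1 hz'
        exact hSinv w hw hz
    have h2 := (Finset.card_eq_iff_eq_univ _).1 h1
    have h3 : y ∈ S ∪ S.image (inv hweil) := by rw [h2]; exact Finset.mem_univ _
    rcases Finset.mem_union.1 h3 with h4 | h4
    · exact Or.inl h4
    · obtain ⟨w, hw, rfl⟩ := Finset.mem_image.1 h4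
      right
      rw [inv_inv']
      exact hw
  have hS : ∀ y, y ∈ S ↔ inv hweil y ∉ S := fun y =>
    ⟨hSinv y, fun h => (hSall y).resolve_right h⟩
  -- the relation
  have hgk : ∀ (i : ℕ) (y : Rt P), ((g : P.SplittingField ≃+* P.SplittingField) ^ i) (Y y) =
      Y (g ^ i • y) := by
    intro i
    induction i with
    | zero => intro y; simp
    | succ i ih =>
      intro y
      rw [pow_succ', RingAut.mul_apply, ih, pow_succ', mul_smul]
      show g ((g ^ i • y).1 ^ 2 / (p : P.SplittingField) ^ n) =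
        (g (g ^ i • y).1) ^ 2 / (p : P.SplittingField) ^ n
      rw [map_div₀, map_pow, map_pow, map_natCast]
  have hrelS : ∏ i ∈ Finset.range r, Y (g ^ i • x0) ^ u (g ^ i • x0) = 1 := by
    rw [← hrel, prod_half hweil S hS u hu, hSdef,
      Finset.prod_image (fun i hi j hj h => hinj i hi j hj h)]
  set σ : P.SplittingField ≃+* P.SplittingField := (g : P.SplittingField ≃+* P.SplittingField)
    with hσ
  set y0 : Additive P.SplittingFieldˣ := Additive.ofMul (Units.mk0 (Y x0) (hY0 x0)) with hy0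
  have hy0v : (y0.toMul : P.SplittingField) = Y x0 := rfl
  have hact : polyAct σ (∑ i ∈ Finset.range r, C (u (g ^ i • x0)) * X ^ i) y0 = 0 := by
    apply Additive.toMul.injective
    apply Units.ext
    rw [polyAct_sum σ (Finset.range r) (fun i => u (g ^ i • x0)) y0, hy0v]
    simp only [hgk]
    exact hrelS
  have hactr : polyAct σ (X ^ r - 1) y0 = 0 := by
    rw [map_sub, LinearMap.sub_apply, map_one, Module.End.one_apply, sub_eq_zero]
    apply Additive.toMul.injective
    apply Units.ext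
    rw [polyAct_X_pow, hy0v, hgk, hgrs]
  rcases prime_poly hr (fun i => u (g ^ i • x0)) with hconst | ⟨c, A, B, hc, hAB⟩
  · -- all coefficients are equal
    have hc0 : u x0 = 0 := by
      by_contra hc
      have hall : ∀ i ∈ Finset.range r, u (g ^ i • x0) = u x0 := by
        intro i hi
        have := hconst i (Finset.mem_range.1 hi)
        simpa using this
      have h1 : ∏ i ∈ Finset.range r, Y (g ^ i • x0) ^ (u x0) = 1 := by
        rw [← hrelS]
        exact Finset.prod_congr rfl fun i hi => by rw [hall i hi]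
      have h2 : (∏ y ∈ S, Y y) ^ (u x0) = 1 := by
        rw [hSdef, Finset.prod_image (fun i hi j hj h => hinj i hi j hj h), ← h1,
          Finset.prod_zpow]
      have h3 : (∏ y ∈ S, Y y) ^ (u x0).natAbs = 1 := by
        rcases Int.natAbs_eq (u x0) with h4 | h4
        · rw [h4, zpow_natCast] at h2
          exact h2
        · rw [h4, zpow_neg, zpow_natCast, inv_eq_one] at h2
          exact h2
      have h4 : (∏ y ∈ S, (y.1 ^ 2)) ^ (u x0).natAbs =
          (((p : P.SplittingField) ^ n) ^ S.card) ^ (u x0).natAbs := by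
        rw [← Finset.prod_const, ← mul_one ((∏ _ ∈ S, (p : P.SplittingField) ^ n) ^ _), ← h3,
          ← mul_pow, ← Finset.prod_mul_distrib]
        congr 1
        refine Finset.prod_congr rfl fun y _ => ?_
        rw [hY]
        field_simp
      have h5 := congrArg (fun z => slope p n (jp z)) h4
      simp only [map_pow, map_prod, map_natCast, slope_pow] at h5
      rw [slope_prod S (fun y => jp y.1 ^ 2)] at h5
      · simp only [slope_pow] at h5
        have h6 : (((u x0).natAbs : ℕ) : ℝ) ≠ 0 := by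
          exact_mod_cast (Int.natAbs_pos.2 hc).ne'
        have h7 := mul_left_cancel₀ h6 h5
        apply hΦ S hS
        rw [Finset.sum_sub_distrib]
        have h8 : (n : ℝ) * slope p n ((p : ℕ) : PadicAlgCl p) = 1 := by
          rw [← slope_pow, slope_N hn]
        rw [h8] at h7
        push_cast at h7
        rw [h7]
        simp
      · intro y _
        apply pow_ne_zero
        rw [Ne, map_eq_zero]
        exact hne y
    have hSz : ∀ y ∈ S, u y = 0 := by
      intro y hy
      obtain ⟨i, hi, rfl⟩ := Finset.mem_image.1 hy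
      have h1 := hconst i (Finset.mem_range.1 hi)
      have h2 : u (g ^ i • x0) = u (g ^ 0 • x0) := h1
      rw [h2, pow_zero, one_smul, hc0]
    rcases hSall x with h | h
    · exact hSz x h
    · have h1 := hSz _ h
      rw [hu] at h1
      linarith
  · -- a root of unity
    exfalso
    have h1 : polyAct σ (C c * (X - 1)) y0 = 0 := by
      rw [← hAB, map_add, map_mul, map_mul, LinearMap.add_apply, Module.End.mul_apply,
        Module.End.mul_apply]
      have h2 : polyAct σ (∑ i ∈ Finset.range r, C ((fun i => u (g ^ i • x0)) i) * X ^ i) y0 = 0 :=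
        hact
      rw [h2, hactr, map_zero, map_zero, add_zero]
    have h2 : c • (polyAct σ (X ^ 1) y0 - y0) = 0 := by
      rw [← h1, C_mul', map_zsmul, LinearMap.smul_apply, map_sub, LinearMap.sub_apply, map_one,
        Module.End.one_apply, pow_one]
    have h3 : (Y (g • x0)) ^ c = (Y x0) ^ c := by
      rw [zsmul_sub, sub_eq_zero] at h2
      have h4 := congrArg (fun z : Additive P.SplittingFieldˣ => (z.toMul : P.SplittingField)) h2
      simp only [toMul_zsmul, Units.val_zpow_eq_zpow_val, polyAct_X_pow, hy0v] at h4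
      rw [hgk, pow_one] at h4
      exact h4
    exact hgx (zpow_sq_eq (p := p) (n := n) jC hgs _ _ hc h3)

end Half

/-- Maximal angle rank in degree twice a prime. -/
theorem maxRank_prime {p n : ℕ} [hp : Fact p.Prime] {P : ℚ[X]} (hn : 0 < n) (hP : Irreducible P)
    (hweil : ∀ z : ℂ, aeval z P = 0 → ‖z‖ ^ 2 = (p : ℝ) ^ n) (h : PrimeCond p n P) :
    MaxRank ((p : ℂ) ^ n) P := by
  classical
  obtain ⟨r, hr, hdeg, hgs, hhalf⟩ := h
  let jC : P.SplittingField →ₐ[ℚ] ℂ := IsAlgClosed.lift
  let jp : P.SplittingField →ₐ[ℚ] PadicAlgCl p := IsAlgClosed.lift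
  intro xs T hxs hprod x hx
  have hrel := rel_of_list hweil hn hP jC hxs hprod
  set u : Rt P → ℤ := fun x => (xs.count (jC x.1) : ℤ) - xs.count (jC (inv hweil x).1) with hu
  have huinv : ∀ x, u (inv hweil x) = - u x := by
    intro x
    rw [hu]
    beta_reduce
    rw [inv_inv']
    ring
  obtain ⟨x', rfl⟩ : ∃ x' : Rt P, jC x'.1 = x := by
    have h1 := (SplittingField.splits P).image_rootSet jC
    have h2 : x ∈ P.rootSet ℂ := mem_rootSet.2 ⟨hP.ne_zero, hx⟩
    rw [← h1] at h2
    obtain ⟨z, hz, hzy⟩ := h2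
    exact ⟨⟨z, hz⟩, hzy⟩
  have h0 : u x' = 0 := by
    by_cases hr2 : r = 2
    · exact quartic hweil hP (by rw [hdeg, hr2]) jC hgs u huinv hrel x'
    · have hΦ := hhalf.resolve_left hr2
      refine oddPrime hweil hn hP hr hr2 hdeg jC jp hgs ?_ u huinv hrel x'
      intro S hS h0
      have hrootp : ∀ x : Rt P, aeval (jp x.1) P = 0 := fun x => by
        rw [aeval_algHom_apply, rt_root, map_zero]
      have hinjp : Function.Injective (fun x : Rt P => jp x.1) :=
        fun x y hxy => Subtype.ext (jp.toRingHom.injective hxy)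
      have hsurjp : ∀ y : PadicAlgCl p, aeval y P = 0 → ∃ x : Rt P, jp x.1 = y := by
        intro y hy
        have h1 := (SplittingField.splits P).image_rootSet jp
        have h2 : y ∈ P.rootSet (PadicAlgCl p) := mem_rootSet.2 ⟨hP.ne_zero, hy⟩
        rw [← h1] at h2
        obtain ⟨z, hz, hzy⟩ := h2
        exact ⟨⟨z, hz⟩, hzy⟩
      have hjpι : ∀ x : Rt P, jp (inv hweil x).1 = (p : PadicAlgCl p) ^ n / jp x.1 := by
        intro x
        show jp ((p : P.SplittingField) ^ n / x.1) = _
        rw [map_div₀, map_pow, map_natCast]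
      have hmem : ∀ z : Rt P, jp z.1 ∈ (S.image fun x => jp x.1) ↔ z ∈ S := by
        intro z
        constructor
        · intro hz
          obtain ⟨w, hw, hwz⟩ := Finset.mem_image.1 hz
          rwa [← hinjp hwz]
        · intro hz
          exact Finset.mem_image.2 ⟨z, hz, rfl⟩
      -- the number of elements
      have hcard : S.card = r := by
        have hbij : Function.Injective (inv hweil) :=
          fun x y h => by rw [← inv_inv' hweil x, h, inv_inv' hweil y]
        have h1 : Sᶜ = S.image (inv hweil) := by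
          ext y
          rw [Finset.mem_compl, Finset.mem_image]
          constructor
          · intro hy
            refine ⟨inv hweil y, ?_, inv_inv' hweil y⟩
            by_contra h2
            exact hy ((hS y).2 h2)
          · rintro ⟨w, hw, rfl⟩
            exact (hS w).1 hw
        have h2 := Finset.card_add_card_compl S
        rw [h1, Finset.card_image_of_injective _ hbij, card_rt hP, hdeg] at h2
        omega
      refine hΦ (S.image fun x => jp x.1) ?_ ?_ ?_
      · intro y hy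
        obtain ⟨x, _, rfl⟩ := Finset.mem_image.1 hy
        exact hrootp x
      · intro y hy
        obtain ⟨x, rfl⟩ := hsurjp y hy
        rw [← hjpι, hmem, hmem]
        exact hS x
      · rw [Finset.sum_image (fun x _ y _ hxy => hinjp hxy)]
        rw [Finset.sum_sub_distrib, ← Finset.mul_sum, Finset.sum_const, hcard] at h0
        simp only [nsmul_eq_mul, mul_one] at h0
        linarith
  have h1 : (p : ℂ) ^ n / jC x'.1 = jC (inv hweil x').1 := by
    show _ = jC ((p : P.SplittingField) ^ n / x'.1)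
    rw [map_div₀, map_pow, map_natCast]
  rw [h1]
  have h2 : (xs.count (jC x'.1) : ℤ) - xs.count (jC (inv hweil x').1) = 0 := h0
  omega

/-- The four criteria. -/
lemma cond_four {p n : ℕ} [hp : Fact p.Prime] {P : ℚ[X]} (hn : 0 < n)
    (hweil : ∀ z : ℂ, aeval z P = 0 → ‖z‖ ^ 2 = (p : ℝ) ^ n)
    (hcond : (Irreducible P ∧ 2 < P.natDegree ∧
        (CycleCond p n P ∨ HalfCond p n P ∨ SepCond p n P ∨ PrimeCond p n P)) ∨
      (Squarefree P ∧ (∀ z : ℂ, aeval z P = 0 → z ^ 2 ≠ (p : ℂ) ^ n) ∧
        MaxRank ((p : ℂ) ^ n) P)) :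
    Squarefree P ∧ (∀ z : ℂ, aeval z P = 0 → z ^ 2 ≠ (p : ℂ) ^ n) ∧ MaxRank ((p : ℂ) ^ n) P := by
  rcases hcond with ⟨hP, hdeg, h | h | h | h⟩ | h
  · exact Fft.cond_all hn hweil (Or.inl ⟨hP, hdeg, Or.inl h⟩)
  · exact Fft.cond_all hn hweil (Or.inl ⟨hP, hdeg, Or.inr (Or.inl h)⟩)
  · exact Fft.cond_all hn hweil (Or.inl ⟨hP, hdeg, Or.inr (Or.inr h)⟩)
  · exact ⟨hP.squarefree, Fft.real_of_irr hP hdeg, maxRank_prime hn hP hweil h⟩
  · exact h

end Pool.Agent.H93Tate
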