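import Pool.Agent.H93Tate.FftMain
import Pool.Agent.H91.Mono.Crit

/-! The generation theorem for squarefree Frobenius polynomials of maximal angle rank. -/

set_option linter.unusedSectionVars false

namespace Pool.Agent.H93Tate.Fft

open Polynomial TensorProduct Pool.Agent.H91.Mono Pool.Agent.H93Tate

variable {p n : ℕ} [hp : Fact p.Prime] {P : ℚ[X]}

lemma card_rt_sq (hP : Squarefree P) : Fintype.card (Rt P) = P.natDegree :=
  card_rootSet_eq_natDegree (PerfectField.separable_iff_squarefree.2 hP) (SplittingField.splits P)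

lemma trivRel_sq (hn : 0 < n)
    (hweil : ∀ z : ℂ, aeval z P = 0 → ‖z‖ ^ 2 = (p : ℝ) ^ n) (hmr : MaxRank ((p : ℂ) ^ n) P)
    {K : Type*} [Field K] [CharZero K] (jE : P.SplittingField →ₐ[ℚ] K) :
    TrivRel (inv hweil) (fun x : Rt P => jE x.1) := by
  classical
  intro m m' hrel
  let L := P.SplittingField
  let jC : L →ₐ[ℚ] ℂ := IsAlgClosed.lift
  have hL : ∏ x : Rt P, x.1 ^ m x = ∏ x : Rt P, x.1 ^ m' x := by
    apply jE.toRingHom.injective
    show jE _ = jE _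
    simp only [map_prod, map_pow]
    exact hrel
  have hne : ∀ x : Rt P, x.1 ≠ 0 := fun x => root_ne_zero hweil x.2
  have hpair : ∀ x : Rt P, (inv hweil x).1 * x.1 = (p : L) ^ n := by
    intro x
    show (p : L) ^ n / x.1 * x.1 = _
    rw [div_mul_cancel₀ _ (hne x)]
  have hbij : Function.Bijective (inv hweil) :=
    ⟨fun x y h => by rw [← inv_inv' hweil x, h, inv_inv' hweil y],
      fun x => ⟨inv hweil x, inv_inv' hweil x⟩⟩
  have hL2 : ∏ x : Rt P, x.1 ^ (m x + m' (inv hweil x)) = ((p : L) ^ n) ^ (∑ x, m' x) := by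
    have h1 : ∏ x : Rt P, x.1 ^ (m x + m' (inv hweil x)) =
        (∏ x : Rt P, x.1 ^ m x) * ∏ x : Rt P, x.1 ^ m' (inv hweil x) := by
      rw [← Finset.prod_mul_distrib]
      exact Finset.prod_congr rfl fun x _ => pow_add _ _ _
    have h2 : ∏ x : Rt P, x.1 ^ m' (inv hweil x) = ∏ x : Rt P, (inv hweil x).1 ^ m' x := by
      rw [← hbij.prod_comp (fun x : Rt P => (inv hweil x).1 ^ m' x)]
      apply Finset.prod_congr rfl
      intro x _
      rw [inv_inv']
    rw [h1, hL, h2, ← Finset.prod_mul_distrib, ← Finset.prod_pow_eq_pow_sum]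
    apply Finset.prod_congr rfl
    intro x _
    rw [← mul_pow, mul_comm, hpair]
  have hinjC : Function.Injective (fun x : Rt P => jC x.1) :=
    fun x y hxy => Subtype.ext (jC.toRingHom.injective hxy)
  have hrootC : ∀ x : Rt P, aeval (jC x.1) P = 0 := fun x => by
    rw [aeval_algHom_apply, rt_root, map_zero]
  constructor
  · intro x
    obtain ⟨xs, h1, h2, h3⟩ := exists_list (fun x : Rt P => jC x.1) hinjC
      (fun x => m x + m' (inv hweil x))
    have h4 := hmr xs (∑ x, m' x) (by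
      intro z hz
      obtain ⟨y, rfl⟩ := h1 z hz
      exact hrootC y) (by
      rw [h2]
      have h5 := congrArg jC hL2
      rw [map_prod, map_pow, map_pow, map_natCast] at h5
      rw [← h5]
      apply Finset.prod_congr rfl
      intro y _
      rw [map_pow]) (jC x.1) (hrootC x)
    have h5 : (p : ℂ) ^ n / jC x.1 = jC (inv hweil x).1 := by
      show _ = jC ((p : L) ^ n / x.1)
      rw [map_div₀, map_pow, map_natCast]
    have h3' : ∀ y : Rt P, xs.count (jC y.1) = m y + m' (inv hweil y) := h3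
    rw [h5] at h4
    have h6 := h3' x
    have h7 := h3' (inv hweil x)
    rw [inv_inv'] at h7
    omega
  · have hnorm : ∀ x : Rt P, ‖jC x.1‖ ^ 2 = (p : ℝ) ^ n := fun x => hweil _ (hrootC x)
    have key : ∀ k : Rt P → ℕ, ‖jC (∏ x : Rt P, x.1 ^ k x)‖ ^ 2 = ((p : ℝ) ^ n) ^ (∑ x, k x) := by
      intro k
      rw [map_prod, norm_prod, ← Finset.prod_pow, ← Finset.prod_pow_eq_pow_sum]
      apply Finset.prod_congr rfl
      intro x _
      rw [map_pow, norm_pow, ← pow_mul, mul_comm, pow_mul, hnorm]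
    have h1 := key m
    rw [hL, key m'] at h1
    exact (pow_right_injective₀ (lt_trans one_pos (one_lt_pow hn)) (one_lt_pow hn).ne' h1).symm

lemma exists_eigenbasis_sq (hP : Squarefree P) (hpos : 0 < P.natDegree) {K : Type*} [Field K]
    [CharZero K] {V : Type*} [AddCommGroup V] [Module K V] [FiniteDimensional K V]
    (F : Module.End K V) (hF : F.charpoly = P.map (algebraMap ℚ K))
    (jE : P.SplittingField →ₐ[ℚ] K) :
    ∃ b : Module.Basis (Rt P) K V, ∀ x, F (b x) = jE x.1 • b x := by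
  classical
  have h1 : ∀ x : Rt P, ∃ v, F.HasEigenvector (jE x.1) v := by
    intro x
    have h2 : F.HasEigenvalue (jE x.1) := by
      rw [Module.End.hasEigenvalue_iff_isRoot_charpoly, hF, IsRoot.def, eval_map_algebraMap,
        aeval_algHom_apply, rt_root, map_zero]
    exact h2.exists_hasEigenvector
  choose v hv using h1
  have hinj : Function.Injective (fun x : Rt P => jE x.1) :=
    fun x y hxy => Subtype.ext (jE.toRingHom.injective hxy)
  have hli : LinearIndependent K v := Module.End.eigenvectors_linearIndependent' F _ hinj v hv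
  have hcard : Fintype.card (Rt P) = Module.finrank K V := by
    rw [card_rt_sq hP, ← LinearMap.charpoly_natDegree F, hF, natDegree_map]
  have hne : Nonempty (Rt P) := by
    rw [← Fintype.card_pos_iff, card_rt_sq hP]
    exact hpos
  refine ⟨basisOfLinearIndependentOfCardEqFinrank hli hcard, ?_⟩
  intro x
  rw [coe_basisOfLinearIndependentOfCardEqFinrank]
  exact (hv x).apply_eq_smul

/-- the standing hypotheses hold -/
theorem setup_sq (hn : 0 < n) (hP : Squarefree P) (hpos : 0 < P.natDegree)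
    (hweil : ∀ z : ℂ, aeval z P = 0 → ‖z‖ ^ 2 = (p : ℝ) ^ n)
    (hreal : ∀ z : ℂ, aeval z P = 0 → z ^ 2 ≠ (p : ℂ) ^ n) (hmr : MaxRank ((p : ℂ) ^ n) P)
    {K : Type*} [Field K] [CharZero K] {V : Type*}
    [AddCommGroup V] [Module K V] [FiniteDimensional K V] (ψ : V →ₗ[K] V →ₗ[K] K)
    (halt : ∀ v, ψ v v = 0) (hnd : ∀ v, (∀ w, ψ v w = 0) → v = 0)
    (Γ : Subgroup (V ≃ₗ[K] V))
    (hsim : ∀ γ ∈ Γ, ∃ μ : K, ∀ u v, ψ ((γ : V ≃ₗ[K] V) u) ((γ : V ≃ₗ[K] V) v) = μ * ψ u v)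
    (F : V ≃ₗ[K] V) (hF : F ∈ Γ)
    (hchar : LinearMap.charpoly (F : V →ₗ[K] V) = P.map (algebraMap ℚ K))
    (hmult : ∀ u v, ψ (F u) (F v) = (p : K) ^ n * ψ u v)
    (jE : P.SplittingField →ₐ[ℚ] K) :
    ∃ b : Module.Basis (Rt P) K V, Setup ψ Γ b (inv hweil) (fun x : Rt P => jE x.1) F := by
  classical
  obtain ⟨b, hb⟩ := exists_eigenbasis_sq hP hpos (F : V →ₗ[K] V) hchar jE
  have hne : ∀ x : Rt P, x.1 ≠ 0 := fun x => root_ne_zero hweil x.2
  have hlne : ∀ x : Rt P, jE x.1 ≠ 0 := fun x => by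
    rw [Ne, map_eq_zero]; exact hne x
  have hzero : ∀ i j : Rt P, j ≠ inv hweil i → ψ (b i) (b j) = 0 := by
    intro i j hij
    have h1 := hmult (b i) (b j)
    have e1 : F (b i) = jE i.1 • b i := hb i
    have e2 : F (b j) = jE j.1 • b j := hb j
    rw [e1, e2, map_smul, map_smul, LinearMap.smul_apply, smul_eq_mul, smul_eq_mul] at h1
    have h2 : (jE i.1 * jE j.1 - (p : K) ^ n) * ψ (b i) (b j) = 0 := by linear_combination h1
    rcases mul_eq_zero.1 h2 with h3 | h3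
    · exfalso
      apply hij
      apply Subtype.ext
      apply jE.toRingHom.injective
      show jE j.1 = jE ((p : P.SplittingField) ^ n / i.1)
      rw [map_div₀, map_pow, map_natCast, eq_div_iff (hlne i)]
      linear_combination h3
    · exact h3
  have hne' : ∀ i : Rt P, ψ (b i) (b (inv hweil i)) ≠ 0 := by
    intro i h0
    apply b.ne_zero i
    apply hnd
    intro w
    rw [← b.sum_repr w, map_sum]
    apply Finset.sum_eq_zero
    intro j _
    rw [map_smul]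
    by_cases hj : j = inv hweil i
    · rw [hj, h0, smul_zero]
    · rw [hzero i j hj, smul_zero]
  exact ⟨b,
    { inv := inv_inv' hweil
      nofix := fun x hx => by
        let jC : P.SplittingField →ₐ[ℚ] ℂ := IsAlgClosed.lift
        have h1 : (p : P.SplittingField) ^ n / x.1 = x.1 := congrArg Subtype.val hx
        rw [div_eq_iff (hne x)] at h1
        apply hreal (jC x.1) (by rw [aeval_algHom_apply, rt_root, map_zero])
        rw [pow_two, ← map_mul, ← h1, map_pow, map_natCast]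
      alt := halt
      zero := hzero
      ne := hne'
      sim := hsim
      mem := hF
      eig := hb
      triv := trivRel_sq hn hweil hmr jE }⟩

/-- **All Tate classes on all powers are generated in degree two.** -/
theorem allPowersSq (hn : 0 < n) (hP : Squarefree P)
    (hweil : ∀ z : ℂ, aeval z P = 0 → ‖z‖ ^ 2 = (p : ℝ) ^ n)
    (hreal : ∀ z : ℂ, aeval z P = 0 → z ^ 2 ≠ (p : ℂ) ^ n) (hmr : MaxRank ((p : ℂ) ^ n) P)
    {E : Type*} [Field E] [CharZero E] (K : Type*) [Field K] [Algebra E K] [IsAlgClosure E K]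
    {V : Type*} [AddCommGroup V] [Module E V] [FiniteDimensional E V] (ψ : V →ₗ[E] V →ₗ[E] E)
    (halt : ∀ v, ψ v v = 0) (hnd : ∀ v, (∀ w, ψ v w = 0) → v = 0)
    (Γ : Subgroup (V ≃ₗ[E] V))
    (hsim : ∀ γ ∈ Γ, ∃ μ : E, ∀ u v, ψ ((γ : V ≃ₗ[E] V) u) ((γ : V ≃ₗ[E] V) v) = μ * ψ u v)
    (hss : ∀ W : Submodule E V, (∀ γ ∈ Γ, ∀ w ∈ W, (γ : V ≃ₗ[E] V) w ∈ W) →
      ∃ W' : Submodule E V, (∀ γ ∈ Γ, ∀ w ∈ W', (γ : V ≃ₗ[E] V) w ∈ W') ∧ IsCompl W W')
    (F : V ≃ₗ[E] V) (hF : F ∈ Γ)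
    (hchar : LinearMap.charpoly (F : V →ₗ[E] V) = P.map (algebraMap ℚ E))
    (hmult : ∀ u v, ψ (F u) (F v) = (p : E) ^ n * ψ u v)
    (m i : ℕ) (Δ : Subgroup Γ) (hΔ : Δ.FiniteIndex) (t : ExteriorAlgebra E (Fin m → V))
    (ht : ∀ γ ∈ Δ, ∀ μ : E,
      (∀ u v, ψ ((γ : V ≃ₗ[E] V) u) ((γ : V ≃ₗ[E] V) v) = μ * ψ u v) →
      ExteriorAlgebra.map (((γ : V ≃ₗ[E] V) : V →ₗ[E] V).compLeft (Fin m)) t = μ ^ i • t) :
    t ∈ Algebra.adjoin E {c | c ∈ (⋀[E]^2 (Fin m → V)) ∧ ∃ Δ' : Subgroup Γ, Δ'.FiniteIndex ∧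
      ∀ γ ∈ Δ', ∀ μ : E, (∀ u v, ψ ((γ : V ≃ₗ[E] V) u) ((γ : V ≃ₗ[E] V) v) = μ * ψ u v) →
        ExteriorAlgebra.map (((γ : V ≃ₗ[E] V) : V →ₗ[E] V).compLeft (Fin m)) c = μ • c} := by
  classical
  have hac : IsAlgClosed K := IsAlgClosure.isAlgClosed E
  have halg : Algebra.IsAlgebraic E K := IsAlgClosure.isAlgebraic
  have hcz : CharZero K := charZero_of_injective_algebraMap (algebraMap E K).injective
  rcases Nat.eq_zero_or_pos P.natDegree with hd | hpos
  · -- the trivial space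
    have h3 := LinearMap.charpoly_natDegree (F : V →ₗ[E] V)
    rw [hchar, natDegree_map, hd] at h3
    have h4 : Subsingleton V := Module.finrank_zero_iff.1 h3.symm
    have h5 : ∀ t : ExteriorAlgebra E (Fin m → V), ∃ r : E, t = r • 1 := by
      intro t
      induction t using ext_induction with
      | h1 => exact ⟨1, (one_smul _ _).symm⟩
      | hadd a b ha hb =>
        obtain ⟨r, rfl⟩ := ha
        obtain ⟨s, rfl⟩ := hb
        exact ⟨r + s, (add_smul _ _ _).symm⟩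
      | hsmul c a ha =>
        obtain ⟨r, rfl⟩ := ha
        exact ⟨c * r, smul_smul _ _ _⟩
      | hmul v a _ =>
        exact ⟨0, by rw [Subsingleton.elim v 0, map_zero, zero_mul, zero_smul]⟩
    obtain ⟨r, rfl⟩ := h5 t
    exact Subalgebra.smul_mem _ (one_mem _) r
  let jE : P.SplittingField →ₐ[ℚ] K := IsAlgClosed.lift
  have hmapP : (P.map (algebraMap ℚ E)).map (algebraMap E K) = P.map (algebraMap ℚ K) := by
    rw [Polynomial.map_map]
    congr 1
    exact Subsingleton.elim _ _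
  have hsimK : ∀ γ ∈ Γ.map (bcE K), ∃ μ : K, ∀ u v, fK K ψ ((γ : K ⊗[E] V ≃ₗ[K] K ⊗[E] V) u)
      ((γ : K ⊗[E] V ≃ₗ[K] K ⊗[E] V) v) = μ * fK K ψ u v := by
    rintro _ ⟨γ, hγ, rfl⟩
    obtain ⟨μ, hμ⟩ := hsim γ hγ
    exact ⟨algebraMap E K μ, fK_sim γ μ hμ⟩
  have hcharK : LinearMap.charpoly ((bcE K F : K ⊗[E] V ≃ₗ[K] K ⊗[E] V) :
      K ⊗[E] V →ₗ[K] K ⊗[E] V) = P.map (algebraMap ℚ K) := by
    rw [bcE_coe, LinearMap.charpoly_baseChange, hchar, hmapP]
  have hmultK : ∀ u v, fK K ψ (bcE K F u) (bcE K F v) = (p : K) ^ n * fK K ψ u v := by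
    intro u v
    rw [fK_sim F _ hmult, map_pow, map_natCast]
  have hsw : ∀ u v, ψ v u = - ψ u v := fun u v => psi_swap halt u v
  obtain ⟨b, hset⟩ := setup_sq hn hP hpos hweil hreal hmr (fK K ψ) (fK_alt halt)
    (fK_nondeg hsw hnd) (Γ.map (bcE K)) hsimK (bcE K F) ⟨F, hF, rfl⟩ hcharK hmultK jE
  have hmn : ∀ i, Mn (fK K ψ) (Γ.map (bcE K)) b (inv hweil) i := by
    intro i
    apply mn_of_omn hset
    refine omn_of_ss hF b _ (lam_inj hset) hset.eig hss
      (fun W hW w hw k hk => stab_coord hset hW hw hk) ?_ i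
    intro σ
    obtain ⟨s, hs, hl, hR⟩ := perm_R hset (semiSym_bc K σ Γ)
    refine ⟨s, hs, hl, ?_⟩
    intro i j
    rw [← rr_iff_rch hset, ← rr_iff_rch hset]
    exact hR i j
  have hne : ∃ u v, ψ u v ≠ 0 := by
    by_contra hcon
    push Not at hcon
    have h1 : ∀ v : V, v = 0 := fun v => hnd v (hcon v)
    have h2 : Subsingleton V := ⟨fun x y => by rw [h1 x, h1 y]⟩
    have h3 := LinearMap.charpoly_natDegree (F : V →ₗ[E] V)
    rw [hchar, natDegree_map, Module.finrank_zero_of_subsingleton] at h3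
    omega
  exact descend_powers hset hmn hsim hne m i Δ hΔ t ht

/-- an irreducible polynomial of degree larger than two has no root with square `q` -/
lemma real_of_irr (hP : Irreducible P) (hdeg : 2 < P.natDegree) (z : ℂ) (hz : aeval z P = 0) :
    z ^ 2 ≠ (p : ℂ) ^ n := by
  intro h
  have h1 : aeval z (X ^ 2 - C ((p : ℚ) ^ n) : ℚ[X]) = 0 := by
    rw [map_sub, map_pow, aeval_X, aeval_C, map_pow, map_natCast, h]
    ring
  have h2 : minpoly ℚ z ∣ (X ^ 2 - C ((p : ℚ) ^ n) : ℚ[X]) := minpoly.dvd ℚ z h1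
  have h3 : (X ^ 2 - C ((p : ℚ) ^ n) : ℚ[X]).natDegree = 2 := natDegree_X_pow_sub_C
  have h4 : (X ^ 2 - C ((p : ℚ) ^ n) : ℚ[X]) ≠ 0 := by
    intro h0
    rw [h0] at h3
    simp at h3
  have h5 := natDegree_le_of_dvd h2 h4
  rw [h3] at h5
  have h6 : minpoly ℚ z = P * C P.leadingCoeff⁻¹ := (minpoly.eq_of_irreducible hP hz).symm
  rw [h6, natDegree_mul_C] at h5
  · omega
  · exact inv_ne_zero (leadingCoeff_ne_zero.2 hP.ne_zero)

lemma cond_all (hn : 0 < n) (hweil : ∀ z : ℂ, aeval z P = 0 → ‖z‖ ^ 2 = (p : ℝ) ^ n)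
    (hcond : (Irreducible P ∧ 2 < P.natDegree ∧
        (CycleCond p n P ∨ HalfCond p n P ∨ SepCond p n P)) ∨
      (Squarefree P ∧ (∀ z : ℂ, aeval z P = 0 → z ^ 2 ≠ (p : ℂ) ^ n) ∧
        MaxRank ((p : ℂ) ^ n) P)) :
    Squarefree P ∧ (∀ z : ℂ, aeval z P = 0 → z ^ 2 ≠ (p : ℂ) ^ n) ∧ MaxRank ((p : ℂ) ^ n) P := by
  rcases hcond with ⟨hP, hdeg, h⟩ | h
  · exact ⟨hP.squarefree, real_of_irr hP hdeg, maxRank_cond hn hP hdeg hweil (Or.inr h)⟩
  · exact h

end Pool.Agent.H93Tate.Fft
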