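import Pool.Agent.H93Tate.Ext

/-! Descent of the generation statement along an extension of coefficient fields. -/

set_option linter.unusedSectionVars false

namespace Pool.Agent.H93Tate

open TensorProduct ExteriorAlgebra

variable {E : Type*} [Field E] [CharZero E] {V : Type*} [AddCommGroup V] [Module E V]
variable (K : Type*) [Field K] [Algebra E K]

/-- the canonical map of exterior algebras along a field extension -/
noncomputable def theta : ExteriorAlgebra E V →ₐ[E] ExteriorAlgebra K (K ⊗[E] V) :=
  ExteriorAlgebra.lift E ⟨((ExteriorAlgebra.ι K (M := K ⊗[E] V)).restrictScalars E).comp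
    ((TensorProduct.mk E K V) 1), fun v => by
      simp only [LinearMap.comp_apply, LinearMap.restrictScalars_apply, TensorProduct.mk_apply]
      exact ExteriorAlgebra.ι_sq_zero _⟩

lemma theta_ι (v : V) : theta K (ι E v) = ι K ((1 : K) ⊗ₜ[E] v) := by
  unfold theta
  rw [ExteriorAlgebra.lift_ι_apply]
  rfl

lemma anti_aux (x y : K ⊗[E] V) :
    (ι E (M := V)).baseChange K x * (ι E (M := V)).baseChange K y +
      (ι E (M := V)).baseChange K y * (ι E (M := V)).baseChange K x = 0 := by
  induction x using TensorProduct.induction_on with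
  | zero => simp
  | add x₁ x₂ h₁ h₂ =>
    rw [map_add, add_mul, mul_add, add_add_add_comm, h₁, h₂, add_zero]
  | tmul a v =>
    induction y using TensorProduct.induction_on with
    | zero => simp
    | add y₁ y₂ h₁ h₂ =>
      rw [map_add, add_mul, mul_add, add_add_add_comm, h₁, h₂, add_zero]
    | tmul b w =>
      simp only [LinearMap.baseChange_tmul, Algebra.TensorProduct.tmul_mul_tmul]
      rw [mul_comm b a, ← TensorProduct.tmul_add, ι_add_mul_swap, TensorProduct.tmul_zero]

/-- retraction of scalar extension -/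
noncomputable def eta : ExteriorAlgebra K (K ⊗[E] V) →ₐ[K] K ⊗[E] ExteriorAlgebra E V :=
  ExteriorAlgebra.lift K ⟨(ι E (M := V)).baseChange K, fun x => by
    have h := anti_aux K x x
    have h2 : (2 : K) • ((ι E (M := V)).baseChange K x * (ι E (M := V)).baseChange K x) = 0 := by
      rw [two_smul]; exact h
    have : CharZero K := charZero_of_injective_algebraMap (algebraMap E K).injective
    exact (smul_eq_zero.1 h2).resolve_left two_ne_zero⟩

lemma eta_theta (t : ExteriorAlgebra E V) : eta K (theta K t) = (1 : K) ⊗ₜ[E] t := by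
  have h : ((eta (V := V) K).restrictScalars E).comp (theta K) =
      (Algebra.TensorProduct.includeRight : ExteriorAlgebra E V →ₐ[E] K ⊗[E] ExteriorAlgebra E V) := by
    apply ExteriorAlgebra.hom_ext
    ext v
    show eta K (theta K (ι E v)) = (1 : K) ⊗ₜ[E] (ι E v)
    rw [theta_ι]
    unfold eta
    rw [ExteriorAlgebra.lift_ι_apply, LinearMap.baseChange_tmul]
  exact congrArg (fun f => f t) h

/-- elements of a scalar extension whose coordinates over a family of independent scalars are
determined -/
lemma indep_theta {κ : Type*} (a : κ → K) (ha : LinearIndependent E a) (s : Finset κ)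
    (t : κ → ExteriorAlgebra E V) (h : ∑ i ∈ s, a i • theta K (t i) = 0) :
    ∀ i ∈ s, t i = 0 := by
  have h1 : ∑ i ∈ s, a i ⊗ₜ[E] t i = (0 : K ⊗[E] ExteriorAlgebra E V) := by
    have h2 : eta K (∑ i ∈ s, a i • theta K (t i)) = 0 := by rw [h, map_zero]
    rw [map_sum] at h2
    rw [← h2]
    refine Finset.sum_congr rfl fun i _ => ?_
    rw [map_smul, eta_theta, TensorProduct.smul_tmul', smul_eq_mul, mul_one]
  intro i hi
  rw [← Module.forall_dual_apply_eq_zero_iff E]
  intro f
  have h3 := congrArg (fun z => TensorProduct.rid E K (f.lTensor K z)) h1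
  simp only [map_sum, LinearMap.lTensor_tmul, TensorProduct.rid_tmul, map_zero] at h3
  exact linearIndependent_iff'.1 ha s (fun j => f (t j)) h3 i hi

/-- the `K`-span of the image of an `E`-submodule -/
lemma exists_basis_repr (W : Submodule E (ExteriorAlgebra E V)) {κ : Type*} (b : Module.Basis κ E K)
    (z : ExteriorAlgebra K (K ⊗[E] V))
    (hz : z ∈ Submodule.span K (theta K '' (W : Set (ExteriorAlgebra E V)))) :
    ∃ (s : Finset κ) (t : κ → ExteriorAlgebra E V), (∀ i, t i ∈ W) ∧
      z = ∑ i ∈ s, b i • theta K (t i) := by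
  classical
  induction hz using Submodule.span_induction with
  | mem x hx =>
    obtain ⟨w, hw, rfl⟩ := hx
    refine ⟨(b.repr 1).support, fun i => b.repr 1 i • w, fun i => W.smul_mem _ hw, ?_⟩
    have h1 : (1 : K) = ∑ i ∈ (b.repr 1).support, b.repr 1 i • b i := by
      conv_lhs => rw [← b.linearCombination_repr 1]
      rfl
    calc theta K w = (1 : K) • theta K w := (one_smul _ _).symm
      _ = (∑ i ∈ (b.repr 1).support, b.repr 1 i • b i) • theta K w := by rw [← h1]
      _ = _ := by
        rw [Finset.sum_smul]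
        refine Finset.sum_congr rfl fun i _ => ?_
        rw [map_smul, smul_assoc, smul_comm]
  | zero => exact ⟨∅, fun _ => 0, fun _ => W.zero_mem, by simp⟩
  | add x y _ _ hx hy =>
    obtain ⟨s₁, t₁, h₁, rfl⟩ := hx
    obtain ⟨s₂, t₂, h₂, rfl⟩ := hy
    refine ⟨s₁ ∪ s₂, fun i => (if i ∈ s₁ then t₁ i else 0) + (if i ∈ s₂ then t₂ i else 0),
      fun i => W.add_mem ?_ ?_, ?_⟩
    · split
      · exact h₁ i
      · exact W.zero_mem
    · split
      · exact h₂ i
      · exact W.zero_mem
    · simp only [map_add, smul_add, Finset.sum_add_distrib]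
      congr 1
      · rw [← Finset.sum_subset Finset.subset_union_left]
        · refine Finset.sum_congr rfl fun i hi => ?_
          rw [if_pos hi]
        · intro i _ hi
          rw [if_neg hi, map_zero, smul_zero]
      · rw [← Finset.sum_subset Finset.subset_union_right]
        · refine Finset.sum_congr rfl fun i hi => ?_
          rw [if_pos hi]
        · intro i _ hi
          rw [if_neg hi, map_zero, smul_zero]
  | smul a x _ hx =>
    obtain ⟨s₁, t₁, h₁, rfl⟩ := hx
    -- multiply by `a` and expand again in the basis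
    have h2 : ∀ i, ∃ (s : Finset κ) (c : κ → E), a * b i = ∑ j ∈ s, c j • b j := by
      intro i
      refine ⟨(b.repr (a * b i)).support, fun j => b.repr (a * b i) j, ?_⟩
      conv_lhs => rw [← b.linearCombination_repr (a * b i)]
      rfl
    choose S c hc using h2
    refine ⟨s₁.biUnion S, fun j => ∑ i ∈ s₁, (if j ∈ S i then c i j else 0) • t₁ i,
      fun j => W.sum_mem fun i _ => W.smul_mem _ (h₁ i), ?_⟩
    simp only [map_sum, map_smul, Finset.smul_sum]
    rw [Finset.sum_comm]
    refine Finset.sum_congr rfl fun i hi => ?_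
    rw [← mul_smul, hc, Finset.sum_smul]
    rw [← Finset.sum_subset (Finset.subset_biUnion_of_mem S hi)]
    · refine Finset.sum_congr rfl fun j hj => ?_
      rw [if_pos hj, smul_assoc, smul_comm]
    · intro j _ hj
      rw [if_neg hj, zero_smul, smul_zero]

lemma theta_map (F : V →ₗ[E] V) (t : ExteriorAlgebra E V) :
    theta K (ExteriorAlgebra.map F t) = ExteriorAlgebra.map (F.baseChange K) (theta K t) := by
  have h : (theta (V := V) K).comp (ExteriorAlgebra.map F) =
      ((ExteriorAlgebra.map (F.baseChange K)).restrictScalars E).comp (theta K) := by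
    apply ExteriorAlgebra.hom_ext
    ext v
    show theta K (ExteriorAlgebra.map F (ι E v)) =
      ExteriorAlgebra.map (F.baseChange K) (theta K (ι E v))
    rw [map_apply_ι, theta_ι, theta_ι, map_apply_ι, LinearMap.baseChange_tmul]
  exact congrArg (fun f => f t) h

/-- degree two Tate classes with coefficients in `E` -/
def deg2 (F : V →ₗ[E] V) (q : E) : Set (ExteriorAlgebra E V) :=
  {c | c ∈ (⋀[E]^2 V) ∧ ExteriorAlgebra.map F c = q • c}

lemma range_le : LinearMap.range (ι K (M := K ⊗[E] V)) ≤
    Submodule.span K (theta K '' (LinearMap.range (ι E (M := V)) : Set (ExteriorAlgebra E V))) := by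
  rintro _ ⟨x, rfl⟩
  induction x using TensorProduct.induction_on with
  | zero => rw [map_zero]; exact Submodule.zero_mem _
  | add x y hx hy => rw [map_add]; exact Submodule.add_mem _ hx hy
  | tmul a v =>
    have h : (a ⊗ₜ[E] v : K ⊗[E] V) = a • ((1 : K) ⊗ₜ[E] v) := by
      rw [TensorProduct.smul_tmul', smul_eq_mul, mul_one]
    rw [h, map_smul, ← theta_ι]
    exact Submodule.smul_mem _ _ (Submodule.subset_span ⟨ι E v, ⟨v, rfl⟩, rfl⟩)

lemma ext2_le : (⋀[K]^2 (K ⊗[E] V)) ≤
    Submodule.span K (theta K '' ((⋀[E]^2 V : Submodule E (ExteriorAlgebra E V)) :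
      Set (ExteriorAlgebra E V))) := by
  show LinearMap.range (ι K (M := K ⊗[E] V)) ^ 2 ≤ _
  rw [pow_two]
  refine le_trans (mul_le_mul' (range_le K) (range_le K)) ?_
  rw [Submodule.span_mul_span]
  refine Submodule.span_mono ?_
  rintro _ ⟨_, ⟨x, hx, rfl⟩, _, ⟨y, hy, rfl⟩, rfl⟩
  refine ⟨x * y, ?_, map_mul _ _ _⟩
  show x * y ∈ LinearMap.range (ι E (M := V)) ^ 2
  rw [pow_two]
  exact Submodule.mul_mem_mul hx hy

lemma deg2_le (F : V →ₗ[E] V) (q : E) :
    deg2 (F.baseChange K) (algebraMap E K q) ⊆
      Submodule.span K (theta K '' (deg2 F q)) := by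
  rintro z ⟨hz, hz2⟩
  let b := Module.Basis.ofVectorSpace E K
  obtain ⟨s, t, ht, rfl⟩ := exists_basis_repr K _ b z (ext2_le K hz)
  have h1 : ∑ i ∈ s, b i • theta K (ExteriorAlgebra.map F (t i) - q • t i) = 0 := by
    have h2 : ∀ i, b i • theta K (ExteriorAlgebra.map F (t i) - q • t i) =
        ExteriorAlgebra.map (F.baseChange K) (b i • theta K (t i)) -
          algebraMap E K q • (b i • theta K (t i)) := by
      intro i
      rw [map_sub, theta_map, map_smul, smul_sub, map_smul, algebraMap_smul, smul_comm]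
    rw [Finset.sum_congr rfl (fun i _ => h2 i), Finset.sum_sub_distrib, ← map_sum,
      ← Finset.smul_sum, hz2, sub_self]
  have h3 := indep_theta K b b.linearIndependent s _ h1
  refine Submodule.sum_mem _ fun i hi => Submodule.smul_mem _ _ (Submodule.subset_span ?_)
  exact ⟨t i, ⟨ht i, sub_eq_zero.1 (h3 i hi)⟩, rfl⟩

lemma adjoin_le_span (F : V →ₗ[E] V) (q : E) :
    (Algebra.adjoin K (deg2 (F.baseChange K) (algebraMap E K q)) :
      Set (ExteriorAlgebra K (K ⊗[E] V))) ⊆
    Submodule.span K (theta K '' (Algebra.adjoin E (deg2 F q) :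
      Set (ExteriorAlgebra E V))) := by
  set B : Subalgebra E (ExteriorAlgebra E V) := Algebra.adjoin E (deg2 F q) with hB
  -- the span is the adjoined algebra
  have h1 : Submodule.span K (theta K '' (B : Set (ExteriorAlgebra E V))) =
      Subalgebra.toSubmodule (Algebra.adjoin K (theta K '' (B : Set (ExteriorAlgebra E V)))) := by
    rw [Algebra.adjoin_eq_span]
    congr 1
    have h2 : theta K '' (B : Set (ExteriorAlgebra E V)) =
        ((B.toSubmonoid.map (theta (V := V) K).toRingHom.toMonoidHom :
          Submonoid (ExteriorAlgebra K (K ⊗[E] V))) : Set (ExteriorAlgebra K (K ⊗[E] V))) := rfl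
    rw [h2, Submonoid.closure_eq]
  rw [h1]
  show (Algebra.adjoin K (deg2 (F.baseChange K) (algebraMap E K q)) :
      Set (ExteriorAlgebra K (K ⊗[E] V))) ⊆
      (Algebra.adjoin K (theta K '' (B : Set (ExteriorAlgebra E V))) :
        Set (ExteriorAlgebra K (K ⊗[E] V)))
  have h3 : Algebra.adjoin K (deg2 (F.baseChange K) (algebraMap E K q)) ≤
      Algebra.adjoin K (theta K '' (B : Set (ExteriorAlgebra E V))) := by
    apply Algebra.adjoin_le
    intro z hz
    have h4 := deg2_le K F q hz
    have h5 : Submodule.span K (theta K '' (deg2 F q)) ≤ Subalgebra.toSubmodule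
        (Algebra.adjoin K (theta K '' (B : Set (ExteriorAlgebra E V)))) := by
      refine Submodule.span_le.2 ?_
      rintro _ ⟨w, hw, rfl⟩
      exact Algebra.subset_adjoin ⟨w, Algebra.subset_adjoin hw, rfl⟩
    exact h5 h4
  exact h3

/-- **Descent.** -/
theorem descend (F : V →ₗ[E] V) (q : E) (t : ExteriorAlgebra E V)
    (h : theta K t ∈ Algebra.adjoin K (deg2 (F.baseChange K) (algebraMap E K q))) :
    t ∈ Algebra.adjoin E (deg2 F q) := by
  set B : Subalgebra E (ExteriorAlgebra E V) := Algebra.adjoin E (deg2 F q) with hB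
  let b := Module.Basis.ofVectorSpace E K
  obtain ⟨s, w, hw, hsum⟩ := exists_basis_repr K (Subalgebra.toSubmodule B) b _
    (adjoin_le_span K F q h)
  by_contra hne
  obtain ⟨f, hf, hker⟩ := Submodule.exists_le_ker_of_notMem (p := Subalgebra.toSubmodule B) hne
  have h1 := congrArg (fun z => TensorProduct.rid E K (f.lTensor K (eta K z))) hsum
  simp only [map_sum, map_smul, eta_theta] at h1
  simp only [LinearMap.lTensor_tmul, TensorProduct.smul_tmul', smul_eq_mul, mul_one,
    TensorProduct.rid_tmul] at h1
  rw [Finset.sum_eq_zero] at h1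
  · have h2 : algebraMap E K (f t) = 0 := by
      rw [Algebra.algebraMap_eq_smul_one]; exact h1
    exact hf ((map_eq_zero _).1 h2)
  · intro i _
    rw [show f (w i) = 0 from hker (hw i), zero_smul]

end Pool.Agent.H93Tate
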