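import Pool.Agent.H93Tate.BaseChange

/-! Descent of generation statements for arbitrary sets of classes. -/

set_option linter.unusedSectionVars false

namespace Pool.Agent.H93Tate.Fft

open TensorProduct ExteriorAlgebra Pool.Agent.H93Tate

variable {E : Type*} [Field E] [CharZero E] {V : Type*} [AddCommGroup V] [Module E V]
variable (K : Type*) [Field K] [Algebra E K]

/-- classes of degree two multiplied by a character under a family of endomorphisms -/
def tate2 {S E V : Type*} [Field E] [AddCommGroup V] [Module E V] (f : S → (V →ₗ[E] V))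
    (χ : S → E) : Set (ExteriorAlgebra E V) :=
  {c | c ∈ (⋀[E]^2 V) ∧ ∀ s, ExteriorAlgebra.map (f s) c = χ s • c}

lemma tate2_le {S : Type*} (f : S → (V →ₗ[E] V)) (χ : S → E)
    (z : ExteriorAlgebra K (K ⊗[E] V)) (hz : z ∈ (⋀[K]^2 (K ⊗[E] V)))
    (hz2 : ∀ s, ExteriorAlgebra.map ((f s).baseChange K) z = algebraMap E K (χ s) • z) :
    z ∈ Submodule.span K (theta K '' (tate2 f χ)) := by
  let b := Module.Basis.ofVectorSpace E K
  obtain ⟨s, t, ht, rfl⟩ := exists_basis_repr K _ b z (ext2_le K hz)
  have h3 : ∀ r, ∀ i ∈ s, ExteriorAlgebra.map (f r) (t i) - χ r • t i = 0 := by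
    intro r
    have h1 : ∑ i ∈ s, b i • theta K (ExteriorAlgebra.map (f r) (t i) - χ r • t i) = 0 := by
      have h2 : ∀ i, b i • theta K (ExteriorAlgebra.map (f r) (t i) - χ r • t i) =
          ExteriorAlgebra.map ((f r).baseChange K) (b i • theta K (t i)) -
            algebraMap E K (χ r) • (b i • theta K (t i)) := by
        intro i
        rw [map_sub, theta_map, map_smul, smul_sub, map_smul, algebraMap_smul, smul_comm]
      rw [Finset.sum_congr rfl (fun i _ => h2 i), Finset.sum_sub_distrib, ← map_sum,
        ← Finset.smul_sum, hz2 r, sub_self]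
    exact indep_theta K b b.linearIndependent s _ h1
  refine Submodule.sum_mem _ fun i hi => Submodule.smul_mem _ _ (Submodule.subset_span ?_)
  exact ⟨t i, ⟨ht i, fun r => sub_eq_zero.1 (h3 r i hi)⟩, rfl⟩

lemma adjoin_le_span' (G : Set (ExteriorAlgebra E V)) :
    (Algebra.adjoin K (theta K '' G) : Set (ExteriorAlgebra K (K ⊗[E] V))) ⊆
    Submodule.span K (theta K '' (Algebra.adjoin E G : Set (ExteriorAlgebra E V))) := by
  set B : Subalgebra E (ExteriorAlgebra E V) := Algebra.adjoin E G with hB
  have h1 : Submodule.span K (theta K '' (B : Set (ExteriorAlgebra E V))) =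
      Subalgebra.toSubmodule (Algebra.adjoin K (theta K '' (B : Set (ExteriorAlgebra E V)))) := by
    rw [Algebra.adjoin_eq_span]
    congr 1
    have h2 : theta K '' (B : Set (ExteriorAlgebra E V)) =
        ((B.toSubmonoid.map (theta (V := V) K).toRingHom.toMonoidHom :
          Submonoid (ExteriorAlgebra K (K ⊗[E] V))) : Set (ExteriorAlgebra K (K ⊗[E] V))) := rfl
    rw [h2, Submonoid.closure_eq]
  rw [h1]
  have h3 : Algebra.adjoin K (theta K '' G) ≤
      Algebra.adjoin K (theta K '' (B : Set (ExteriorAlgebra E V))) :=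
    Algebra.adjoin_mono (Set.image_mono Algebra.subset_adjoin)
  exact h3

/-- **Descent.** -/
theorem descend' (G : Set (ExteriorAlgebra E V)) (t : ExteriorAlgebra E V)
    (h : theta K t ∈ Algebra.adjoin K (theta K '' G)) : t ∈ Algebra.adjoin E G := by
  set B : Subalgebra E (ExteriorAlgebra E V) := Algebra.adjoin E G with hB
  let b := Module.Basis.ofVectorSpace E K
  obtain ⟨s, w, hw, hsum⟩ := exists_basis_repr K (Subalgebra.toSubmodule B) b _
    (adjoin_le_span' K G h)
  by_contra hne
  obtain ⟨f, hf, hker⟩ := Submodule.exists_le_ker_of_notMem (p := Subalgebra.toSubmodule B) hne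
  have h1 := congrArg (fun z => TensorProduct.rid E K (f.lTensor K (eta K z))) hsum
  simp only [map_sum, map_smul, eta_theta] at h1
  simp only [LinearMap.lTensor_tmul, TensorProduct.smul_tmul', smul_eq_mul, mul_one,
    TensorProduct.rid_tmul] at h1
  rw [Finset.sum_eq_zero] at h1
  · have h2 : algebraMap E K (f t) = 0 := by
      rw [Algebra.algebraMap_eq_smul_one]; exact h1
    exact hf ((map_eq_zero _).1 h2)
  · intro i _
    rw [show f (w i) = 0 from hker (hw i), zero_smul]

end Pool.Agent.H93Tate.Fft
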