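import Mathlib

/-! Multilinear invariants of orthogonal Lie algebras, few variables. -/

set_option linter.unusedSectionVars false

namespace Pool.Agent.H93Tate.Bos

open Function Finset

section JM

variable {H : Type*} [Group H] [Fintype H] [DecidableEq H]

/-- A sum of fewer group elements than the coefficient of `1` is invertible. -/
lemma exists_inverse {κ : Type*} (T : Finset κ) (t : κ → H) (c : ℚ) (hc : (T.card : ℚ) < c) :
    ∃ x : H → ℚ, ∀ τ, c * x τ + ∑ j ∈ T, x (τ * (t j)⁻¹) = if τ = 1 then 1 else 0 := by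
  let L : (H → ℚ) →ₗ[ℚ] (H → ℚ) :=
    { toFun := fun x τ => c * x τ + ∑ j ∈ T, x (τ * (t j)⁻¹)
      map_add' := by
        intro x y
        ext τ
        simp only [Pi.add_apply, sum_add_distrib]
        ring
      map_smul' := by
        intro r x
        ext τ
        simp only [Pi.smul_apply, smul_eq_mul, RingHom.id_apply, mul_add, mul_sum]
        ring }
  have hinj : Function.Injective L := by
    rw [← LinearMap.ker_eq_bot, LinearMap.ker_eq_bot']
    intro x hx
    obtain ⟨σ, -, hσ⟩ := exists_max_image univ (fun τ => |x τ|) ⟨1, mem_univ _⟩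
    have h1 : c * x σ + ∑ j ∈ T, x (σ * (t j)⁻¹) = 0 := congrFun hx σ
    have h2 : |c * x σ| ≤ T.card * |x σ| := by
      have h3 : c * x σ = - ∑ j ∈ T, x (σ * (t j)⁻¹) := by linarith
      rw [h3, abs_neg]
      calc |∑ j ∈ T, x (σ * (t j)⁻¹)| ≤ ∑ j ∈ T, |x (σ * (t j)⁻¹)| := abs_sum_le_sum_abs _ _
        _ ≤ ∑ _j ∈ T, |x σ| := sum_le_sum fun j _ => hσ _ (mem_univ _)
        _ = T.card * |x σ| := by rw [sum_const, nsmul_eq_mul]
    have hc0 : 0 < c := lt_of_le_of_lt (by positivity) hc
    rw [abs_mul, abs_of_pos hc0] at h2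
    have h4 : |x σ| = 0 := by
      by_contra h5
      have h6 : 0 < |x σ| := lt_of_le_of_ne (abs_nonneg _) (Ne.symm h5)
      have := mul_lt_mul_of_pos_right hc h6
      linarith
    ext τ
    have h7 := hσ τ (mem_univ _)
    rw [h4] at h7
    exact abs_eq_zero.1 (le_antisymm h7 (abs_nonneg _))
  obtain ⟨x, hx⟩ := (LinearMap.injective_iff_surjective.1 hinj) (fun τ => if τ = 1 then 1 else 0)
  exact ⟨x, fun τ => congrFun hx τ⟩

end JM

variable {E : Type*} [Field E] [CharZero E] {V : Type*} [AddCommGroup V] [Module E V]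
variable {α : Type*} [DecidableEq α]

/-- linear in the variables of `S` and independent of the others -/
structure Ml (S : Finset α) (f : (α → V) → E) : Prop where
  add : ∀ a ∈ S, ∀ v x y, f (update v a (x + y)) = f (update v a x) + f (update v a y)
  smul : ∀ a ∈ S, ∀ v (c : E) x, f (update v a (c • x)) = c * f (update v a x)
  out : ∀ a ∉ S, ∀ v x, f (update v a x) = f v

variable {S : Finset α} {f : (α → V) → E}

/-- the linear map in one variable -/
def Ml.lin (h : Ml S f) {a : α} (ha : a ∈ S) (v : α → V) : V →ₗ[E] E where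
  toFun x := f (update v a x)
  map_add' x y := h.add a ha v x y
  map_smul' c x := h.smul a ha v c x

lemma Ml.sum (h : Ml S f) {a : α} (ha : a ∈ S) (v : α → V) {κ : Type*} (T : Finset κ)
    (c : κ → E) (x : κ → V) :
    f (update v a (∑ k ∈ T, c k • x k)) = ∑ k ∈ T, c k * f (update v a (x k)) := by
  have h1 := map_sum (h.lin ha v) (fun k => c k • x k) T
  simp only [map_smul, smul_eq_mul] at h1
  exact h1

lemma Ml.sub (h : Ml S f) {a : α} (ha : a ∈ S) (v : α → V) (x y : V) :
    f (update v a (x - y)) = f (update v a x) - f (update v a y) :=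
  map_sub (h.lin ha v) x y

variable (ψ : V →ₗ[E] V →ₗ[E] E)

/-- killed by the orthogonal Lie algebra -/
def Inv (S : Finset α) (f : (α → V) → E) : Prop :=
  ∀ (u w : V) (v : α → V), ∑ a ∈ S, f (update v a (ψ w (v a) • u - ψ u (v a) • w)) = 0

/-- contraction -/
def Cn {N : ℕ} (e w : Fin N → V) (a a' : α) (f : (α → V) → E) : (α → V) → E :=
  fun v => ∑ k, f (update (update v a (w k)) a' (e k))

/-- dual families -/
structure Dual {N : ℕ} (e w : Fin N → V) : Prop where
  self : ∀ k, ψ (e k) (w k) = 1
  ew : ∀ x, ∑ k, ψ x (w k) • e k = x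
  we : ∀ x, ∑ k, ψ (e k) x • w k = x
  sym : ∀ x y, ψ x y = ψ y x

variable {ψ}

lemma update_swap (v : α → V) {a a' : α} (h : a ≠ a') :
    update (update v a (v a')) a' (v a) = fun i => v (Equiv.swap a a' i) := by
  ext i
  by_cases h1 : i = a'
  · subst h1
    rw [update_self, Equiv.swap_apply_right]
  · rw [update_of_ne h1]
    by_cases h2 : i = a
    · subst h2
      rw [update_self, Equiv.swap_apply_left]
    · rw [update_of_ne h2, Equiv.swap_apply_of_ne_of_ne h2 h1]

/-- **The contraction identity.** -/
lemma contraction {N : ℕ} {e w : Fin N → V} (hd : Dual ψ e w) (h : Ml S f) (hi : Inv ψ S f)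
    {a : α} (ha : a ∈ S) (v : α → V) :
    ((N : E) - 1) * f v + ∑ a' ∈ S.erase a, f (fun i => v (Equiv.swap a a' i)) =
      ∑ a' ∈ S.erase a, ψ (v a) (v a') * Cn e w a a' f v := by
  have h1 : ∀ k, (f v - ψ (v a) (w k) * f (update v a (e k))) +
      ∑ a' ∈ S.erase a, (ψ (e k) (v a') * f (update (update v a (w k)) a' (v a)) -
        ψ (v a) (v a') * f (update (update v a (w k)) a' (e k))) = 0 := by
    intro k
    have h2 := hi (v a) (e k) (update v a (w k))
    rw [← add_sum_erase S _ ha] at h2
    rw [← h2]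
    congr 1
    · rw [update_self, update_idem, hd.self, one_smul, h.sub ha, h.smul a ha, update_eq_self]
    · refine sum_congr rfl fun a' ha' => ?_
      rw [mem_erase] at ha'
      rw [update_of_ne ha'.1, h.sub ha'.2, h.smul a' ha'.2, h.smul a' ha'.2]
  have h2 : ∑ k, ((f v - ψ (v a) (w k) * f (update v a (e k))) +
      ∑ a' ∈ S.erase a, (ψ (e k) (v a') * f (update (update v a (w k)) a' (v a)) -
        ψ (v a) (v a') * f (update (update v a (w k)) a' (e k)))) = 0 :=
    sum_eq_zero fun k _ => h1 k
  rw [sum_add_distrib, sum_sub_distrib, sum_const, card_univ, Fintype.card_fin, nsmul_eq_mul,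
    ← h.sum ha v univ (fun k => ψ (v a) (w k)) e, hd.ew, update_eq_self, sum_comm] at h2
  have h3 : ∀ a' ∈ S.erase a, ∑ k, (ψ (e k) (v a') * f (update (update v a (w k)) a' (v a)) -
        ψ (v a) (v a') * f (update (update v a (w k)) a' (e k))) =
      f (fun i => v (Equiv.swap a a' i)) - ψ (v a) (v a') * Cn e w a a' f v := by
    intro a' ha'
    rw [mem_erase] at ha'
    rw [sum_sub_distrib, ← mul_sum, ← update_swap v (Ne.symm ha'.1)]
    congr 1
    rw [update_comm (Ne.symm ha'.1)]
    conv_rhs => rw [← hd.we (v a')]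
    rw [h.sum ha _ univ (fun k => ψ (e k) (v a')) w]
    refine sum_congr rfl fun k _ => ?_
    rw [update_comm (Ne.symm ha'.1)]
  rw [sum_congr rfl h3, sum_sub_distrib] at h2
  linear_combination h2

lemma Ml.cn {N : ℕ} {e w : Fin N → V} (h : Ml S f) {a a' : α} (haa : a ≠ a') :
    Ml ((S.erase a).erase a') (Cn e w a a' f) where
  add b hb v x y := by
    rw [mem_erase, mem_erase] at hb
    unfold Cn
    rw [← sum_add_distrib]
    refine sum_congr rfl fun k _ => ?_
    have hc : ∀ z : V, update (update (update v b z) a (w k)) a' (e k) =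
        update (update (update v a (w k)) a' (e k)) b z := by
      intro z
      rw [update_comm hb.2.1, update_comm hb.1]
    rw [hc, hc, hc, h.add b hb.2.2]
  smul b hb v c x := by
    rw [mem_erase, mem_erase] at hb
    unfold Cn
    rw [mul_sum]
    refine sum_congr rfl fun k _ => ?_
    have hc : ∀ z : V, update (update (update v b z) a (w k)) a' (e k) =
        update (update (update v a (w k)) a' (e k)) b z := by
      intro z
      rw [update_comm hb.2.1, update_comm hb.1]
    rw [hc, hc, h.smul b hb.2.2]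
  out b hb v x := by
    rw [mem_erase, mem_erase] at hb
    unfold Cn
    refine sum_congr rfl fun k _ => ?_
    by_cases h1 : b = a
    · rw [h1, update_idem]
    · by_cases h2 : b = a'
      · rw [h2, update_comm haa, update_idem, update_comm haa]
      · rw [update_comm h1, update_comm h2]
        apply h.out
        intro h3
        exact hb ⟨h2, h1, h3⟩

lemma Inv.cn {N : ℕ} {e w : Fin N → V} (hd : Dual ψ e w) (h : Ml S f) (hi : Inv ψ S f)
    {a a' : α} (ha : a ∈ S) (ha' : a' ∈ S) (haa : a ≠ a') :
    Inv ψ ((S.erase a).erase a') (Cn e w a a' f) := by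
  intro u t v
  have ha2 : a' ∈ S.erase a := mem_erase.2 ⟨Ne.symm haa, ha'⟩
  have h1 : ∀ k, ∑ b ∈ (S.erase a).erase a',
      f (update (update (update v b (ψ t (v b) • u - ψ u (v b) • t)) a (w k)) a' (e k)) =
      - (f (update (update v a (ψ t (w k) • u - ψ u (w k) • t)) a' (e k)) +
        f (update (update v a (w k)) a' (ψ t (e k) • u - ψ u (e k) • t))) := by
    intro k
    have h2 := hi u t (update (update v a (w k)) a' (e k))
    rw [← add_sum_erase S _ ha, ← add_sum_erase (S.erase a) _ ha2] at h2
    have h3 : ∑ b ∈ (S.erase a).erase a',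
      f (update (update (update v b (ψ t (v b) • u - ψ u (v b) • t)) a (w k)) a' (e k)) =
      ∑ b ∈ (S.erase a).erase a', f (update (update (update v a (w k)) a' (e k)) b
        (ψ t ((update (update v a (w k)) a' (e k)) b) • u -
          ψ u ((update (update v a (w k)) a' (e k)) b) • t)) := by
      refine sum_congr rfl fun b hb => ?_
      rw [mem_erase, mem_erase] at hb
      rw [update_of_ne hb.1, update_of_ne hb.2.1]
      congr 1
      rw [update_comm hb.2.1, update_comm hb.1]
    rw [h3]
    rw [update_self, update_idem, update_of_ne haa, update_self, update_comm (Ne.symm haa),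
      update_idem] at h2
    linear_combination h2
  unfold Cn
  rw [sum_comm, sum_congr rfl fun k _ => h1 k, sum_neg_distrib, neg_eq_zero, sum_add_distrib]
  have e1 : ∑ k, f (update (update v a (ψ t (w k) • u - ψ u (w k) • t)) a' (e k)) =
      f (update (update v a u) a' t) - f (update (update v a t) a' u) := by
    have h2 : ∀ k, f (update (update v a (ψ t (w k) • u - ψ u (w k) • t)) a' (e k)) =
        ψ t (w k) * f (update (update v a u) a' (e k)) -
          ψ u (w k) * f (update (update v a t) a' (e k)) := by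
      intro k
      rw [update_comm haa, h.sub ha, h.smul a ha, h.smul a ha, update_comm (Ne.symm haa),
        update_comm (Ne.symm haa)]
    rw [sum_congr rfl fun k _ => h2 k, sum_sub_distrib,
      ← h.sum ha' _ univ (fun k => ψ t (w k)) e, ← h.sum ha' _ univ (fun k => ψ u (w k)) e,
      hd.ew, hd.ew]
  have e2 : ∑ k, f (update (update v a (w k)) a' (ψ t (e k) • u - ψ u (e k) • t)) =
      f (update (update v a t) a' u) - f (update (update v a u) a' t) := by
    have h2 : ∀ k, f (update (update v a (w k)) a' (ψ t (e k) • u - ψ u (e k) • t)) =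
        ψ (e k) t * f (update (update v a' u) a (w k)) -
          ψ (e k) u * f (update (update v a' t) a (w k)) := by
      intro k
      rw [h.sub ha', h.smul a' ha', h.smul a' ha', update_comm haa, update_comm haa,
        hd.sym t, hd.sym u]
    rw [sum_congr rfl fun k _ => h2 k, sum_sub_distrib,
      ← h.sum ha _ univ (fun k => ψ (e k) t) w, ← h.sum ha _ univ (fun k => ψ (e k) u) w,
      hd.we, hd.we, update_comm (Ne.symm haa), update_comm (Ne.symm haa)]
  rw [e1, e2]
  ring

/-- products of the form over the pairs of a perfect matching of `S` -/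
def Mt (ψ : V →ₗ[E] V →ₗ[E] E) (S : Finset α) (g : (α → V) → E) : Prop :=
  ∃ (r : ℕ) (x y : Fin r → α), Function.Injective (Sum.elim x y) ∧
    (∀ a, a ∈ S ↔ a ∈ Set.range (Sum.elim x y)) ∧ g = fun v => ∏ k, ψ (v (x k)) (v (y k))

lemma Mt.perm {g : (α → V) → E} (hg : Mt ψ S g) (σ : Equiv.Perm α) (hσ : ∀ a, σ a ∈ S ↔ a ∈ S) :
    Mt ψ S (fun v => g (fun i => v (σ i))) := by
  obtain ⟨r, x, y, h1, h2, rfl⟩ := hg
  refine ⟨r, fun k => σ (x k), fun k => σ (y k), ?_, ?_, rfl⟩
  · have : Sum.elim (fun k => σ (x k)) (fun k => σ (y k)) = σ ∘ Sum.elim x y := by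
      ext k
      cases k <;> rfl
    rw [this]
    exact σ.injective.comp h1
  · intro a
    have h3 : Sum.elim (fun k => σ (x k)) (fun k => σ (y k)) = σ ∘ Sum.elim x y := by
      ext k
      cases k <;> rfl
    rw [h3, Set.range_comp]
    constructor
    · intro ha
      refine ⟨σ.symm a, ?_, σ.apply_symm_apply a⟩
      rw [← h2, ← hσ, σ.apply_symm_apply]
      exact ha
    · rintro ⟨b, hb, rfl⟩
      rw [hσ, h2]
      exact hb

end Pool.Agent.H93Tate.Bos
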