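import Pool.Agent.H93Tate.Bos1

/-! First fundamental theorem for multilinear forms in fewer variables than the dimension. -/

set_option linter.unusedSectionVars false

namespace Pool.Agent.H93Tate.Bos

open Function Finset

variable {E : Type*} [Field E] [CharZero E] {V : Type*} [AddCommGroup V] [Module E V]
variable {α : Type*} [DecidableEq α] {S : Finset α} {f : (α → V) → E}
variable {ψ : V →ₗ[E] V →ₗ[E] E}

lemma const_of [Fintype α] (h : Ml (∅ : Finset α) f) (v : α → V) : f v = f 0 := by
  have key : ∀ T : Finset α, f (T.piecewise v 0) = f 0 := by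
    intro T
    induction T using Finset.induction_on with
    | empty => rw [piecewise_empty]
    | insert a T ha ih =>
      rw [piecewise_insert, h.out a (notMem_empty a), ih]
  have := key univ
  rwa [piecewise_univ] at this

/-- multiplying by the form in two new variables -/
lemma Mt.mul {a a' : α} (ha : a ∈ S) (ha' : a' ∈ S) (haa : a ≠ a') {g : (α → V) → E}
    (hg : Mt ψ ((S.erase a).erase a') g) : Mt ψ S (fun v => ψ (v a) (v a') * g v) := by
  obtain ⟨r, x, y, h1, h2, rfl⟩ := hg
  have hx : ∀ k, x k ≠ a ∧ x k ≠ a' ∧ x k ∈ S := by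
    intro k
    have h3 := (h2 (x k)).2 ⟨Sum.inl k, rfl⟩
    rw [mem_erase, mem_erase] at h3
    exact ⟨h3.2.1, h3.1, h3.2.2⟩
  have hy : ∀ k, y k ≠ a ∧ y k ≠ a' ∧ y k ∈ S := by
    intro k
    have h3 := (h2 (y k)).2 ⟨Sum.inr k, rfl⟩
    rw [mem_erase, mem_erase] at h3
    exact ⟨h3.2.1, h3.1, h3.2.2⟩
  refine ⟨r + 1, Fin.cons a x, Fin.cons a' y, ?_, ?_, ?_⟩
  · have hxx : ∀ j k, x j = x k → j = k := fun j k hjk => Sum.inl_injective (h1 hjk)
    have hyy : ∀ j k, y j = y k → j = k := fun j k hjk => Sum.inr_injective (h1 hjk)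
    have hxy : ∀ j k, x j ≠ y k := by
      intro j k hjk
      have h3 : (Sum.inl j : Fin r ⊕ Fin r) = Sum.inr k := h1 hjk
      exact Sum.inl_ne_inr h3
    rintro (j | j) (k | k) hjk
    · congr 1
      revert hjk
      refine Fin.cases ?_ (fun j' => ?_) j
      · refine Fin.cases (fun _ => rfl) (fun k' hjk => ?_) k
        simp only [Sum.elim_inl, Fin.cons_zero, Fin.cons_succ] at hjk
        exact absurd hjk.symm (hx k').1
      · refine Fin.cases (fun hjk => ?_) (fun k' hjk => ?_) k
        · simp only [Sum.elim_inl, Fin.cons_zero, Fin.cons_succ] at hjk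
          exact absurd hjk (hx j').1
        · simp only [Sum.elim_inl, Fin.cons_succ] at hjk
          rw [hxx _ _ hjk]
    · exfalso
      revert hjk
      refine Fin.cases ?_ (fun j' => ?_) j
      · refine Fin.cases (fun hjk => ?_) (fun k' hjk => ?_) k
        · simp only [Sum.elim_inl, Sum.elim_inr, Fin.cons_zero] at hjk
          exact haa hjk
        · simp only [Sum.elim_inl, Sum.elim_inr, Fin.cons_zero, Fin.cons_succ] at hjk
          exact (hy k').1 hjk.symm
      · refine Fin.cases (fun hjk => ?_) (fun k' hjk => ?_) k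
        · simp only [Sum.elim_inl, Sum.elim_inr, Fin.cons_zero, Fin.cons_succ] at hjk
          exact (hx j').2.1 hjk
        · simp only [Sum.elim_inl, Sum.elim_inr, Fin.cons_succ] at hjk
          exact hxy _ _ hjk
    · exfalso
      revert hjk
      refine Fin.cases ?_ (fun j' => ?_) j
      · refine Fin.cases (fun hjk => ?_) (fun k' hjk => ?_) k
        · simp only [Sum.elim_inl, Sum.elim_inr, Fin.cons_zero] at hjk
          exact haa hjk.symm
        · simp only [Sum.elim_inl, Sum.elim_inr, Fin.cons_zero, Fin.cons_succ] at hjk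
          exact (hx k').2.1 hjk.symm
      · refine Fin.cases (fun hjk => ?_) (fun k' hjk => ?_) k
        · simp only [Sum.elim_inl, Sum.elim_inr, Fin.cons_zero, Fin.cons_succ] at hjk
          exact (hy j').1 hjk
        · simp only [Sum.elim_inl, Sum.elim_inr, Fin.cons_succ] at hjk
          exact hxy _ _ hjk.symm
    · congr 1
      revert hjk
      refine Fin.cases ?_ (fun j' => ?_) j
      · refine Fin.cases (fun _ => rfl) (fun k' hjk => ?_) k
        simp only [Sum.elim_inr, Fin.cons_zero, Fin.cons_succ] at hjk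
        exact absurd hjk.symm (hy k').2.1
      · refine Fin.cases (fun hjk => ?_) (fun k' hjk => ?_) k
        · simp only [Sum.elim_inr, Fin.cons_zero, Fin.cons_succ] at hjk
          exact absurd hjk (hy j').2.1
        · simp only [Sum.elim_inr, Fin.cons_succ] at hjk
          rw [hyy _ _ hjk]
  · intro c
    constructor
    · intro hc
      by_cases h3 : c = a
      · exact ⟨Sum.inl 0, by simp [h3]⟩
      by_cases h4 : c = a'
      · exact ⟨Sum.inr 0, by simp [h4]⟩
      obtain ⟨k, hk⟩ := (h2 c).1 (mem_erase.2 ⟨h4, mem_erase.2 ⟨h3, hc⟩⟩)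
      rcases k with k | k
      · exact ⟨Sum.inl k.succ, by simpa using hk⟩
      · exact ⟨Sum.inr k.succ, by simpa using hk⟩
    · rintro ⟨k | k, rfl⟩
      · refine Fin.cases ?_ (fun k' => ?_) k
        · simpa using ha
        · simpa using (hx k').2.2
      · refine Fin.cases ?_ (fun k' => ?_) k
        · simpa using ha'
        · simpa using (hy k').2.2
  · funext v
    rw [Fin.prod_univ_succ]
    simp only [Fin.cons_zero, Fin.cons_succ]

variable [Fintype α]

/-- permutations fixing the complement of `S` -/
def Hs (S : Finset α) : Subgroup (Equiv.Perm α) where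
  carrier := {σ | ∀ b ∉ S, σ b = b}
  mul_mem' {σ τ} hσ hτ b hb := by
    rw [Equiv.Perm.mul_apply, hτ b hb, hσ b hb]
  one_mem' _ _ := rfl
  inv_mem' {σ} hσ b hb := by
    rw [Equiv.Perm.inv_eq_iff_eq]
    exact (hσ b hb).symm

lemma Hs_iff {σ : Equiv.Perm α} (hσ : σ ∈ Hs S) (a : α) : σ a ∈ S ↔ a ∈ S := by
  constructor
  · intro h
    by_contra hc
    rw [hσ a hc] at h
    exact hc h
  · intro h
    by_contra hc
    have h1 : σ (σ a) = σ a := hσ _ hc
    rw [σ.injective h1] at hc
    exact hc h

/-- **First fundamental theorem, few variables.** -/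
theorem fft_orth {N : ℕ} {e w : Fin N → V} (hd : Dual ψ e w) (n : ℕ) :
    ∀ (S : Finset α), S.card = n → n < N → ∀ f : (α → V) → E, Ml S f → Inv ψ S f →
      f ∈ Submodule.span E {g | Mt ψ S g} := by
  classical
  induction n using Nat.strong_induction_on with
  | _ n ih =>
  intro S hS hn f hf hi
  rcases S.eq_empty_or_nonempty with rfl | ⟨a, ha⟩
  · have h1 : f = f 0 • (fun _ => (1 : E)) := by
      funext v
      rw [Pi.smul_apply, smul_eq_mul, mul_one]
      exact const_of hf v
    rw [h1]
    apply Submodule.smul_mem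
    apply Submodule.subset_span
    refine ⟨0, Fin.elim0, Fin.elim0, ?_, ?_, ?_⟩
    · rintro (j | j)
      · exact j.elim0
      · exact j.elim0
    · intro a
      constructor
      · intro h
        exact absurd h (notMem_empty a)
      · rintro ⟨j | j, _⟩
        · exact j.elim0
        · exact j.elim0
    · funext v
      simp
  -- the right-hand side of the contraction identity
  set g : (α → V) → E := fun v => ∑ a' ∈ S.erase a, ψ (v a) (v a') * Cn e w a a' f v with hg
  have hgm : g ∈ Submodule.span E {g | Mt ψ S g} := by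
    have h1 : g = ∑ a' ∈ S.erase a, fun v => ψ (v a) (v a') * Cn e w a a' f v := by
      funext v
      rw [Finset.sum_apply]
    rw [h1]
    apply Submodule.sum_mem
    intro a' ha'
    rw [mem_erase] at ha'
    have h2 : ((S.erase a).erase a').card < n := by
      rw [← hS]
      calc ((S.erase a).erase a').card ≤ (S.erase a).card := card_le_card (erase_subset _ _)
        _ < S.card := card_erase_lt_of_mem ha
    have h3 := ih _ h2 ((S.erase a).erase a') rfl (lt_trans h2 hn) (Cn e w a a' f)
      (hf.cn (Ne.symm ha'.1)) (hi.cn hd hf ha ha'.2 (Ne.symm ha'.1))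
    let M : ((α → V) → E) →ₗ[E] ((α → V) → E) :=
      { toFun := fun g v => ψ (v a) (v a') * g v
        map_add' := by
          intro g g'
          funext v
          simp only [Pi.add_apply]
          ring
        map_smul' := by
          intro c g
          funext v
          simp only [Pi.smul_apply, smul_eq_mul, RingHom.id_apply]
          ring }
    have h4 : (Submodule.span E {g | Mt ψ ((S.erase a).erase a') g}).map M ≤
        Submodule.span E {g | Mt ψ S g} := by
      rw [Submodule.map_span, Submodule.span_le]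
      rintro _ ⟨g, hg, rfl⟩
      exact Submodule.subset_span (Mt.mul ha ha'.2 (Ne.symm ha'.1) hg)
    exact h4 (Submodule.mem_map_of_mem h3)
  -- inverting
  let t : α → Hs S := fun j => if hj : j ∈ S then ⟨Equiv.swap a j, by
    intro b hb
    exact Equiv.swap_apply_of_ne_of_ne (fun h => hb (h ▸ ha)) (fun h => hb (h ▸ hj))⟩ else 1
  have ht : ∀ j ∈ S, ((t j : Hs S) : Equiv.Perm α) = Equiv.swap a j := by
    intro j hj
    simp only [t]
    rw [dif_pos hj]
  obtain ⟨x, hx⟩ := exists_inverse (H := Hs S) (S.erase a) t ((N : ℚ) - 1) (by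
    rw [card_erase_of_mem ha, hS]
    have h1 : 0 < n := by
      rw [← hS]
      exact card_pos.2 ⟨a, ha⟩
    rw [Nat.cast_sub h1]
    have h2 : (n : ℚ) < N := by exact_mod_cast hn
    push_cast
    linarith)
  have hfx : f = ∑ τ : Hs S, (x τ : E) • fun v => g (fun i => v ((τ : Equiv.Perm α) i)) := by
    funext v
    rw [Finset.sum_apply]
    simp only [Pi.smul_apply, smul_eq_mul]
    have h1 : ∀ τ : Hs S, g (fun i => v ((τ : Equiv.Perm α) i)) =
        ((N : E) - 1) * f (fun i => v ((τ : Equiv.Perm α) i)) +
          ∑ j ∈ S.erase a, f (fun i => v (((τ * t j : Hs S) : Equiv.Perm α) i)) := by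
      intro τ
      have h0 := contraction hd hf hi ha (fun i => v ((τ : Equiv.Perm α) i))
      rw [hg]
      refine h0.symm.trans ?_
      congr 1
      refine sum_congr rfl fun j hj => ?_
      rw [mem_erase] at hj
      congr 1
      funext i
      rw [Subgroup.coe_mul, ht j hj.2]
      rfl
    have h2 : ∑ τ : Hs S, (x τ : E) * g (fun i => v ((τ : Equiv.Perm α) i)) =
        ∑ τ : Hs S, (((((N : ℚ) - 1) * x τ + ∑ j ∈ S.erase a, x (τ * (t j)⁻¹) : ℚ) : E)) *
          f (fun i => v ((τ : Equiv.Perm α) i)) := by
      have h3 : ∀ j ∈ S.erase a,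
          ∑ τ : Hs S, (x τ : E) * f (fun i => v (((τ * t j : Hs S) : Equiv.Perm α) i)) =
          ∑ τ : Hs S, (x (τ * (t j)⁻¹) : E) * f (fun i => v ((τ : Equiv.Perm α) i)) := by
        intro j _
        refine Fintype.sum_equiv (Equiv.mulRight (t j)) _ _ fun τ => ?_
        rw [Equiv.coe_mulRight, mul_inv_cancel_right]
      simp only [h1, mul_add, mul_sum]
      rw [sum_add_distrib, sum_comm, sum_congr rfl h3]
      push_cast
      simp only [add_mul, sum_mul]
      rw [sum_add_distrib]
      congr 1
      · refine sum_congr rfl fun τ _ => ?_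
        ring
      · rw [sum_comm]
    rw [h2]
    simp only [hx]
    rw [sum_eq_single 1]
    · simp
    · intro τ _ hτ
      rw [if_neg hτ]
      simp
    · simp
  rw [hfx]
  apply Submodule.sum_mem
  intro τ _
  apply Submodule.smul_mem
  let M : ((α → V) → E) →ₗ[E] ((α → V) → E) :=
    { toFun := fun g v => g (fun i => v ((τ : Equiv.Perm α) i))
      map_add' := fun _ _ => rfl
      map_smul' := fun _ _ => rfl }
  have h4 : (Submodule.span E {g | Mt ψ S g}).map M ≤ Submodule.span E {g | Mt ψ S g} := by
    rw [Submodule.map_span, Submodule.span_le]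
    rintro _ ⟨g, hg, rfl⟩
    exact Submodule.subset_span (hg.perm _ (Hs_iff τ.2))
  exact h4 (Submodule.mem_map_of_mem hgm)

end Pool.Agent.H93Tate.Bos
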