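import Mathlib

/-! Derivations, contractions and number operators on an exterior algebra. -/

set_option linter.unusedSectionVars false

namespace Pool.Agent.H93Tate.Fft

open ExteriorAlgebra

variable {K : Type*} [Field K] {U : Type*} [AddCommGroup U] [Module K U]
variable {P : Type*} [Fintype P] [DecidableEq P]

/-- contraction with a functional -/
noncomputable def ct (φ : Module.Dual K U) : Module.End K (ExteriorAlgebra K U) :=
  CliffordAlgebra.contractLeft (Q := (0 : QuadraticForm K U)) φ

lemma ct_ι_mul (φ : Module.Dual K U) (v : U) (x : ExteriorAlgebra K U) :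
    ct φ (ι K v * x) = φ v • x - ι K v * ct φ x :=
  CliffordAlgebra.contractLeft_ι_mul (Q := (0 : QuadraticForm K U)) φ v x

lemma ct_one (φ : Module.Dual K U) : ct φ (1 : ExteriorAlgebra K U) = 0 :=
  CliffordAlgebra.contractLeft_one (Q := (0 : QuadraticForm K U)) φ

lemma ct_ct (φ χ : Module.Dual K U) (x : ExteriorAlgebra K U) :
    ct φ (ct χ x) = - ct χ (ct φ x) :=
  CliffordAlgebra.contractLeft_comm (Q := (0 : QuadraticForm K U)) φ χ x

lemma ct_add (φ χ : Module.Dual K U) (x : ExteriorAlgebra K U) :
    ct (φ + χ) x = ct φ x + ct χ x := by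
  simp [ct]

lemma ct_sub (φ χ : Module.Dual K U) (x : ExteriorAlgebra K U) :
    ct (φ - χ) x = ct φ x - ct χ x := by
  simp [ct]

lemma ct_smul (c : K) (φ : Module.Dual K U) (x : ExteriorAlgebra K U) :
    ct (c • φ) x = c • ct φ x := by
  simp [ct]

/-- left multiplication by a vector -/
noncomputable def cr (v : U) : Module.End K (ExteriorAlgebra K U) :=
  LinearMap.mulLeft K (ι K v)

@[simp] lemma cr_apply (v : U) (x : ExteriorAlgebra K U) : cr (K := K) v x = ι K v * x := rfl

lemma cr_cr (v w : U) : cr (K := K) v * cr w = - (cr w * cr v) := by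
  apply LinearMap.ext
  intro x
  show ι K v * (ι K w * x) = - (ι K w * (ι K v * x))
  rw [← mul_assoc, ← mul_assoc, ← neg_mul]
  congr 1
  exact eq_neg_of_add_eq_zero_left (ι_add_mul_swap v w)

lemma ct_cr (φ : Module.Dual K U) (v : U) :
    ct φ * cr (K := K) v = φ v • 1 - cr v * ct φ := by
  apply LinearMap.ext
  intro x
  show ct φ (ι K v * x) = _
  rw [ct_ι_mul]
  rfl

lemma ct_ct_op (φ χ : Module.Dual K U) : ct φ * ct χ = - (ct χ * ct (K := K) φ) := by
  apply LinearMap.ext
  intro x
  exact ct_ct φ χ x

/-- induction principle -/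
lemma ext_induction {C : ExteriorAlgebra K U → Prop} (h1 : C 1)
    (hadd : ∀ x y, C x → C y → C (x + y)) (hsmul : ∀ (a : K) x, C x → C (a • x))
    (hmul : ∀ v x, C x → C (ι K v * x)) (x : ExteriorAlgebra K U) : C x := by
  have h : ∀ x y : ExteriorAlgebra K U, C y → C (x * y) := by
    intro x
    induction x using ExteriorAlgebra.induction with
    | algebraMap r =>
      intro y hy
      rw [← Algebra.smul_def]
      exact hsmul r y hy
    | ι v => intro y hy; exact hmul v y hy
    | mul a b ha hb => intro y hy; rw [mul_assoc]; exact ha _ (hb _ hy)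
    | add a b ha hb => intro y hy; rw [add_mul]; exact hadd _ _ (ha _ hy) (hb _ hy)
  have := h x 1 h1
  rwa [mul_one] at this

variable (e : Module.Basis P K U)

/-- the derivation of the exterior algebra extending an endomorphism -/
noncomputable def dv (f : Module.End K U) : Module.End K (ExteriorAlgebra K U) :=
  ∑ p, cr (f (e p)) * ct (e.coord p)

lemma dv_apply (f : Module.End K U) (x : ExteriorAlgebra K U) :
    dv e f x = ∑ p, ι K (f (e p)) * ct (e.coord p) x := by
  simp [dv, LinearMap.sum_apply]

lemma dv_one (f : Module.End K U) : dv e f (1 : ExteriorAlgebra K U) = 0 := by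
  rw [dv_apply]
  apply Finset.sum_eq_zero
  intro p _
  rw [ct_one, mul_zero]

lemma dv_ι_mul (f : Module.End K U) (v : U) (x : ExteriorAlgebra K U) :
    dv e f (ι K v * x) = ι K (f v) * x + ι K v * dv e f x := by
  rw [dv_apply, dv_apply, Finset.mul_sum]
  have h1 : ι K (f v) * x = ∑ p, ι K (f (e p)) * (e.coord p v • x) := by
    conv_lhs => rw [← e.sum_repr v]
    rw [map_sum, map_sum, Finset.sum_mul]
    apply Finset.sum_congr rfl
    intro p _
    rw [map_smul, map_smul, smul_mul_assoc, mul_smul_comm]
    rfl
  rw [h1, ← Finset.sum_add_distrib]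
  apply Finset.sum_congr rfl
  intro p _
  rw [ct_ι_mul, mul_sub, sub_eq_add_neg]
  congr 1
  rw [← mul_assoc, ← mul_assoc, ← neg_mul]
  congr 1
  rw [neg_eq_iff_add_eq_zero]
  exact ι_add_mul_swap _ _

lemma dv_ι (f : Module.End K U) (v : U) : dv e f (ι K v) = ι K (f v) := by
  have := dv_ι_mul e f v 1
  rwa [dv_one, mul_one, mul_one, mul_zero, add_zero] at this

lemma dv_mul (f : Module.End K U) (x y : ExteriorAlgebra K U) :
    dv e f (x * y) = dv e f x * y + x * dv e f y := by
  induction x using ext_induction with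
  | h1 => rw [one_mul, one_mul, dv_one, zero_mul, zero_add]
  | hadd a b ha hb => rw [add_mul, map_add, ha, hb, map_add]; noncomm_ring
  | hsmul c a ha => rw [smul_mul_assoc, map_smul, ha, map_smul, smul_mul_assoc, smul_mul_assoc,
      smul_add]
  | hmul v a ha => rw [mul_assoc, dv_ι_mul, ha, dv_ι_mul]; noncomm_ring

lemma dv_comm (f g : Module.End K U) (x : ExteriorAlgebra K U) :
    dv e f (dv e g x) = dv e g (dv e f x) + dv e (f * g - g * f) x := by
  induction x using ext_induction with
  | h1 => simp only [dv_one, map_zero, add_zero]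
  | hadd a b ha hb => simp only [map_add, ha, hb]; abel
  | hsmul c a ha => simp only [map_smul, ha, smul_add]
  | hmul v a ha =>
    simp only [dv_ι_mul, map_add, ha]
    have : (f * g - g * f) v = f (g v) - g (f v) := rfl
    rw [this, map_sub]
    noncomm_ring

lemma dv_ct (f : Module.End K U) (φ : Module.Dual K U) (x : ExteriorAlgebra K U) :
    dv e f (ct φ x) = ct φ (dv e f x) - ct (φ ∘ₗ f) x := by
  induction x using ext_induction with
  | h1 => simp only [dv_one, ct_one, map_zero, sub_zero]
  | hadd a b ha hb => simp only [map_add, ha, hb]; abel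
  | hsmul c a ha => simp only [map_smul, ha, smul_sub]
  | hmul v a ha =>
    simp only [dv_ι_mul, ct_ι_mul, map_sub, map_add, map_smul, ha, LinearMap.comp_apply]
    noncomm_ring

lemma dv_unique (f : Module.End K U) (D : Module.End K (ExteriorAlgebra K U)) (h1 : D 1 = 0)
    (hD : ∀ v x, D (ι K v * x) = ι K (f v) * x + ι K v * D x) : D = dv e f := by
  apply LinearMap.ext
  intro x
  induction x using ext_induction with
  | h1 => rw [h1, dv_one]
  | hadd a b ha hb => rw [map_add, map_add, ha, hb]
  | hsmul c a ha => rw [map_smul, map_smul, ha]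
  | hmul v a ha => rw [hD, dv_ι_mul, ha]

lemma dv_add (f g : Module.End K U) : dv e (f + g) = dv e f + dv e g := by
  simp only [dv, LinearMap.add_apply, ← Finset.sum_add_distrib]
  apply Finset.sum_congr rfl
  intro p _
  rw [← add_mul]
  congr 1
  apply LinearMap.ext
  intro x
  simp [add_mul]

lemma dv_sub (f g : Module.End K U) : dv e (f - g) = dv e f - dv e g := by
  rw [eq_sub_iff_add_eq, ← dv_add, sub_add_cancel]

lemma dv_smul (c : K) (f : Module.End K U) : dv e (c • f) = c • dv e f := by
  simp only [dv, LinearMap.smul_apply, Finset.smul_sum]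
  apply Finset.sum_congr rfl
  intro p _
  rw [← smul_mul_assoc]
  congr 1
  apply LinearMap.ext
  intro x
  simp

/-- the number operators -/
noncomputable def nb (p : P) : Module.End K (ExteriorAlgebra K U) := cr (e p) * ct (e.coord p)

lemma coord_self (p q : P) : e.coord p (e q) = if q = p then 1 else 0 := by
  rw [Module.Basis.coord_apply, Module.Basis.repr_self, Finsupp.single_apply]

lemma idem_aux {R : Type*} [Ring R] (c a : R) (h1 : a * c = 1 - c * a) (h2 : a * a = 0) :
    c * a * (c * a) = c * a := by
  calc c * a * (c * a) = c * (a * c) * a := by noncomm_ring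
    _ = c * a - c * c * (a * a) := by rw [h1]; noncomm_ring
    _ = c * a := by rw [h2, mul_zero, sub_zero]

lemma comm_aux {R : Type*} [Ring R] (c a c' a' : R) (h1 : a * c' = - (c' * a))
    (h2 : a' * c = - (c * a')) (h3 : c * c' = - (c' * c)) (h4 : a * a' = - (a' * a)) :
    c * a * (c' * a') = c' * a' * (c * a) := by
  calc c * a * (c' * a') = c * (a * c') * a' := by noncomm_ring
    _ = - (c * c' * (a * a')) := by rw [h1]; noncomm_ring
    _ = - (c' * c * (a' * a)) := by rw [h3, h4]; noncomm_ring
    _ = c' * (a' * c) * a := by rw [h2]; noncomm_ring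
    _ = _ := by noncomm_ring

lemma nb_idem (p : P) : nb e p * nb e p = nb e p := by
  apply idem_aux
  · have := ct_cr (K := K) (e.coord p) (e p)
    rw [coord_self, if_pos rfl, one_smul] at this
    exact this
  · apply LinearMap.ext
    intro x
    exact CliffordAlgebra.contractLeft_contractLeft (Q := (0 : QuadraticForm K U)) _ _

lemma ct_cr_ne {p q : P} (h : q ≠ p) :
    ct (e.coord p) * cr (K := K) (e q) = - (cr (e q) * ct (e.coord p)) := by
  have := ct_cr (K := K) (e.coord p) (e q)
  rw [coord_self, if_neg h, zero_smul, zero_sub] at this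
  exact this

lemma nb_comm (p q : P) : nb e p * nb e q = nb e q * nb e p := by
  by_cases h : p = q
  · rw [h]
  exact comm_aux _ _ _ _ (ct_cr_ne e (Ne.symm h)) (ct_cr_ne e h) (cr_cr _ _) (ct_ct_op _ _)

end Pool.Agent.H93Tate.Fft
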