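import Pool.Agent.H91.Mono.Zar2
import Pool.Agent.H93Tate.Fft1

/-! Lie algebras of Zariski closures: subgroups of finite index, action on exterior algebras. -/

set_option linter.unusedSectionVars false

namespace Pool.Agent.H93Tate.Fft

open MvPolynomial Pool.Agent.H91.Mono

variable {K : Type*} [Field K] {V : Type*} [AddCommGroup V] [Module K V]

lemma ev_one_mul (f g : MvPolynomial (Module.Dual K (Module.End K V)) K) :
    ev 1 (f * g) = ev 1 f * ev (1 : Module.End K V) g := map_mul _ _ _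

lemma inCl_pow {Γ : Subgroup (V ≃ₗ[K] V)} {g : Module.End K V} (hg : InCl Γ g) (k : ℕ) :
    InCl Γ (g ^ k) := by
  induction k with
  | zero => rw [pow_zero]; exact inCl_one
  | succ k ih => rw [pow_succ]; exact inCl_mul ih hg

/-- the Lie algebra is insensitive to passing to a subgroup of finite index -/
lemma lie_finiteIndex {Γ : Subgroup (V ≃ₗ[K] V)} (Δ : Subgroup Γ) (hΔ : Δ.FiniteIndex) :
    lie Γ ≤ lie (Δ.map Γ.subtype) := by
  classical
  intro x hx f hf
  set Γ0 := Δ.map Γ.subtype with hΓ0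
  have hmem : ∀ δ : Γ, δ ∈ Δ → (δ : V ≃ₗ[K] V) ∈ Γ0 := fun δ hδ => ⟨δ, hδ, rfl⟩
  have hfin : Finite (Γ ⧸ Δ) := Subgroup.finite_quotient_of_finiteIndex
  have hft : Fintype (Γ ⧸ Δ) := Fintype.ofFinite _
  -- a polynomial for each coset outside the closure
  have hsep : ∀ γ : Γ, ¬ InCl Γ0 (((γ : V ≃ₗ[K] V)) : Module.End K V) →
      ∃ g : MvPolynomial (Module.Dual K (Module.End K V)) K, ev 1 g ≠ 0 ∧
        ∀ δ : Γ, δ ∈ Δ → ev (((γ * δ : Γ) : V ≃ₗ[K] V) : Module.End K V) g = 0 := by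
    intro γ hγ
    by_contra hcon
    push Not at hcon
    apply hγ
    have h1 : InCl Γ0 ((((γ⁻¹ : Γ) : V ≃ₗ[K] V)) : Module.End K V) := by
      intro g hg
      by_contra hne
      obtain ⟨δ, hδ, h2⟩ := hcon (lt ((((γ⁻¹ : Γ) : V ≃ₗ[K] V)) : Module.End K V) g) (by
        rw [ev_lt, mul_one]; exact hne)
      apply h2
      rw [ev_lt]
      have h3 : ((((γ⁻¹ : Γ) : V ≃ₗ[K] V)) : Module.End K V) *
          ((((γ * δ : Γ) : V ≃ₗ[K] V)) : Module.End K V) =
          (((γ⁻¹ * (γ * δ) : Γ) : V ≃ₗ[K] V) : Module.End K V) := rfl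
      rw [h3, inv_mul_cancel_left]
      exact hg δ (hmem δ hδ)
    obtain ⟨k, hk, -, hkΔ⟩ := Subgroup.exists_pow_mem_of_index_ne_zero hΔ.index_ne_zero γ
    have h2 : (((γ : V ≃ₗ[K] V)) : Module.End K V) =
        (((γ ^ k : Γ) : V ≃ₗ[K] V) : Module.End K V) *
          ((((γ⁻¹ : Γ) : V ≃ₗ[K] V)) : Module.End K V) ^ (k - 1) := by
      have h3 : ∀ j : ℕ, ((((γ⁻¹ : Γ) : V ≃ₗ[K] V)) : Module.End K V) ^ j =
          (((γ⁻¹ ^ j : Γ) : V ≃ₗ[K] V) : Module.End K V) := by
        intro j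
        induction j with
        | zero => rfl
        | succ j ih => rw [pow_succ, ih, pow_succ]; rfl
      rw [h3]
      have h4 : γ = γ ^ k * γ⁻¹ ^ (k - 1) := by
        obtain ⟨j, rfl⟩ : ∃ j, k = j + 1 := ⟨k - 1, by omega⟩
        rw [Nat.add_sub_cancel, inv_pow, pow_succ', mul_assoc, mul_inv_cancel, mul_one]
      conv_lhs => rw [h4]
      rfl
    rw [h2]
    exact inCl_mul (inCl_of_mem (hmem _ hkΔ)) (inCl_pow h1 _)
  let g : Γ ⧸ Δ → MvPolynomial (Module.Dual K (Module.End K V)) K := fun q =>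
    if h : InCl Γ0 (((q.out : V ≃ₗ[K] V)) : Module.End K V) then 1
    else (hsep q.out h).choose
  have hg1 : ∀ q, ev (1 : Module.End K V) (g q) ≠ 0 := by
    intro q
    simp only [g]
    split_ifs with h
    · rw [map_one]; exact one_ne_zero
    · exact (hsep q.out h).choose_spec.1
  have hVan : Van Γ (f * ∏ q, g q) := by
    intro γ hγ
    rw [map_mul, map_prod]
    let γ' : Γ := ⟨γ, hγ⟩
    let q : Γ ⧸ Δ := (γ' : Γ ⧸ Δ)
    have h1 : q.out⁻¹ * γ' ∈ Δ := by
      rw [← QuotientGroup.eq]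
      exact Quotient.out_eq' q
    have h2 : γ' = q.out * (q.out⁻¹ * γ') := by group
    by_cases h : InCl Γ0 (((q.out : V ≃ₗ[K] V)) : Module.End K V)
    · have h3 : InCl Γ0 (γ : Module.End K V) := by
        have h4 := inCl_mul h (inCl_of_mem (hmem _ h1))
        have h5 : (((q.out : V ≃ₗ[K] V)) : Module.End K V) *
            (((q.out⁻¹ * γ' : Γ) : V ≃ₗ[K] V) : Module.End K V) =
            (((q.out * (q.out⁻¹ * γ') : Γ) : V ≃ₗ[K] V) : Module.End K V) := rfl
        rw [h5, ← h2] at h4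
        exact h4
      rw [h3 f hf, zero_mul]
    · rw [Finset.prod_eq_zero (Finset.mem_univ q), mul_zero]
      simp only [g]
      rw [dif_neg h]
      have h3 := (hsep q.out h).choose_spec.2 _ h1
      rw [← h2] at h3
      exact h3
  have h1 := hx _ hVan
  have h2 : ev (1 : Module.End K V) f = 0 := by
    have h3 := hf 1 Γ0.one_mem
    exact h3
  rw [pd_mul, h2, zero_mul, zero_add, map_prod] at h1
  rcases mul_eq_zero.1 h1 with h3 | h3
  · exact absurd h3 (Finset.prod_ne_zero_iff.2 fun q _ => hg1 q)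
  · exact h3

lemma pd_sum {α : Type*} (x : Module.End K V) (s : Finset α)
    (f : α → MvPolynomial (Module.Dual K (Module.End K V)) K) :
    pd x (∑ k ∈ s, f k) = ∑ k ∈ s, pd x (f k) := by
  simp [pd]

lemma pd_sub (x : Module.End K V) (f g : MvPolynomial (Module.Dual K (Module.End K V)) K) :
    pd x (f - g) = pd x f - pd x g := by
  simp [pd]

section Ext

variable {ι : Type*} [Fintype ι] {m : ℕ}

lemma pi_expand (b : Module.Basis ι K V) (g : Module.End K V) (v : Fin m → V) :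
    g.compLeft (Fin m) v = ∑ a, ∑ i, (b.coord i (g (v a))) • Pi.single a (b i) := by
  have h1 : ∀ a : Fin m, ∑ i, (b.coord i (g (v a))) • (Pi.single a (b i) : Fin m → V) =
      Pi.single a (g (v a)) := by
    intro a
    have h2 : ∀ i, (b.coord i (g (v a))) • (Pi.single a (b i) : Fin m → V) =
        LinearMap.single K (fun _ : Fin m => V) a ((b.coord i (g (v a))) • b i) := by
      intro i
      rw [map_smul]
      rfl
    rw [Finset.sum_congr rfl fun i _ => h2 i, ← map_sum]
    have h3 := b.sum_repr (g (v a))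
    simp only [Module.Basis.coord_apply]
    rw [h3]
    rfl
  rw [Finset.sum_congr rfl fun a _ => h1 a]
  ext a
  rw [Finset.sum_apply, Finset.sum_eq_single a]
  · rw [Pi.single_eq_same]
    rfl
  · intro a' _ ha'
    rw [Pi.single_eq_of_ne (Ne.symm ha')]
  · simp

/-- matrix coefficients of the exterior powers are polynomial, with the expected derivative -/
lemma poly_repr (b : Module.Basis ι K V) (t : ExteriorAlgebra K (Fin m → V)) :
    ∀ φ : Module.Dual K (ExteriorAlgebra K (Fin m → V)),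
      ∃ f : MvPolynomial (Module.Dual K (Module.End K V)) K,
        (∀ g : Module.End K V, ev g f = φ (ExteriorAlgebra.map (g.compLeft (Fin m)) t)) ∧
        ∀ (x : Module.End K V) (D : Module.End K (ExteriorAlgebra K (Fin m → V))), D 1 = 0 →
          (∀ v s, D (ExteriorAlgebra.ι K v * s) =
            ExteriorAlgebra.ι K (x.compLeft (Fin m) v) * s + ExteriorAlgebra.ι K v * D s) →
          pd x f = φ (D t) := by
  induction t using ext_induction with
  | h1 =>
    intro φ
    refine ⟨C (φ 1), ?_, ?_⟩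
    · intro g
      rw [map_one (ExteriorAlgebra.map (g.compLeft (Fin m)))]
      simp [ev]
    · intro x D hD1 _
      rw [hD1, map_zero, pd_C]
  | hadd s t hs ht =>
    intro φ
    obtain ⟨f, hf1, hf2⟩ := hs φ
    obtain ⟨g, hg1, hg2⟩ := ht φ
    refine ⟨f + g, ?_, ?_⟩
    · intro γ
      rw [map_add, hf1, hg1, map_add, map_add]
    · intro x D h1 h2
      rw [pd_add, hf2 x D h1 h2, hg2 x D h1 h2, map_add, map_add]
  | hsmul c s hs =>
    intro φ
    obtain ⟨f, hf1, hf2⟩ := hs φ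
    refine ⟨C c * f, ?_, ?_⟩
    · intro γ
      rw [map_mul, hf1, map_smul, map_smul]
      simp [ev]
    · intro x D h1 h2
      rw [pd_mul, pd_C, hf2 x D h1 h2, map_smul, map_smul]
      simp [ev]
  | hmul v s hs =>
    intro φ
    have h := fun (q : Fin m × ι) => hs (φ ∘ₗ LinearMap.mulLeft K
      (ExteriorAlgebra.ι K (Pi.single q.1 (b q.2) : Fin m → V)))
    choose f hf1 hf2 using h
    refine ⟨∑ q : Fin m × ι, X (coefF (b.coord q.2) (v q.1)) * f q, ?_, ?_⟩
    · intro g
      rw [map_sum, map_mul, ExteriorAlgebra.map_apply_ι, pi_expand b g v,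
        ← Fintype.sum_prod_type' (f := fun a i => (b.coord i (g (v a))) •
          (Pi.single a (b i) : Fin m → V)), map_sum, Finset.sum_mul, map_sum]
      refine Finset.sum_congr rfl fun q _ => ?_
      rw [map_mul, ev_X, coefF_apply, hf1, map_smul, smul_mul_assoc, map_smul, smul_eq_mul]
      rfl
    · intro x D h1 h2
      have hv : v = (1 : Module.End K V).compLeft (Fin m) v := rfl
      rw [pd_sum, h2, map_add]
      conv_rhs =>
        enter [2]
        rw [hv, pi_expand b 1 v, ← Fintype.sum_prod_type' (f := fun a i =>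
          (b.coord i ((1 : Module.End K V) (v a))) • (Pi.single a (b i) : Fin m → V)), map_sum,
          Finset.sum_mul, map_sum]
      rw [pi_expand b x v, ← Fintype.sum_prod_type' (f := fun a i => (b.coord i (x (v a))) •
          (Pi.single a (b i) : Fin m → V)), map_sum, Finset.sum_mul, map_sum,
          ← Finset.sum_add_distrib]
      refine Finset.sum_congr rfl fun q _ => ?_
      rw [pd_mul, pd_X, ev_X, hf2 q x D h1 h2, hf1, coefF_apply, coefF_apply, map_smul,
        smul_mul_assoc, map_smul, smul_eq_mul, map_smul, smul_mul_assoc, map_smul, smul_eq_mul]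
      have h3 : ExteriorAlgebra.map ((1 : Module.End K V).compLeft (Fin m)) s = s := by
        have : (1 : Module.End K V).compLeft (Fin m) = LinearMap.id := rfl
        rw [this, ExteriorAlgebra.map_id]
        rfl
      rw [h3]
      simp only [LinearMap.comp_apply, LinearMap.mulLeft_apply]
      ring

/-- **Infinitesimal invariance.** -/
lemma lie_kills (b : Module.Basis ι K V) (ψ : V →ₗ[K] V →ₗ[K] K) (u₀ v₀ : V)
    (h0 : ψ u₀ v₀ ≠ 0) {Γ : Subgroup (V ≃ₗ[K] V)} {x : Module.End K V} (hx : x ∈ lie Γ)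
    (hskew : ∀ u v, ψ (x u) v + ψ u (x v) = 0) (i : ℕ) (t : ExteriorAlgebra K (Fin m → V))
    (ht : ∀ γ ∈ Γ, ∃ μ : K, (∀ u v, ψ ((γ : V ≃ₗ[K] V) u) ((γ : V ≃ₗ[K] V) v) = μ * ψ u v) ∧
      ExteriorAlgebra.map (((γ : V ≃ₗ[K] V) : V →ₗ[K] V).compLeft (Fin m)) t = μ ^ i • t)
    (D : Module.End K (ExteriorAlgebra K (Fin m → V))) (hD1 : D 1 = 0)
    (hD : ∀ v s, D (ExteriorAlgebra.ι K v * s) =
      ExteriorAlgebra.ι K (x.compLeft (Fin m) v) * s + ExteriorAlgebra.ι K v * D s) :
    D t = 0 := by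
  rw [← Module.forall_dual_apply_eq_zero_iff K]
  intro φ
  obtain ⟨f, hf1, hf2⟩ := poly_repr b t φ
  let q : MvPolynomial (Module.Dual K (Module.End K V)) K :=
    ∑ p : ι × ι, C ((ψ u₀ v₀)⁻¹ * ψ (b p.1) (b p.2)) *
      (X (coefF (b.coord p.1) u₀) * X (coefF (b.coord p.2) v₀))
  have hψ : ∀ u v, ψ u v = ∑ p : ι × ι, ψ (b p.1) (b p.2) * (b.coord p.1 u * b.coord p.2 v) := by
    intro u v
    conv_lhs => rw [← b.sum_repr u, ← b.sum_repr v]
    rw [map_sum ψ, LinearMap.sum_apply, Fintype.sum_prod_type]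
    refine Finset.sum_congr rfl fun i _ => ?_
    rw [map_sum]
    refine Finset.sum_congr rfl fun j _ => ?_
    simp only [map_smul, LinearMap.smul_apply, smul_eq_mul, Module.Basis.coord_apply]
    ring
  have hq : ∀ g : Module.End K V, ev g q = (ψ u₀ v₀)⁻¹ * ψ (g u₀) (g v₀) := by
    intro g
    rw [hψ (g u₀) (g v₀), Finset.mul_sum, map_sum]
    refine Finset.sum_congr rfl fun p _ => ?_
    have : ev g (C ((ψ u₀ v₀)⁻¹ * ψ (b p.1) (b p.2))) = (ψ u₀ v₀)⁻¹ * ψ (b p.1) (b p.2) := by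
      simp [ev]
    rw [map_mul, this, map_mul, ev_X, ev_X, coefF_apply, coefF_apply]
    ring
  have hpq : pd x q = 0 := by
    have h1 : pd x q = (ψ u₀ v₀)⁻¹ * (ψ (x u₀) v₀ + ψ u₀ (x v₀)) := by
      rw [hψ (x u₀) v₀, hψ u₀ (x v₀), ← Finset.sum_add_distrib, Finset.mul_sum, pd_sum]
      refine Finset.sum_congr rfl fun p _ => ?_
      rw [pd_mul, pd_C, mul_zero, add_zero, pd_mul, pd_X, pd_X, ev_X, ev_X]
      have : ev (1 : Module.End K V) (C ((ψ u₀ v₀)⁻¹ * ψ (b p.1) (b p.2))) =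
          (ψ u₀ v₀)⁻¹ * ψ (b p.1) (b p.2) := by
        simp [ev]
      rw [this]
      simp only [coefF_apply, Module.End.one_apply]
      ring
    rw [h1, hskew, mul_zero]
  have hpqi : ∀ j : ℕ, pd x (q ^ j) = 0 := by
    intro j
    induction j with
    | zero =>
      have := pd_C x (1 : K)
      rw [map_one] at this
      rwa [pow_zero]
    | succ j ih => rw [pow_succ, pd_mul, hpq, ih, mul_zero, mul_zero, add_zero]
  have hvan : Van Γ (f - q ^ i * C (φ t)) := by
    intro γ hγ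
    obtain ⟨μ, h1, h2⟩ := ht γ hγ
    have h3 : ev (γ : Module.End K V) (q ^ i) = μ ^ i := by
      rw [map_pow, hq]
      have h4 := h1 u₀ v₀
      have h5 : ψ ((γ : Module.End K V) u₀) ((γ : Module.End K V) v₀) = μ * ψ u₀ v₀ := h4
      rw [h5, mul_comm μ, ← mul_assoc, inv_mul_cancel₀ h0, one_mul]
    have h6 : ev (γ : Module.End K V) (C (φ t)) = φ t := by simp [ev]
    rw [map_sub, map_mul, h3, h6, hf1]
    have h7 : ExteriorAlgebra.map ((γ : Module.End K V).compLeft (Fin m)) t = μ ^ i • t := h2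
    rw [h7, map_smul, smul_eq_mul, sub_self]
  have h1 := hx _ hvan
  rw [pd_sub, pd_mul, pd_C, hpqi, mul_zero, mul_zero, add_zero, sub_zero, hf2 x D hD1 hD] at h1
  exact h1

end Ext

end Pool.Agent.H93Tate.Fft
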