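import Pool.Agent.H93Tate.Bos2
import Pool.Agent.H93Tate.LieExt
import Pool.Agent.H91.Mono.Gal3

/-! From semi-invariance under a group to infinitesimal invariance, multilinear forms. -/

set_option linter.unusedSectionVars false

namespace Pool.Agent.H93Tate.Bos

open MvPolynomial Pool.Agent.H91.Mono Pool.Agent.H93Tate.Fft

section Poly

variable {K : Type*} [Field K] {V : Type*} [AddCommGroup V] [Module K V]
variable {ι : Type*} [Fintype ι] {α : Type*} [Fintype α] [DecidableEq α]

lemma pd_prod (x : Module.End K V) (φ : α → Module.Dual K (Module.End K V)) (T : Finset α) :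
    pd x (∏ a ∈ T, X (φ a)) = ∑ a ∈ T, φ a x * ∏ a' ∈ T.erase a, φ a' 1 := by
  induction T using Finset.induction_on with
  | empty =>
    have := pd_C x (1 : K)
    rw [map_one] at this
    rw [Finset.prod_empty, Finset.sum_empty, this]
  | insert a T ha ih =>
    rw [Finset.prod_insert ha, pd_mul, ih, ev_X, pd_X, Finset.sum_insert ha,
      Finset.erase_insert ha, map_prod]
    simp only [ev_X]
    rw [Finset.mul_sum, add_comm, mul_comm]
    congr 1
    refine Finset.sum_congr rfl fun a' ha' => ?_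
    have h1 : a ≠ a' := fun h => ha (h ▸ ha')
    rw [Finset.erase_insert_of_ne h1, Finset.prod_insert (fun h => ha (Finset.mem_of_mem_erase h))]
    ring

/-- values of a multilinear form are polynomial, with the expected derivative -/
lemma poly_ml (b : Module.Basis ι K V) (f : MultilinearMap K (fun _ : α => V) K) (v : α → V) :
    ∃ Φ : MvPolynomial (Module.Dual K (Module.End K V)) K,
      (∀ g : Module.End K V, ev g Φ = f (fun a => g (v a))) ∧
      ∀ x : Module.End K V, pd x Φ = ∑ a, f (Function.update v a (x (v a))) := by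
  classical
  have hexp : ∀ u : α → V, f u = ∑ r : α → ι, (∏ a, b.coord (r a) (u a)) * f (fun a => b (r a)) := by
    intro u
    have h1 : u = fun a => ∑ i, b.coord i (u a) • b i := by
      funext a
      simp only [Module.Basis.coord_apply]
      exact (b.sum_repr (u a)).symm
    conv_lhs => rw [h1]
    rw [MultilinearMap.map_sum]
    refine Finset.sum_congr rfl fun r _ => ?_
    rw [MultilinearMap.map_smul_univ, smul_eq_mul]
  refine ⟨∑ r : α → ι, C (f (fun a => b (r a))) * ∏ a, X (coefF (b.coord (r a)) (v a)), ?_, ?_⟩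
  · intro g
    rw [hexp, map_sum]
    refine Finset.sum_congr rfl fun r _ => ?_
    rw [map_mul, map_prod]
    have : ev g (C (f (fun a => b (r a)))) = f (fun a => b (r a)) := by simp [ev]
    rw [this, mul_comm]
    congr 1
    refine Finset.prod_congr rfl fun a _ => ?_
    rw [ev_X, coefF_apply]
  · intro x
    rw [pd_sum]
    have h1 : ∀ a, f (Function.update v a (x (v a))) = ∑ r : α → ι, f (fun a => b (r a)) *
        (coefF (b.coord (r a)) (v a) x * ∏ a' ∈ Finset.univ.erase a,
          coefF (b.coord (r a')) (v a') 1) := by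
      intro a
      rw [hexp]
      refine Finset.sum_congr rfl fun r _ => ?_
      rw [mul_comm, ← Finset.mul_prod_erase Finset.univ _ (Finset.mem_univ a),
        Function.update_self, coefF_apply]
      congr 2
      refine Finset.prod_congr rfl fun a' ha' => ?_
      rw [Function.update_of_ne (Finset.ne_of_mem_erase ha'), coefF_apply]
      rfl
    rw [Finset.sum_congr rfl fun a _ => h1 a, Finset.sum_comm]
    refine Finset.sum_congr rfl fun r _ => ?_
    have : ev (1 : Module.End K V) (C (f (fun a => b (r a)))) = f (fun a => b (r a)) := by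
      simp [ev]
    rw [pd_mul, pd_C, mul_zero, add_zero, this, pd_prod (φ := fun a => coefF (b.coord (r a)) (v a)),
      Finset.mul_sum]

/-- polynomial for the form -/
lemma poly_form (b : Module.Basis ι K V) (ψ : V →ₗ[K] V →ₗ[K] K) (u v : V) :
    ∃ q : MvPolynomial (Module.Dual K (Module.End K V)) K,
      (∀ g : Module.End K V, ev g q = ψ (g u) (g v)) ∧
      ∀ x : Module.End K V, pd x q = ψ (x u) v + ψ u (x v) := by
  have hψ : ∀ u v, ψ u v = ∑ p : ι × ι, ψ (b p.1) (b p.2) * (b.coord p.1 u * b.coord p.2 v) := by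
    intro u v
    conv_lhs => rw [← b.sum_repr u, ← b.sum_repr v]
    rw [map_sum ψ, LinearMap.sum_apply, Fintype.sum_prod_type]
    refine Finset.sum_congr rfl fun i _ => ?_
    rw [map_sum]
    refine Finset.sum_congr rfl fun j _ => ?_
    simp only [map_smul, LinearMap.smul_apply, smul_eq_mul, Module.Basis.coord_apply]
    ring
  refine ⟨∑ p : ι × ι, C (ψ (b p.1) (b p.2)) *
      (X (coefF (b.coord p.1) u) * X (coefF (b.coord p.2) v)), ?_, ?_⟩
  · intro g
    rw [hψ (g u) (g v), map_sum]
    refine Finset.sum_congr rfl fun p _ => ?_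
    have : ev g (C (ψ (b p.1) (b p.2))) = ψ (b p.1) (b p.2) := by simp [ev]
    rw [map_mul, this, map_mul, ev_X, ev_X, coefF_apply, coefF_apply]
  · intro x
    rw [hψ (x u) v, hψ u (x v), ← Finset.sum_add_distrib, pd_sum]
    refine Finset.sum_congr rfl fun p _ => ?_
    rw [pd_mul, pd_C, mul_zero, add_zero, pd_mul, pd_X, pd_X, ev_X, ev_X]
    have : ev (1 : Module.End K V) (C (ψ (b p.1) (b p.2))) = ψ (b p.1) (b p.2) := by
      simp [ev]
    rw [this]
    simp only [coefF_apply, Module.End.one_apply]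
    ring

lemma pd_pow_zero (x : Module.End K V) (q : MvPolynomial (Module.Dual K (Module.End K V)) K)
    (hq : pd x q = 0) (j : ℕ) : pd x (q ^ j) = 0 := by
  induction j with
  | zero =>
    have := pd_C x (1 : K)
    rw [map_one] at this
    rwa [pow_zero]
  | succ j ih => rw [pow_succ, pd_mul, hq, ih, mul_zero, mul_zero, add_zero]

/-- elements of the Lie algebra are infinitesimal similitudes -/
lemma lie_sim (b : Module.Basis ι K V) (ψ : V →ₗ[K] V →ₗ[K] K) {Γ : Subgroup (V ≃ₗ[K] V)}
    (hsim : ∀ γ ∈ Γ, ∃ μ : K, ∀ u v, ψ ((γ : V ≃ₗ[K] V) u) ((γ : V ≃ₗ[K] V) v) = μ * ψ u v)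
    {x : Module.End K V} (hx : x ∈ lie Γ) (u v u' v' : V) :
    (ψ (x u) v + ψ u (x v)) * ψ u' v' = (ψ (x u') v' + ψ u' (x v')) * ψ u v := by
  obtain ⟨q, hq1, hq2⟩ := poly_form b ψ u v
  obtain ⟨q', hq1', hq2'⟩ := poly_form b ψ u' v'
  have h1 := hx (q * C (ψ u' v') - q' * C (ψ u v)) (by
    intro γ hγ
    obtain ⟨μ, hμ⟩ := hsim γ hγ
    have h3 : ψ ((γ : Module.End K V) u) ((γ : Module.End K V) v) = μ * ψ u v := hμ u v
    have h4 : ψ ((γ : Module.End K V) u') ((γ : Module.End K V) v') = μ * ψ u' v' := hμ u' v'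
    have h5 : ∀ c : K, ev (γ : Module.End K V) (C c) = c := by
      intro c
      simp [ev]
    rw [map_sub, map_mul, map_mul, hq1, hq1', h3, h4, h5, h5]
    ring)
  have h5 : ∀ c : K, ev (1 : Module.End K V) (C c) = c := by
    intro c
    simp [ev]
  rw [pd_sub, pd_mul, pd_mul, pd_C, pd_C, hq2, hq2', h5, h5] at h1
  linear_combination h1

/-- **Infinitesimal invariance.** -/
lemma ml_kills [CharZero K] (b : Module.Basis ι K V) (ψ : V →ₗ[K] V →ₗ[K] K) (u₀ v₀ : V)
    (h0 : ψ u₀ v₀ ≠ 0) {Γ : Subgroup (V ≃ₗ[K] V)} {x : Module.End K V} (hx : x ∈ lie Γ)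
    (hskew : ∀ u v, ψ (x u) v + ψ u (x v) = 0) (m : ℕ) (f : MultilinearMap K (fun _ : α => V) K)
    (hf : ∀ γ ∈ Γ, ∃ μ ν : K,
      (∀ u v, ψ ((γ : V ≃ₗ[K] V) u) ((γ : V ≃ₗ[K] V) v) = μ * ψ u v) ∧ ν ^ 2 = μ ^ m ∧
      ∀ v, f (fun a => (γ : V ≃ₗ[K] V) (v a)) = ν * f v) (v : α → V) :
    ∑ a, f (Function.update v a (x (v a))) = 0 := by
  have h5 : ∀ (g : Module.End K V) (c : K), ev g (C c) = c := by
    intro g c
    simp [ev]
  have step1 : ∀ v w : α → V, (∑ a, f (Function.update v a (x (v a)))) * f w =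
      (∑ a, f (Function.update w a (x (w a)))) * f v := by
    intro v w
    obtain ⟨Φ, h1, h2⟩ := poly_ml b f v
    obtain ⟨Φ', h1', h2'⟩ := poly_ml b f w
    have h3 := hx (Φ * C (f w) - Φ' * C (f v)) (by
      intro γ hγ
      obtain ⟨μ, ν, -, -, hν⟩ := hf γ hγ
      have e1 : f (fun a => (γ : Module.End K V) (v a)) = ν * f v := hν v
      have e2 : f (fun a => (γ : Module.End K V) (w a)) = ν * f w := hν w
      rw [map_sub, map_mul, map_mul, h1, h1', h5, h5, e1, e2]
      ring)
    rw [pd_sub, pd_mul, pd_mul, pd_C, pd_C, h2, h2', h5, h5] at h3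
    linear_combination h3
  have step2 : ∀ v : α → V, f v * ∑ a, f (Function.update v a (x (v a))) = 0 := by
    intro v
    obtain ⟨Φ, h1, h2⟩ := poly_ml b f v
    obtain ⟨q, hq1, hq2⟩ := poly_form b ψ u₀ v₀
    have hpq : pd x q = 0 := by rw [hq2, hskew]
    have h3 := hx (Φ ^ 2 * C (ψ u₀ v₀ ^ m) - q ^ m * C (f v ^ 2)) (by
      intro γ hγ
      obtain ⟨μ, ν, hμ, hνμ, hν⟩ := hf γ hγ
      have e1 : f (fun a => (γ : Module.End K V) (v a)) = ν * f v := hν v
      have e2 : ψ ((γ : Module.End K V) u₀) ((γ : Module.End K V) v₀) = μ * ψ u₀ v₀ := hμ _ _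
      rw [map_sub, map_mul, map_mul, map_pow (ev _) Φ, map_pow (ev _) q, h1, hq1, h5, h5, e1, e2,
        mul_pow, mul_pow, hνμ]
      ring)
    have h4 : f (fun a => (1 : Module.End K V) (v a)) = f v := rfl
    rw [pd_sub, pd_mul, pd_mul, pd_C, pd_C, pd_pow_zero x q hpq, h5, h5, pow_two, pd_mul, h2, h1,
      h4] at h3
    have h6 : (2 * ψ u₀ v₀ ^ m) * (f v * ∑ a, f (Function.update v a (x (v a)))) = 0 := by
      linear_combination h3
    rcases mul_eq_zero.1 h6 with h7 | h7
    · exact absurd h7 (mul_ne_zero two_ne_zero (pow_ne_zero _ h0))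
    · exact h7
  by_cases hz : ∀ w, f w = 0
  · exact Finset.sum_eq_zero fun a _ => hz _
  · push Not at hz
    obtain ⟨w, hw⟩ := hz
    have h1 := step2 w
    have h2 := (mul_eq_zero.1 h1).resolve_left hw
    have h3 := step1 v w
    rw [h2, zero_mul] at h3
    exact (mul_eq_zero.1 h3).resolve_right hw

end Poly

section Desc

open TensorProduct

variable {E : Type*} [Field E] (K : Type*) [Field K] [Algebra E K] {V : Type*} [AddCommGroup V]
  [Module E V] [FiniteDimensional E V]

lemma pd_plK (x : Module.End E V) (f) :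
    pd (x.baseChange K) (plK K f) = algebraMap E K (pd x f) := by
  have h1 : (1 : Module.End K (K ⊗[E] V)) = (1 : Module.End E V).baseChange K := by
    apply LinearMap.ext
    intro z
    induction z using TensorProduct.induction_on with
    | zero => simp
    | tmul a v => rfl
    | add x y hx hy => rw [map_add, map_add, hx, hy]
  induction f using MvPolynomial.induction_on with
  | C c =>
    have h2 : plK (V := V) K (C c) = C (algebraMap E K c) := by simp [plK]
    rw [h2, pd_C, pd_C, map_zero]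
  | add p q hp hq => rw [map_add, pd_add, pd_add, map_add, hp, hq]
  | mul_X p φ hp =>
    have h2 : plK K (MvPolynomial.X φ) = MvPolynomial.X (phK K φ) := by simp [plK]
    rw [map_mul, pd_mul, pd_mul, map_add, map_mul, map_mul, hp, h2, pd_X, pd_X, ev_X, ev_X, h1,
      ev_plK, phK_apply, phK_apply]

lemma lie_descend (Γ : Subgroup (V ≃ₗ[E] V)) (x : Module.End E V)
    (h : x.baseChange K ∈ lie (Γ.map (bcE K))) : x ∈ lie Γ := by
  intro f hf
  have h1 := h (plK K f) (by
    rintro _ ⟨γ, hγ, rfl⟩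
    rw [bcE_coe, ev_plK, hf γ hγ, map_zero])
  rw [pd_plK] at h1
  exact (map_eq_zero_iff (algebraMap E K) (algebraMap E K).injective).1 h1

end Desc

end Pool.Agent.H93Tate.Bos
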