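import Pool.Agent.H93Tate.Bos8

/-! First fundamental theorem for the special orthogonal Lie algebra, multilinear forms. -/

set_option linter.unusedSectionVars false

namespace Pool.Agent.H93Tate.Bos

open Function Finset

variable {E : Type*} [Field E] [CharZero E] {V : Type*} [AddCommGroup V] [Module E V]
variable {α : Type*} [DecidableEq α] {S : Finset α} {f : (α → V) → E}
variable {ψ : V →ₗ[E] V →ₗ[E] E} {N : ℕ} {b : Module.Basis (Fin N) E V}

/-- a determinant in `N` variables times products of the form over a perfect matching of the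
others -/
def MtD (ψ : V →ₗ[E] V →ₗ[E] E) (b : Module.Basis (Fin N) E V) (S : Finset α)
    (g : (α → V) → E) : Prop :=
  ∃ (z : Fin N → α) (r : ℕ) (x y : Fin r → α),
    Function.Injective (Sum.elim z (Sum.elim x y)) ∧
    (∀ a, a ∈ S ↔ a ∈ Set.range (Sum.elim z (Sum.elim x y))) ∧
    g = fun v => b.det (fun i => v (z i)) * ∏ k, ψ (v (x k)) (v (y k))

lemma MtD.perm {g : (α → V) → E} (hg : MtD ψ b S g) (σ : Equiv.Perm α)
    (hσ : ∀ a, σ a ∈ S ↔ a ∈ S) : MtD ψ b S (pm σ g) := by
  obtain ⟨z, r, x, y, h1, h2, rfl⟩ := hg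
  have h3 : Sum.elim (fun k => σ (z k)) (Sum.elim (fun k => σ (x k)) (fun k => σ (y k))) =
      σ ∘ Sum.elim z (Sum.elim x y) := by
    ext k
    rcases k with k | k | k <;> rfl
  refine ⟨fun k => σ (z k), r, fun k => σ (x k), fun k => σ (y k), ?_, ?_, rfl⟩
  · rw [h3]
    exact σ.injective.comp h1
  · intro a
    rw [h3, Set.range_comp]
    constructor
    · intro ha
      refine ⟨σ.symm a, ?_, σ.apply_symm_apply a⟩
      rw [← h2, ← hσ, σ.apply_symm_apply]
      exact ha
    · rintro ⟨c, hc, rfl⟩
      rw [hσ, h2]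
      exact hc

lemma MtD.mul {a a' : α} (ha : a ∈ S) (ha' : a' ∈ S) (haa : a ≠ a') {g : (α → V) → E}
    (hg : MtD ψ b ((S.erase a).erase a') g) : MtD ψ b S (fun v => ψ (v a) (v a') * g v) := by
  obtain ⟨z, r, x, y, h1, h2, rfl⟩ := hg
  have hmem : ∀ k, Sum.elim z (Sum.elim x y) k ≠ a ∧ Sum.elim z (Sum.elim x y) k ≠ a' ∧
      Sum.elim z (Sum.elim x y) k ∈ S := by
    intro k
    have h3 := (h2 (Sum.elim z (Sum.elim x y) k)).2 ⟨k, rfl⟩
    rw [mem_erase, mem_erase] at h3
    exact ⟨h3.2.1, h3.1, h3.2.2⟩
  let ph : Fin N ⊕ (Fin (r + 1) ⊕ Fin (r + 1)) → Option (Option (Fin N ⊕ (Fin r ⊕ Fin r))) :=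
    Sum.elim (fun i => some (some (Sum.inl i)))
      (Sum.elim (Fin.cons none (fun k => some (some (Sum.inr (Sum.inl k)))))
        (Fin.cons (some none) (fun k => some (some (Sum.inr (Sum.inr k))))))
  let qh : Option (Option (Fin N ⊕ (Fin r ⊕ Fin r))) → α := fun k =>
    k.elim a (fun k => k.elim a' (Sum.elim z (Sum.elim x y)))
  have hcomp : Sum.elim z (Sum.elim (Fin.cons a x) (Fin.cons a' y)) = qh ∘ ph := by
    funext k
    rcases k with k | k | k
    · rfl
    · refine Fin.cases rfl (fun k' => rfl) k
    · refine Fin.cases rfl (fun k' => rfl) k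
  have hph : Function.Bijective ph := by
    constructor
    · rintro (k | k | k) (l | l | l) hkl
      · simp only [ph, Sum.elim_inl, Option.some.injEq, Sum.inl.injEq] at hkl
        rw [hkl]
      · exfalso
        revert hkl
        refine Fin.cases (fun h => ?_) (fun l' h => ?_) l <;> simp [ph] at h
      · exfalso
        revert hkl
        refine Fin.cases (fun h => ?_) (fun l' h => ?_) l <;> simp [ph] at h
      · exfalso
        revert hkl
        refine Fin.cases (fun h => ?_) (fun l' h => ?_) k <;> simp [ph] at h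
      · revert hkl
        refine Fin.cases ?_ (fun k' => ?_) k <;> refine Fin.cases ?_ (fun l' => ?_) l <;>
          intro h <;> simp [ph] at h ⊢
        exact h
      · exfalso
        revert hkl
        refine Fin.cases ?_ (fun k' => ?_) k <;> refine Fin.cases ?_ (fun l' => ?_) l <;>
          intro h <;> simp [ph] at h
      · exfalso
        revert hkl
        refine Fin.cases (fun h => ?_) (fun l' h => ?_) k <;> simp [ph] at h
      · exfalso
        revert hkl
        refine Fin.cases ?_ (fun k' => ?_) k <;> refine Fin.cases ?_ (fun l' => ?_) l <;>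
          intro h <;> simp [ph] at h
      · revert hkl
        refine Fin.cases ?_ (fun k' => ?_) k <;> refine Fin.cases ?_ (fun l' => ?_) l <;>
          intro h <;> simp [ph] at h ⊢
        exact h
    · rintro (_ | _ | (k | k | k))
      · exact ⟨Sum.inr (Sum.inl 0), rfl⟩
      · exact ⟨Sum.inr (Sum.inr 0), rfl⟩
      · exact ⟨Sum.inl k, rfl⟩
      · exact ⟨Sum.inr (Sum.inl k.succ), rfl⟩
      · exact ⟨Sum.inr (Sum.inr k.succ), rfl⟩
  have hqh : Function.Injective qh := by
    rintro (_ | _ | k) (_ | _ | l) hkl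
    · rfl
    · exact absurd hkl haa
    · exact absurd hkl.symm (hmem l).1
    · exact absurd hkl.symm haa
    · rfl
    · exact absurd hkl.symm (hmem l).2.1
    · exact absurd hkl (hmem k).1
    · exact absurd hkl (hmem k).2.1
    · rw [h1 hkl]
  refine ⟨z, r + 1, Fin.cons a x, Fin.cons a' y, ?_, ?_, ?_⟩
  · rw [hcomp]
    exact hqh.comp hph.1
  · intro c
    rw [hcomp, hph.2.range_comp]
    constructor
    · intro hc
      by_cases h3 : c = a
      · exact ⟨none, h3.symm⟩
      by_cases h4 : c = a'
      · exact ⟨some none, h4.symm⟩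
      obtain ⟨k, hk⟩ := (h2 c).1 (mem_erase.2 ⟨h4, mem_erase.2 ⟨h3, hc⟩⟩)
      exact ⟨some (some k), hk⟩
    · rintro ⟨_ | _ | k, rfl⟩
      · exact ha
      · exact ha'
      · exact (hmem k).2.2
  · funext v
    rw [Fin.prod_univ_succ]
    simp only [Fin.cons_zero, Fin.cons_succ]
    ring

/-- the span of the standard invariants -/
def TS (ψ : V →ₗ[E] V →ₗ[E] E) (b : Module.Basis (Fin N) E V) (S : Finset α) :
    Submodule E ((α → V) → E) :=
  Submodule.span E {g | Mt ψ S g ∨ MtD ψ b S g}

lemma TS_perm (σ : Equiv.Perm α) (hσ : ∀ a, σ a ∈ S ↔ a ∈ S) {g : (α → V) → E}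
    (hg : g ∈ TS ψ b S) : pm σ g ∈ TS ψ b S := by
  have h4 : (TS ψ b S).map (pm σ) ≤ TS ψ b S := by
    unfold TS
    rw [Submodule.map_span, Submodule.span_le]
    rintro _ ⟨g, hg, rfl⟩
    apply Submodule.subset_span
    rcases hg with hg | hg
    · exact Or.inl (hg.perm σ hσ)
    · exact Or.inr (hg.perm σ hσ)
  exact h4 (Submodule.mem_map_of_mem hg)

lemma TS_mul {a a' : α} (ha : a ∈ S) (ha' : a' ∈ S) (haa : a ≠ a') {g : (α → V) → E}
    (hg : g ∈ TS ψ b ((S.erase a).erase a')) : (fun v => ψ (v a) (v a') * g v) ∈ TS ψ b S := by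
  let M : ((α → V) → E) →ₗ[E] ((α → V) → E) :=
    { toFun := fun g v => ψ (v a) (v a') * g v
      map_add' := by
        intro g g'
        funext v
        simp only [Pi.add_apply]
        ring
      map_smul' := by
        intro c g
        funext v
        simp only [Pi.smul_apply, smul_eq_mul, RingHom.id_apply]
        ring }
  have h4 : (TS ψ b ((S.erase a).erase a')).map M ≤ TS ψ b S := by
    unfold TS
    rw [Submodule.map_span, Submodule.span_le]
    rintro _ ⟨g, hg, rfl⟩
    apply Submodule.subset_span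
    rcases hg with hg | hg
    · exact Or.inl (Mt.mul ha ha' haa hg)
    · exact Or.inr (MtD.mul ha ha' haa hg)
  exact h4 (Submodule.mem_map_of_mem hg)

lemma swap_iff {i j : α} (hi : i ∈ S) (hj : j ∈ S) (a : α) : Equiv.swap i j a ∈ S ↔ a ∈ S := by
  by_cases h1 : a = i
  · rw [h1, Equiv.swap_apply_left]
    exact ⟨fun _ => hi, fun _ => hj⟩
  · by_cases h2 : a = j
    · rw [h2, Equiv.swap_apply_right]
      exact ⟨fun _ => hj, fun _ => hi⟩
    · rw [Equiv.swap_apply_of_ne_of_ne h1 h2]

variable [Fintype α] [FiniteDimensional E V]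

/-- **First fundamental theorem for the special orthogonal Lie algebra.** -/
theorem fft_all {e w : Fin N → V} (hd : Dual ψ e w) (b : Module.Basis (Fin N) E V) (n : ℕ) :
    ∀ (S : Finset α), S.card = n → ∀ f : (α → V) → E, Ml S f → Inv ψ S f → f ∈ TS ψ b S := by
  classical
  have hN : Module.finrank E V = N := by
    rw [Module.finrank_eq_card_basis b, Fintype.card_fin]
  induction n using Nat.strong_induction_on with
  | _ n ih =>
  intro S hS f0 hf0 hi0
  rcases S.eq_empty_or_nonempty with rfl | ⟨a0, ha0⟩
  · have h1 : f0 = f0 0 • (fun _ => (1 : E)) := by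
      funext v
      rw [Pi.smul_apply, smul_eq_mul, mul_one]
      exact const_of hf0 v
    rw [h1]
    apply Submodule.smul_mem
    apply Submodule.subset_span
    left
    refine ⟨0, Fin.elim0, Fin.elim0, ?_, ?_, ?_⟩
    · rintro (j | j)
      · exact j.elim0
      · exact j.elim0
    · intro a
      constructor
      · intro h
        exact absurd h (notMem_empty a)
      · rintro ⟨j | j, _⟩
        · exact j.elim0
        · exact j.elim0
    · funext v
      simp
  by_contra hf0T
  set T := TS ψ b S with hT
  -- the contraction identity modulo `T`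
  have hJ : ∀ f : (α → V) → E, Ml S f → Inv ψ S f → ∀ a ∈ S,
      ((N : E) - 1) • f + ∑ a' ∈ S.erase a, pm (Equiv.swap a a') f ∈ T := by
    intro f hf hi a ha
    have h1 : ((N : E) - 1) • f + ∑ a' ∈ S.erase a, pm (Equiv.swap a a') f =
        ∑ a' ∈ S.erase a, fun v => ψ (v a) (v a') * Cn e w a a' f v := by
      funext v
      have h2 := contraction hd hf hi ha v
      rw [Pi.add_apply, Finset.sum_apply, Finset.sum_apply, Pi.smul_apply, smul_eq_mul]
      exact h2
    rw [h1]
    apply Submodule.sum_mem
    intro a' ha'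
    rw [mem_erase] at ha'
    apply TS_mul ha ha'.2 (Ne.symm ha'.1)
    have h2 : ((S.erase a).erase a').card < n := by
      rw [← hS]
      calc ((S.erase a).erase a').card ≤ (S.erase a).card := card_le_card (erase_subset _ _)
        _ < S.card := card_erase_lt_of_mem ha
    exact ih _ h2 ((S.erase a).erase a') rfl (Cn e w a a' f)
      (hf.cn (Ne.symm ha'.1)) (hi.cn hd hf ha ha'.2 (Ne.symm ha'.1))
  have hTp : ∀ i ∈ S, ∀ j ∈ S, ∀ g ∈ T, pm (Equiv.swap i j) g ∈ T :=
    fun i hi j hj g hg => TS_perm _ (swap_iff hi hj) hg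
  -- a maximal set of variables in which some invariant outside `T` is alternating modulo `T`
  let R : Finset α → Prop := fun B => B.Nonempty ∧ B ⊆ S ∧ ∃ f : (α → V) → E, Ml S f ∧
    Inv ψ S f ∧ f ∉ T ∧ ∀ i ∈ B, ∀ j ∈ B, i ≠ j → pm (Equiv.swap i j) f + f ∈ T
  have hR0 : R {a0} := by
    refine ⟨⟨a0, mem_singleton_self _⟩, by simpa using ha0, f0, hf0, hi0, hf0T, ?_⟩
    intro i hi j hj hij
    rw [mem_singleton] at hi hj
    exact absurd (hi.trans hj.symm) hij
  obtain ⟨B, hB, hmax⟩ := exists_max_image (univ.filter R) card ⟨{a0}, by simp [hR0]⟩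
  rw [mem_filter] at hB
  obtain ⟨-, hBne, hBS, f, hf, hi, hfT, hanti⟩ := hB
  have hstep3 : ∀ c ∈ S, c ∉ B → f - ∑ j ∈ B, pm (Equiv.swap j c) f ∈ T := by
    intro c hc hcB
    by_contra hg
    have h1 : R (insert c B) := by
      refine ⟨⟨c, mem_insert_self _ _⟩, insert_subset hc hBS,
        f - ∑ j ∈ B, pm (Equiv.swap j c) f, ?_, ?_, hg, ?_⟩
      · rw [← mem_MlSub]
        apply Submodule.sub_mem _ hf
        apply Submodule.sum_mem
        intro j hj
        exact hf.pm _ (swap_iff (hBS hj) hc)
      · rw [← mem_InvSub]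
        apply Submodule.sub_mem _ hi
        apply Submodule.sum_mem
        intro j hj
        exact hi.pm _ (swap_iff (hBS hj) hc)
      · -- antisymmetry modulo `T`
        have hBB : ∀ i ∈ B, ∀ j ∈ B, i ≠ j → pm (Equiv.swap i j)
            (f - ∑ l ∈ B, pm (Equiv.swap l c) f) + (f - ∑ l ∈ B, pm (Equiv.swap l c) f) ∈ T := by
          intro i hi' j hj' hij
          have h2 : pm (Equiv.swap i j) (∑ l ∈ B, pm (Equiv.swap l c) f) +
              ∑ l ∈ B, pm (Equiv.swap l c) f ∈ T := by
            have h3 : ∑ l ∈ B, pm (Equiv.swap l c) f =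
                ∑ l ∈ B, pm (Equiv.swap (Equiv.swap i j l) c) f := by
              refine (sum_nbij' (fun l => Equiv.swap i j l) (fun l => Equiv.swap i j l)
                ?_ ?_ ?_ ?_ ?_).symm
              · intro l hl
                exact (swap_iff hi' hj' l).2 hl
              · intro l hl
                exact (swap_iff hi' hj' l).2 hl
              · intro l _
                exact Equiv.swap_apply_self _ _ _
              · intro l _
                exact Equiv.swap_apply_self _ _ _
              · intro l _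
                rfl
            have h3' : pm (Equiv.swap i j) (∑ l ∈ B, pm (Equiv.swap l c) f) +
                ∑ l ∈ B, pm (Equiv.swap l c) f =
                ∑ l ∈ B, (pm (Equiv.swap i j) (pm (Equiv.swap l c) f) +
                  pm (Equiv.swap (Equiv.swap i j l) c) f) := by
              rw [map_sum, sum_add_distrib, ← h3]
            rw [h3']
            apply Submodule.sum_mem
            intro l hl
            have h4 : Equiv.swap i j * Equiv.swap l c =
                Equiv.swap (Equiv.swap i j l) c * Equiv.swap i j := by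
              have hci : c ≠ i := fun h => hcB (h ▸ hi')
              have hcj : c ≠ j := fun h => hcB (h ▸ hj')
              have h5 := Equiv.swap_apply_apply (Equiv.swap i j) l c
              rw [Equiv.swap_apply_of_ne_of_ne hci hcj] at h5
              rw [h5]
              group
            rw [← pm_mul, h4, pm_mul, ← map_add]
            exact hTp _ (hBS ((swap_iff hi' hj' l).2 hl)) _ hc _ (hanti i hi' j hj' hij)
          have h3 := hanti i hi' j hj' hij
          have h4 := T.sub_mem h3 h2
          convert h4 using 1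
          rw [map_sub]
          abel
        have hcB' : ∀ j ∈ B, pm (Equiv.swap j c)
            (f - ∑ l ∈ B, pm (Equiv.swap l c) f) + (f - ∑ l ∈ B, pm (Equiv.swap l c) f) ∈ T := by
          intro j hj
          have h2 : ∀ l ∈ B.erase j, pm (Equiv.swap j c) (pm (Equiv.swap l c) f) +
              pm (Equiv.swap l c) f ∈ T := by
            intro l hl
            rw [mem_erase] at hl
            have hcl : c ≠ l := fun h => hcB (h ▸ hl.2)
            have hcj : c ≠ j := fun h => hcB (h ▸ hj)
            have h4 : Equiv.swap j c * Equiv.swap l c = Equiv.swap l c * Equiv.swap j l := by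
              have h5 := Equiv.swap_apply_apply (Equiv.swap l c) j l
              rw [Equiv.swap_apply_of_ne_of_ne (Ne.symm hl.1) (Ne.symm hcj),
                Equiv.swap_apply_left] at h5
              rw [h5]
              group
            rw [← pm_mul, h4, pm_mul, ← map_add]
            exact hTp _ (hBS hl.2) _ hc _ (hanti j hj l hl.2 (Ne.symm hl.1))
          have h3 := T.sum_mem h2
          have h4 : pm (Equiv.swap j c) (f - ∑ l ∈ B, pm (Equiv.swap l c) f) +
              (f - ∑ l ∈ B, pm (Equiv.swap l c) f) =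
              - ∑ l ∈ B.erase j, (pm (Equiv.swap j c) (pm (Equiv.swap l c) f) +
                pm (Equiv.swap l c) f) := by
            rw [map_sub, map_sum, ← add_sum_erase B _ hj, ← add_sum_erase B (fun l =>
              pm (Equiv.swap l c) f) hj, ← pm_mul, Equiv.swap_mul_self, pm_one, sum_add_distrib]
            abel
          rw [h4]
          exact T.neg_mem h3
        intro i hi' j hj' hij
        rw [mem_insert] at hi' hj'
        rcases hi' with rfl | hi' <;> rcases hj' with rfl | hj'
        · exact absurd rfl hij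
        · rw [Equiv.swap_comm]
          exact hcB' j hj'
        · exact hcB' i hi'
        · exact hBB i hi' j hj' hij
    have h2 := hmax (insert c B) (by rw [mem_filter]; exact ⟨mem_univ _, h1⟩)
    rw [card_insert_of_notMem hcB] at h2
    omega
  -- the counting identity
  have hcount : ((B.card : E) * (N - B.card) + ((S.card : E) - B.card)) • f ∈ T := by
    have h1 : ∑ j ∈ B, (((N : E) - 1) • f + ∑ a' ∈ S.erase j, pm (Equiv.swap j a') f) ∈ T :=
      T.sum_mem fun j hj => hJ f hf hi j (hBS hj)
    have h2 : ∑ j ∈ B, ∑ a' ∈ B.erase j, (pm (Equiv.swap j a') f + f) ∈ T :=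
      T.sum_mem fun j hj => T.sum_mem fun a' ha' => by
        rw [mem_erase] at ha'
        exact hanti j hj a' ha'.2 (Ne.symm ha'.1)
    have h3 : ∑ c ∈ S \ B, (f - ∑ j ∈ B, pm (Equiv.swap j c) f) ∈ T :=
      T.sum_mem fun c hc => by
        rw [mem_sdiff] at hc
        exact hstep3 c hc.1 hc.2
    have h4 : ∀ j ∈ B, ∑ a' ∈ S.erase j, pm (Equiv.swap j a') f =
        ∑ a' ∈ B.erase j, pm (Equiv.swap j a') f + ∑ c ∈ S \ B, pm (Equiv.swap j c) f := by
      intro j hj
      have h5 : S.erase j = (B.erase j) ∪ (S \ B) := by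
        ext a
        simp only [mem_erase, mem_union, mem_sdiff]
        constructor
        · rintro ⟨h6, h7⟩
          by_cases h8 : a ∈ B
          · exact Or.inl ⟨h6, h8⟩
          · exact Or.inr ⟨h7, h8⟩
        · rintro (⟨h6, h7⟩ | ⟨h6, h7⟩)
          · exact ⟨h6, hBS h7⟩
          · exact ⟨fun h8 => h7 (h8 ▸ hj), h6⟩
      have h6 : Disjoint (B.erase j) (S \ B) := by
        rw [disjoint_left]
        intro a ha hb
        rw [mem_sdiff] at hb
        exact hb.2 (mem_of_mem_erase ha)
      rw [h5, sum_union h6]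
    have h5 := T.add_mem (T.sub_mem h1 h2) h3
    have hcS : ((S \ B).card : E) = (S.card : E) - B.card := by
      rw [card_sdiff_of_subset hBS, Nat.cast_sub (card_le_card hBS)]
    have hcB : ∀ j ∈ B, ((B.erase j).card : E) = (B.card : E) - 1 := by
      intro j hj
      rw [card_erase_of_mem hj, Nat.cast_sub (card_pos.2 hBne), Nat.cast_one]
    convert h5 using 1
    rw [sum_add_distrib, sum_congr rfl h4, sum_add_distrib]
    simp only [sum_add_distrib, sum_sub_distrib, sum_const]
    rw [sum_comm (s := S \ B) (t := B)]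
    have h6 : ∑ j ∈ B, (B.erase j).card • f = ((B.card : E) * ((B.card : E) - 1)) • f := by
      rw [sum_congr rfl fun j hj => by
        rw [← Nat.cast_smul_eq_nsmul E, hcB j hj]]
      rw [sum_const, ← Nat.cast_smul_eq_nsmul E, smul_smul]
    rw [h6, ← Nat.cast_smul_eq_nsmul E, ← Nat.cast_smul_eq_nsmul E, hcS, smul_smul]
    module
  -- the alternation over `B`
  let z : Fin B.card → α := fun i => (B.equivFin.symm i : α)
  have hz : Function.Injective z := fun i j hij => B.equivFin.symm.injective (Subtype.ext hij)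
  have hzB : ∀ i, z i ∈ B := fun i => (B.equivFin.symm i).2
  have hzr : ∀ a, a ∈ B ↔ a ∈ Set.range z := by
    intro a
    constructor
    · intro ha
      exact ⟨B.equivFin ⟨a, ha⟩, by simp [z]⟩
    · rintro ⟨i, rfl⟩
      exact hzB i
  have haltM : Ml S (altB B f) := by
    rw [← mem_MlSub]
    unfold altB
    apply Submodule.sum_mem
    intro σ _
    apply Submodule.smul_mem
    exact hf.pm _ (ofSubtype_mem hBS σ)
  have halts : ∀ i j, i ≠ j → pm (Equiv.swap (z i) (z j)) (altB B f) = - altB B f :=
    fun i j hij => altB_swap B f (hzB i) (hzB j) (fun h => hij (hz h))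
  have hmod := altB_mod (T := T) (fun i hi j hj g hg => hTp i (hBS hi) j (hBS hj) g hg) hanti
  have hfac : ((Fintype.card {x // x ∈ B}).factorial : E) ≠ 0 :=
    Nat.cast_ne_zero.2 (Nat.factorial_ne_zero _)
  have hfinal : altB B f ∉ T := by
    intro h1
    apply hfT
    have h2 := T.sub_mem h1 hmod
    rw [sub_sub_cancel] at h2
    have h3 := T.smul_mem ((Fintype.card {x // x ∈ B}).factorial : E)⁻¹ h2
    rwa [smul_smul, inv_mul_cancel₀ hfac, one_smul] at h3
  have hkN : B.card ≤ N := by
    by_contra hcon
    push Not at hcon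
    apply hfinal
    rw [alt_zero z hz haltM (fun i => hBS (hzB i)) halts (by rw [hN]; exact hcon)]
    exact T.zero_mem
  have hkS : B.card ≤ S.card := card_le_card hBS
  have hk0 : 0 < B.card := card_pos.2 hBne
  have hcoef : B.card * (N - B.card) + (S.card - B.card) = 0 := by
    by_contra hne
    apply hfT
    have h1 : ((B.card : E) * (N - B.card) + ((S.card : E) - B.card)) =
        ((B.card * (N - B.card) + (S.card - B.card) : ℕ) : E) := by
      rw [Nat.cast_add, Nat.cast_mul, Nat.cast_sub hkN, Nat.cast_sub hkS]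
    rw [h1] at hcount
    have h2 : ((B.card * (N - B.card) + (S.card - B.card) : ℕ) : E) ≠ 0 :=
      Nat.cast_ne_zero.2 hne
    have h3 := T.smul_mem ((B.card * (N - B.card) + (S.card - B.card) : ℕ) : E)⁻¹ hcount
    rwa [smul_smul, inv_mul_cancel₀ h2, one_smul] at h3
  have h1 : S.card - B.card = 0 := by omega
  have h2 : B.card * (N - B.card) = 0 := by omega
  have h3 : N - B.card = 0 := by
    rcases Nat.mul_eq_zero.1 h2 with h4 | h4
    · omega
    · exact h4
  have hBN : B.card = N := by omega
  have hBeq : B = S := eq_of_subset_of_card_le hBS (by omega)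
  apply hfinal
  let z' : Fin N → α := fun i => z (Fin.cast hBN.symm i)
  have hz' : Function.Injective z' := fun i j hij => by
    have := hz hij
    exact Fin.ext (by simpa using congrArg Fin.val this)
  have hzr' : ∀ a, a ∈ S ↔ a ∈ Set.range z' := by
    intro a
    rw [← hBeq, hzr]
    constructor
    · rintro ⟨i, rfl⟩
      exact ⟨Fin.cast hBN i, by simp [z']⟩
    · rintro ⟨i, rfl⟩
      exact ⟨_, rfl⟩
  rw [alt_det z' b hz' haltM hzr' (fun i j hij => halts _ _ (fun h => hij (by
    exact Fin.ext (by simpa using congrArg Fin.val h))))]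
  apply T.smul_mem
  apply Submodule.subset_span
  right
  refine ⟨z', 0, Fin.elim0, Fin.elim0, ?_, ?_, ?_⟩
  · rintro (i | i | i) (j | j | j) hij
    · rw [hz' hij]
    · exact j.elim0
    · exact j.elim0
    · exact i.elim0
    · exact i.elim0
    · exact i.elim0
    · exact i.elim0
    · exact i.elim0
    · exact i.elim0
  · intro a
    rw [hzr' a]
    constructor
    · rintro ⟨i, rfl⟩
      exact ⟨Sum.inl i, rfl⟩
    · rintro ⟨i | i | i, rfl⟩
      · exact ⟨i, rfl⟩
      · exact i.elim0
      · exact i.elim0
  · funext v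
    simp

end Pool.Agent.H93Tate.Bos
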