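import Pool.Agent.H93Tate.PowDefs

/-! Multilinear Tate classes: definitions. -/

set_option autoImplicit false

namespace Pool.Agent.H93Tate

/-- `g` is a product of values of the form `ψ` over the pairs of a perfect matching of the `m`
variables. -/
def IsMatchingForm {E : Type*} [Field E] {V : Type*} [AddCommGroup V] [Module E V]
    (ψ : V →ₗ[E] V →ₗ[E] E) {m : ℕ} (g : (Fin m → V) → E) : Prop :=
  ∃ (r : ℕ) (e : Fin r ⊕ Fin r ≃ Fin m), ∀ v, g v = ∏ k, ψ (v (e (Sum.inl k))) (v (e (Sum.inr k)))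

/-- `g` is the determinant of `dim V` of the `m` variables times a product of values of the form
`ψ` over the pairs of a perfect matching of the other variables. -/
def IsDetForm {E : Type*} [Field E] {V : Type*} [AddCommGroup V] [Module E V]
    (ψ : V →ₗ[E] V →ₗ[E] E) {m : ℕ} (g : (Fin m → V) → E) : Prop :=
  ∃ (b : Module.Basis (Fin (Module.finrank E V)) E V) (r : ℕ)
    (e : Fin (Module.finrank E V) ⊕ (Fin r ⊕ Fin r) ≃ Fin m), ∀ v,
    g v = b.det (fun i => v (e (Sum.inl i))) *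
      ∏ k, ψ (v (e (Sum.inr (Sum.inl k)))) (v (e (Sum.inr (Sum.inr k))))

/-- `f (γ v) = ν f v` with `ν ^ 2 = μ(γ) ^ m`, for all `γ` in a subgroup of finite index of `Γ`,
where `μ(γ)` is the multiplier of `γ`. -/
def TateForm {E : Type*} [Field E] {V : Type*} [AddCommGroup V] [Module E V]
    (ψ : V →ₗ[E] V →ₗ[E] E) (Γ : Subgroup (V ≃ₗ[E] V)) {m : ℕ}
    (f : MultilinearMap E (fun _ : Fin m => V) E) : Prop :=
  ∃ Δ : Subgroup Γ, Δ.FiniteIndex ∧ ∀ γ ∈ Δ, ∃ μ ν : E, Mult ψ (γ : V ≃ₗ[E] V) μ ∧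
    ν ^ 2 = μ ^ m ∧ ∀ v, f (fun a => (γ : V ≃ₗ[E] V) (v a)) = ν * f v

end Pool.Agent.H93Tate
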