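import Pool.Agent.H91.Mono.Ort4
import Pool.Agent.H93Tate.Bos3
import Pool.Agent.H93Tate.Bos9
import Pool.Agent.H93Tate.BosDefs

/-! Tate forms for groups whose Lie algebra contains the orthogonal Lie algebra. -/

set_option linter.unusedSectionVars false

namespace Pool.Agent.H93Tate.Bos

open Pool.Agent.H91.Mono Pool.Agent.H93Tate.Fft Pool.Agent.H93Tate

section Gen

variable {E : Type*} [Field E] {V : Type*} [AddCommGroup V] [Module E V]

/-- the elements of rank two of the orthogonal Lie algebra -/
def sk (ψ : V →ₗ[E] V →ₗ[E] E) (u w : V) : Module.End E V where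
  toFun z := ψ w z • u - ψ u z • w
  map_add' x y := by
    rw [map_add, map_add, add_smul, add_smul]
    abel
  map_smul' c x := by
    rw [map_smul, map_smul, smul_eq_mul, smul_eq_mul, RingHom.id_apply, smul_sub, smul_smul,
      smul_smul]

lemma sk_apply (ψ : V →ₗ[E] V →ₗ[E] E) (u w z : V) : sk ψ u w z = ψ w z • u - ψ u z • w := rfl

lemma sk_skew {ψ : V →ₗ[E] V →ₗ[E] E} (hsym : ∀ u v, ψ u v = ψ v u) (u w x y : V) :
    ψ (sk ψ u w x) y + ψ x (sk ψ u w y) = 0 := by
  rw [sk_apply, sk_apply]
  simp only [map_sub, map_smul, LinearMap.sub_apply, LinearMap.smul_apply, smul_eq_mul]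
  rw [hsym x u, hsym x w]
  ring

/-- dual families for a nondegenerate symmetric form -/
lemma exists_dual [FiniteDimensional E V] {ψ : V →ₗ[E] V →ₗ[E] E} (hsym : ∀ u v, ψ u v = ψ v u)
    (hnd : ∀ v, (∀ w, ψ v w = 0) → v = 0) :
    ∃ e w : Fin (Module.finrank E V) → V, Dual ψ e w := by
  let e := Module.finBasis E V
  have hinj : Function.Injective ψ := by
    rw [← LinearMap.ker_eq_bot, LinearMap.ker_eq_bot']
    intro v hv
    apply hnd
    intro w
    rw [hv]
    rfl
  have hsurj : Function.Surjective ψ :=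
    (LinearMap.injective_iff_surjective_of_finrank_eq_finrank
      (by rw [Subspace.dual_finrank_eq])).1 hinj
  have hcoord : ∀ j, ∃ w : V, ∀ u, ψ u w = e.coord j u := by
    intro j
    obtain ⟨w, hw⟩ := hsurj (e.coord j)
    exact ⟨w, fun u => by rw [← hw, hsym]⟩
  choose w hw using hcoord
  refine ⟨e, w, ?_, ?_, ?_, hsym⟩
  · intro k
    rw [hw]
    simp
  · intro x
    simp only [hw]
    exact e.sum_repr x
  · intro x
    rw [← sub_eq_zero]
    apply hnd
    intro u
    rw [hsym, map_sub, map_sum]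
    have h1 : ∀ k, ψ u (ψ (e k) x • w k) = e.coord k u * ψ (e k) x := by
      intro k
      rw [map_smul, hw, smul_eq_mul, mul_comm]
    rw [Finset.sum_congr rfl fun k _ => h1 k]
    have h2 : ψ u x = ∑ k, e.coord k u * ψ (e k) x := by
      conv_lhs => rw [← e.sum_repr u]
      rw [map_sum, LinearMap.sum_apply]
      refine Finset.sum_congr rfl fun k _ => ?_
      rw [map_smul, LinearMap.smul_apply, smul_eq_mul, Module.Basis.coord_apply]
    rw [h2, sub_self]

/-- **Tate forms are generated by the form and the determinant.** -/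
theorem tate_form [CharZero E] [FiniteDimensional E V] {ψ : V →ₗ[E] V →ₗ[E] E}
    (hsym : ∀ u v, ψ u v = ψ v u) (hnd : ∀ v, (∀ w, ψ v w = 0) → v = 0) (hnt : Nontrivial V)
    {Γ : Subgroup (V ≃ₗ[E] V)} (hso : ∀ u w, sk ψ u w ∈ lie Γ) {m : ℕ}
    (f : MultilinearMap E (fun _ : Fin m => V) E) (hf : TateForm ψ Γ f) :
    (f : (Fin m → V) → E) ∈ Submodule.span E {g | IsMatchingForm ψ g ∨ IsDetForm ψ g} := by
  classical
  obtain ⟨Δ, hΔ, hf⟩ := hf
  obtain ⟨u₀, hu₀⟩ := exists_ne (0 : V)
  obtain ⟨v₀, hv₀⟩ : ∃ v₀, ψ u₀ v₀ ≠ 0 := by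
    by_contra hcon
    push Not at hcon
    exact hu₀ (hnd u₀ hcon)
  obtain ⟨e, w, hd⟩ := exists_dual hsym hnd
  have hml : Ml (Finset.univ : Finset (Fin m)) (f : (Fin m → V) → E) :=
    { add := fun a _ v x y => f.map_update_add v a x y
      smul := fun a _ v c x => by rw [f.map_update_smul, smul_eq_mul]
      out := fun a ha => absurd (Finset.mem_univ a) ha }
  have hinv : Inv ψ (Finset.univ : Finset (Fin m)) (f : (Fin m → V) → E) := by
    intro u t v
    have h1 := lie_finiteIndex Δ hΔ (hso u t)
    exact ml_kills (Module.finBasis E V) ψ u₀ v₀ hv₀ h1 (sk_skew hsym u t) m f (by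
      rintro _ ⟨γ, hγ, rfl⟩
      obtain ⟨μ, ν, h2, h3, h4⟩ := hf γ hγ
      exact ⟨μ, ν, h2, h3, h4⟩) v
  have h1 := fft_all hd (Module.finBasis E V) m (Finset.univ : Finset (Fin m)) (by simp) f hml hinv
  refine Submodule.span_mono ?_ h1
  rintro g (⟨r, x, y, h2, h3, rfl⟩ | ⟨z, r, x, y, h2, h3, rfl⟩)
  · left
    have hbij : Function.Bijective (Sum.elim x y) := ⟨h2, fun a => (h3 a).1 (Finset.mem_univ a)⟩
    exact ⟨r, Equiv.ofBijective _ hbij, fun v => rfl⟩
  · right
    have hbij : Function.Bijective (Sum.elim z (Sum.elim x y)) :=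
      ⟨h2, fun a => (h3 a).1 (Finset.mem_univ a)⟩
    exact ⟨Module.finBasis E V, r, Equiv.ofBijective _ hbij, fun v => rfl⟩

variable {J : Type*} [Fintype J] [DecidableEq J]

lemma sk_basis [CharZero E] (b : Module.Basis J E V) (bar : J → J) (hinv : ∀ i, bar (bar i) = i)
    {ψ : V →ₗ[E] V →ₗ[E] E} (hsym : ∀ u v, ψ u v = ψ v u)
    (hzero : ∀ i j, j ≠ bar i → ψ (b i) (b j) = 0) (i j : J) :
    sk ψ (b i) (b j) = Matrix.toLin b b (root bar (cc ψ b bar) i (bar j)) := by
  apply b.ext
  intro l
  have h1 : Matrix.toLin b b (root bar (cc ψ b bar) i (bar j)) (b l) =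
      cc ψ b bar (bar j) • (if l = bar j then b i else 0) -
        cc ψ b bar i • (if l = bar i then b (bar (bar j)) else 0) := by
    rw [Matrix.toLin_self]
    have h1 : ∀ k, root bar (cc ψ b bar) i (bar j) k l • b k =
        (if k = i then (if l = bar j then cc ψ b bar (bar j) • b i else 0) else 0) -
        (if k = bar (bar j) then (if l = bar i then cc ψ b bar i • b (bar (bar j)) else 0)
          else 0) := by
      intro k
      rw [root_apply, sub_smul]
      congr 1
      · by_cases h1 : k = i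
        · subst h1
          by_cases h2 : l = bar j
          · subst h2
            simp
          · simp [h2, Ne.symm h2]
        · simp [h1, Ne.symm h1]
      · by_cases h1 : k = bar (bar j)
        · subst h1
          by_cases h2 : l = bar i
          · subst h2
            simp
          · simp [h2, Ne.symm h2]
        · simp [h1, Ne.symm h1]
    rw [Finset.sum_congr rfl fun k _ => h1 k, Finset.sum_sub_distrib, Finset.sum_ite_eq',
      Finset.sum_ite_eq', if_pos (Finset.mem_univ _), if_pos (Finset.mem_univ _)]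
    congr 1
    · split_ifs <;> simp
    · split_ifs <;> simp
  have hc : ∀ i, cc ψ b bar (bar i) = cc ψ b bar i := by
    intro i
    unfold cc
    rw [hinv, hsym]
  have hψ : ∀ i l, ψ (b i) (b l) = if l = bar i then cc ψ b bar i else 0 := by
    intro i l
    by_cases h : l = bar i
    · rw [if_pos h, h]; rfl
    · rw [if_neg h, hzero i l h]
  rw [h1, sk_apply, hψ, hψ, hc, hinv]
  congr 1
  · split_ifs <;> simp
  · split_ifs <;> simp

/-- the orthogonal Lie algebra is spanned by the root elements -/
lemma so_of_roots [CharZero E] (b : Module.Basis J E V) (bar : J → J) (hinv : ∀ i, bar (bar i) = i)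
    {ψ : V →ₗ[E] V →ₗ[E] E} (hsym : ∀ u v, ψ u v = ψ v u)
    (hzero : ∀ i j, j ≠ bar i → ψ (b i) (b j) = 0) {L : Submodule E (Module.End E V)}
    (hL : ∀ i j, Matrix.toLin b b (root bar (cc ψ b bar) i j) ∈ L) (u w : V) :
    sk ψ u w ∈ L := by
  have h1 : sk ψ u w = ∑ i, ∑ j, (b.repr u i * b.repr w j) • sk ψ (b i) (b j) := by
    apply LinearMap.ext
    intro z
    have e1 : ψ w z = ∑ j, b.repr w j * ψ (b j) z := by
      conv_lhs => rw [← b.sum_repr w]
      rw [map_sum, LinearMap.sum_apply]
      exact Finset.sum_congr rfl fun j _ => by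
        rw [map_smul, LinearMap.smul_apply, smul_eq_mul]
    have e2 : ψ u z = ∑ i, b.repr u i * ψ (b i) z := by
      conv_lhs => rw [← b.sum_repr u]
      rw [map_sum, LinearMap.sum_apply]
      exact Finset.sum_congr rfl fun j _ => by
        rw [map_smul, LinearMap.smul_apply, smul_eq_mul]
    rw [sk_apply]
    simp only [LinearMap.sum_apply, LinearMap.smul_apply, sk_apply, smul_sub,
      Finset.sum_sub_distrib]
    congr 1
    · conv_lhs => rw [← b.sum_repr u, e1, Finset.smul_sum]
      refine Finset.sum_congr rfl fun i _ => ?_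
      rw [Finset.sum_smul]
      refine Finset.sum_congr rfl fun j _ => ?_
      rw [smul_smul, smul_smul]
      congr 1
      ring
    · rw [Finset.sum_comm]
      conv_lhs => rw [← b.sum_repr w, e2, Finset.smul_sum]
      refine Finset.sum_congr rfl fun j _ => ?_
      rw [Finset.sum_smul]
      refine Finset.sum_congr rfl fun i _ => ?_
      rw [smul_smul, smul_smul]
      congr 1
      ring
  rw [h1]
  refine Submodule.sum_mem _ fun i _ => Submodule.sum_mem _ fun j _ => Submodule.smul_mem _ _ ?_
  rw [sk_basis b bar hinv hsym hzero]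
  exact hL _ _

end Gen

section Even

variable {K : Type*} [Field K] [CharZero K] {V : Type*} [AddCommGroup V] [Module K V]
variable {ι : Type*} [Fintype ι] [DecidableEq ι]
variable {ψ : V →ₗ[K] V →ₗ[K] K} {Γ : Subgroup (V ≃ₗ[K] V)} {b : Module.Basis ι K V}
    {bar : ι → ι} {lam : ι → K} {F : V ≃ₗ[K] V}

lemma so_even (h : OSetup ψ Γ b bar lam F) (hall : ∀ i j, Rch Γ b i j) (u w : V) :
    sk ψ u w ∈ lie Γ := by
  apply so_of_roots b bar h.inv h.sym h.zero
  intro i j
  by_cases h1 : i = j
  · subst h1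
    have h2 : root bar (cc ψ b bar) i i = Matrix.diagonal (fun k =>
        (if k = i then cc ψ b bar i else 0) - (if k = bar i then cc ψ b bar i else 0)) := by
      ext k l
      rw [root_apply, Matrix.diagonal_apply]
      by_cases hkl : k = l
      · subst hkl
        rw [if_pos rfl]
        simp only [and_self]
        simp only [eq_comm]
      · rw [if_neg hkl, if_neg (fun h2 => hkl (h2.1.symm.trans h2.2)),
          if_neg (fun h2 => hkl (h2.1.symm.trans h2.2)), sub_zero]
    rw [h2]
    refine (Pool.Agent.H91.Mono.ogood h).tor _ ?_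
    intro k
    have e1 : (bar k = i) ↔ (k = bar i) :=
      ⟨fun h3 => by rw [← h3, h.inv], fun h3 => by rw [h3, h.inv]⟩
    have e2 : (bar k = bar i) ↔ (k = i) :=
      ⟨fun h3 => by rw [← h.inv k, h3, h.inv], fun h3 => by rw [h3]⟩
    simp only [e1, e2]
    ring
  by_cases h2 : i = bar j
  · have h3 : root bar (cc ψ b bar) i j = 0 := by
      subst h2
      ext k l
      rw [root_apply, h.inv, h.cc_pos, sub_self]
      rfl
    rw [h3, map_zero]
    exact Submodule.zero_mem _
  exact h.edge_of_rch (hall i j) h1 h2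

end Even

section BCE

open TensorProduct

variable {E : Type*} [Field E] (K : Type*) [Field K] [Algebra E K] {V : Type*} [AddCommGroup V]
  [Module E V] [FiniteDimensional E V]

lemma sk_bc (ψ : V →ₗ[E] V →ₗ[E] E) (u w : V) :
    (sk ψ u w).baseChange K = sk (fK K ψ) (1 ⊗ₜ[E] u) (1 ⊗ₜ[E] w) := by
  apply LinearMap.ext
  intro z
  induction z using TensorProduct.induction_on with
  | zero => simp
  | add x y hx hy => rw [map_add, map_add, hx, hy]
  | tmul a v =>
    rw [LinearMap.baseChange_tmul, sk_apply, sk_apply, fK_tmul, fK_tmul, TensorProduct.tmul_sub,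
      TensorProduct.tmul_smul, TensorProduct.tmul_smul, TensorProduct.smul_tmul',
      TensorProduct.smul_tmul', TensorProduct.smul_tmul', TensorProduct.smul_tmul']
    simp only [Algebra.smul_def, smul_eq_mul, mul_one, one_mul, Algebra.algebraMap_self,
      RingHom.id_apply]

/-- descent of the orthogonal Lie algebra -/
lemma so_descend (ψ : V →ₗ[E] V →ₗ[E] E) (Γ : Subgroup (V ≃ₗ[E] V))
    (h : ∀ u w, sk (fK K ψ) u w ∈ lie (Γ.map (bcE K))) (u w : V) : sk ψ u w ∈ lie Γ := by
  apply lie_descend K
  rw [sk_bc]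
  exact h _ _

end BCE

end Pool.Agent.H93Tate.Bos
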