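import Pool.Agent.H93Tate.Bos4

/-! Orthogonal groups in odd dimension: the Lie algebra. -/

set_option linter.unusedSectionVars false

namespace Pool.Agent.H93Tate.Bos

open Pool.Agent.H91.Mono Pool.Agent.H93Tate.Fft Pool.Agent.H93Tate

variable {K : Type*} [Field K] [CharZero K] {V : Type*} [AddCommGroup V] [Module K V]
variable {ι : Type*} [Fintype ι] [DecidableEq ι]

/-- The standing hypotheses in odd dimension. -/
structure DSetup (ψ : V →ₗ[K] V →ₗ[K] K) (Γ : Subgroup (V ≃ₗ[K] V))
    (b : Module.Basis (Option ι) K V) (bar : ι → ι) (lam : Option ι → K)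
    (F : V ≃ₗ[K] V) : Prop where
  inv : ∀ i, bar (bar i) = i
  nofix : ∀ i, bar i ≠ i
  sym : ∀ u v, ψ u v = ψ v u
  zero : ∀ i j, j ≠ Option.map bar i → ψ (b i) (b j) = 0
  ne : ∀ i, ψ (b i) (b (Option.map bar i)) ≠ 0
  sim : ∀ γ ∈ Γ, ∃ μ : K, ∀ u v, ψ ((γ : V ≃ₗ[K] V) u) ((γ : V ≃ₗ[K] V) v) = μ * ψ u v
  mem : F ∈ Γ
  eig : ∀ i, F (b i) = lam i • b i
  triv : TrivRel bar (fun i => lam (some i))
  sq : ∀ i, lam none ^ 2 = lam (some i) * lam (some (bar i))

variable {ψ : V →ₗ[K] V →ₗ[K] K} {Γ : Subgroup (V ≃ₗ[K] V)} {b : Module.Basis (Option ι) K V}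
    {bar : ι → ι} {lam : Option ι → K} {F : V ≃ₗ[K] V}

namespace DSetup

lemma binv (h : DSetup ψ Γ b bar lam F) (i : Option ι) :
    Option.map bar (Option.map bar i) = i := by
  cases i with
  | none => rfl
  | some i => simp [h.inv]

lemma torus (h : DSetup ψ Γ b bar lam F) (x : Option ι → K) (hx0 : x none = 0)
    (hx : ∀ i, x (some i) + x (some (bar i)) = 0) : dg b x ∈ lie Γ := by
  apply lie_torus h.mem h.eig
  intro m m' hm
  rw [Fintype.prod_option, Fintype.prod_option] at hm
  rw [Fintype.sum_option, Fintype.sum_option, hx0, mul_zero, mul_zero, zero_add, zero_add]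
  rcases isEmpty_or_nonempty ι with hι | ⟨⟨i0⟩⟩
  · simp
  set e : ι → ℕ := fun i => (if i = i0 then 1 else 0) + (if i = bar i0 then 1 else 0) with he
  have hebar : ∀ i, e (bar i) = e i := by
    intro i
    have e1 : (bar i = i0) ↔ (i = bar i0) :=
      ⟨fun h3 => by rw [← h3, h.inv], fun h3 => by rw [h3, h.inv]⟩
    have e2 : (bar i = bar i0) ↔ (i = i0) :=
      ⟨fun h3 => by rw [← h.inv i, h3, h.inv], fun h3 => by rw [h3]⟩
    simp only [he, e1, e2]
    ring
  have hprod : ∀ a : ℕ, ∏ i, lam (some i) ^ (e i * a) = (lam none ^ 2) ^ a := by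
    intro a
    have h1 : ∀ i, lam (some i) ^ (e i * a) =
        (if i = i0 then lam (some i0) ^ a else 1) *
          (if i = bar i0 then lam (some (bar i0)) ^ a else 1) := by
      intro i
      simp only [he]
      by_cases h1 : i = i0
      · subst h1
        rw [if_pos rfl, if_pos rfl, if_neg (Ne.symm (h.nofix i)), if_neg (Ne.symm (h.nofix i))]
        simp
      · rw [if_neg h1, if_neg h1]
        by_cases h2 : i = bar i0
        · subst h2
          simp
        · rw [if_neg h2, if_neg h2]
          simp
    rw [Finset.prod_congr rfl fun i _ => h1 i, Finset.prod_mul_distrib, Finset.prod_ite_eq',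
      Finset.prod_ite_eq', if_pos (Finset.mem_univ _), if_pos (Finset.mem_univ _), h.sq i0,
      mul_pow]
  obtain ⟨h1, -⟩ := h.triv (fun i => 2 * m (some i) + e i * m none)
    (fun i => 2 * m' (some i) + e i * m' none) (by
      have h2 : ∀ m : Option ι →₀ ℕ, ∏ i, lam (some i) ^ (2 * m (some i) + e i * m none) =
          (lam none ^ m none * ∏ i, lam (some i) ^ m (some i)) ^ 2 := by
        intro m
        have h3 : ∀ i, lam (some i) ^ (2 * m (some i) + e i * m none) =
            (lam (some i) ^ m (some i)) ^ 2 * lam (some i) ^ (e i * m none) := by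
          intro i
          rw [pow_add, pow_mul, ← pow_mul, ← pow_mul, mul_comm 2]
        rw [Finset.prod_congr rfl fun i _ => h3 i, Finset.prod_mul_distrib, hprod, mul_pow,
          ← Finset.prod_pow, ← pow_mul, ← pow_mul, mul_comm 2, mul_comm]
      rw [h2, h2, hm])
  have h2 : ∑ i, ((m (some i) : K) - m' (some i)) * x (some i) = 0 := by
    apply Finset.sum_involution (fun i _ => bar i)
    · intro i _
      have h3 := h1 i
      simp only [hebar] at h3
      have h3' : (m (some i) : K) + m' (some (bar i)) = m (some (bar i)) + m' (some i) := by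
        have h5 : m (some i) + m' (some (bar i)) = m (some (bar i)) + m' (some i) := by
          nlinarith [h3]
        exact_mod_cast h5
      have h4 := hx i
      linear_combination ((m (some i) : K) - m' (some i)) * h4 - x (some (bar i)) * h3'
    · intro i _ _
      exact h.nofix i
    · intro i _
      exact Finset.mem_univ _
    · intro i _
      exact h.inv i
  simp only [sub_mul, Finset.sum_sub_distrib] at h2
  exact sub_eq_zero.1 h2

lemma cpos (h : DSetup ψ Γ b bar lam F) (i : Option ι) :
    cc ψ b (Option.map bar) (Option.map bar i) = cc ψ b (Option.map bar) i := by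
  unfold cc
  rw [h.binv, h.sym]

lemma repr_left (h : DSetup ψ Γ b bar lam F) (v : V) (k : Option ι) :
    ψ v (b (Option.map bar k)) = b.repr v k * cc ψ b (Option.map bar) k := by
  conv_lhs => rw [← b.sum_repr v]
  rw [map_sum, LinearMap.sum_apply, Finset.sum_eq_single k]
  · rw [map_smul, LinearMap.smul_apply, smul_eq_mul]
    rfl
  · intro j _ hj
    rw [map_smul, LinearMap.smul_apply, h.zero j, smul_zero]
    intro h1
    apply hj
    rw [← h.binv j, ← h1, h.binv]
  · simp

/-- infinitesimal similitudes are skew off the diagonal -/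
lemma skew (h : DSetup ψ Γ b bar lam F) {X : Matrix (Option ι) (Option ι) K} (hX : X ∈ LM Γ b)
    {k l : Option ι} (hkl : k ≠ l) :
    X k l * cc ψ b (Option.map bar) k +
      X (Option.map bar l) (Option.map bar k) * cc ψ b (Option.map bar) l = 0 := by
  have hrep : ∀ k l, b.repr (Matrix.toLin b b X (b l)) k = X k l := by
    intro k l
    rw [← LinearMap.toMatrix_apply, LinearMap.toMatrix_toLin]
  have h1 := lie_sim b ψ h.sim (x := Matrix.toLin b b X) hX (b l) (b (Option.map bar k))
    (b none) (b (Option.map bar none))
  have h2 : ψ (b l) (b (Option.map bar k)) = 0 := by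
    apply h.zero
    intro h3
    apply hkl
    rw [← h.binv k, h3, h.binv]
  rw [h2, mul_zero] at h1
  have h3 := (mul_eq_zero.1 h1).resolve_right (h.ne none)
  rw [h.repr_left, hrep, h.sym (b l)] at h3
  have h4 : ψ (Matrix.toLin b b X (b (Option.map bar k))) (b l) =
      X (Option.map bar l) (Option.map bar k) * cc ψ b (Option.map bar) l := by
    have h5 := h.repr_left (Matrix.toLin b b X (b (Option.map bar k))) (Option.map bar l)
    rw [h.binv, hrep, h.cpos] at h5
    exact h5
  rw [h4] at h3
  exact h3

end DSetup

/-- a sign function for an involution without fixed points -/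
lemma exists_sign (bar : ι → ι) (hinv : ∀ i, bar (bar i) = i) (hno : ∀ i, bar i ≠ i) :
    ∃ y : ι → K, (∀ i, y i = 1 ∨ y i = -1) ∧ ∀ i, y i + y (bar i) = 0 := by
  classical
  let e := Fintype.equivFin ι
  refine ⟨fun i => if e i < e (bar i) then 1 else -1, ?_, ?_⟩
  · intro i
    by_cases h : e i < e (bar i)
    · left; simp [h]
    · right; simp [h]
  · intro i
    have hne : e i ≠ e (bar i) := fun h => hno i (e.injective h).symm
    simp only [hinv]
    rcases lt_or_gt_of_ne hne with h1 | h1
    · rw [if_pos h1, if_neg (not_lt.2 h1.le)]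
      ring
    · rw [if_neg (not_lt.2 h1.le), if_pos h1]
      ring

lemma diag_filter' {J : Type*} [Fintype J] [DecidableEq J] {L : Submodule K (Matrix J J K)}
    (hbr : ∀ X ∈ L, ∀ Y ∈ L, X * Y - Y * X ∈ L) (x : J → K) (hx : Matrix.diagonal x ∈ L)
    {X : Matrix J J K} (hX : X ∈ L) (p : Polynomial K) :
    Matrix.of (fun k l => p.eval (x k - x l) * X k l) ∈ L := by
  induction p using Polynomial.induction_on' with
  | add p q hp hq =>
    have : Matrix.of (fun k l => (p + q).eval (x k - x l) * X k l) =
        Matrix.of (fun k l => p.eval (x k - x l) * X k l) +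
        Matrix.of (fun k l => q.eval (x k - x l) * X k l) := by
      ext k l
      simp [add_mul]
    rw [this]
    exact L.add_mem hp hq
  | monomial n a =>
    have h1 : ∀ n : ℕ, Matrix.of (fun k l => (x k - x l) ^ n * X k l) ∈ L := by
      intro n
      induction n with
      | zero =>
        have : Matrix.of (fun k l => (x k - x l) ^ 0 * X k l) = X := by
          ext k l; simp
        rw [this]; exact hX
      | succ n ih =>
        have h2 := hbr _ hx _ ih
        have : Matrix.of (fun k l => (x k - x l) ^ (n + 1) * X k l) =
            Matrix.diagonal x * Matrix.of (fun k l => (x k - x l) ^ n * X k l) -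
            Matrix.of (fun k l => (x k - x l) ^ n * X k l) * Matrix.diagonal x := by
          ext k l
          simp only [Matrix.of_apply, Matrix.sub_apply, Matrix.diagonal_mul, Matrix.mul_diagonal]
          ring
        rw [this]
        exact h2
    have : Matrix.of (fun k l => (Polynomial.monomial n a).eval (x k - x l) * X k l) =
        a • Matrix.of (fun k l => (x k - x l) ^ n * X k l) := by
      ext k l
      simp [mul_assoc]
    rw [this]
    exact L.smul_mem _ (h1 n)

lemma filt' {J : Type*} [Fintype J] [DecidableEq J] [DecidableEq K]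
    {L : Submodule K (Matrix J J K)}
    (hbr : ∀ X ∈ L, ∀ Y ∈ L, X * Y - Y * X ∈ L) (x : J → K) (hx : Matrix.diagonal x ∈ L) (d : K)
    {X : Matrix J J K} (hX : X ∈ L) :
    Matrix.of (fun k l => if x k - x l = d then X k l else 0) ∈ L := by
  let s : Finset K := insert d (Finset.univ.image fun q : J × J => x q.1 - x q.2)
  let g : K → K := fun e => if e = d then 1 else 0
  let p : Polynomial K := Lagrange.interpolate s id g
  have hp : ∀ e ∈ s, p.eval e = g e := by
    intro e he
    have h1 := Lagrange.eval_interpolate_at_node g (s := s) (v := id) (Set.injOn_id _) he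
    exact h1
  have h2 := diag_filter' hbr x hx hX p
  have : Matrix.of (fun k l => p.eval (x k - x l) * X k l) =
      Matrix.of (fun k l => if x k - x l = d then X k l else 0) := by
    ext k l
    simp only [Matrix.of_apply]
    rw [hp _ (Finset.mem_insert_of_mem (Finset.mem_image_of_mem
      (fun q : J × J => x q.1 - x q.2) (Finset.mem_univ (k, l))))]
    simp [g]
  rwa [this] at h2

namespace DSetup

lemma br (_h : DSetup ψ Γ b bar lam F) : ∀ X ∈ LM Γ b, ∀ Y ∈ LM Γ b, X * Y - Y * X ∈ LM Γ b := by
  intro X hX Y hY
  rw [mem_LM, map_sub, Matrix.toLin_mul b b b, Matrix.toLin_mul b b b]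
  exact lie_bracket hX hY

/-- a short root occurs as soon as the corresponding entry is nonzero -/
lemma short_root (h : DSetup ψ Γ b bar lam F) {X : Matrix (Option ι) (Option ι) K}
    (hX : X ∈ LM Γ b) (i : ι) (hne : X (some i) none ≠ 0) :
    root (Option.map bar) (cc ψ b (Option.map bar)) (some i) none ∈ LM Γ b := by
  classical
  obtain ⟨y, hy1, hy2⟩ := exists_sign (K := K) bar h.inv h.nofix
  let x : Option ι → K := fun k => match k with
    | none => 0
    | some k => if k = i then 5 else if k = bar i then -5 else y k
  have hx0 : x none = 0 := rfl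
  have hxi : x (some i) = 5 := by simp [x]
  have hxb : x (some (bar i)) = -5 := by simp [x, h.nofix i]
  have hxk : ∀ k, k ≠ i → k ≠ bar i → x (some k) = y k := by
    intro k h1 h2
    simp [x, h1, h2]
  have hxs : ∀ k, x (some k) + x (some (bar k)) = 0 := by
    intro k
    by_cases h1 : k = i
    · rw [h1, hxi, hxb]; ring
    by_cases h2 : k = bar i
    · rw [h2, h.inv, hxi, hxb]; ring
    rw [hxk k h1 h2, hxk, hy2]
    · intro h3; exact h2 (by rw [← h3, h.inv])
    · intro h3; exact h1 (by rw [← h.inv k, h3, h.inv])
  have ht : Matrix.diagonal x ∈ LM Γ b := h.torus x hx0 hxs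
  have hY := filt' h.br x ht 5 hX
  have hcn : cc ψ b (Option.map bar) none ≠ 0 := h.ne none
  have hci : cc ψ b (Option.map bar) (some i) ≠ 0 := h.ne (some i)
  have hs : X none (some (bar i)) = - (X (some i) none * cc ψ b (Option.map bar) (some i)) /
      cc ψ b (Option.map bar) none := by
    have h1 := h.skew hX (k := some i) (l := none) (by simp)
    have e1 : Option.map bar (none : Option ι) = none := rfl
    have e2 : Option.map bar (some i) = some (bar i) := rfl
    rw [e1, e2] at h1
    rw [eq_div_iff hcn]
    linear_combination h1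
  have hval : ∀ k : Option ι, x k = 0 ∨ x k = 1 ∨ x k = -1 ∨ x k = 5 ∨ x k = -5 := by
    intro k
    cases k with
    | none => left; rfl
    | some k =>
      by_cases h1 : k = i
      · rw [h1, hxi]; tauto
      by_cases h2 : k = bar i
      · rw [h2, hxb]; tauto
      rw [hxk k h1 h2]
      rcases hy1 k with h3 | h3 <;> rw [h3] <;> tauto
  have n1 : (1 : K) ≠ 0 := one_ne_zero
  have h5 : ∀ k, x k = 5 → k = some i := by
    intro k hk
    cases k with
    | none => rw [hx0] at hk; norm_num at hk
    | some k =>
      by_cases h1 : k = i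
      · rw [h1]
      by_cases h2 : k = bar i
      · rw [h2, hxb] at hk; norm_num at hk
      rw [hxk k h1 h2] at hk
      rcases hy1 k with h3 | h3 <;> rw [h3] at hk <;> norm_num at hk
  have h5' : ∀ k, x k = -5 → k = some (bar i) := by
    intro k hk
    cases k with
    | none => rw [hx0] at hk; norm_num at hk
    | some k =>
      by_cases h1 : k = i
      · rw [h1, hxi] at hk; norm_num at hk
      by_cases h2 : k = bar i
      · rw [h2]
      rw [hxk k h1 h2] at hk
      rcases hy1 k with h3 | h3 <;> rw [h3] at hk <;> norm_num at hk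
  have h0 : ∀ k, x k = 0 → k = none := by
    intro k hk
    cases k with
    | none => rfl
    | some k =>
      exfalso
      by_cases h1 : k = i
      · rw [h1, hxi] at hk; norm_num at hk
      by_cases h2 : k = bar i
      · rw [h2, hxb] at hk; norm_num at hk
      rw [hxk k h1 h2] at hk
      rcases hy1 k with h3 | h3 <;> rw [h3] at hk <;> norm_num at hk
  have hdiff : ∀ k l, x k - x l = 5 ↔ (k = some i ∧ l = none) ∨ (k = none ∧ l = some (bar i)) := by
    intro k l
    constructor
    · intro hkl
      rcases hval k with e | e | e | e | e <;> rcases hval l with e' | e' | e' | e' | e' <;>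
        rw [e, e'] at hkl <;> norm_num at hkl
      · right; exact ⟨h0 k e, h5' l e'⟩
      · left; exact ⟨h5 k e, h0 l e'⟩
    · rintro (⟨rfl, rfl⟩ | ⟨rfl, rfl⟩)
      · rw [hxi, hx0]; ring
      · rw [hxb, hx0]; ring
  have hfin : Matrix.of (fun k l => if x k - x l = 5 then X k l else 0) =
      (X (some i) none / cc ψ b (Option.map bar) none) •
        root (Option.map bar) (cc ψ b (Option.map bar)) (some i) none := by
    ext k l
    rw [Matrix.smul_apply, root_apply, Matrix.of_apply, smul_eq_mul]
    have e1 : Option.map bar (none : Option ι) = none := rfl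
    have e2 : Option.map bar (some i) = some (bar i) := rfl
    rw [e1, e2]
    by_cases hA : k = some i ∧ l = none
    · obtain ⟨rfl, rfl⟩ := hA
      rw [if_pos ((hdiff _ _).2 (Or.inl ⟨rfl, rfl⟩))]
      simp
      field_simp
    · by_cases hB : k = none ∧ l = some (bar i)
      · obtain ⟨rfl, rfl⟩ := hB
        rw [if_pos ((hdiff _ _).2 (Or.inr ⟨rfl, rfl⟩)), hs]
        simp
        ring
      · rw [if_neg (fun h1 => by rcases (hdiff _ _).1 h1 with h2 | h2; exacts [hA h2, hB h2]),
          if_neg (fun h1 => hA ⟨h1.1.symm, h1.2.symm⟩),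
          if_neg (fun h1 => hB ⟨h1.1.symm, h1.2.symm⟩)]
        ring
  rw [hfin] at hY
  have hcoef : X (some i) none / cc ψ b (Option.map bar) none ≠ 0 := div_ne_zero hne hcn
  have h3 := (LM Γ b).smul_mem (X (some i) none / cc ψ b (Option.map bar) none)⁻¹ hY
  rwa [smul_smul, inv_mul_cancel₀ hcoef, one_smul] at h3

/-- all roots from the short ones -/
lemma all_roots (h : DSetup ψ Γ b bar lam F)
    (hs : ∀ i : ι, root (Option.map bar) (cc ψ b (Option.map bar)) (some i) none ∈ LM Γ b)
    (i j : Option ι) : root (Option.map bar) (cc ψ b (Option.map bar)) i j ∈ LM Γ b := by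
  set c := cc ψ b (Option.map bar) with hc
  have e0 : Option.map bar (none : Option ι) = none := rfl
  have hdual : ∀ j : ι, root (Option.map bar) c none (some j) ∈ LM Γ b := by
    intro j
    have h1 : root (Option.map bar) c none (some j) =
        - root (Option.map bar) c (some (bar j)) none := by
      have e1 : Option.map bar (some j) = some (bar j) := rfl
      have e2 : Option.map bar (some (bar j)) = some j := by simp [h.inv]
      have e3 : c (some (bar j)) = c (some j) := by rw [hc, ← e1, h.cpos]
      rw [root, root, e0, e1, e2, e3]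
      abel
    rw [h1]
    exact neg_mem (hs _)
  cases i with
  | none =>
    cases j with
    | none =>
      have : root (Option.map bar) c none none = 0 := by
        rw [root, e0, sub_self]
      rw [this]
      exact Submodule.zero_mem _
    | some j => exact hdual j
  | some i =>
    cases j with
    | none => exact hs i
    | some j =>
      have h1 := h.br _ (hs i) _ (hdual j)
      have h2 : root (Option.map bar) c (some i) none * root (Option.map bar) c none (some j) -
          root (Option.map bar) c none (some j) * root (Option.map bar) c (some i) none =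
          c none • root (Option.map bar) c (some i) (some j) := by
        have e1 : Option.map bar (some j) = some (bar j) := rfl
        have e2 : Option.map bar (some i) = some (bar i) := rfl
        have hnb : (none : Option ι) ≠ some (bar j) := by simp
        have hnb' : (some (bar i) : Option ι) ≠ none := by simp
        have hni : (none : Option ι) ≠ some i := by simp
        have hnj : (some j : Option ι) ≠ none := by simp
        simp only [root, e0, e1, e2]
        rw [sub_mul, mul_sub, mul_sub, sub_mul, mul_sub, mul_sub,
          Matrix.single_mul_single_same, Matrix.single_mul_single_of_ne _ _ _ _ hnb,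
          Matrix.single_mul_single_of_ne _ _ _ _ hnb']
        by_cases hij : i = j
        · subst hij
          rw [Matrix.single_mul_single_same, Matrix.single_mul_single_same,
            Matrix.single_mul_single_of_ne _ _ _ _ hnj,
            Matrix.single_mul_single_of_ne _ _ _ _ hni]
          rw [Matrix.single_mul_single_same, smul_sub, Matrix.smul_single, Matrix.smul_single,
            smul_eq_mul, mul_comm (c (some i)) (c none)]
          abel
        · have hb : (some (bar i) : Option ι) ≠ some (bar j) := by
            intro h5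
            apply hij
            rw [← h.inv i, Option.some_injective _ h5, h.inv]
          have hji : (some j : Option ι) ≠ some i := fun h5 => hij (Option.some_injective _ h5).symm
          rw [Matrix.single_mul_single_of_ne _ _ _ _ hb,
            Matrix.single_mul_single_of_ne _ _ _ _ hji,
            Matrix.single_mul_single_of_ne _ _ _ _ hnj,
            Matrix.single_mul_single_of_ne _ _ _ _ hni,
            Matrix.single_mul_single_same, smul_sub, Matrix.smul_single, Matrix.smul_single,
            smul_eq_mul, smul_eq_mul]
          abel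
      rw [h2] at h1
      have hcn : c none ≠ 0 := h.ne none
      have h3 := (LM Γ b).smul_mem (c none)⁻¹ h1
      rwa [smul_smul, inv_mul_cancel₀ hcn, one_smul] at h3

end DSetup

end Pool.Agent.H93Tate.Bos
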