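import Pool.Agent.H93Tate.Bos5

/-! Orthogonal groups in odd dimension: one Frobenius element. -/

set_option linter.unusedSectionVars false

namespace Pool.Agent.H93Tate.Bos

open Polynomial TensorProduct Pool.Agent.H91.Mono Pool.Agent.H93Tate.Fft Pool.Agent.H93Tate

namespace DSetup

variable {K : Type*} [Field K] [CharZero K] {V : Type*} [AddCommGroup V] [Module K V]
variable {ι : Type*} [Fintype ι] [DecidableEq ι]
variable {ψ : V →ₗ[K] V →ₗ[K] K} {Γ : Subgroup (V ≃ₗ[K] V)} {b : Module.Basis (Option ι) K V}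
    {bar : ι → ι} {lam : Option ι → K} {F : V ≃ₗ[K] V}

/-- if no stable line is spanned by `b none` then some short root occurs -/
lemma exists_short (h : DSetup ψ Γ b bar lam F)
    (hline : ∃ γ ∈ Γ, ∀ ν : K, (γ : V ≃ₗ[K] V) (b none) ≠ ν • b none) :
    ∃ i : ι, root (Option.map bar) (cc ψ b (Option.map bar)) (some i) none ∈ LM Γ b := by
  by_contra hcon
  push Not at hcon
  have hz : ∀ X ∈ LM Γ b, ∀ i : ι, X (some i) none = 0 := by
    intro X hX i
    by_contra hne
    exact hcon i (h.short_root hX i hne)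
  obtain ⟨γ, hγ, hγn⟩ := hline
  -- the vectors killed by the skew part of the Lie algebra
  let W : V → Prop := fun v => ∀ y ∈ lie Γ, (∀ u w, ψ (y u) w + ψ u (y w) = 0) → y v = 0
  have hb0 : W (b none) := by
    intro y hy hsk
    have h1 : LinearMap.toMatrix b b y ∈ LM Γ b := by
      rw [mem_LM, Matrix.toLin_toMatrix]
      exact hy
    apply b.repr.injective
    rw [map_zero]
    ext k
    cases k with
    | some i =>
      have h2 := hz _ h1 i
      rw [LinearMap.toMatrix_apply] at h2
      exact h2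
    | none =>
      have h2 := hsk (b none) (b none)
      have h3 := h.repr_left (y (b none)) none
      have e0 : Option.map bar (none : Option ι) = none := rfl
      rw [e0] at h3
      rw [h.sym (b none) (y (b none)), h3] at h2
      have h4 : cc ψ b (Option.map bar) none ≠ 0 := h.ne none
      have h5 : (2 * cc ψ b (Option.map bar) none) * b.repr (y (b none)) none = 0 := by
        linear_combination h2
      exact (mul_eq_zero.1 h5).resolve_left (mul_ne_zero two_ne_zero h4)
  have hWγ : W ((γ : V ≃ₗ[K] V) (b none)) := by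
    intro y hy hsk
    have h1 := lie_conj hy (Γ.inv_mem hγ)
    rw [inv_inv] at h1
    obtain ⟨μ, hμ⟩ := h.sim γ hγ
    have hμ0 : μ ≠ 0 := by
      rintro rfl
      apply h.ne none
      have h2 := hμ (γ.symm (b none)) (γ.symm (b (Option.map bar none)))
      rw [γ.apply_symm_apply, γ.apply_symm_apply, zero_mul] at h2
      exact h2
    have h2 := hb0 _ h1 (by
      intro u w
      have e1 : ∀ z, (((γ⁻¹ : V ≃ₗ[K] V) : Module.End K V) * y * (γ : Module.End K V)) z =
          γ.symm (y (γ z)) := fun z => rfl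
      rw [e1, e1]
      have h3 := hsk (γ u) (γ w)
      have h4 := hμ (γ.symm (y (γ u))) w
      have h5 := hμ u (γ.symm (y (γ w)))
      rw [γ.apply_symm_apply] at h4 h5
      rw [h4, h5] at h3
      have h6 : μ * (ψ (γ.symm (y (γ u))) w + ψ u (γ.symm (y (γ w)))) = 0 := by
        linear_combination h3
      exact (mul_eq_zero.1 h6).resolve_left hμ0)
    have h3 : γ.symm (y (γ (b none))) = 0 := h2
    exact (map_eq_zero_iff γ.symm γ.symm.injective).1 h3
  obtain ⟨y, hy1, hy2⟩ := exists_sign (K := K) bar h.inv h.nofix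
  let x : Option ι → K := fun k => match k with
    | none => 0
    | some k => y k
  have hx := h.torus x rfl hy2
  have hsk : ∀ u w, ψ (dg b x u) w + ψ u (dg b x w) = 0 := by
    have hxb : ∀ k : Option ι, x (Option.map bar k) = - x k := by
      intro k
      cases k with
      | none => show (0 : K) = -0; rw [neg_zero]
      | some k =>
        show y (bar k) = - y k
        linear_combination hy2 k
    have hB : (ψ ∘ₗ dg b x) + (ψ.compl₂ (dg b x)) = 0 := by
      apply b.ext
      intro p
      apply b.ext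
      intro q
      show ψ (dg b x (b p)) (b q) + ψ (b p) (dg b x (b q)) = 0
      rw [dg_apply, dg_apply, map_smul, map_smul, LinearMap.smul_apply]
      by_cases h1 : q = Option.map bar p
      · rw [h1, hxb]
        simp
      · rw [h.zero p q h1]
        simp
    intro u w
    have := congrArg (fun f => f u w) hB
    exact this
  have h1 := hWγ _ hx hsk
  apply hγn (b.repr ((γ : V ≃ₗ[K] V) (b none)) none)
  apply b.repr.injective
  ext k
  rw [map_smul, Finsupp.smul_apply, b.repr_self, smul_eq_mul]
  cases k with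
  | none => simp
  | some k =>
    have h2 := dg_repr b x ((γ : V ≃ₗ[K] V) (b none)) (some k)
    rw [h1, map_zero, Finsupp.zero_apply] at h2
    have h3 : x (some k) ≠ 0 := by
      show y k ≠ 0
      rcases hy1 k with h4 | h4 <;> rw [h4]
      · exact one_ne_zero
      · exact neg_ne_zero.2 one_ne_zero
    have h4 := (mul_eq_zero.1 h2.symm).resolve_left h3
    rw [h4]
    simp

lemma lam_inj (h : DSetup ψ Γ b bar lam F) : Function.Injective lam := by
  have h0 : ∀ i j : ι, lam (some i) = lam (some j) → i = j := by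
    intro i j hij
    by_contra hne
    obtain ⟨h1, -⟩ := h.triv (Pi.single i 1) (Pi.single j 1) (by
      rw [Finset.prod_eq_single i, Finset.prod_eq_single j]
      · simp [hij]
      · intro k _ hk; simp [hk]
      · simp
      · intro k _ hk; simp [hk]
      · simp)
    have h2 := h1 i
    have hn := h.nofix i
    rw [Pi.single_eq_same, Pi.single_eq_of_ne hn, Pi.single_eq_of_ne hne] at h2
    omega
  have hne : ∀ i : Option ι, lam i ≠ 0 := by
    intro i hi
    have h1 := h.eig i
    rw [hi, zero_smul] at h1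
    exact b.ne_zero i ((map_eq_zero_iff F F.injective).1 h1)
  have h1 : ∀ i : ι, lam none ≠ lam (some i) := by
    intro i hi
    have h2 := h.sq i
    rw [hi, pow_two] at h2
    have h3 := mul_left_cancel₀ (hne _) h2
    exact h.nofix i (h0 _ _ h3).symm
  intro i j hij
  cases i with
  | none =>
    cases j with
    | none => rfl
    | some j => exact absurd hij (h1 j)
  | some i =>
    cases j with
    | none => exact absurd hij.symm (h1 i)
    | some j => rw [h0 _ _ hij]

/-- semilinear symmetries permute the eigenlines -/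
lemma T_eig (h : DSetup ψ Γ b bar lam F) (σ : K ≃+* K) (T : V ≃+ V)
    (hT : ∀ (c : K) v, T (c • v) = σ c • T v)
    (hTΓ : ∀ γ ∈ Γ, ∀ v, T ((γ : V ≃ₗ[K] V) v) = (γ : V ≃ₗ[K] V) (T v)) (k l : Option ι)
    (hkl : lam l = σ (lam k)) : ∃ a : K, a ≠ 0 ∧ T (b k) = a • b l := by
  have h1 : F (T (b k)) = σ (lam k) • T (b k) := by
    rw [← hTΓ F h.mem, h.eig, hT]
  have hF : ∀ (v : V) (k : Option ι), b.repr (F v) k = lam k * b.repr v k := by
    intro v k
    have h2 : (F : Module.End K V) = dg b lam := by
      apply b.ext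
      intro i
      rw [dg_apply]
      exact h.eig i
    have h3 : F v = dg b lam v := by rw [← h2]; rfl
    rw [h3, dg_repr]
  have h3 : ∀ j, j ≠ l → b.repr (T (b k)) j = 0 := by
    intro j hj
    by_contra hne
    have h4 := hF (T (b k)) j
    rw [h1, map_smul, Finsupp.smul_apply, smul_eq_mul] at h4
    have h5 := (mul_right_cancel₀ hne h4).symm
    exact hj (h.lam_inj (h5.trans hkl.symm))
  have h4 : T (b k) = b.repr (T (b k)) l • b l := by
    conv_lhs => rw [← b.sum_repr (T (b k))]
    rw [Finset.sum_eq_single l]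
    · intro j _ hj
      rw [h3 j hj, zero_smul]
    · simp
  refine ⟨_, ?_, h4⟩
  intro h5
  rw [h5, zero_smul] at h4
  exact b.ne_zero k ((map_eq_zero_iff T T.injective).1 h4)

/-- semilinear symmetries move the short roots -/
lemma short_gal (h : DSetup ψ Γ b bar lam F) {σ : K ≃+* K} (hσ : SemiSym Γ σ)
    (h0 : σ (lam none) = lam none) {i j : ι} (hij : lam (some j) = σ (lam (some i)))
    (hi : root (Option.map bar) (cc ψ b (Option.map bar)) (some i) none ∈ LM Γ b) :
    root (Option.map bar) (cc ψ b (Option.map bar)) (some j) none ∈ LM Γ b := by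
  obtain ⟨T, hT, hTΓ⟩ := hσ
  have h1 := lie_sconj σ T hT hTΓ hi
  have hX : LinearMap.toMatrix b b (sconj σ T hT (Matrix.toLin b b
      (root (Option.map bar) (cc ψ b (Option.map bar)) (some i) none))) ∈ LM Γ b := by
    rw [mem_LM, Matrix.toLin_toMatrix]
    exact h1
  apply h.short_root hX
  obtain ⟨a0, ha0, hT0⟩ := h.T_eig σ T hT hTΓ none none h0.symm
  obtain ⟨a1, ha1, hT1⟩ := h.T_eig σ T hT hTΓ (some i) (some j) hij
  rw [LinearMap.toMatrix_apply, sconj_apply]
  have h2 : T.symm (b none) = σ.symm a0⁻¹ • b none := by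
    apply T.injective
    rw [T.apply_symm_apply, hT, σ.apply_symm_apply, hT0, smul_smul, inv_mul_cancel₀ ha0, one_smul]
  have h3 : Matrix.toLin b b (root (Option.map bar) (cc ψ b (Option.map bar)) (some i) none)
      (b none) = cc ψ b (Option.map bar) none • b (some i) := by
    rw [Matrix.toLin_self, Finset.sum_eq_single (some i)]
    · rw [root_apply]
      simp
    · intro k _ hk
      rw [root_apply, if_neg (fun h5 => hk h5.1.symm), if_neg (fun h5 => by simp at h5), sub_zero,
        zero_smul]
    · simp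
  rw [h2, map_smul, h3, smul_smul, hT, hT1, smul_smul, map_smul, Finsupp.smul_apply, b.repr_self,
    Finsupp.single_eq_same, smul_eq_mul, mul_one]
  apply mul_ne_zero _ ha1
  rw [map_mul, σ.apply_symm_apply]
  apply mul_ne_zero (inv_ne_zero ha0)
  rw [Ne, map_eq_zero_iff σ σ.injective]
  exact h.ne none

end DSetup

section

variable {p n : ℕ} [hp : Fact p.Prime] {P : ℚ[X]}

lemma one_tmul_coord {E : Type*} [Field E] (K : Type*) [Field K] [Algebra E K] {V : Type*}
    [AddCommGroup V] [Module E V] [FiniteDimensional E V] (v : V)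
    (i : Fin (Module.finrank E V)) :
    (Algebra.TensorProduct.basis K (Module.finBasis E V)).repr ((1 : K) ⊗ₜ[E] v) i =
      algebraMap E K ((Module.finBasis E V).repr v i) := by
  rw [Algebra.TensorProduct.basis_repr_tmul]
  simp

lemma one_tmul_eq_zero {E : Type*} [Field E] (K : Type*) [Field K] [Algebra E K] {V : Type*}
    [AddCommGroup V] [Module E V] [FiniteDimensional E V] {v : V} (h : (1 : K) ⊗ₜ[E] v = 0) :
    v = 0 := by
  apply (Module.finBasis E V).repr.injective
  ext i
  have h1 := one_tmul_coord K v i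
  rw [h, map_zero, Finsupp.zero_apply] at h1
  rw [map_zero, Finsupp.zero_apply]
  exact (map_eq_zero_iff _ (algebraMap E K).injective).1 h1.symm

/-- the standing hypotheses hold -/
theorem dsetup_of (hn : 0 < n) (hP : Irreducible P) (hdeg : 2 < P.natDegree)
    (hweil : ∀ z : ℂ, aeval z P = 0 → ‖z‖ ^ 2 = (p : ℝ) ^ n) (hmr : MaxRank ((p : ℂ) ^ n) P)
    {K : Type*} [Field K] [CharZero K] {V : Type*}
    [AddCommGroup V] [Module K V] [FiniteDimensional K V] (ψ : V →ₗ[K] V →ₗ[K] K)
    (hsym : ∀ u v, ψ u v = ψ v u) (hnd : ∀ v, (∀ w, ψ v w = 0) → v = 0)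
    (Γ : Subgroup (V ≃ₗ[K] V))
    (hsim : ∀ γ ∈ Γ, ∃ μ : K, ∀ u v, ψ ((γ : V ≃ₗ[K] V) u) ((γ : V ≃ₗ[K] V) v) = μ * ψ u v)
    (F : V ≃ₗ[K] V) (hF : F ∈ Γ) (l0 : K)
    (hchar : LinearMap.charpoly (F : V →ₗ[K] V) = (X - C l0) * P.map (algebraMap ℚ K))
    (hmult : ∀ u v, ψ (F u) (F v) = (p : K) ^ n * ψ u v)
    (jE : P.SplittingField →ₐ[ℚ] K) (hl0 : ∀ x : Rt P, l0 ≠ jE x.1) (e0 : V) (he0 : e0 ≠ 0)
    (hFe : F e0 = l0 • e0) :
    ∃ b : Module.Basis (Option (Rt P)) K V, b none = e0 ∧
      DSetup ψ Γ b (inv hweil) (fun k => k.elim l0 (fun x => jE x.1)) F := by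
  classical
  let FK : Module.End K V := (F : V →ₗ[K] V)
  have h1 : ∀ x : Rt P, ∃ v, FK.HasEigenvector (jE x.1) v := by
    intro x
    have h2 : FK.HasEigenvalue (jE x.1) := by
      rw [Module.End.hasEigenvalue_iff_isRoot_charpoly]
      have h3 : LinearMap.charpoly FK = (X - C l0) * P.map (algebraMap ℚ K) := hchar
      rw [h3, IsRoot.def, eval_mul, eval_map_algebraMap, aeval_algHom_apply, rt_root, map_zero,
        mul_zero]
    exact h2.exists_hasEigenvector
  choose v hv using h1
  let lam : Option (Rt P) → K := fun k => k.elim l0 (fun x => jE x.1)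
  let v' : Option (Rt P) → V := fun k => k.elim e0 v
  have hinj : Function.Injective lam := by
    intro k l hkl
    cases k with
    | none =>
      cases l with
      | none => rfl
      | some l => exact absurd hkl (hl0 l)
    | some k =>
      cases l with
      | none => exact absurd hkl.symm (hl0 k)
      | some l => rw [Subtype.ext (jE.toRingHom.injective hkl)]
  have hv' : ∀ k, FK.HasEigenvector (lam k) (v' k) := by
    intro k
    cases k with
    | none =>
      rw [Module.End.hasEigenvector_iff, Module.End.mem_eigenspace_iff]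
      exact ⟨hFe, he0⟩
    | some k => exact hv k
  have hli : LinearIndependent K v' := Module.End.eigenvectors_linearIndependent' _ _ hinj v' hv'
  have hP0 : P.map (algebraMap ℚ K) ≠ 0 := by
    rw [Ne, Polynomial.map_eq_zero_iff (algebraMap ℚ K).injective]
    exact hP.ne_zero
  have hcard : Fintype.card (Option (Rt P)) = Module.finrank K V := by
    rw [Fintype.card_option, card_rt hP, ← LinearMap.charpoly_natDegree (F : V →ₗ[K] V), hchar,
      natDegree_mul (X_sub_C_ne_zero l0) hP0, natDegree_map, natDegree_X_sub_C, add_comm]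
  let b := basisOfLinearIndependentOfCardEqFinrank hli hcard
  have hbv : ∀ k, b k = v' k := fun k => by
    rw [coe_basisOfLinearIndependentOfCardEqFinrank]
  have heig : ∀ k, F (b k) = lam k • b k := by
    intro k
    rw [hbv]
    exact (hv' k).apply_eq_smul
  have hne : ∀ x : Rt P, x.1 ≠ 0 := fun x => root_ne_zero hweil x.2
  have hlne : ∀ x : Rt P, jE x.1 ≠ 0 := fun x => by
    rw [Ne, map_eq_zero]; exact hne x
  have hpair : ∀ x : Rt P, jE x.1 * jE (inv hweil x).1 = (p : K) ^ n := by
    intro x
    show jE x.1 * jE ((p : P.SplittingField) ^ n / x.1) = _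
    rw [map_div₀, map_pow, map_natCast, mul_div_cancel₀ _ (hlne x)]
  have hzero0 : ∀ k l, lam k * lam l ≠ (p : K) ^ n → ψ (b k) (b l) = 0 := by
    intro k l hkl
    have h1 := hmult (b k) (b l)
    rw [heig, heig, map_smul, map_smul, LinearMap.smul_apply, smul_eq_mul, smul_eq_mul] at h1
    have h2 : (lam k * lam l - (p : K) ^ n) * ψ (b k) (b l) = 0 := by linear_combination h1
    exact (mul_eq_zero.1 h2).resolve_left (sub_ne_zero.2 hkl)
  have hnn : ∀ x : Rt P, ψ (b none) (b (some x)) = 0 := by
    intro x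
    apply hzero0
    intro h1
    apply hl0 (inv hweil x)
    have h2 : l0 * jE x.1 = (p : K) ^ n := h1
    have h3 := hpair x
    rw [← h2, mul_comm l0] at h3
    exact (mul_left_cancel₀ (hlne x) h3).symm
  have hne0 : ψ (b none) (b none) ≠ 0 := by
    intro h0
    apply b.ne_zero none
    apply hnd
    intro w
    rw [← b.sum_repr w, map_sum]
    apply Finset.sum_eq_zero
    intro j _
    rw [map_smul]
    cases j with
    | none => rw [h0, smul_zero]
    | some j => rw [hnn, smul_zero]
  have hsq : l0 ^ 2 = (p : K) ^ n := by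
    by_contra hcon
    apply hne0
    apply hzero0
    show l0 * l0 ≠ _
    rw [← pow_two]
    exact hcon
  have hzero : ∀ i j : Option (Rt P), j ≠ Option.map (inv hweil) i → ψ (b i) (b j) = 0 := by
    intro i j hij
    cases i with
    | none =>
      cases j with
      | none => exact absurd rfl hij
      | some j => exact hnn j
    | some i =>
      cases j with
      | none => rw [hsym]; exact hnn i
      | some j =>
        apply hzero0
        intro h1
        apply hij
        have h2 : jE i.1 * jE j.1 = (p : K) ^ n := h1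
        rw [← hpair i] at h2
        have h3 := mul_left_cancel₀ (hlne i) h2
        show some j = some (inv hweil i)
        rw [Subtype.ext (jE.toRingHom.injective h3)]
  refine ⟨b, hbv none,
    { inv := inv_inv' hweil
      nofix := fun x hx => inv_ne hP hdeg hweil x.2 (congrArg Subtype.val hx)
      sym := hsym
      zero := hzero
      ne := ?_
      sim := hsim
      mem := hF
      eig := heig
      triv := trivRel_of hn hP hweil hmr jE
      sq := fun x => by
        show l0 ^ 2 = jE x.1 * jE (inv hweil x).1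
        rw [hsq, hpair] }⟩
  intro i h0
  apply b.ne_zero i
  apply hnd
  intro w
  rw [← b.sum_repr w, map_sum]
  apply Finset.sum_eq_zero
  intro j _
  rw [map_smul]
  by_cases hj : j = Option.map (inv hweil) i
  · rw [hj, h0, smul_zero]
  · rw [hzero i j hj, smul_zero]

/-- **One Frobenius element, orthogonal case of odd rank.** -/
theorem odd_so (hn : 0 < n) (hP : Irreducible P) (hdeg : 2 < P.natDegree)
    (hweil : ∀ z : ℂ, aeval z P = 0 → ‖z‖ ^ 2 = (p : ℝ) ^ n) (hmr : MaxRank ((p : ℂ) ^ n) P)
    {E : Type*} [Field E] [CharZero E] (K : Type*) [Field K] [Algebra E K] [IsAlgClosure E K]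
    {V : Type*} [AddCommGroup V] [Module E V] [FiniteDimensional E V] (ψ : V →ₗ[E] V →ₗ[E] E)
    (hsym : ∀ u v, ψ u v = ψ v u) (hnd : ∀ v, (∀ w, ψ v w = 0) → v = 0)
    (Γ : Subgroup (V ≃ₗ[E] V))
    (hsim : ∀ γ ∈ Γ, ∃ μ : E, ∀ u v, ψ ((γ : V ≃ₗ[E] V) u) ((γ : V ≃ₗ[E] V) v) = μ * ψ u v)
    (F : V ≃ₗ[E] V) (hF : F ∈ Γ) (l0 : E)
    (hchar : LinearMap.charpoly (F : V →ₗ[E] V) = (X - C l0) * P.map (algebraMap ℚ E))
    (hirr : Irreducible (P.map (algebraMap ℚ E)))
    (hmult : ∀ u v, ψ (F u) (F v) = (p : E) ^ n * ψ u v)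
    (hline : ∀ v : V, v ≠ 0 → ∃ γ ∈ Γ, ∀ ν : E, (γ : V ≃ₗ[E] V) v ≠ ν • v) (u w : V) :
    sk ψ u w ∈ lie Γ := by
  classical
  have hac : IsAlgClosed K := IsAlgClosure.isAlgClosed E
  have halg : Algebra.IsAlgebraic E K := IsAlgClosure.isAlgebraic
  have hcz : CharZero K := charZero_of_injective_algebraMap (algebraMap E K).injective
  apply so_descend K
  let jE : P.SplittingField →ₐ[ℚ] K := IsAlgClosed.lift
  have hmapP : (P.map (algebraMap ℚ E)).map (algebraMap E K) = P.map (algebraMap ℚ K) := by
    rw [Polynomial.map_map]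
    congr 1
    exact Subsingleton.elim _ _
  have hroot : ∀ z : Rt P, aeval (jE z.1) (P.map (algebraMap ℚ E)) = 0 := by
    intro z
    rw [← eval_map_algebraMap, hmapP, eval_map_algebraMap, aeval_algHom_apply, rt_root, map_zero]
  have hl0 : ∀ x : Rt P, algebraMap E K l0 ≠ jE x.1 := by
    intro x hx
    have h1 := hroot x
    rw [← hx, aeval_algebraMap_apply, map_eq_zero_iff _ (algebraMap E K).injective] at h1
    have h2 := degree_eq_one_of_irreducible_of_root hirr (x := l0) (by
      rw [IsRoot.def]
      rwa [coe_aeval_eq_eval] at h1)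
    have h3 := natDegree_eq_of_degree_eq_some (n := 1) h2
    rw [natDegree_map] at h3
    omega
  -- an eigenvector over the small field
  let FE : Module.End E V := (F : V →ₗ[E] V)
  have heig : FE.HasEigenvalue l0 := by
    rw [Module.End.hasEigenvalue_iff_isRoot_charpoly]
    have h3 : LinearMap.charpoly FE = (X - C l0) * P.map (algebraMap ℚ E) := hchar
    rw [h3, IsRoot.def, eval_mul, eval_sub, eval_X, eval_C, sub_self, zero_mul]
  obtain ⟨e, he⟩ := heig.exists_hasEigenvector
  have he0 : e ≠ 0 := he.2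
  have hFe : F e = l0 • e := he.apply_eq_smul
  have heK : (1 : K) ⊗ₜ[E] e ≠ 0 := fun h1 => he0 (one_tmul_eq_zero K h1)
  obtain ⟨b, hb0, hset⟩ := dsetup_of hn hP hdeg hweil hmr (fK K ψ) (fK_sym hsym)
    (fK_nondeg_sym hsym hnd) (Γ.map (bcE K)) (by
      rintro _ ⟨γ, hγ, rfl⟩
      obtain ⟨μ, hμ⟩ := hsim γ hγ
      exact ⟨algebraMap E K μ, fK_sim γ μ hμ⟩) (bcE K F) ⟨F, hF, rfl⟩ (algebraMap E K l0)
    (by rw [bcE_coe, LinearMap.charpoly_baseChange, hchar, Polynomial.map_mul, Polynomial.map_sub,
      map_X, map_C, hmapP])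
    (by
      intro u v
      rw [fK_sim F _ hmult, map_pow, map_natCast]) jE hl0 ((1 : K) ⊗ₜ[E] e) heK
    (by
      rw [bcE_tmul, hFe, TensorProduct.tmul_smul, ← algebraMap_smul K l0])
  intro u' w'
  apply so_of_roots b (Option.map (inv hweil)) hset.binv hset.sym hset.zero
  have hconj : ∀ x y : Rt P, ∃ σ : K ≃ₐ[E] K, σ (jE x.1) = jE y.1 := by
    intro x y
    have hmin : ∀ z : Rt P, minpoly E (jE z.1) = P.map (algebraMap ℚ E) * C
        (P.map (algebraMap ℚ E)).leadingCoeff⁻¹ := fun z =>
      (minpoly.eq_of_irreducible hirr (hroot z)).symm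
    have h1 : minpoly E (jE y.1) = minpoly E (jE x.1) := by rw [hmin, hmin]
    obtain ⟨σ, hσ⟩ := (Normal.minpoly_eq_iff_mem_orbit K).1 h1
    exact ⟨σ, hσ⟩
  obtain ⟨i, hi⟩ := hset.exists_short (by
    obtain ⟨γ, hγ, h1⟩ := hline e he0
    refine ⟨bcE K γ, ⟨γ, hγ, rfl⟩, ?_⟩
    intro ν hν
    rw [hb0, bcE_tmul] at hν
    obtain ⟨j, hj⟩ : ∃ j, (Module.finBasis E V).repr e j ≠ 0 := by
      by_contra hcon
      push Not at hcon
      apply he0
      apply (Module.finBasis E V).repr.injective
      ext j
      rw [hcon, map_zero, Finsupp.zero_apply]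
    have h2 := congrArg (fun z =>
      (Algebra.TensorProduct.basis K (Module.finBasis E V)).repr z j) hν
    simp only [map_smul, Finsupp.smul_apply, smul_eq_mul] at h2
    rw [one_tmul_coord, one_tmul_coord] at h2
    set ν0 : E := (Module.finBasis E V).repr (γ e) j / (Module.finBasis E V).repr e j with hν0
    have h3 : ν = algebraMap E K ν0 := by
      rw [hν0, map_div₀, h2, mul_div_assoc, div_self, mul_one]
      rw [Ne, map_eq_zero_iff _ (algebraMap E K).injective]
      exact hj
    apply h1 ν0
    rw [← sub_eq_zero]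
    apply one_tmul_eq_zero (E := E) K
    rw [TensorProduct.tmul_sub, hν, h3, TensorProduct.tmul_smul, algebraMap_smul, sub_self])
  refine fun k l => hset.all_roots (fun j => ?_) k l
  obtain ⟨σ, hσ⟩ := hconj i j
  refine hset.short_gal (semiSym_bc K σ Γ) ?_ ?_ hi
  · show σ (algebraMap E K l0) = algebraMap E K l0
    exact σ.commutes l0
  · exact hσ.symm

end

end Pool.Agent.H93Tate.Bos
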