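import Pool.Agent.H93Tate.Bos6

/-! Orthogonal groups in even dimension: several Frobenius elements. -/

set_option linter.unusedSectionVars false

namespace Pool.Agent.H93Tate.Bos

open Polynomial TensorProduct Pool.Agent.H91.Mono Pool.Agent.H93Tate.Fft Pool.Agent.H93Tate

section

variable {p n : ℕ} [hp : Fact p.Prime] {P : ℚ[X]}

/-- **Several Frobenius elements, orthogonal case of even rank.** -/
theorem even_so (hn : 0 < n) (hP : Irreducible P) (hdeg : 2 < P.natDegree)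
    (hweil : ∀ z : ℂ, aeval z P = 0 → ‖z‖ ^ 2 = (p : ℝ) ^ n) (hmr : MaxRank ((p : ℂ) ^ n) P)
    {E : Type*} [Field E] [CharZero E] (K : Type*) [Field K] [Algebra E K] [IsAlgClosure E K]
    {V : Type*} [AddCommGroup V] [Module E V] [FiniteDimensional E V] (ψ : V →ₗ[E] V →ₗ[E] E)
    (hsym : ∀ u v, ψ u v = ψ v u) (hnd : ∀ v, (∀ w, ψ v w = 0) → v = 0)
    (Γ : Subgroup (V ≃ₗ[E] V))
    (hsim : ∀ γ ∈ Γ, ∃ μ : E, ∀ u v, ψ ((γ : V ≃ₗ[E] V) u) ((γ : V ≃ₗ[E] V) v) = μ * ψ u v)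
    (F : V ≃ₗ[E] V) (hF : F ∈ Γ)
    (hchar : LinearMap.charpoly (F : V →ₗ[E] V) = P.map (algebraMap ℚ E))
    (hirr : Irreducible (P.map (algebraMap ℚ E)))
    (hmult : ∀ u v, ψ (F u) (F v) = (p : E) ^ n * ψ u v)
    (hprime : ∀ r : ℕ, r.Prime → r ∣ P.natDegree → ∃ G ∈ Γ, ∃ α : K,
      NondegRoot G α ∧ ¬ r ∣ (minpoly E α).natDegree)
    (u w : V) : sk ψ u w ∈ lie Γ := by
  classical
  have hac : IsAlgClosed K := IsAlgClosure.isAlgClosed E
  have halg : Algebra.IsAlgebraic E K := IsAlgClosure.isAlgebraic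
  have hcz : CharZero K := charZero_of_injective_algebraMap (algebraMap E K).injective
  apply so_descend K
  let jE : P.SplittingField →ₐ[ℚ] K := IsAlgClosed.lift
  have hmapP : (P.map (algebraMap ℚ E)).map (algebraMap E K) = P.map (algebraMap ℚ K) := by
    rw [Polynomial.map_map]
    congr 1
    exact Subsingleton.elim _ _
  obtain ⟨b, hset⟩ := osetup_of hn hP hdeg hweil hmr (fK K ψ) (fK_sym hsym)
    (fK_nondeg_sym hsym hnd) (Γ.map (bcE K)) (by
      rintro _ ⟨γ, hγ, rfl⟩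
      obtain ⟨μ, hμ⟩ := hsim γ hγ
      exact ⟨algebraMap E K μ, fK_sim γ μ hμ⟩) (bcE K F) ⟨F, hF, rfl⟩
    (by rw [bcE_coe, LinearMap.charpoly_baseChange, hchar, hmapP])
    (by
      intro u v
      rw [fK_sim F _ hmult, map_pow, map_natCast]) jE
  -- the Galois group acts transitively on the roots
  have hconj : ∀ x y : Rt P, ∃ σ : K ≃ₐ[E] K, σ (jE x.1) = jE y.1 := by
    intro x y
    have hroot : ∀ z : Rt P, aeval (jE z.1) (P.map (algebraMap ℚ E)) = 0 := by
      intro z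
      rw [← eval_map_algebraMap, hmapP, eval_map_algebraMap, aeval_algHom_apply, rt_root, map_zero]
    have hmin : ∀ z : Rt P, minpoly E (jE z.1) = P.map (algebraMap ℚ E) * C
        (P.map (algebraMap ℚ E)).leadingCoeff⁻¹ := fun z =>
      (minpoly.eq_of_irreducible hirr (hroot z)).symm
    have h1 : minpoly E (jE y.1) = minpoly E (jE x.1) := by rw [hmin, hmin]
    obtain ⟨σ, hσ⟩ := (Normal.minpoly_eq_iff_mem_orbit K).1 h1
    exact ⟨σ, hσ⟩
  have hmn := hset.all_mn_gal (fun i => by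
    obtain ⟨σ, hσ⟩ := hconj i (inv hweil i)
    exact ⟨σ, semiSym_bc K σ Γ, hσ⟩)
  -- the action on the roots
  have hex : ∀ (σ : K ≃ₐ[E] K) (x : Rt P), ∃ y : Rt P, jE y.1 = σ (jE x.1) := by
    intro σ x
    apply exists_rt hP
    have h1 : aeval (jE x.1) P = 0 := by rw [aeval_algHom_apply, rt_root, map_zero]
    have h2 : aeval ((σ : K →ₐ[E] K).restrictScalars ℚ (jE x.1)) P = 0 := by
      rw [aeval_algHom_apply, h1, map_zero]
    exact h2
  choose act hact using hex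
  have hinj : ∀ x y : Rt P, jE x.1 = jE y.1 → x = y := fun x y hxy =>
    Subtype.ext (jE.toRingHom.injective hxy)
  let A : MulAction (K ≃ₐ[E] K) (Rt P) :=
    { smul := act
      one_smul := fun x => hinj _ _ (hact 1 x)
      mul_smul := fun σ τ x => hinj _ _ (by
        show jE (act (σ * τ) x).1 = jE (act σ (act τ x)).1
        rw [hact, hact, hact]
        rfl) }
  have hsm : ∀ (σ : K ≃ₐ[E] K) (x : Rt P), jE (σ • x).1 = σ (jE x.1) := hact
  have htr : MulAction.IsPretransitive (K ≃ₐ[E] K) (Rt P) := by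
    refine ⟨fun x y => ?_⟩
    obtain ⟨σ, hσ⟩ := hconj x y
    exact ⟨σ, hinj _ _ (by rw [hsm, hσ])⟩
  have hall := single_block (G := K ≃ₐ[E] K) (X := Rt P)
    (Rch (Γ.map (bcE K)) b) Rch_refl (fun x y => hmn y x)
    (fun x y z => Rch_trans)
    (by
      intro σ x y hxy
      obtain ⟨T, hT, hΓ⟩ := semiSym_bc K σ Γ
      obtain ⟨s, a, hs, ha, hb, hl⟩ := hset.exists_perm _ T hT hΓ
      have hsx : ∀ z, s z = σ • z := fun z => hinj _ _ (by rw [hsm]; exact hl z)
      have := Rch_gal hT hΓ ha hb hxy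
      rwa [hsx, hsx] at this)
    (by
      intro r hr hrd
      rw [card_rt hP] at hrd
      obtain ⟨G, hG, α, ⟨hα1, hα2⟩, hα3⟩ := hprime r hr hrd
      have hchG : LinearMap.charpoly ((bcE K G : K ⊗[E] V ≃ₗ[K] K ⊗[E] V) :
          K ⊗[E] V →ₗ[K] K ⊗[E] V) = (LinearMap.charpoly (G : V →ₗ[E] V)).map
          (algebraMap E K) := by
        rw [bcE_coe, LinearMap.charpoly_baseChange]
      obtain ⟨v, hv⟩ := nondeg_of (bcE K G) α (by rw [hchG]; exact hα1) (by
        intro β hβ N hN hβN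
        apply hα2 β _ N hN hβN
        rw [hchG, IsRoot.def, eval_map_algebraMap] at hβ
        exact hβ)
      have hGm : bcE K G ∈ Γ.map (bcE K) := ⟨G, hG, rfl⟩
      obtain ⟨i₀, hi₀⟩ := hset.eig_class hmn hGm hv
      refine ⟨i₀, MulAction.stabilizer (K ≃ₐ[E] K) α, ?_, ?_⟩
      · intro σ hσ
        exact hset.class_fixed hmn hGm hv hi₀ (semiSym_bc K σ Γ)
          (MulAction.mem_stabilizer_iff.1 hσ) _ (hsm σ i₀)
      · rw [index_stab]
        exact hα3)
  exact so_even hset (fun i j => hall i j)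

end

end Pool.Agent.H93Tate.Bos
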