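import Pool.Agent.H93Tate.Bos2

/-! First fundamental theorem for multilinear forms, any number of variables: alternation. -/

set_option linter.unusedSectionVars false

namespace Pool.Agent.H93Tate.Bos

open Function Finset

variable {E : Type*} [Field E] [CharZero E] {V : Type*} [AddCommGroup V] [Module E V]
variable {α : Type*} [DecidableEq α] {S : Finset α} {f : (α → V) → E}

/-- permuting the variables -/
def pm (σ : Equiv.Perm α) : ((α → V) → E) →ₗ[E] ((α → V) → E) where
  toFun g v := g (fun i => v (σ i))
  map_add' _ _ := rfl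
  map_smul' _ _ := rfl

lemma pm_apply (σ : Equiv.Perm α) (g : (α → V) → E) (v : α → V) :
    pm σ g v = g (fun i => v (σ i)) := rfl

lemma pm_mul (σ τ : Equiv.Perm α) (g : (α → V) → E) : pm (σ * τ) g = pm σ (pm τ g) := rfl

lemma pm_one (g : (α → V) → E) : pm 1 g = g := rfl

lemma Ml.pm (h : Ml S f) (σ : Equiv.Perm α) (hσ : ∀ a, σ a ∈ S ↔ a ∈ S) :
    Ml S (pm σ f) where
  add a ha v x y := by
    have h1 : ∀ z : V, (fun i => update v a z (σ i)) =
        update (fun i => v (σ i)) (σ.symm a) z := by
      intro z
      funext i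
      by_cases hi : σ i = a
      · have : i = σ.symm a := by rw [← hi, σ.symm_apply_apply]
        rw [hi, update_self, this, update_self]
      · have : i ≠ σ.symm a := fun h2 => hi (by rw [h2, σ.apply_symm_apply])
        rw [update_of_ne hi, update_of_ne this]
    rw [pm_apply, pm_apply, pm_apply, h1, h1, h1, h.add]
    rw [← hσ, σ.apply_symm_apply]
    exact ha
  smul a ha v c x := by
    have h1 : ∀ z : V, (fun i => update v a z (σ i)) =
        update (fun i => v (σ i)) (σ.symm a) z := by
      intro z
      funext i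
      by_cases hi : σ i = a
      · have : i = σ.symm a := by rw [← hi, σ.symm_apply_apply]
        rw [hi, update_self, this, update_self]
      · have : i ≠ σ.symm a := fun h2 => hi (by rw [h2, σ.apply_symm_apply])
        rw [update_of_ne hi, update_of_ne this]
    rw [pm_apply, pm_apply, h1, h1, h.smul]
    rw [← hσ, σ.apply_symm_apply]
    exact ha
  out a ha v x := by
    have h1 : ∀ z : V, (fun i => update v a z (σ i)) =
        update (fun i => v (σ i)) (σ.symm a) z := by
      intro z
      funext i
      by_cases hi : σ i = a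
      · have : i = σ.symm a := by rw [← hi, σ.symm_apply_apply]
        rw [hi, update_self, this, update_self]
      · have : i ≠ σ.symm a := fun h2 => hi (by rw [h2, σ.apply_symm_apply])
        rw [update_of_ne hi, update_of_ne this]
    rw [pm_apply, pm_apply, h1, h.out]
    rw [← hσ, σ.apply_symm_apply]
    exact ha

lemma Inv.pm {ψ : V →ₗ[E] V →ₗ[E] E} (hi : Inv ψ S f) (σ : Equiv.Perm α)
    (hσ : ∀ a, σ a ∈ S ↔ a ∈ S) : Inv ψ S (pm σ f) := by
  intro u w v
  have h1 : ∀ a, (fun i => update v a (ψ w (v a) • u - ψ u (v a) • w) (σ i)) =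
      update (fun i => v (σ i)) (σ.symm a) (ψ w (v (σ (σ.symm a))) • u -
        ψ u (v (σ (σ.symm a))) • w) := by
    intro a
    funext i
    by_cases hi : σ i = a
    · have : i = σ.symm a := by rw [← hi, σ.symm_apply_apply]
      rw [hi, update_self, this, update_self, σ.apply_symm_apply]
    · have : i ≠ σ.symm a := fun h2 => hi (by rw [h2, σ.apply_symm_apply])
      rw [update_of_ne hi, update_of_ne this]
  have h2 := hi u w (fun i => v (σ i))
  rw [← h2]
  simp only [pm_apply, h1]
  refine sum_nbij' (fun a => σ.symm a) (fun a => σ a) ?_ ?_ ?_ ?_ ?_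
  · intro a ha
    rw [← hσ, σ.apply_symm_apply]
    exact ha
  · intro a ha
    rw [hσ]
    exact ha
  · intro a _
    exact σ.apply_symm_apply a
  · intro a _
    exact σ.symm_apply_apply a
  · intro a _
    rfl

section Alt

variable {k : ℕ} (z : Fin k → α) (hz : Function.Injective z)

lemma extend_update (hz : Function.Injective z) (u : Fin k → V) (v : α → V) (i : Fin k) (x : V) :
    extend z (update u i x) v = update (extend z u v) (z i) x := by
  funext a
  by_cases h : ∃ j, z j = a
  · obtain ⟨j, rfl⟩ := h
    rw [hz.extend_apply]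
    by_cases hj : j = i
    · subst hj
      rw [update_self, update_self]
    · rw [update_of_ne hj, update_of_ne (fun h => hj (hz h)), hz.extend_apply]
  · have h2 : a ≠ z i := fun h1 => h ⟨i, h1.symm⟩
    rw [extend_apply' _ _ _ h, update_of_ne h2, extend_apply' _ _ _ h]

/-- a form which is alternating in some variables, as an alternating map -/
noncomputable def altMap (hz : Function.Injective z) (h : Ml S f) (hzS : ∀ i, z i ∈ S)
    (halt : ∀ i j, i ≠ j → pm (Equiv.swap (z i) (z j)) f = -f) (v : α → V) :
    V [⋀^Fin k]→ₗ[E] E where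
  toFun u := f (extend z u v)
  map_update_add' := by
    intro inst u i x y
    obtain rfl : inst = instDecidableEqFin k := Subsingleton.elim _ _
    rw [extend_update z hz, extend_update z hz, extend_update z hz, h.add _ (hzS i)]
  map_update_smul' := by
    intro inst u i c x
    obtain rfl : inst = instDecidableEqFin k := Subsingleton.elim _ _
    rw [extend_update z hz, extend_update z hz, h.smul _ (hzS i), smul_eq_mul]
  map_eq_zero_of_eq' := by
    intro u i j hij hne
    have h1 := congrFun (halt i j hne) (extend z u v)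
    rw [pm_apply, Pi.neg_apply] at h1
    have h2 : (fun a => extend z u v (Equiv.swap (z i) (z j) a)) = extend z u v := by
      funext a
      by_cases ha : a = z i
      · rw [ha, Equiv.swap_apply_left, hz.extend_apply, hz.extend_apply, hij]
      · by_cases hb : a = z j
        · rw [hb, Equiv.swap_apply_right, hz.extend_apply, hz.extend_apply, hij]
        · rw [Equiv.swap_apply_of_ne_of_ne ha hb]
    rw [h2] at h1
    have h3 : (2 : E) * f (extend z u v) = 0 := by linear_combination h1
    exact (mul_eq_zero.1 h3).resolve_left two_ne_zero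

lemma extend_self (hz : Function.Injective z) (v : α → V) :
    extend z (fun i => v (z i)) v = v := by
  funext a
  by_cases h : ∃ j, z j = a
  · obtain ⟨j, rfl⟩ := h
    rw [hz.extend_apply]
  · rw [extend_apply' _ _ _ h]

/-- alternating in more variables than the dimension -/
lemma alt_zero [FiniteDimensional E V] (hz : Function.Injective z) (h : Ml S f)
    (hzS : ∀ i, z i ∈ S)
    (halt : ∀ i j, i ≠ j → pm (Equiv.swap (z i) (z j)) f = -f)
    (hk : Module.finrank E V < k) : f = 0 := by
  funext v
  have h1 : f v = altMap z hz h hzS halt v (fun i => v (z i)) := by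
    show f v = f (extend z (fun i => v (z i)) v)
    rw [extend_self z hz]
  rw [h1]
  apply AlternatingMap.map_linearDependent
  intro hli
  have h2 := hli.fintype_card_le_finrank
  rw [Fintype.card_fin] at h2
  omega

lemma Ml.congr [Fintype α] (h : Ml S f) {v v' : α → V} (hv : ∀ a ∈ S, v a = v' a) :
    f v = f v' := by
  have key : ∀ T : Finset α, f (T.piecewise v' v) = f v := by
    intro T
    induction T using Finset.induction_on with
    | empty => rw [piecewise_empty]
    | insert a T ha ih =>
      rw [piecewise_insert]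
      by_cases haS : a ∈ S
      · rw [← hv a haS]
        have : T.piecewise v' v a = v a := by rw [piecewise_eq_of_notMem _ _ _ ha]
        rw [← this, update_eq_self, ih]
      · rw [h.out a haS, ih]
  have := key univ
  rw [piecewise_univ] at this
  exact this.symm

/-- alternating in as many variables as the dimension -/
lemma alt_det [Fintype α] (b : Module.Basis (Fin k) E V) (hz : Function.Injective z) (h : Ml S f)
    (hzS : ∀ a, a ∈ S ↔ a ∈ Set.range z)
    (halt : ∀ i j, i ≠ j → pm (Equiv.swap (z i) (z j)) f = -f) :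
    f = f (extend z b 0) • fun v => b.det (fun i => v (z i)) := by
  funext v
  have hzS' : ∀ i, z i ∈ S := fun i => (hzS _).2 ⟨i, rfl⟩
  have h1 : f v = altMap z hz h hzS' halt v (fun i => v (z i)) := by
    show f v = f (extend z (fun i => v (z i)) v)
    rw [extend_self z hz]
  rw [h1, AlternatingMap.eq_smul_basis_det b (altMap z hz h hzS' halt v)]
  show (altMap z hz h hzS' halt v) b • b.det (fun i => v (z i)) = _
  congr 1
  show f (extend z b v) = f (extend z b 0)
  apply h.congr
  intro a ha
  obtain ⟨j, rfl⟩ := (hzS a).1 ha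
  rw [hz.extend_apply, hz.extend_apply]

end Alt

/-- the submodule of multilinear functions -/
def MlSub (S : Finset α) : Submodule E ((α → V) → E) where
  carrier := {f | Ml S f}
  add_mem' {f g} hf hg :=
    { add := fun a ha v x y => by
        simp only [Pi.add_apply]
        rw [hf.add a ha, hg.add a ha]
        ring
      smul := fun a ha v c x => by
        simp only [Pi.add_apply]
        rw [hf.smul a ha, hg.smul a ha]
        ring
      out := fun a ha v x => by
        simp only [Pi.add_apply]
        rw [Ml.out hf a ha, Ml.out hg a ha] }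
  zero_mem' :=
    { add := fun a ha v x y => by simp
      smul := fun a ha v c x => by simp
      out := fun a ha v x => by simp }
  smul_mem' c f hf :=
    { add := fun a ha v x y => by
        simp only [Pi.smul_apply, smul_eq_mul]
        rw [hf.add a ha]
        ring
      smul := fun a ha v c x => by
        simp only [Pi.smul_apply, smul_eq_mul]
        rw [hf.smul a ha]
        ring
      out := fun a ha v x => by
        simp only [Pi.smul_apply, smul_eq_mul]
        rw [Ml.out hf a ha] }

lemma mem_MlSub : f ∈ MlSub S ↔ Ml S f := Iff.rfl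

/-- the submodule of invariants -/
def InvSub (ψ : V →ₗ[E] V →ₗ[E] E) (S : Finset α) : Submodule E ((α → V) → E) where
  carrier := {f | Inv ψ S f}
  add_mem' {f g} hf hg u w v := by
    have h1 := hf u w v
    have h2 := hg u w v
    simp only [Pi.add_apply]
    rw [sum_add_distrib, h1, h2, add_zero]
  zero_mem' u w v := by simp
  smul_mem' c f hf u w v := by
    have h1 := hf u w v
    simp only [Pi.smul_apply, smul_eq_mul]
    rw [← mul_sum, h1, mul_zero]

lemma mem_InvSub {ψ : V →ₗ[E] V →ₗ[E] E} : f ∈ InvSub ψ S ↔ Inv ψ S f := Iff.rfl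

/-- alternation over the variables of `B` -/
noncomputable def altB (B : Finset α) (f : (α → V) → E) : (α → V) → E :=
  ∑ σ : Equiv.Perm {x // x ∈ B}, ((Equiv.Perm.sign σ : ℤ) : E) • pm (Equiv.Perm.ofSubtype σ) f

lemma altB_swap (B : Finset α) (f : (α → V) → E) {i j : α} (hi : i ∈ B) (hj : j ∈ B)
    (hij : i ≠ j) : pm (Equiv.swap i j) (altB B f) = - altB B f := by
  set τ : Equiv.Perm {x // x ∈ B} := Equiv.swap ⟨i, hi⟩ ⟨j, hj⟩ with hτ
  have hτ1 : Equiv.Perm.ofSubtype τ = Equiv.swap i j := by
    rw [hτ, Equiv.Perm.ofSubtype_swap_eq]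
  have hτ2 : Equiv.Perm.sign τ = -1 := Equiv.Perm.sign_swap (fun h => hij (congrArg Subtype.val h))
  unfold altB
  rw [map_sum, ← sum_neg_distrib]
  refine Fintype.sum_equiv (Equiv.mulLeft τ) _ _ fun σ => ?_
  rw [Equiv.coe_mulLeft, map_smul, ← pm_mul, ← hτ1, ← map_mul, Equiv.Perm.sign_mul, hτ2]
  simp

lemma ofSubtype_mem {B : Finset α} (hB : B ⊆ S) (σ : Equiv.Perm {x // x ∈ B}) (a : α) :
    Equiv.Perm.ofSubtype σ a ∈ S ↔ a ∈ S := by
  by_cases ha : a ∈ B
  · rw [Equiv.Perm.ofSubtype_apply_of_mem σ ha]
    exact ⟨fun _ => hB ha, fun _ => hB (σ ⟨a, ha⟩).2⟩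
  · rw [Equiv.Perm.ofSubtype_apply_of_not_mem σ ha]

/-- alternation multiplies by a factorial modulo a stable subspace -/
lemma altB_mod {B : Finset α} {T : Submodule E ((α → V) → E)}
    (hT : ∀ i ∈ B, ∀ j ∈ B, ∀ g ∈ T, pm (Equiv.swap i j) g ∈ T)
    (hf : ∀ i ∈ B, ∀ j ∈ B, i ≠ j → pm (Equiv.swap i j) f + f ∈ T) :
    altB B f - ((Fintype.card {x // x ∈ B}).factorial : E) • f ∈ T := by
  have key : ∀ σ : Equiv.Perm {x // x ∈ B},
      pm (Equiv.Perm.ofSubtype σ) f - ((Equiv.Perm.sign σ : ℤ) : E) • f ∈ T := by
    intro σ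
    induction σ using Equiv.Perm.swap_induction_on with
    | one =>
      rw [map_one, pm_one, Equiv.Perm.sign_one]
      simp
    | swap_mul τ x y hxy ih =>
      rw [map_mul, pm_mul, Equiv.Perm.ofSubtype_swap_eq, Equiv.Perm.sign_mul,
        Equiv.Perm.sign_swap hxy]
      have h1 := hT x x.2 y y.2 _ ih
      have h2 := hf x x.2 y y.2 (fun h => hxy (Subtype.ext h))
      rw [map_sub, map_smul] at h1
      have h3 := T.add_mem h1 (T.smul_mem ((Equiv.Perm.sign τ : ℤ) : E) h2)
      convert h3 using 1
      push_cast
      simp only [smul_add, neg_mul, one_mul, neg_smul]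
      abel
  have h1 : altB B f - ((Fintype.card {x // x ∈ B}).factorial : E) • f =
      ∑ σ : Equiv.Perm {x // x ∈ B}, ((Equiv.Perm.sign σ : ℤ) : E) •
        (pm (Equiv.Perm.ofSubtype σ) f - ((Equiv.Perm.sign σ : ℤ) : E) • f) := by
    simp only [smul_sub, sum_sub_distrib, smul_smul]
    congr 1
    have h2 : ∀ σ : Equiv.Perm {x // x ∈ B},
        ((Equiv.Perm.sign σ : ℤ) : E) * ((Equiv.Perm.sign σ : ℤ) : E) = 1 := by
      intro σ
      rcases Int.units_eq_one_or (Equiv.Perm.sign σ) with h | h <;> rw [h] <;> simp
    simp only [h2, one_smul]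
    rw [sum_const, card_univ, Fintype.card_perm, ← Nat.cast_smul_eq_nsmul E]
  rw [h1]
  exact T.sum_mem fun σ _ => T.smul_mem _ (key σ)

end Pool.Agent.H93Tate.Bos
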