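import Pool.Agent.H93Tate.Quad

/-! Cyclic action on `2^(a+1)` points: the odd functions form an irreducible representation. -/

set_option linter.unusedSectionVars false

namespace Pool.Agent.H93Tate

open Finset Polynomial

/-- an odd sequence on `ℤ/2g`, `g = 2^a`, whose Fourier coefficient at a primitive root of unity
vanishes is zero -/
lemma odd_seq_zero (a : ℕ) (f : ℕ → ℤ) (hf : ∀ i, f (i + 2 ^ a) = - f i) (z : ℂ)
    (hz : IsPrimitiveRoot z (2 ^ (a + 1)))
    (h : ∑ i ∈ range (2 ^ (a + 1)), (f i : ℂ) * z ^ i = 0) : ∀ i, f i = 0 := by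
  have hg : z ^ (2 ^ a) = -1 := by
    have h1 : (z ^ (2 ^ a)) ^ 2 = 1 := by
      rw [← pow_mul, ← pow_succ]; exact hz.pow_eq_one
    have h2 : z ^ (2 ^ a) ≠ 1 := by
      apply hz.pow_ne_one_of_pos_of_lt (pow_pos (by norm_num) a).ne'
      exact Nat.pow_lt_pow_right (by norm_num) (Nat.lt_succ_self a)
    have h3 : (z ^ (2 ^ a) - 1) * (z ^ (2 ^ a) + 1) = 0 := by linear_combination h1
    rcases mul_eq_zero.1 h3 with h4 | h4
    · exact absurd (sub_eq_zero.1 h4) h2
    · exact eq_neg_of_add_eq_zero_left h4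
  -- fold the sum
  have hfold : ∑ i ∈ range (2 ^ (a + 1)), (f i : ℂ) * z ^ i =
      2 * ∑ i ∈ range (2 ^ a), (f i : ℂ) * z ^ i := by
    have h1 : 2 ^ (a + 1) = 2 ^ a + 2 ^ a := by ring
    rw [h1, Finset.sum_range_add]
    have h2 : ∀ i ∈ range (2 ^ a), (f (2 ^ a + i) : ℂ) * z ^ (2 ^ a + i) = (f i : ℂ) * z ^ i := by
      intro i _
      rw [add_comm (2 ^ a) i, hf, pow_add, hg]
      push_cast
      ring
    rw [Finset.sum_congr rfl h2]
    ring
  rw [hfold] at h
  have h0 : ∑ i ∈ range (2 ^ a), (f i : ℂ) * z ^ i = 0 := by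
    rcases mul_eq_zero.1 h with h1 | h1
    · norm_num at h1
    · exact h1
  -- linear independence of the powers
  let Q : ℚ[X] := ∑ i ∈ range (2 ^ a), C (f i : ℚ) * X ^ i
  have hQ : aeval z Q = 0 := by
    rw [← h0]
    simp only [Q, map_sum, map_mul, map_pow, aeval_X, aeval_C]
    refine Finset.sum_congr rfl fun i _ => ?_
    simp
  have hpos : 0 < 2 ^ (a + 1) := pow_pos (by norm_num) _
  have hmin : minpoly ℚ z = cyclotomic (2 ^ (a + 1)) ℚ := (cyclotomic_eq_minpoly_rat hz hpos).symm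
  have hdeg : (minpoly ℚ z).natDegree = 2 ^ a := by
    rw [hmin, natDegree_cyclotomic, Nat.totient_prime_pow_succ Nat.prime_two]
    ring
  have hQ0 : Q = 0 := by
    by_contra hne
    have h1 := natDegree_le_of_dvd (minpoly.dvd ℚ z hQ) hne
    rw [hdeg] at h1
    have h2 : Q.natDegree < 2 ^ a := by
      rw [natDegree_lt_iff_degree_lt hne]
      refine lt_of_le_of_lt (degree_sum_le _ _) ?_
      rw [Finset.sup_lt_iff (WithBot.bot_lt_coe _)]
      intro i hi
      refine lt_of_le_of_lt (degree_C_mul_X_pow_le i _) ?_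
      exact_mod_cast Finset.mem_range.1 hi
    omega
  have hsmall : ∀ i < 2 ^ a, f i = 0 := by
    intro i hi
    have h1 : Q.coeff i = (f i : ℚ) := by
      simp only [Q, finsetSum_coeff, coeff_C_mul, coeff_X_pow]
      rw [Finset.sum_eq_single i]
      · simp
      · intro j _ hj
        rw [if_neg (Ne.symm hj), mul_zero]
      · intro h
        exact absurd (Finset.mem_range.2 hi) h
    rw [hQ0, coeff_zero] at h1
    exact_mod_cast h1.symm
  intro i
  induction i using Nat.strong_induction_on with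
  | _ i ih =>
    by_cases hi : i < 2 ^ a
    · exact hsmall i hi
    · push Not at hi
      have h1 : i - 2 ^ a + 2 ^ a = i := Nat.sub_add_cancel hi
      rw [← h1, hf, ih (i - 2 ^ a) (Nat.sub_lt_of_pos_le (pow_pos (by norm_num) a) hi), neg_zero]

/-- cyclic convolution: orthogonality to all shifts makes one of the Fourier coefficients
vanish -/
lemma conv_zero (N : ℕ) (hN : 0 < N) (f h : ℕ → ℤ)
    (hh : ∀ i, h (i + N) = h i) (z : ℂ) (hz : z ^ N = 1)
    (hrel : ∀ k, ∑ i ∈ range N, f i * h (i + k) = 0) :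
    (∑ i ∈ range N, (f i : ℂ) * (z⁻¹) ^ i) = 0 ∨ (∑ i ∈ range N, (h i : ℂ) * z ^ i) = 0 := by
  have hz0 : z ≠ 0 := by
    rintro rfl
    rw [zero_pow hN.ne'] at hz
    exact zero_ne_one hz
  -- periodicity of `h i z^i`
  have hper : Function.Periodic (fun i : ℕ => (h i : ℂ) * z ^ i) N := by
    intro i
    show (h (i + N) : ℂ) * z ^ (i + N) = (h i : ℂ) * z ^ i
    rw [hh, pow_add, hz, mul_one]
  have hshift : ∀ i, ∑ k ∈ range N, (h (i + k) : ℂ) * z ^ (i + k) =
      ∑ k ∈ range N, (h k : ℂ) * z ^ k := by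
    intro i
    induction i with
    | zero => simp
    | succ i ih =>
      rw [← ih]
      have h1 := Finset.sum_range_succ' (fun k => (h (i + k) : ℂ) * z ^ (i + k)) N
      have h2 := Finset.sum_range_succ (fun k => (h (i + k) : ℂ) * z ^ (i + k)) N
      rw [h1] at h2
      have h3 : (h (i + N) : ℂ) * z ^ (i + N) = (h (i + 0) : ℂ) * z ^ (i + 0) := by
        rw [add_zero]; exact hper i
      rw [h3] at h2
      have h4 := add_right_cancel h2
      rw [← h4]
      refine Finset.sum_congr rfl fun k _ => ?_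
      have h5 : i + 1 + k = i + (k + 1) := by ring
      rw [h5]
  have hprod : (∑ i ∈ range N, (f i : ℂ) * (z⁻¹) ^ i) * (∑ i ∈ range N, (h i : ℂ) * z ^ i) = 0 := by
    rw [Finset.sum_mul]
    have h1 : ∀ i ∈ range N, (f i : ℂ) * (z⁻¹) ^ i * (∑ k ∈ range N, (h k : ℂ) * z ^ k) =
        ∑ k ∈ range N, ((f i * h (i + k) : ℤ) : ℂ) * z ^ k := by
      intro i _
      rw [← hshift i, Finset.mul_sum]
      refine Finset.sum_congr rfl fun k _ => ?_
      rw [pow_add, inv_pow]
      push_cast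
      field_simp
    rw [Finset.sum_congr rfl h1, Finset.sum_comm]
    refine Finset.sum_eq_zero fun k _ => ?_
    rw [← Finset.sum_mul, ← Int.cast_sum, hrel k]
    simp
  exact mul_eq_zero.1 hprod

/-- **Combinatorial theorem for a full cycle.** -/
theorem cycle_trivial {X : Type*} [Fintype X] [DecidableEq X] {a : ℕ}
    (hcard : Fintype.card X = 2 ^ (a + 1)) {ι : X → X} (hι : ∀ x, ι (ι x) = x)
    (hf : ∀ x, ι x ≠ x) (σ : X → X) (hσ : ∀ x, ι (σ x) = σ (ι x))
    (hcyc : ∀ x y, ∃ k : ℕ, σ^[k] x = y) (u : X → ℤ) (hu : ∀ x, u (ι x) = - u x)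
    (hu0 : ∃ x, u x ≠ 0) (m : X → ℤ) (hm : IsOdd ι m)
    (hrel : ∀ k : ℕ, ∑ x, m x * u (σ^[k] x) = 0) : ∀ x, m x = 0 := by
  classical
  obtain ⟨x₀, hx₀⟩ := hu0
  set N := 2 ^ (a + 1) with hN
  have hNpos : 0 < N := pow_pos (by norm_num) _
  -- the minimal period of `x₀`
  have hper : x₀ ∈ Function.periodicPts σ := by
    obtain ⟨k, hk⟩ := hcyc (σ x₀) x₀
    refine ⟨k + 1, Nat.succ_pos k, ?_⟩
    show σ^[k + 1] x₀ = x₀
    rw [Function.iterate_succ_apply]
    exact hk
  set T := Function.minimalPeriod σ x₀ with hT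
  have hTpos : 0 < T := Function.minimalPeriod_pos_of_mem_periodicPts hper
  have hinj : Set.InjOn (fun i => σ^[i] x₀) (Finset.range T) := by
    intro i hi j hj hij
    have hi' : i < T := by simpa using hi
    have hj' : j < T := by simpa using hj
    exact Function.iterate_injOn_Iio_minimalPeriod hi' hj' hij
  have himage : (Finset.range T).image (fun i => σ^[i] x₀) = Finset.univ := by
    rw [Finset.eq_univ_iff_forall]
    intro y
    obtain ⟨k, hk⟩ := hcyc x₀ y
    refine Finset.mem_image.2 ⟨k % T, Finset.mem_range.2 (Nat.mod_lt _ hTpos), ?_⟩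
    rw [← hk]
    exact Function.iterate_mod_minimalPeriod_eq
  have hTN : T = N := by
    have h1 := Finset.card_image_of_injOn hinj
    rw [himage, Finset.card_univ, hcard, Finset.card_range] at h1
    exact h1.symm
  have hsum : ∀ F : X → ℤ, ∑ x, F x = ∑ i ∈ range N, F (σ^[i] x₀) := by
    intro F
    rw [← hTN, ← himage, Finset.sum_image hinj]
  -- the involution is the half turn
  obtain ⟨k, hk⟩ := hcyc x₀ (ι x₀)
  set j := k % T with hj
  have hj1 : σ^[j] x₀ = ι x₀ := by
    rw [← hk]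
    exact Function.iterate_mod_minimalPeriod_eq
  have hjlt : j < N := by rw [← hTN]; exact Nat.mod_lt _ hTpos
  have hιit : ∀ i x, ι (σ^[i] x) = σ^[i] (ι x) := by
    intro i
    induction i with
    | zero => intro x; rfl
    | succ i ih => intro x; rw [Function.iterate_succ_apply, Function.iterate_succ_apply, ih, hσ]
  have hj2 : σ^[j + j] x₀ = x₀ := by
    rw [Function.iterate_add_apply, hj1, ← hιit, hj1, hι]
  have hdvd : N ∣ j + j := by
    rw [← hTN]
    exact Function.IsPeriodicPt.minimalPeriod_dvd hj2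
  have hj0 : j ≠ 0 := by
    intro h0
    rw [h0] at hj1
    exact hf x₀ hj1.symm
  have hja : j = 2 ^ a := by
    obtain ⟨c, hc⟩ := hdvd
    have h1 : N = 2 * 2 ^ a := by rw [hN]; ring
    have h2 : c = 1 := by
      rcases Nat.lt_or_ge c 1 with h3 | h3
      · have : c = 0 := by omega
        rw [this] at hc
        omega
      · rcases Nat.lt_or_ge 1 c with h4 | h4
        · have : N * 2 ≤ N * c := Nat.mul_le_mul_left _ h4
          omega
        · omega
    rw [h2] at hc
    omega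
  have hshift : ∀ i, σ^[i + 2 ^ a] x₀ = ι (σ^[i] x₀) := by
    intro i
    rw [hιit, ← hj1, ← Function.iterate_add_apply, hja]
  let f : ℕ → ℤ := fun i => m (σ^[i] x₀)
  let h : ℕ → ℤ := fun i => u (σ^[i] x₀)
  have hfodd : ∀ i, f (i + 2 ^ a) = - f i := fun i => by
    show m (σ^[i + 2 ^ a] x₀) = - m (σ^[i] x₀)
    rw [hshift, hm]
  have hhodd : ∀ i, h (i + 2 ^ a) = - h i := fun i => by
    show u (σ^[i + 2 ^ a] x₀) = - u (σ^[i] x₀)
    rw [hshift, hu]
  have hhper : ∀ i, h (i + N) = h i := by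
    intro i
    have h1 : i + N = (i + 2 ^ a) + 2 ^ a := by rw [hN]; ring
    rw [h1, hhodd, hhodd, neg_neg]
  let z : ℂ := Complex.exp (2 * Real.pi * Complex.I / (N : ℕ))
  have hz : IsPrimitiveRoot z N := Complex.isPrimitiveRoot_exp N hNpos.ne'
  have hrel' : ∀ k, ∑ i ∈ range N, f i * h (i + k) = 0 := by
    intro k
    have h1 := hrel k
    rw [hsum] at h1
    rw [← h1]
    refine Finset.sum_congr rfl fun i _ => ?_
    show m (σ^[i] x₀) * u (σ^[i + k] x₀) = m (σ^[i] x₀) * u (σ^[k] (σ^[i] x₀))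
    rw [← Function.iterate_add_apply, add_comm k i]
  have hall : ∀ i, f i = 0 := by
    rcases conv_zero N hNpos f h hhper z hz.pow_eq_one hrel' with h1 | h1
    · exact odd_seq_zero a f hfodd z⁻¹ hz.inv h1
    · exfalso
      have h2 := odd_seq_zero a h hhodd z hz h1 0
      exact hx₀ h2
  intro x
  obtain ⟨k, hk⟩ := hcyc x₀ x
  rw [← hk]
  exact hall k

end Pool.Agent.H93Tate
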