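import Mathlib

/-! The `p`-adic slope of an algebraic number. -/

namespace Pool.Agent.H93Tate

/-- The `p`-adic order of `y`, normalised so that `p ^ n` has order `1`. -/
noncomputable def slope (p n : ℕ) [Fact p.Prime] (y : PadicAlgCl p) : ℝ :=
  -Real.logb ((p : ℝ) ^ n) ‖y‖

end Pool.Agent.H93Tate
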