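import Mathlib

/-! Generation of Tate classes in degree two, abstract form. -/

set_option linter.unusedSectionVars false

namespace Pool.Agent.H93Tate

open Submodule

variable {E R : Type*} [Field E] [Ring R] [Algebra E R]

/-- a pair `(v, x)`: an eigenvector in `V` together with its eigenvalue in `X` -/
def EigPair (Φ Ψ : R →ₐ[E] R) (V : Submodule E R) (X : Set E) (s : ℕ) (c : R × E) : Prop :=
  c.1 ∈ V ∧ c.2 ∈ X ∧ Φ c.1 = c.2 • c.1 ∧ Ψ c.1 = c.2 ^ s • c.1

lemma map_prod_list {Φ Ψ : R →ₐ[E] R} {V : Submodule E R} {X : Set E} {s : ℕ}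
    (L : List (R × E)) (hL : ∀ c ∈ L, EigPair Φ Ψ V X s c) :
    Ψ (L.map Prod.fst).prod = ((L.map Prod.snd).prod) ^ s • (L.map Prod.fst).prod := by
  induction L with
  | nil => simp
  | cons c L ih =>
    have h1 := hL c (List.mem_cons_self)
    have h2 := ih (fun d hd => hL d (List.mem_cons_of_mem _ hd))
    simp only [List.map_cons, List.prod_cons, map_mul, h1.2.2.2, h2, mul_pow]
    rw [smul_mul_smul_comm]

/-- moving an element across a product -/
lemma prod_mul_comm {V : Submodule E R} {ε : E}
    (hcomm : ∀ v ∈ V, ∀ w ∈ V, v * w = ε • (w * v)) (A : List R) (hA : ∀ a ∈ A, a ∈ V)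
    (w : R) (hw : w ∈ V) : ∃ δ : E, A.prod * w = δ • (w * A.prod) := by
  induction A with
  | nil => exact ⟨1, by simp⟩
  | cons a A ih =>
    obtain ⟨δ, hδ⟩ := ih (fun b hb => hA b (List.mem_cons_of_mem _ hb))
    refine ⟨δ * ε, ?_⟩
    rw [List.prod_cons, mul_assoc, hδ, mul_smul_comm, ← mul_assoc,
      hcomm a (hA a List.mem_cons_self) w hw, smul_mul_assoc, smul_smul, mul_assoc]

/-- balanced monomials are products of degree two Tate classes -/
lemma balanced_mem [DecidableEq E] {Φ Ψ : R →ₐ[E] R} {V : Submodule E R} {X : Set E} {s : ℕ} {ε q : E}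
    (hcomm : ∀ v ∈ V, ∀ w ∈ V, v * w = ε • (w * v))
    (hX0 : ∀ x ∈ X, x ≠ 0)
    (hXne : ∀ x ∈ X, q / x ≠ x) :
    ∀ (n : ℕ) (L : List (R × E)), L.length ≤ n → (∀ c ∈ L, EigPair Φ Ψ V X s c) →
      (∀ x ∈ X, (L.map Prod.snd).count x = (L.map Prod.snd).count (q / x)) →
      (L.map Prod.fst).prod ∈ Algebra.adjoin E {c : R | c ∈ V ^ 2 ∧ Φ c = q • c} := by
  intro n
  induction n with
  | zero =>
    intro L hn _ _
    have : L = [] := List.length_eq_zero_iff.1 (Nat.le_zero.1 hn)
    subst this
    simp
  | succ n ih =>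
    intro L hn hL hbal
    match L, hn, hL, hbal with
    | [], _, _, _ => simp
    | (v, x) :: L', hn, hL, hbal =>
      have hv := hL (v, x) List.mem_cons_self
      have hx : x ∈ X := hv.2.1
      have hq : q / x ≠ x := hXne x hx
      have h1 := hbal x hx
      have h2 : (L'.map Prod.snd).count (q / x) ≠ 0 := by
        rw [List.map_cons, List.count_cons_self, List.count_cons_of_ne hq.symm] at h1
        omega
      have h3 : q / x ∈ L'.map Prod.snd := by
        by_contra hc
        exact h2 (List.count_eq_zero_of_not_mem hc)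
      obtain ⟨⟨w, y⟩, hw, hy⟩ := List.mem_map.1 h3
      have hy' : y = q / x := hy
      obtain ⟨A, B, hAB⟩ := List.append_of_mem hw
      subst hAB
      have hwp := hL (w, y) (List.mem_cons_of_mem _ hw)
      have hAV : ∀ a ∈ A.map Prod.fst, a ∈ V := by
        intro a ha
        obtain ⟨c, hc, rfl⟩ := List.mem_map.1 ha
        exact (hL c (List.mem_cons_of_mem _ (List.mem_append_left _ hc))).1
      obtain ⟨δ, hδ⟩ := prod_mul_comm hcomm (A.map Prod.fst) hAV w hwp.1
      have hprod : (((v, x) :: (A ++ (w, y) :: B)).map Prod.fst).prod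
          = δ • ((v * w) * ((A ++ B).map Prod.fst).prod) := by
        simp only [List.map_cons, List.map_append, List.prod_cons, List.prod_append]
        rw [← mul_assoc (A.map Prod.fst).prod w, hδ, smul_mul_assoc, mul_smul_comm]
        simp only [mul_assoc]
      rw [hprod]
      refine Subalgebra.smul_mem _ (Subalgebra.mul_mem _ ?_ ?_) _
      · apply Algebra.subset_adjoin
        refine ⟨?_, ?_⟩
        · rw [pow_two]
          exact Submodule.mul_mem_mul hv.1 hwp.1
        · rw [map_mul, hv.2.2.1, hwp.2.2.1, smul_mul_smul_comm]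
          show (x * y) • (v * w) = q • (v * w)
          rw [hy', mul_div_cancel₀ q (hX0 x hx)]
      · apply ih (A ++ B)
        · simp only [List.length_cons, List.length_append] at hn ⊢
          omega
        · intro c hc
          apply hL c
          apply List.mem_cons_of_mem
          rcases List.mem_append.1 hc with h | h
          · exact List.mem_append_left _ h
          · exact List.mem_append_right _ (List.mem_cons_of_mem _ h)
        · intro z hz
          have h4 := hbal z hz
          simp only [List.map_cons, List.map_append, List.count_cons, List.count_append] at h4 ⊢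
          -- the pair `x`, `q / x` is removed
          have h5 : (x == z) = (y == q / z) := by
            rw [Bool.eq_iff_iff, beq_iff_eq, beq_iff_eq, hy']
            constructor
            · intro h; rw [h]
            · intro h
              have hx0 := hX0 x hx
              have hz0 := hX0 z hz
              have hq0 : q ≠ 0 := by
                intro h0
                apply hX0 y hwp.2.1
                rw [hy', h0, zero_div]
              rw [div_eq_div_iff hx0 hz0] at h
              exact (mul_left_cancel₀ hq0 h).symm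
          have h6 : (y == z) = (x == q / z) := by
            rw [Bool.eq_iff_iff, beq_iff_eq, beq_iff_eq, hy']
            have hx0 := hX0 x hx
            have hz0 := hX0 z hz
            constructor
            · intro h; rw [← h, div_div_cancel₀]
              intro h0
              apply hX0 y hwp.2.1
              rw [hy', h0, zero_div]
            · intro h; rw [h, div_div_cancel₀]
              intro h0
              apply hX0 y hwp.2.1
              rw [hy', h0, zero_div]
          rw [h5, h6] at h4
          omega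

/-- lattice lemma: submodules of an independent family that together span everything are equal
to the members of the family -/
lemma eq_of_iSup_eq_top {κ M : Type*} [AddCommGroup M] [Module E M] (A g : κ → Submodule E M)
    (hg : iSupIndep g) (hA : ∀ i, A i ≤ g i) (htop : ⨆ i, A i = ⊤) (i : κ) : g i ≤ A i := by
  have h1 : A i ⊔ ⨆ (j) (_ : j ≠ i), A j = ⊤ := by
    rw [eq_top_iff, ← htop]
    refine iSup_le fun j => ?_
    by_cases h : j = i
    · subst h; exact le_sup_left
    · exact le_sup_of_le_right (le_iSup₂_of_le j h le_rfl)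
  have h2 : (⨆ (j) (_ : j ≠ i), A j) ≤ ⨆ (j) (_ : j ≠ i), g j :=
    iSup₂_mono fun j _ => hA j
  have h3 : (⨆ (j) (_ : j ≠ i), A j) ⊓ g i = ⊥ := by
    rw [eq_bot_iff]
    refine le_trans (inf_le_inf_right _ h2) ?_
    rw [inf_comm]
    exact (hg i).le_bot
  calc g i = (A i ⊔ ⨆ (j) (_ : j ≠ i), A j) ⊓ g i := by rw [h1, top_inf_eq]
    _ = A i ⊔ (⨆ (j) (_ : j ≠ i), A j) ⊓ g i := by rw [sup_inf_assoc_of_le _ (hA i)]
    _ = A i := by rw [h3, sup_bot_eq]
    _ ≤ A i := le_rfl

/-- **Abstract generation theorem.** -/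
theorem tate_gen [DecidableEq E] {Φ Ψ : R →ₐ[E] R} {V : Submodule E R} {X : Set E} {s : ℕ}
    {ε q ν : E}
    (hcomm : ∀ v ∈ V, ∀ w ∈ V, v * w = ε • (w * v))
    (hX0 : ∀ x ∈ X, x ≠ 0) (hXne : ∀ x ∈ X, q / x ≠ x)
    (htop : Algebra.adjoin E (V : Set R) = ⊤)
    (hspan : V ≤ span E {v : R | ∃ x, EigPair Φ Ψ V X s (v, x)})
    (key : ∀ xs : List E, (∀ x ∈ xs, x ∈ X) → xs.prod ^ s = ν →
      ∀ x ∈ X, xs.count x = xs.count (q / x))
    (t : R) (ht : Ψ t = ν • t) :
    t ∈ Algebra.adjoin E {c : R | c ∈ V ^ 2 ∧ Φ c = q • c} := by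
  classical
  let f : Module.End E R := Ψ.toLinearMap
  let A : E → Submodule E R := fun μ => span E {m : R | ∃ L : List (R × E),
    (∀ c ∈ L, EigPair Φ Ψ V X s c) ∧ ((L.map Prod.snd).prod) ^ s = μ ∧ (L.map Prod.fst).prod = m}
  have hA : ∀ μ, A μ ≤ f.eigenspace μ := by
    intro μ
    refine span_le.2 ?_
    rintro m ⟨L, hL, hμ, rfl⟩
    rw [SetLike.mem_coe, Module.End.mem_eigenspace_iff]
    show Ψ _ = _
    rw [map_prod_list L hL, hμ]
  have hAtop : ⨆ μ, A μ = ⊤ := by
    rw [eq_top_iff]
    have h1 : (⊤ : Submodule E R) = Subalgebra.toSubmodule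
        (Algebra.adjoin E {v : R | ∃ x, EigPair Φ Ψ V X s (v, x)}) := by
      symm
      rw [← Algebra.top_toSubmodule]
      congr 1
      rw [eq_top_iff, ← htop]
      apply Algebra.adjoin_le
      intro v hv
      have h2 := hspan hv
      exact (span_le.2 (fun w hw => Algebra.subset_adjoin hw) :
        span E {v : R | ∃ x, EigPair Φ Ψ V X s (v, x)} ≤ Subalgebra.toSubmodule
          (Algebra.adjoin E {v : R | ∃ x, EigPair Φ Ψ V X s (v, x)})) h2
    rw [h1, Algebra.adjoin_eq_span]
    refine span_le.2 ?_
    intro m hm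
    obtain ⟨l, hl, rfl⟩ := Submonoid.exists_list_of_mem_closure hm
    -- attach eigenvalues
    obtain ⟨L, hL, hLl⟩ : ∃ L : List (R × E), (∀ c ∈ L, EigPair Φ Ψ V X s c) ∧
        L.map Prod.fst = l := by
      clear hm
      induction l with
      | nil => exact ⟨[], by simp, rfl⟩
      | cons a l ih =>
        obtain ⟨L, hL, h⟩ := ih (fun b hb => hl b (List.mem_cons_of_mem _ hb))
        obtain ⟨x, hx⟩ := hl a List.mem_cons_self
        refine ⟨(a, x) :: L, ?_, by simp [h]⟩
        intro c hc
        rcases List.mem_cons.1 hc with rfl | h'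
        · exact hx
        · exact hL c h'
    apply Submodule.mem_iSup_of_mem (((L.map Prod.snd).prod) ^ s)
    apply subset_span
    exact ⟨L, hL, rfl, by rw [hLl]⟩
  have hmem : t ∈ A ν := by
    apply eq_of_iSup_eq_top A (fun μ => f.eigenspace μ) (Module.End.eigenspaces_iSupIndep f) hA
      hAtop ν
    rw [Module.End.mem_eigenspace_iff]
    exact ht
  have hle : A ν ≤ Subalgebra.toSubmodule
      (Algebra.adjoin E {c : R | c ∈ V ^ 2 ∧ Φ c = q • c}) := by
    refine span_le.2 ?_
    rintro m ⟨L, hL, hμ, rfl⟩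
    refine balanced_mem hcomm hX0 hXne L.length L le_rfl hL ?_
    refine key _ ?_ hμ
    intro x hx
    obtain ⟨c, hc, rfl⟩ := List.mem_map.1 hx
    exact (hL c hc).2.1
  exact hle hmem

end Pool.Agent.H93Tate
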