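import Mathlib

/-! The Casimir identity in an abstract algebra generated by creation and annihilation
operators. -/

set_option linter.unusedSectionVars false

namespace Pool.Agent.H93Tate.Fft

open Finset

variable {K : Type*} [Field K] {R : Type*} [Ring R] [Algebra K R]
variable {I : Type*} [Fintype I] [DecidableEq I] {m : ℕ}

/-- canonical anticommutation relations -/
structure CAR (C A : I → Fin m → R) : Prop where
  cc : ∀ i a j b, C i a * C j b = - (C j b * C i a)
  aa : ∀ i a j b, A i a * A j b = - (A j b * A i a)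
  ac : ∀ i a j b, A i a * C j b = (if i = j then (if a = b then 1 else 0) else 0) - C j b * A i a

variable {C A : I → Fin m → R}

section
variable (C A)
/-- matrix units on the index `i` -/
def Eo (i j : I) : R := ∑ a, C i a * A j a

/-- matrix units on the copies -/
def Go (B : Finset I) (a b : Fin m) : R := ∑ i ∈ B, C i a * A i b

/-- degree on the block -/
def No (B : Finset I) : R := ∑ i ∈ B, ∑ a, C i a * A i a

/-- multiplication by an invariant of degree two -/
def So (bar : I → I) (c : I → K) (B : Finset I) (a b : Fin m) : R :=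
  ∑ i ∈ B, (c i)⁻¹ • (C i a * C (bar i) b)

/-- contraction with an invariant of degree two -/
def To (bar : I → I) (c : I → K) (B : Finset I) (a b : Fin m) : R :=
  ∑ j ∈ B, c j • (A j a * A (bar j) b)

end

lemma CAR.quad (h : CAR C A) (i j k l : I) (a b d f : Fin m) :
    C i a * A j b * (C k d * A l f) =
      (if j = k then (if b = d then C i a * A l f else 0) else 0) -
        C i a * C k d * (A j b * A l f) := by
  have h1 : C i a * A j b * (C k d * A l f) = C i a * (A j b * C k d) * A l f := by noncomm_ring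
  rw [h1, h.ac]
  split_ifs <;> noncomm_ring

lemma CAR.id1 (h : CAR C A) (B : Finset I) :
    ∑ i ∈ B, ∑ j ∈ B, Eo C A i j * Eo C A j i + ∑ a, ∑ b, Go C A B a b * Go C A B b a =
      ((B.card : K) + (m : K)) • No C A B := by
  have e1 : ∑ i ∈ B, ∑ j ∈ B, Eo C A i j * Eo C A j i =
      ∑ i ∈ B, ∑ j ∈ B, ∑ a, ∑ b, ((if a = b then C i a * A i b else 0) -
        C i a * C j b * (A j a * A i b)) := by
    refine sum_congr rfl fun i _ => sum_congr rfl fun j _ => ?_
    rw [Eo, Eo, sum_mul]
    refine sum_congr rfl fun a _ => ?_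
    rw [mul_sum]
    refine sum_congr rfl fun b _ => ?_
    rw [h.quad, if_pos rfl]
  have e2 : ∑ a, ∑ b, Go C A B a b * Go C A B b a =
      ∑ a, ∑ b, ∑ i ∈ B, ∑ j ∈ B, ((if i = j then C i a * A j a else 0) +
        C i a * C j b * (A j a * A i b)) := by
    refine sum_congr rfl fun a _ => sum_congr rfl fun b _ => ?_
    rw [Go, Go, sum_mul]
    refine sum_congr rfl fun i _ => ?_
    rw [mul_sum]
    refine sum_congr rfl fun j _ => ?_
    rw [h.quad, if_pos rfl, h.aa i b j a]
    noncomm_ring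
  have e3 : ∑ a, ∑ b, ∑ i ∈ B, ∑ j ∈ B, C i a * C j b * (A j a * A i b) =
      ∑ i ∈ B, ∑ j ∈ B, ∑ a, ∑ b, C i a * C j b * (A j a * A i b) := by
    have : ∀ a : Fin m, ∑ b, ∑ i ∈ B, ∑ j ∈ B, C i a * C j b * (A j a * A i b) =
        ∑ i ∈ B, ∑ j ∈ B, ∑ b, C i a * C j b * (A j a * A i b) := by
      intro a
      rw [sum_comm]
      refine sum_congr rfl fun i _ => ?_
      rw [sum_comm]
    rw [sum_congr rfl fun a _ => this a, sum_comm]
    refine sum_congr rfl fun i _ => ?_
    rw [sum_comm]
  have e4 : ∑ i ∈ B, ∑ j ∈ B, ∑ a : Fin m, ∑ b, (if a = b then C i a * A i b else 0) =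
      (B.card : K) • No C A B := by
    have h1 : ∀ i ∈ B, ∑ j ∈ B, ∑ a : Fin m, ∑ b, (if a = b then C i a * A i b else 0) =
        (B.card : K) • ∑ a, C i a * A i a := by
      intro i _
      rw [sum_const, ← Nat.cast_smul_eq_nsmul K]
      congr 1
      refine sum_congr rfl fun a _ => ?_
      rw [sum_ite_eq, if_pos (mem_univ _)]
    rw [sum_congr rfl h1, ← smul_sum, No]
  have e5 : ∑ a, ∑ b : Fin m, ∑ i ∈ B, ∑ j ∈ B, (if i = j then C i a * A j a else 0) =
      (m : K) • No C A B := by
    have h1 : ∀ a : Fin m, ∑ b : Fin m, ∑ i ∈ B, ∑ j ∈ B, (if i = j then C i a * A j a else 0) =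
        (m : K) • ∑ i ∈ B, C i a * A i a := by
      intro a
      rw [sum_const, ← Nat.cast_smul_eq_nsmul K, card_univ, Fintype.card_fin]
      congr 1
      refine sum_congr rfl fun i hi => ?_
      rw [sum_ite_eq, if_pos hi]
    rw [sum_congr rfl fun a _ => h1 a, ← smul_sum, No, sum_comm]
  rw [e1, e2]
  simp only [sum_sub_distrib, sum_add_distrib]
  rw [e3, e4, e5, add_smul]
  abel

lemma CAR.id2 (h : CAR C A) (bar : I → I) (hbar : ∀ i, bar (bar i) = i) (c : I → K)
    (hc0 : ∀ i, c i ≠ 0) (hc : ∀ i, c (bar i) = - c i) (B : Finset I) (δ : K)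
    (hδ : ∀ i ∈ B, (if bar i ∈ B then (1 : K) else 0) = δ) :
    ∑ i ∈ B, ∑ j ∈ B, (c j * (c i)⁻¹) • (Eo C A i j * Eo C A (bar i) (bar j)) =
      - (δ • No C A B) - ∑ a, ∑ b, So C bar c B a b * To A bar c B a b := by
  have e1 : ∑ i ∈ B, ∑ j ∈ B, (c j * (c i)⁻¹) • (Eo C A i j * Eo C A (bar i) (bar j)) =
      ∑ i ∈ B, ∑ j ∈ B, ∑ a, ∑ b, ((if j = bar i then (if a = b then
        (c j * (c i)⁻¹) • (C i a * A (bar j) b) else 0) else 0) -
        (c j * (c i)⁻¹) • (C i a * C (bar i) b * (A j a * A (bar j) b))) := by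
    refine sum_congr rfl fun i _ => sum_congr rfl fun j _ => ?_
    rw [Eo, Eo, sum_mul, smul_sum]
    refine sum_congr rfl fun a _ => ?_
    rw [mul_sum, smul_sum]
    refine sum_congr rfl fun b _ => ?_
    rw [h.quad, smul_sub]
    congr 1
    split_ifs <;> simp
  have e2 : ∑ a, ∑ b, So C bar c B a b * To A bar c B a b =
      ∑ i ∈ B, ∑ j ∈ B, ∑ a, ∑ b,
        (c j * (c i)⁻¹) • (C i a * C (bar i) b * (A j a * A (bar j) b)) := by
    have h1 : ∀ a b : Fin m, So C bar c B a b * To A bar c B a b =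
        ∑ i ∈ B, ∑ j ∈ B, (c j * (c i)⁻¹) • (C i a * C (bar i) b * (A j a * A (bar j) b)) := by
      intro a b
      rw [So, To, sum_mul]
      refine sum_congr rfl fun i _ => ?_
      rw [mul_sum]
      refine sum_congr rfl fun j _ => ?_
      rw [smul_mul_smul_comm, mul_comm]
    rw [sum_congr rfl fun a _ => sum_congr rfl fun b _ => h1 a b]
    have h2 : ∀ a : Fin m, ∑ b, ∑ i ∈ B, ∑ j ∈ B,
        (c j * (c i)⁻¹) • (C i a * C (bar i) b * (A j a * A (bar j) b)) =
        ∑ i ∈ B, ∑ j ∈ B, ∑ b,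
          (c j * (c i)⁻¹) • (C i a * C (bar i) b * (A j a * A (bar j) b)) := by
      intro a
      rw [sum_comm]
      refine sum_congr rfl fun i _ => ?_
      rw [sum_comm]
    rw [sum_congr rfl fun a _ => h2 a, sum_comm]
    refine sum_congr rfl fun i _ => ?_
    rw [sum_comm]
  have e3 : ∑ i ∈ B, ∑ j ∈ B, ∑ a : Fin m, ∑ b, (if j = bar i then (if a = b then
        (c j * (c i)⁻¹) • (C i a * A (bar j) b) else 0) else 0) = - (δ • No C A B) := by
    rw [No, smul_sum, ← sum_neg_distrib]
    refine sum_congr rfl fun i hi => ?_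
    rw [← hδ i hi]
    by_cases hb : bar i ∈ B
    · rw [if_pos hb, one_smul, sum_eq_single (bar i)]
      · rw [← sum_neg_distrib]
        refine sum_congr rfl fun a _ => ?_
        rw [sum_eq_single a]
        · rw [if_pos rfl, if_pos rfl, hbar, hc, neg_mul, mul_inv_cancel₀ (hc0 i), neg_smul, one_smul]
        · intro b _ hb'
          rw [if_pos rfl, if_neg (Ne.symm hb')]
        · simp
      · intro j _ hj
        simp only [if_neg hj, sum_const_zero]
      · intro h'; exact absurd hb h'
    · rw [if_neg hb, zero_smul, neg_zero]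
      apply sum_eq_zero
      intro j hj
      have : j ≠ bar i := by rintro rfl; exact hb hj
      simp only [if_neg this, sum_const_zero]
  rw [e1, e2]
  simp only [sum_sub_distrib]
  rw [e3]

/-- **Casimir identity.** -/
lemma CAR.casimir (h : CAR C A) (bar : I → I) (hbar : ∀ i, bar (bar i) = i) (c : I → K)
    (hc0 : ∀ i, c i ≠ 0) (hc : ∀ i, c (bar i) = - c i) (B : Finset I) (δ : K)
    (hδ : ∀ i ∈ B, (if bar i ∈ B then (1 : K) else 0) = δ) :
    ∑ i ∈ B, ∑ j ∈ B, (c i)⁻¹ • (Eo C A i j * (c i • Eo C A j i - c j • Eo C A (bar i) (bar j))) =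
      ((B.card : K) + (m : K) + δ) • No C A B - ∑ a, ∑ b, Go C A B a b * Go C A B b a
        + ∑ a, ∑ b, So C bar c B a b * To A bar c B a b := by
  have h1 : ∑ i ∈ B, ∑ j ∈ B,
      (c i)⁻¹ • (Eo C A i j * (c i • Eo C A j i - c j • Eo C A (bar i) (bar j))) =
      ∑ i ∈ B, ∑ j ∈ B, Eo C A i j * Eo C A j i -
        ∑ i ∈ B, ∑ j ∈ B, (c j * (c i)⁻¹) • (Eo C A i j * Eo C A (bar i) (bar j)) := by
    rw [← sum_sub_distrib]
    refine sum_congr rfl fun i _ => ?_
    rw [← sum_sub_distrib]
    refine sum_congr rfl fun j _ => ?_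
    rw [mul_sub, mul_smul_comm, mul_smul_comm, smul_sub, smul_smul, smul_smul,
      inv_mul_cancel₀ (hc0 i), one_smul, mul_comm (c i)⁻¹]
  rw [h1, h.id2 bar hbar c hc0 hc B δ hδ, ← sub_eq_iff_eq_add.2 (h.id1 (K := K) B).symm, add_smul _ δ]
  abel

/-- The quadratic Casimir of the copies on a weight vector. -/
lemma CAR.comm_Go (h : CAR C A) (B : Finset I) (a b d f : Fin m) :
    Go C A B a b * Go C A B d f = Go C A B d f * Go C A B a b +
      (if b = d then Go C A B a f else 0) - (if a = f then Go C A B d b else 0) := by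
  have key : ∀ i j : I, C i a * A i b * (C j d * A j f) = C j d * A j f * (C i a * A i b) +
      (if i = j then (if b = d then C i a * A j f else 0) else 0) -
      (if j = i then (if f = a then C j d * A i b else 0) else 0) := by
    intro i j
    rw [h.quad, h.quad, h.cc j d i a, h.aa j f i b]
    noncomm_ring
  have e0 : Go C A B a b * Go C A B d f = ∑ i ∈ B, ∑ j ∈ B, C i a * A i b * (C j d * A j f) := by
    rw [Go, Go, sum_mul]
    exact sum_congr rfl fun i _ => by rw [mul_sum]
  have e0' : Go C A B d f * Go C A B a b = ∑ i ∈ B, ∑ j ∈ B, C j d * A j f * (C i a * A i b) := by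
    rw [Go, Go, sum_mul, sum_comm]
    exact sum_congr rfl fun i _ => by rw [mul_sum]
  rw [e0, sum_congr rfl fun i _ => sum_congr rfl fun j _ => key i j]
  simp only [sum_sub_distrib, sum_add_distrib]
  rw [← e0']
  congr 1
  · congr 1
    have : ∀ i ∈ B, ∑ j ∈ B, (if i = j then (if b = d then C i a * A j f else 0) else 0) =
        (if b = d then C i a * A i f else 0) := by
      intro i hi
      rw [sum_ite_eq, if_pos hi]
    rw [sum_congr rfl this, Go]
    split_ifs <;> simp
  · have : ∀ i ∈ B, ∑ j ∈ B, (if j = i then (if f = a then C j d * A i b else 0) else 0) =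
        (if f = a then C i d * A i b else 0) := by
      intro i hi
      rw [sum_ite_eq', if_pos hi]
    rw [sum_congr rfl this, Go]
    by_cases hfa : f = a
    · simp [hfa]
    · simp [hfa, Ne.symm hfa]

end Pool.Agent.H93Tate.Fft
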