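import Mathlib

/-! Sums of commuting idempotents and joint eigenvectors in a stable subspace. -/

set_option linter.unusedSectionVars false

namespace Pool.Agent.H93Tate.Fft

open Finset Polynomial

variable {K : Type*} [Field K] [CharZero K] {M : Type*} [AddCommGroup M] [Module K M]
variable {α : Type*} [DecidableEq α]

/-- a nonnegative combination of commuting idempotents -/
lemma idem_zero (n : α → Module.End K M) (hid : ∀ p, n p * n p = n p)
    (hcomm : ∀ p q, n p * n q = n q * n p) (Q : Finset α) :
    ∀ (c : ℕ) (y : M), (∑ p ∈ Q, n p : Module.End K M) y + (c : K) • y = 0 → (c : K) • y = 0 ∧ ∀ p ∈ Q, n p y = 0 := by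
  induction Q using Finset.induction_on with
  | empty => intro c y h; simpa using h
  | insert b Q hb ih =>
    intro c y h
    rw [sum_insert hb, LinearMap.add_apply] at h
    have h1 : (∑ p ∈ Q, n p : Module.End K M) (n b y) + ((c + 1 : ℕ) : K) • n b y = 0 := by
      have h2 := congrArg (n b) h
      rw [map_add, map_add, map_zero, map_smul] at h2
      have h3 : n b (n b y) = n b y := by
        have := congrArg (fun f : Module.End K M => f y) (hid b)
        exact this
      have h4 : n b ((∑ p ∈ Q, n p) y) = (∑ p ∈ Q, n p) (n b y) := by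
        rw [LinearMap.sum_apply, LinearMap.sum_apply, map_sum]
        refine sum_congr rfl fun p _ => ?_
        exact congrArg (fun f : Module.End K M => f y) (hcomm b p)
      rw [h3, h4] at h2
      rw [Nat.cast_add, Nat.cast_one, add_smul, one_smul, ← h2, add_comm ((c : K) • n b y), ← add_assoc,
        add_comm (n b y)]
    have h2 := (ih (c + 1) _ h1).1
    have h3 : n b y = 0 := by
      rcases smul_eq_zero.1 h2 with h | h
      · exact absurd h (by exact_mod_cast Nat.succ_ne_zero c)
      · exact h
    rw [h3, zero_add] at h
    obtain ⟨h4, h5⟩ := ih c y h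
    refine ⟨h4, ?_⟩
    intro p hp
    rcases mem_insert.1 hp with rfl | hp
    · exact h3
    · exact h5 p hp

/-- eigenvalues of a sum of commuting idempotents are bounded -/
lemma idem_bound (n : α → Module.End K M) (hid : ∀ p, n p * n p = n p)
    (hcomm : ∀ p q, n p * n q = n q * n p) (Q : Finset α) (j : ℕ) (y : M) (hy : y ≠ 0)
    (h : (∑ p ∈ Q, n p : Module.End K M) y = (j : K) • y) : j ≤ Q.card := by
  by_contra hlt
  push Not at hlt
  obtain ⟨d, hd⟩ : ∃ d, j = Q.card + (d + 1) := ⟨j - Q.card - 1, by omega⟩
  have h1 := idem_zero (fun p => 1 - n p) (fun p => by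
      have := hid p
      show (1 - n p) * (1 - n p) = 1 - n p
      rw [mul_sub, sub_mul, sub_mul, one_mul, mul_one, this]
      simp)
    (fun p q => by
      have := hcomm p q
      show (1 - n p) * (1 - n q) = (1 - n q) * (1 - n p)
      rw [mul_sub, sub_mul, sub_mul, mul_sub, sub_mul, sub_mul, this]
      simp only [one_mul, mul_one]
      abel) Q (d + 1) y (by
      rw [sum_sub_distrib, LinearMap.sub_apply, h, hd, sum_const, LinearMap.smul_apply]
      show Q.card • y - _ + _ = _
      rw [← Nat.cast_smul_eq_nsmul K]
      push_cast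
      rw [add_smul]
      abel)
  rcases smul_eq_zero.1 h1.1 with h2 | h2
  · exact absurd h2 (by exact_mod_cast Nat.succ_ne_zero d)
  · exact hy h2

lemma aeval_add_idem (T n : Module.End K M) (hid : n * n = n) (hc : T * n = n * T) (f : K[X]) :
    aeval (T + n) f = n * aeval (T + 1) f + (1 - n) * aeval T f := by
  induction f using Polynomial.induction_on' with
  | add p q hp hq => rw [map_add, map_add, map_add, hp, hq]; noncomm_ring
  | monomial k a =>
    simp only [aeval_monomial]
    have h1 : (T + n) ^ k = n * (T + 1) ^ k + (1 - n) * T ^ k := by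
      induction k with
      | zero => simp
      | succ k ih =>
        have e1 : (T + n) * n = n * (T + 1) := by rw [add_mul, hid, hc]; noncomm_ring
        have e2 : (T + n) * (1 - n) = (1 - n) * T := by
          rw [mul_sub, e1]; noncomm_ring
        rw [pow_succ', ih, mul_add, ← mul_assoc, e1, ← mul_assoc, e2, mul_assoc, mul_assoc,
          ← pow_succ', ← pow_succ']
    rw [h1, mul_add, ← mul_assoc, ← mul_assoc, ← mul_assoc, ← mul_assoc, ← Algebra.commutes a n,
      ← Algebra.commutes a (1 - n)]

/-- the polynomial killing a sum of commuting idempotents -/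
lemma aeval_sum_idem (n : α → Module.End K M) (hid : ∀ p, n p * n p = n p)
    (hcomm : ∀ p q, n p * n q = n q * n p) (Q : Finset α) :
    aeval (∑ p ∈ Q, n p) (∏ j ∈ range (Q.card + 1), (X - C (j : K))) = 0 := by
  induction Q using Finset.induction_on with
  | empty => simp
  | insert b Q hb ih =>
    rw [sum_insert hb, add_comm, aeval_add_idem _ _ (hid b), card_insert_of_notMem hb]
    · have h1 : aeval (∑ p ∈ Q, n p) (∏ j ∈ range (Q.card + 1 + 1), (X - C (j : K))) = 0 := by
        rw [prod_range_succ, map_mul, ih, zero_mul]
      have h2 : aeval (∑ p ∈ Q, n p + 1) (∏ j ∈ range (Q.card + 1 + 1), (X - C (j : K))) = 0 := by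
        have h3 : aeval (∑ p ∈ Q, n p + 1) (∏ j ∈ range (Q.card + 1 + 1), (X - C (j : K))) =
            aeval (∑ p ∈ Q, n p) ((∏ j ∈ range (Q.card + 1 + 1), (X - C (j : K))).comp (X + 1)) := by
          rw [aeval_comp]
          simp
        rw [h3, Polynomial.prod_comp, prod_range_succ']
        have h4 : ∏ k ∈ range (Q.card + 1), (X - C (((k + 1 : ℕ) : K))).comp (X + 1) =
            ∏ k ∈ range (Q.card + 1), (X - C (k : K)) := by
          refine prod_congr rfl fun k _ => ?_
          simp only [sub_comp, X_comp, C_comp]
          push_cast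
          rw [map_add, C_1]
          ring
        rw [h4, map_mul, ih, zero_mul]
      rw [h1, h2, mul_zero, mul_zero, add_zero]
    · rw [sum_mul, mul_sum]
      exact sum_congr rfl fun p _ => hcomm p b

/-- one operator -/
lemma one_eig (T : Module.End K M) (N : ℕ)
    (hT : aeval T (∏ j ∈ range (N + 1), (X - C (j : K))) = 0) (y : M) :
    ∃ L : ℕ → K[X], y = ∑ j ∈ range (N + 1), aeval T (L j) y ∧
      ∀ j ∈ range (N + 1), T (aeval T (L j) y) = (j : K) • aeval T (L j) y := by
  have hinj : Set.InjOn (fun j : ℕ => (j : K)) (range (N + 1) : Finset ℕ) :=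
    fun i _ j _ h => Nat.cast_injective h
  refine ⟨fun j => Lagrange.basis (range (N + 1)) (fun j : ℕ => (j : K)) j, ?_, ?_⟩
  · have h1 := Lagrange.sum_basis hinj ⟨0, by simp⟩
    have h2 := congrArg (fun f => aeval T f y) h1
    simp only [map_sum, LinearMap.sum_apply, map_one] at h2
    exact h2.symm
  · intro j hj
    have h1 : (X - C (j : K)) * Lagrange.basis (range (N + 1)) (fun j : ℕ => (j : K)) j =
        (∏ i ∈ (range (N + 1)).erase j, C (((j : K) - i)⁻¹)) *
          ∏ j ∈ range (N + 1), (X - C (j : K)) := by
      rw [Lagrange.basis]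
      simp only [Lagrange.basisDivisor]
      rw [prod_mul_distrib, ← mul_prod_erase _ _ hj]
      ring
    have h2 : aeval T ((X - C (j : K)) *
        Lagrange.basis (range (N + 1)) (fun j : ℕ => (j : K)) j) = 0 := by
      rw [h1, map_mul, hT, mul_zero]
    rw [map_mul, map_sub, aeval_X, aeval_C] at h2
    have h3 := congrArg (fun f : Module.End K M => f y) h2
    simp only [Module.End.mul_apply, LinearMap.sub_apply, LinearMap.zero_apply,
      Module.algebraMap_end_apply] at h3
    exact sub_eq_zero.1 h3

/-- joint eigenvectors in a stable subspace -/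
lemma joint_eig {κ : Type*} [DecidableEq κ] (T : κ → Module.End K M) (N : κ → ℕ)
    (hT : ∀ q, aeval (T q) (∏ j ∈ range (N q + 1), (X - C (j : K))) = 0)
    (hcomm : ∀ q q', T q * T q' = T q' * T q) (W : Submodule K M)
    (hW : ∀ q, ∀ y ∈ W, T q y ∈ W) (S : Finset κ) :
    ∀ z ∈ W, z ∈ Submodule.span K {y | y ∈ W ∧ ∀ q ∈ S, ∃ j : ℕ, T q y = (j : K) • y} := by
  induction S using Finset.induction_on with
  | empty =>
    intro z hz
    exact Submodule.subset_span ⟨hz, by simp⟩
  | insert b S hb ih =>
    intro z hz
    refine Submodule.span_le.2 ?_ (ih z hz)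
    rintro y ⟨hy, hS⟩
    obtain ⟨L, h1, h2⟩ := one_eig (T b) (N b) (hT b) y
    rw [h1]
    refine Submodule.sum_mem _ fun j hj => Submodule.subset_span ⟨?_, ?_⟩
    · have h3 : ∀ (f : K[X]) (w : M), w ∈ W → aeval (T b) f w ∈ W := by
        intro f w hw
        induction f using Polynomial.induction_on' with
        | add p q hp hq => rw [map_add, LinearMap.add_apply]; exact W.add_mem hp hq
        | monomial k a =>
          rw [aeval_monomial, Algebra.algebraMap_eq_smul_one, smul_mul_assoc, one_mul,
            LinearMap.smul_apply]
          apply W.smul_mem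
          induction k with
          | zero => exact hw
          | succ k ih => rw [pow_succ', Module.End.mul_apply]; exact hW b _ ih
      exact h3 _ _ hy
    · intro q hq
      rcases mem_insert.1 hq with rfl | hq
      · exact ⟨j, h2 j hj⟩
      · obtain ⟨i, hi⟩ := hS q hq
        refine ⟨i, ?_⟩
        have h4 : T q * aeval (T b) (L j) = aeval (T b) (L j) * T q := by
          have : Commute (T q) (T b) := hcomm q b
          have h5 : ∀ f : K[X], Commute (T q) (aeval (T b) f) := by
            intro f
            induction f using Polynomial.induction_on' with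
            | add p q hp hq => rw [map_add]; exact hp.add_right hq
            | monomial k a =>
              rw [aeval_monomial]
              exact Commute.mul_right (Algebra.commutes a (T q)).symm (this.pow_right k)
          exact h5 _
        have h5 := congrArg (fun f : Module.End K M => f y) h4
        simp only [Module.End.mul_apply] at h5
        rw [h5, hi, map_smul]

end Pool.Agent.H93Tate.Fft
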