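import Pool.Agent.H93Tate.Fft1
import Pool.Agent.H93Tate.Fft2
import Pool.Agent.H93Tate.Fft3

/-! Invariants of block symplectic Lie algebras in exterior algebras: the operators. -/

set_option linter.unusedSectionVars false

namespace Pool.Agent.H93Tate.Fft

open ExteriorAlgebra Finset
open scoped Classical

variable {K : Type*} [Field K] [CharZero K] {I : Type*} [Fintype I] [DecidableEq I] {m : ℕ}
variable {U : Type*} [AddCommGroup U] [Module K U]

/-- involution, form and equivalence relation on an index set -/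
structure Blk (bar : I → I) (c : I → K) (E : I → I → Prop) : Prop where
  inv : ∀ i, bar (bar i) = i
  c0 : ∀ i, c i ≠ 0
  cneg : ∀ i, c (bar i) = - c i
  refl : ∀ i, E i i
  symm : ∀ i j, E i j → E j i
  trans : ∀ i j k, E i j → E j k → E i k
  dual : ∀ i j, E i j → E (bar i) (bar j)

variable (e : Module.Basis (I × Fin m) K U)

/-- matrix units -/
noncomputable def mu (i j : I) : Module.End K U :=
  e.constr K fun p => if p.1 = j then e (i, p.2) else 0

lemma mu_apply (i j l : I) (a : Fin m) : mu e i j (e (l, a)) = if l = j then e (i, a) else 0 := by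
  rw [mu, Module.Basis.constr_basis]

/-- root elements -/
noncomputable def rt (bar : I → I) (c : I → K) (k l : I) : Module.End K U :=
  c l • mu e k l - c k • mu e (bar l) (bar k)

lemma rt_apply (bar : I → I) (c : I → K) (k l j : I) (a : Fin m) :
    rt e bar c k l (e (j, a)) = c l • (if j = l then e (k, a) else 0) -
      c k • (if j = bar k then e (bar l, a) else 0) := by
  simp only [rt, LinearMap.sub_apply, LinearMap.smul_apply, mu_apply]

/-- matrix units on the copies -/
noncomputable def ga (B : Finset I) (a b : Fin m) : Module.End K U :=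
  e.constr K fun p => if p.1 ∈ B ∧ p.2 = b then e (p.1, a) else 0

lemma ga_apply (B : Finset I) (a b : Fin m) (j : I) (x : Fin m) :
    ga e B a b (e (j, x)) = if j ∈ B ∧ x = b then e (j, a) else 0 := by
  rw [ga, Module.Basis.constr_basis]

/-- creation operators -/
noncomputable def Cr (i : I) (a : Fin m) : Module.End K (ExteriorAlgebra K U) := cr (e (i, a))

/-- annihilation operators -/
noncomputable def An (i : I) (a : Fin m) : Module.End K (ExteriorAlgebra K U) :=
  ct (e.coord (i, a))

lemma car : CAR (Cr e) (An e) where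
  cc _ _ _ _ := cr_cr _ _
  aa _ _ _ _ := ct_ct_op _ _
  ac i a j b := by
    unfold Cr An
    rw [ct_cr, coord_self]
    congr 1
    by_cases h1 : i = j
    · by_cases h2 : a = b
      · rw [if_pos h1, if_pos h2, if_pos (by rw [h1, h2]), one_smul]
      · rw [if_pos h1, if_neg h2, if_neg (by
          intro h; exact h2 (congrArg Prod.snd h).symm), zero_smul]
    · rw [if_neg h1, if_neg (by intro h; exact h1 (congrArg Prod.fst h).symm), zero_smul]

lemma cr_zero : cr (K := K) (0 : U) = 0 := by
  apply LinearMap.ext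
  intro x
  simp

lemma dv_mu (i j : I) : dv e (mu e i j) = Eo (Cr e) (An e) i j := by
  rw [dv, Fintype.sum_prod_type, sum_eq_single j]
  · rw [Eo]
    refine sum_congr rfl fun a _ => ?_
    rw [mu_apply, if_pos rfl]
    rfl
  · intro l _ hl
    apply sum_eq_zero
    intro a _
    rw [mu_apply, if_neg hl, cr_zero, zero_mul]
  · simp

lemma dv_ga (B : Finset I) (a b : Fin m) : dv e (ga e B a b) = Go (Cr e) (An e) B a b := by
  rw [dv, Fintype.sum_prod_type, Go, ← sum_subset (subset_univ B)]
  · refine sum_congr rfl fun i hi => ?_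
    rw [sum_eq_single b]
    · rw [ga_apply, if_pos ⟨hi, rfl⟩]
      rfl
    · intro x _ hx
      rw [ga_apply, if_neg (fun h => hx h.2), cr_zero, zero_mul]
    · simp
  · intro i _ hi
    apply sum_eq_zero
    intro x _
    rw [ga_apply, if_neg (fun h => hi h.1), cr_zero, zero_mul]

lemma dv_rt (bar : I → I) (c : I → K) (k l : I) :
    dv e (rt e bar c k l) =
      c l • Eo (Cr e) (An e) k l - c k • Eo (Cr e) (An e) (bar l) (bar k) := by
  rw [rt, dv_sub, dv_smul, dv_smul, dv_mu, dv_mu]

/-- the class of an index -/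
noncomputable def cls (E : I → I → Prop) (i : I) : Finset I := univ.filter (E i ·)

lemma mem_cls {E : I → I → Prop} {i j : I} : j ∈ cls E i ↔ E i j := by simp [cls]

/-- the invariants -/
noncomputable def Iv (bar : I → I) (c : I → K) (E : I → I → Prop) :
    Submodule K (ExteriorAlgebra K U) where
  carrier := {z | ∀ k l, E k l → dv e (rt e bar c k l) z = 0}
  add_mem' {x y} hx hy k l h := by rw [map_add, hx k l h, hy k l h, add_zero]
  zero_mem' k l _ := map_zero _
  smul_mem' a x hx k l h := by rw [map_smul, hx k l h, smul_zero]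

variable {e}

lemma mem_Iv {bar : I → I} {c : I → K} {E : I → I → Prop} {z : ExteriorAlgebra K U} :
    z ∈ Iv e bar c E ↔ ∀ k l, E k l → dv e (rt e bar c k l) z = 0 := Iff.rfl

variable {bar : I → I} {c : I → K} {E : I → I → Prop}

lemma mu_ga (B : Finset I) (a b : Fin m) (k l : I) (h : k ∈ B ↔ l ∈ B) :
    mu e k l * ga e B a b = ga e B a b * mu e k l := by
  apply e.ext
  rintro ⟨j, x⟩
  show mu e k l (ga e B a b (e (j, x))) = ga e B a b (mu e k l (e (j, x)))
  rw [ga_apply, mu_apply]
  by_cases h1 : j = l
  · subst h1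
    rw [if_pos rfl, ga_apply]
    by_cases h2 : j ∈ B ∧ x = b
    · rw [if_pos h2, if_pos ⟨h.2 h2.1, h2.2⟩, mu_apply, if_pos rfl]
    · rw [if_neg h2, if_neg (fun h3 => h2 ⟨h.1 h3.1, h3.2⟩), map_zero]
  · rw [if_neg h1, map_zero]
    split_ifs
    · rw [mu_apply, if_neg h1]
    · rw [map_zero]

lemma rt_ga (h : Blk bar c E) (i0 : I) (a b : Fin m) (k l : I) (hkl : E k l) :
    rt e bar c k l * ga e (cls E i0) a b = ga e (cls E i0) a b * rt e bar c k l := by
  have h1 : k ∈ cls E i0 ↔ l ∈ cls E i0 := by
    rw [mem_cls, mem_cls]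
    exact ⟨fun h2 => h.trans _ _ _ h2 hkl, fun h2 => h.trans _ _ _ h2 (h.symm _ _ hkl)⟩
  have h2 : bar l ∈ cls E i0 ↔ bar k ∈ cls E i0 := by
    rw [mem_cls, mem_cls]
    exact ⟨fun h2 => h.trans _ _ _ h2 (h.dual _ _ (h.symm _ _ hkl)),
      fun h2 => h.trans _ _ _ h2 (h.dual _ _ hkl)⟩
  rw [rt, sub_mul, mul_sub, smul_mul_assoc, smul_mul_assoc, mul_smul_comm, mul_smul_comm,
    mu_ga _ _ _ _ _ h1, mu_ga _ _ _ _ _ h2]

/-- the invariants are stable under the matrix units on the copies -/
lemma Go_mem (h : Blk bar c E) (i0 : I) (a b : Fin m) {z : ExteriorAlgebra K U}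
    (hz : z ∈ Iv e bar c E) : Go (Cr e) (An e) (cls E i0) a b z ∈ Iv e bar c E := by
  intro k l hkl
  rw [← dv_ga, dv_comm, hz k l hkl, map_zero, zero_add, rt_ga h i0 a b k l hkl, sub_self]
  have : dv e (0 : Module.End K U) = 0 := by
    have := dv_smul e 0 (0 : Module.End K U)
    rw [zero_smul, zero_smul] at this
    exact this
  rw [this, LinearMap.zero_apply]

lemma coord_mu (k l j : I) (a : Fin m) :
    e.coord (j, a) ∘ₗ mu e k l = if j = k then e.coord (l, a) else 0 := by
  apply e.ext
  rintro ⟨i, x⟩
  rw [LinearMap.comp_apply, mu_apply]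
  by_cases h1 : i = l
  · subst h1
    rw [if_pos rfl, coord_self]
    by_cases h2 : j = k
    · subst h2
      rw [if_pos rfl, coord_self]
      simp [Prod.ext_iff]
    · rw [if_neg h2, if_neg (by simp [Prod.ext_iff, Ne.symm h2]), LinearMap.zero_apply]
  · rw [if_neg h1, map_zero]
    split_ifs
    · rw [coord_self, if_neg (by simp [Prod.ext_iff, h1])]
    · rw [LinearMap.zero_apply]

lemma coord_rt (k l j : I) (a : Fin m) :
    e.coord (j, a) ∘ₗ rt e bar c k l = c l • (if j = k then e.coord (l, a) else 0) -
      c k • (if j = bar l then e.coord (bar k, a) else 0) := by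
  rw [rt, LinearMap.comp_sub, LinearMap.comp_smul, LinearMap.comp_smul, coord_mu, coord_mu]

lemma ct_zero : ct (0 : Module.Dual K U) = 0 := by
  apply LinearMap.ext
  intro x
  simp [ct]

lemma ct_coord_rt (k l j : I) (a : Fin m) (x : ExteriorAlgebra K U) :
    ct (e.coord (j, a) ∘ₗ rt e bar c k l) x = c l • (if j = k then An e l a x else 0) -
      c k • (if j = bar l then An e (bar k) a x else 0) := by
  rw [coord_rt, ct_sub, ct_smul, ct_smul]
  congr 2
  · split_ifs
    · rfl
    · rw [ct_zero, LinearMap.zero_apply]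
  · split_ifs
    · rfl
    · rw [ct_zero, LinearMap.zero_apply]

/-- the invariants are stable under contraction with invariants -/
lemma To_mem (h : Blk bar c E) (i0 : I) (a b : Fin m) {z : ExteriorAlgebra K U}
    (hz : z ∈ Iv e bar c E) : To (An e) bar c (cls E i0) a b z ∈ Iv e bar c E := by
  intro k l hkl
  have e1 : To (An e) bar c (cls E i0) a b z =
      ∑ j ∈ cls E i0, c j • An e j a (An e (bar j) b z) := by
    rw [To, LinearMap.sum_apply]
    rfl
  rw [e1, map_sum]
  have e2 : ∀ j, dv e (rt e bar c k l) (c j • An e j a (An e (bar j) b z)) =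
      - (c j • (c l • (if j = k then An e l a (An e (bar j) b z) else 0) -
        c k • (if j = bar l then An e (bar k) a (An e (bar j) b z) else 0))) -
      c j • An e j a (c l • (if bar j = k then An e l b z else 0) -
        c k • (if bar j = bar l then An e (bar k) b z else 0)) := by
    intro j
    rw [map_smul]
    have f1 : dv e (rt e bar c k l) (An e j a (An e (bar j) b z)) =
        An e j a (dv e (rt e bar c k l) (An e (bar j) b z)) -
          ct (e.coord (j, a) ∘ₗ rt e bar c k l) (An e (bar j) b z) := dv_ct _ _ _ _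
    have f2 : dv e (rt e bar c k l) (An e (bar j) b z) =
        An e (bar j) b (dv e (rt e bar c k l) z) -
          ct (e.coord (bar j, b) ∘ₗ rt e bar c k l) z := dv_ct _ _ _ _
    rw [f1, f2, hz k l hkl, map_zero, zero_sub, map_neg, ct_coord_rt, ct_coord_rt]
    rw [smul_sub, smul_neg]
    abel
  rw [sum_congr rfl fun j _ => e2 j]
  -- the four contributions
  have hk : k ∈ cls E i0 ↔ l ∈ cls E i0 := by
    rw [mem_cls, mem_cls]
    exact ⟨fun h2 => h.trans _ _ _ h2 hkl, fun h2 => h.trans _ _ _ h2 (h.symm _ _ hkl)⟩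
  have hl : bar l ∈ cls E i0 ↔ bar k ∈ cls E i0 := by
    rw [mem_cls, mem_cls]
    exact ⟨fun h2 => h.trans _ _ _ h2 (h.dual _ _ (h.symm _ _ hkl)),
      fun h2 => h.trans _ _ _ h2 (h.dual _ _ hkl)⟩
  have g1 : ∑ j ∈ cls E i0, c j • (c l • (if j = k then An e l a (An e (bar j) b z) else 0)) =
      if k ∈ cls E i0 then (c k * c l) • An e l a (An e (bar k) b z) else 0 := by
    have : ∀ j, c j • (c l • (if j = k then An e l a (An e (bar j) b z) else 0)) =
        if j = k then (c k * c l) • An e l a (An e (bar k) b z) else 0 := by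
      intro j
      split_ifs with h1
      · rw [h1, smul_smul]
      · rw [smul_zero, smul_zero]
    rw [sum_congr rfl fun j _ => this j, sum_ite_eq']
  have g2 : ∑ j ∈ cls E i0, c j • (c k • (if j = bar l then An e (bar k) a (An e (bar j) b z)
      else 0)) = if bar l ∈ cls E i0 then (- (c l * c k)) • An e (bar k) a (An e l b z) else 0 := by
    have : ∀ j, c j • (c k • (if j = bar l then An e (bar k) a (An e (bar j) b z) else 0)) =
        if j = bar l then (- (c l * c k)) • An e (bar k) a (An e l b z) else 0 := by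
      intro j
      split_ifs with h1
      · rw [h1, h.inv, h.cneg, smul_smul, neg_mul]
      · rw [smul_zero, smul_zero]
    rw [sum_congr rfl fun j _ => this j, sum_ite_eq']
  have g3 : ∑ j ∈ cls E i0, c j • An e j a (c l • (if bar j = k then An e l b z else 0)) =
      if bar k ∈ cls E i0 then (- (c k * c l)) • An e (bar k) a (An e l b z) else 0 := by
    have : ∀ j, c j • An e j a (c l • (if bar j = k then An e l b z else 0)) =
        if j = bar k then (- (c k * c l)) • An e (bar k) a (An e l b z) else 0 := by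
      intro j
      by_cases h1 : bar j = k
      · have h2 : j = bar k := by rw [← h1, h.inv]
        rw [if_pos h1, if_pos h2, h2, h.cneg, map_smul, smul_smul, neg_mul]
      · have h2 : j ≠ bar k := by rintro rfl; exact h1 (h.inv k)
        rw [if_neg h1, if_neg h2, smul_zero, map_zero, smul_zero]
    rw [sum_congr rfl fun j _ => this j, sum_ite_eq']
  have g4 : ∑ j ∈ cls E i0, c j • An e j a (c k • (if bar j = bar l then An e (bar k) b z else 0)) =
      if l ∈ cls E i0 then (c l * c k) • An e l a (An e (bar k) b z) else 0 := by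
    have : ∀ j, c j • An e j a (c k • (if bar j = bar l then An e (bar k) b z else 0)) =
        if j = l then (c l * c k) • An e l a (An e (bar k) b z) else 0 := by
      intro j
      by_cases h1 : j = l
      · rw [if_pos h1, if_pos (by rw [h1]), h1, map_smul, smul_smul]
      · have h2 : bar j ≠ bar l := by
          intro h3
          apply h1
          rw [← h.inv j, h3, h.inv]
        rw [if_neg h1, if_neg h2, smul_zero, map_zero, smul_zero]
    rw [sum_congr rfl fun j _ => this j, sum_ite_eq']
  simp only [smul_sub, map_sub, neg_sub, sum_sub_distrib]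
  rw [g1, g2, g3, g4]
  by_cases h1 : k ∈ cls E i0
  · rw [if_pos h1, if_pos (hk.1 h1), mul_comm (c l) (c k)]
    by_cases h2 : bar l ∈ cls E i0
    · rw [if_pos h2, if_pos (hl.1 h2)]
      abel
    · rw [if_neg h2, if_neg (fun h3 => h2 (hl.2 h3))]
      abel
  · rw [if_neg h1, if_neg (fun h2 => h1 (hk.2 h2))]
    by_cases h2 : bar l ∈ cls E i0
    · rw [if_pos h2, if_pos (hl.1 h2), mul_comm (c l) (c k)]
      abel
    · rw [if_neg h2, if_neg (fun h3 => h2 (hl.2 h3))]
      abel

variable (e) (bar c E) in
/-- the invariants of degree two -/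
noncomputable def sl (i : I) (a b : Fin m) : ExteriorAlgebra K U :=
  ∑ j ∈ cls E i, (c j)⁻¹ • (ι K (e (j, a)) * ι K (e (bar j, b)))

lemma So_apply (i : I) (a b : Fin m) (x : ExteriorAlgebra K U) :
    So (Cr e) bar c (cls E i) a b x = sl e bar c E i a b * x := by
  rw [So, LinearMap.sum_apply, sl, sum_mul]
  refine sum_congr rfl fun j _ => ?_
  rw [smul_mul_assoc, mul_assoc]
  rfl

variable (e) (bar c E) in
/-- the algebra generated by the invariants of degree two -/
noncomputable def Ad : Subalgebra K (ExteriorAlgebra K U) :=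
  Algebra.adjoin K {s | ∃ i a b, s = sl e bar c E i a b}

lemma sl_mem (i : I) (a b : Fin m) : sl e bar c E i a b ∈ Ad e bar c E :=
  Algebra.subset_adjoin ⟨i, a, b, rfl⟩

lemma dv_ga_sl (h : Blk bar c E) (i0 i : I) (a b d f : Fin m) :
    dv e (ga e (cls E i0) a b) (sl e bar c E i d f) ∈ Ad e bar c E := by
  have key : dv e (ga e (cls E i0) a b) (sl e bar c E i d f) =
      (if E i0 i ∧ d = b then sl e bar c E i a f else 0) +
      (if E i0 (bar i) ∧ f = b then sl e bar c E i d a else 0) := by
    rw [sl, map_sum]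
    have e1 : ∀ j ∈ cls E i, dv e (ga e (cls E i0) a b)
        ((c j)⁻¹ • (ι K (e (j, d)) * ι K (e (bar j, f)))) =
        (if E i0 i ∧ d = b then (c j)⁻¹ • (ι K (e (j, a)) * ι K (e (bar j, f))) else 0) +
        (if E i0 (bar i) ∧ f = b then (c j)⁻¹ • (ι K (e (j, d)) * ι K (e (bar j, a))) else 0) := by
      intro j hj
      rw [mem_cls] at hj
      have h1 : j ∈ cls E i0 ↔ E i0 i := by
        rw [mem_cls]
        exact ⟨fun h2 => h.trans _ _ _ h2 (h.symm _ _ hj), fun h2 => h.trans _ _ _ h2 hj⟩
      have h2 : bar j ∈ cls E i0 ↔ E i0 (bar i) := by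
        rw [mem_cls]
        exact ⟨fun h2 => h.trans _ _ _ h2 (h.dual _ _ (h.symm _ _ hj)),
          fun h2 => h.trans _ _ _ h2 (h.dual _ _ hj)⟩
      rw [map_smul, dv_ι_mul, dv_ι, ga_apply, ga_apply, smul_add]
      simp only [h1, h2]
      congr 1
      · split_ifs
        · rfl
        · rw [map_zero, zero_mul, smul_zero]
      · split_ifs
        · rfl
        · rw [map_zero, mul_zero, smul_zero]
    rw [sum_congr rfl e1, sum_add_distrib]
    congr 1
    · split_ifs
      · rfl
      · rw [sum_const_zero]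
    · split_ifs
      · rfl
      · rw [sum_const_zero]
  rw [key]
  apply add_mem
  · split_ifs
    · exact sl_mem _ _ _
    · exact zero_mem _
  · split_ifs
    · exact sl_mem _ _ _
    · exact zero_mem _

/-- the algebra is stable under the matrix units on the copies -/
lemma Go_Ad (h : Blk bar c E) (i0 : I) (a b : Fin m) {z : ExteriorAlgebra K U}
    (hz : z ∈ Ad e bar c E) : Go (Cr e) (An e) (cls E i0) a b z ∈ Ad e bar c E := by
  rw [← dv_ga]
  unfold Ad at hz
  induction hz using Algebra.adjoin_induction with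
  | mem x hx =>
    obtain ⟨i, d, f, rfl⟩ := hx
    exact dv_ga_sl h i0 i a b d f
  | algebraMap r =>
    rw [Algebra.algebraMap_eq_smul_one, map_smul, dv_one, smul_zero]
    exact zero_mem _
  | add x y _ _ hx hy => rw [map_add]; exact add_mem hx hy
  | mul x y hx' hy' hx hy =>
    rw [dv_mul]
    exact add_mem (mul_mem hx hy') (mul_mem hx' hy)

lemma So_Ad (i : I) (a b : Fin m) {z : ExteriorAlgebra K U} (hz : z ∈ Ad e bar c E) :
    So (Cr e) bar c (cls E i) a b z ∈ Ad e bar c E := by
  rw [So_apply]
  exact mul_mem (sl_mem _ _ _) hz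

end Pool.Agent.H93Tate.Fft
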