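import Pool.Agent.H93Tate.Fft4

/-! **First fundamental theorem** for block symplectic Lie algebras in exterior algebras: the
invariants are generated by the invariants of degree two. -/

set_option linter.unusedSectionVars false

namespace Pool.Agent.H93Tate.Fft

open ExteriorAlgebra Finset Polynomial
open scoped Classical

section Scalar

variable {K : Type*} [Field K] [CharZero K] {P : Type*} [Fintype P] [DecidableEq P]
variable {U : Type*} [AddCommGroup U] [Module K U] (e : Module.Basis P K U)

lemma nb_apply (p : P) (x : ExteriorAlgebra K U) : nb e p x = ι K (e p) * ct (e.coord p) x := rfl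

lemma exists_repr (x : ExteriorAlgebra K U) :
    ∃ (r : K) (w : P → ExteriorAlgebra K U), x = r • 1 + ∑ p, ι K (e p) * w p := by
  induction x using ext_induction with
  | h1 => exact ⟨1, fun _ => 0, by simp⟩
  | hadd a b ha hb =>
    obtain ⟨r, w, rfl⟩ := ha
    obtain ⟨r', w', rfl⟩ := hb
    refine ⟨r + r', fun p => w p + w' p, ?_⟩
    simp only [mul_add, sum_add_distrib, add_smul]
    abel
  | hsmul c a ha =>
    obtain ⟨r, w, rfl⟩ := ha
    refine ⟨c * r, fun p => c • w p, ?_⟩
    simp only [smul_add, smul_sum, mul_smul_comm, mul_smul]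
  | hmul v a _ =>
    refine ⟨0, fun p => e.repr v p • a, ?_⟩
    rw [zero_smul, zero_add]
    conv_lhs => rw [← e.sum_repr v]
    rw [map_sum, sum_mul]
    refine sum_congr rfl fun p _ => ?_
    rw [map_smul, smul_mul_assoc, mul_smul_comm]

/-- an element without particles is a scalar -/
lemma scalar_of_zero (y : ExteriorAlgebra K U) (h : ∀ p, nb e p y = 0) :
    ∃ r : K, y = r • 1 := by
  have key : ∀ (S : Finset P) (r : K) (w : P → ExteriorAlgebra K U),
      y = r • 1 + ∑ p ∈ S, ι K (e p) * w p → ∃ r : K, y = r • 1 := by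
    intro S
    induction S using Finset.induction_on with
    | empty =>
      intro r w h1
      exact ⟨r, by simpa using h1⟩
    | insert q S hq ih =>
      intro r w h1
      apply ih r (fun p => w p - nb e q (w p))
      have h2 := h q
      conv_rhs at h1 => rw [sum_insert hq]
      have h3 : nb e q y = ι K (e q) * w q + ∑ p ∈ S, ι K (e p) * nb e q (w p) := by
        rw [h1, map_add, map_add, map_smul, nb_apply e q 1, ct_one, mul_zero, smul_zero, zero_add,
          map_sum]
        congr 1
        · rw [nb_apply, ct_ι_mul, coord_self, if_pos rfl, one_smul, mul_sub, ← mul_assoc,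
            ι_sq_zero, zero_mul, sub_zero]
        · refine sum_congr rfl fun p hp => ?_
          have hpq : p ≠ q := by rintro rfl; exact hq hp
          rw [nb_apply, ct_ι_mul, coord_self, if_neg hpq, zero_smul, zero_sub, nb_apply,
            ← mul_assoc, mul_neg, ← mul_assoc, ← neg_mul]
          congr 1
          rw [neg_eq_iff_add_eq_zero]
          exact ι_add_mul_swap _ _
      rw [h2] at h3
      simp only [mul_sub, sum_sub_distrib]
      have h4 : ∑ p ∈ S, ι K (e p) * nb e q (w p) = - (ι K (e q) * w q) := by
        rw [eq_neg_iff_add_eq_zero, add_comm]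
        exact h3.symm
      rw [h4, h1]
      abel
  obtain ⟨r, w, hw⟩ := exists_repr e y
  exact key univ r w hw

lemma dv_id : dv e 1 = ∑ p, nb e p := rfl

lemma dv_id_comm (f : Module.End K U) (x : ExteriorAlgebra K U) :
    dv e 1 (dv e f x) = dv e f (dv e 1 x) := by
  rw [dv_comm, one_mul, mul_one, sub_self]
  have : dv e (0 : Module.End K U) = 0 := by
    have := dv_smul e 0 (0 : Module.End K U)
    rw [zero_smul, zero_smul] at this
    exact this
  rw [this, LinearMap.zero_apply, add_zero]

lemma dv_id_ct (φ : Module.Dual K U) (x : ExteriorAlgebra K U) :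
    dv e 1 (ct φ x) = ct φ (dv e 1 x) - ct φ x := by
  rw [dv_ct]
  rfl

lemma ct_of_nb {p : P} {y : ExteriorAlgebra K U} (h : nb e p y = 0) : ct (e.coord p) y = 0 := by
  have h1 := congrArg (ct (e.coord p)) h
  rw [nb_apply, map_zero, ct_ι_mul, coord_self, if_pos rfl, one_smul] at h1
  have h2 : ct (e.coord p) (ct (e.coord p) y) = 0 :=
    CliffordAlgebra.contractLeft_contractLeft (Q := (0 : QuadraticForm K U)) _ _
  rw [h2, mul_zero, sub_zero] at h1
  exact h1

end Scalar

variable {K : Type*} [Field K] [CharZero K] {I : Type*} [Fintype I] [DecidableEq I] {m : ℕ}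
variable {U : Type*} [AddCommGroup U] [Module K U] {e : Module.Basis (I × Fin m) K U}
variable {bar : I → I} {c : I → K} {E : I → I → Prop}

lemma Go_diag (B : Finset I) (a : Fin m) :
    Go (Cr e) (An e) B a a = ∑ i ∈ B, nb e (i, a) := rfl

lemma dv_id_To (B : Finset I) (a b : Fin m) (z : ExteriorAlgebra K U) :
    dv e 1 (To (An e) bar c B a b z) = To (An e) bar c B a b (dv e 1 z) -
      (2 : K) • To (An e) bar c B a b z := by
  have e1 : ∀ z, To (An e) bar c B a b z = ∑ j ∈ B, c j • An e j a (An e (bar j) b z) := by
    intro z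
    rw [To, LinearMap.sum_apply]
    rfl
  rw [e1, e1, map_sum, smul_sum, ← sum_sub_distrib]
  refine sum_congr rfl fun j _ => ?_
  have f1 : dv e 1 (An e j a (An e (bar j) b z)) =
      An e j a (dv e 1 (An e (bar j) b z)) - An e j a (An e (bar j) b z) := dv_id_ct e _ _
  have f2 : dv e 1 (An e (bar j) b z) =
      An e (bar j) b (dv e 1 z) - An e (bar j) b z := dv_id_ct e _ _
  rw [map_smul, f1, f2, map_sub, smul_sub, smul_sub, smul_comm (2 : K), two_smul, smul_add]
  abel

lemma No_apply (B : Finset I) (y : ExteriorAlgebra K U) (μ : Fin m → ℕ)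
    (hμ : ∀ a, Go (Cr e) (An e) B a a y = (μ a : K) • y) :
    No (Cr e) (An e) B y = ((∑ a, μ a : ℕ) : K) • y := by
  have : No (Cr e) (An e) B = ∑ a, Go (Cr e) (An e) B a a := by
    rw [No, sum_comm]
    rfl
  rw [this, LinearMap.sum_apply, sum_congr rfl fun a _ => hμ a, ← sum_smul, Nat.cast_sum]

/-- the integer coefficients of the Casimir element of the copies -/
def sc (μ : Fin m → ℕ) (a b : Fin m) : ℤ :=
  if a = b then (μ a : ℤ) * μ a else if a < b then (μ a : ℤ) - μ b else 0

lemma sc_bound (μ : Fin m → ℕ) (N : ℕ) (hN : ∀ a, μ a ≤ N) :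
    ∑ a, ∑ b, sc μ a b ≤ ((N : ℤ) + m - 1) * ∑ a, (μ a : ℤ) := by
  rw [mul_sum]
  apply sum_le_sum
  intro a _
  have h1 : ∀ b, sc μ a b ≤ (if a = b then ((N : ℤ) - 1) * μ a else 0) + μ a := by
    intro b
    unfold sc
    have h2 : (μ a : ℤ) ≤ N := by exact_mod_cast hN a
    have h3 : (0 : ℤ) ≤ μ a := by positivity
    have h4 : (0 : ℤ) ≤ μ b := by positivity
    split_ifs
    · nlinarith
    · linarith
    · linarith
  calc ∑ b, sc μ a b ≤ ∑ b, ((if a = b then ((N : ℤ) - 1) * μ a else 0) + μ a) :=
        sum_le_sum fun b _ => h1 b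
    _ = ((N : ℤ) + m - 1) * μ a := by
        rw [sum_add_distrib, sum_ite_eq, if_pos (mem_univ _), sum_const, card_univ,
          Fintype.card_fin]
        simp
        ring

/-- one block, fixed degree -/
lemma inner (h : Blk bar c E) (k : ℕ) (hk : 0 < k)
    (IH : ∀ k' < k, ∀ y ∈ Iv e bar c E, dv e 1 y = (k' : K) • y → y ∈ Ad e bar c E) (i0 : I)
    (M : ℕ) : ∀ μ : Fin m → ℕ, ∑ a : Fin m, (a : ℕ) * μ a = M → ∀ y ∈ Iv e bar c E,
      dv e 1 y = (k : K) • y → (∀ a, Go (Cr e) (An e) (cls E i0) a a y = (μ a : K) • y) →
      (∃ a, μ a ≠ 0) → y ∈ Ad e bar c E := by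
  induction M using Nat.strong_induction_on with
  | _ M ihM =>
    intro μ hM y hy hky hμ ⟨a0, ha0⟩
    by_cases hy0 : y = 0
    · rw [hy0]; exact zero_mem _
    set B := cls E i0 with hB
    have hcar := car (m := m) e
    have hμN : ∀ a, μ a ≤ B.card := fun a =>
      idem_bound (fun i => nb e (i, a)) (fun i => nb_idem e _) (fun i j => nb_comm e _ _) B (μ a) y
        hy0 (by rw [← hμ a, Go_diag])
    -- raising operators
    have hraise : ∀ a b, a < b → Go (Cr e) (An e) B a b y ∈ Ad e bar c E := by
      intro a b hab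
      by_cases hb : μ b = 0
      · have h1 : ∀ i ∈ B, nb e (i, b) y = 0 := by
          have h2 := hμ b
          rw [hb, Nat.cast_zero, zero_smul, Go_diag] at h2
          exact (idem_zero (fun i => nb e (i, b)) (fun i => nb_idem e _)
            (fun i j => nb_comm e _ _) B 0 y (by rw [Nat.cast_zero, zero_smul, add_zero]; exact h2)).2
        have h2 : Go (Cr e) (An e) B a b y = 0 := by
          rw [Go, LinearMap.sum_apply]
          apply sum_eq_zero
          intro i hi
          show Cr e i a (An e i b y) = 0
          have h3 : An e i b y = 0 := ct_of_nb e (h1 i hi)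
          rw [h3, map_zero]
        rw [h2]
        exact zero_mem _
      · let μ' : Fin m → ℕ := fun x => if x = a then μ x + 1 else if x = b then μ x - 1 else μ x
        have hne : b ≠ a := fun h => (lt_irrefl a) (h ▸ hab)
        have hsum : ∑ x : Fin m, (x : ℕ) * μ' x + (b : ℕ) = M + (a : ℕ) := by
          rw [← hM]
          have e1 : ∀ x : Fin m, ((x : ℕ) : ℤ) * μ' x = (x : ℕ) * μ x + (if x = a then (x : ℤ) else 0)
              - (if x = b then (x : ℤ) else 0) := by
            intro x
            simp only [μ']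
            by_cases h1 : x = a
            · subst h1
              rw [if_pos rfl, if_pos rfl, if_neg (Ne.symm hne)]
              push_cast
              ring
            · rw [if_neg h1, if_neg h1]
              by_cases h2 : x = b
              · subst h2
                rw [if_pos rfl, if_pos rfl, Nat.cast_sub (Nat.one_le_iff_ne_zero.2 hb)]
                push_cast
                ring
              · rw [if_neg h2, if_neg h2]
                push_cast
                ring
          have e2 : ((∑ x : Fin m, (x : ℕ) * μ' x : ℕ) : ℤ) =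
              ((∑ x : Fin m, (x : ℕ) * μ x : ℕ) : ℤ) + a - b := by
            rw [Nat.cast_sum, Nat.cast_sum]
            have : ∀ x : Fin m, (((x : ℕ) * μ' x : ℕ) : ℤ) = (((x : ℕ) * μ x : ℕ) : ℤ) +
                (if x = a then (x : ℤ) else 0) - (if x = b then (x : ℤ) else 0) := by
              intro x
              have := e1 x
              push_cast
              push_cast at this
              exact this
            rw [sum_congr rfl fun x _ => this x, sum_sub_distrib, sum_add_distrib, sum_ite_eq',
              sum_ite_eq', if_pos (mem_univ _), if_pos (mem_univ _)]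
          have e3 : ((∑ x : Fin m, (x : ℕ) * μ' x + (b : ℕ) : ℕ) : ℤ) =
              ((∑ x : Fin m, (x : ℕ) * μ x + (a : ℕ) : ℕ) : ℤ) := by
            rw [Nat.cast_add, e2, Nat.cast_add]
            ring
          exact_mod_cast e3
        have hlt : ∑ x : Fin m, (x : ℕ) * μ' x < M := by
          have : (a : ℕ) < b := hab
          omega
        refine ihM _ hlt μ' rfl _ (Go_mem h i0 a b hy) ?_ ?_ ⟨a, ?_⟩
        · rw [← dv_ga, dv_id_comm, hky, map_smul]
        · intro x
          have h1 := hcar.comm_Go B x x a b
          have h2 := congrArg (fun f : Module.End K (ExteriorAlgebra K U) => f y) h1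
          simp only [LinearMap.sub_apply, LinearMap.add_apply, Module.End.mul_apply] at h2
          rw [hμ x, map_smul] at h2
          rw [h2]
          simp only [μ']
          by_cases h3 : x = a
          · subst h3
            rw [if_pos rfl, if_neg (Ne.symm hne), if_pos rfl, LinearMap.zero_apply, sub_zero]
            push_cast
            rw [add_smul, one_smul]
          · rw [if_neg h3, if_neg h3, LinearMap.zero_apply, add_zero]
            by_cases h4 : x = b
            · subst h4
              rw [if_pos rfl, if_pos rfl, Nat.cast_sub (Nat.one_le_iff_ne_zero.2 hb), Nat.cast_one,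
                sub_smul, one_smul]
            · rw [if_neg h4, if_neg h4, LinearMap.zero_apply, sub_zero]
        · simp only [μ', if_pos]
          omega
    -- the Casimir of the copies
    have hG : ∀ a b, ∃ w ∈ Ad e bar c E,
        Go (Cr e) (An e) B a b (Go (Cr e) (An e) B b a y) = ((sc μ a b : ℤ) : K) • y + w := by
      intro a b
      unfold sc
      by_cases h1 : a = b
      · subst h1
        refine ⟨0, zero_mem _, ?_⟩
        rw [if_pos rfl, hμ a, map_smul, hμ a, smul_smul, add_zero]
        push_cast
        rfl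
      · rw [if_neg h1]
        by_cases h2 : a < b
        · refine ⟨Go (Cr e) (An e) B b a (Go (Cr e) (An e) B a b y),
            Go_Ad h i0 b a (hraise a b h2), ?_⟩
          rw [if_pos h2]
          have h3 := hcar.comm_Go B a b b a
          rw [if_pos rfl, if_pos rfl] at h3
          have h4 := congrArg (fun f : Module.End K (ExteriorAlgebra K U) => f y) h3
          simp only [LinearMap.sub_apply, LinearMap.add_apply, Module.End.mul_apply] at h4
          rw [h4, hμ a, hμ b]
          push_cast
          rw [sub_smul]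
          abel
        · refine ⟨Go (Cr e) (An e) B a b (Go (Cr e) (An e) B b a y),
            Go_Ad h i0 a b (hraise b a (lt_of_le_of_ne (not_lt.1 h2) (Ne.symm h1))), ?_⟩
          rw [if_neg h2, Int.cast_zero, zero_smul, zero_add]
    choose w hw1 hw2 using hG
    -- contraction
    have hTo : ∀ a b, To (An e) bar c B a b y ∈ Ad e bar c E := by
      intro a b
      have h1 := To_mem h i0 a b hy
      have h2 := dv_id_To (e := e) (bar := bar) (c := c) B a b y
      rw [hky, map_smul, ← sub_smul] at h2
      by_cases hk1 : k = 1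
      · have h3 : To (An e) bar c B a b y = 0 := by
          subst hk1
          have h4 := (idem_zero (nb e) (fun p => nb_idem e _) (fun p q => nb_comm e _ _) univ 1
            (To (An e) bar c B a b y) (by
              rw [← dv_id, h2, ← add_smul]
              push_cast
              norm_num)).1
          rw [Nat.cast_one, one_smul] at h4
          exact h4
        rw [h3]
        exact zero_mem _
      · refine IH (k - 2) (by omega) _ h1 ?_
        rw [h2, Nat.cast_sub (by omega)]
        push_cast
        rfl
    -- the identity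
    have hδ : ∀ i ∈ B, (if bar i ∈ B then (1 : K) else 0) =
        (((if E i0 (bar i0) then 1 else 0 : ℕ)) : K) := by
      intro i hi
      rw [hB, mem_cls] at hi
      have h1 : bar i ∈ B ↔ E i0 (bar i0) := by
        rw [hB, mem_cls]
        exact ⟨fun h2 => h.trans _ _ _ h2 (h.dual _ _ (h.symm _ _ hi)),
          fun h2 => h.trans _ _ _ h2 (h.dual _ _ hi)⟩
      by_cases h2 : E i0 (bar i0)
      · rw [if_pos (h1.2 h2), if_pos h2, Nat.cast_one]
      · rw [if_neg (fun h3 => h2 (h1.1 h3)), if_neg h2, Nat.cast_zero]
    set δ : ℕ := if E i0 (bar i0) then 1 else 0 with hδdef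
    have hcas := hcar.casimir bar h.inv c h.c0 h.cneg B (δ : K) hδ
    have hcas2 := congrArg (fun f : Module.End K (ExteriorAlgebra K U) => f y) hcas
    have hleft : (∑ i ∈ B, ∑ j ∈ B, (c i)⁻¹ • (Eo (Cr e) (An e) i j * (c i • Eo (Cr e) (An e) j i -
        c j • Eo (Cr e) (An e) (bar i) (bar j))) : Module.End K (ExteriorAlgebra K U)) y = 0 := by
      rw [LinearMap.sum_apply]
      apply sum_eq_zero
      intro i hi
      rw [LinearMap.sum_apply]
      apply sum_eq_zero
      intro j hj
      rw [hB, mem_cls] at hi hj
      rw [LinearMap.smul_apply, Module.End.mul_apply, ← dv_rt,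
        hy j i (h.trans _ _ _ (h.symm _ _ hj) hi), map_zero, smul_zero]
    have hcas3 : (0 : ExteriorAlgebra K U) = ((B.card : K) + (m : K) + (δ : K)) •
        (((∑ a, μ a : ℕ) : K) • y) -
        ∑ a, ∑ b, (((sc μ a b : ℤ) : K) • y + w a b) +
        ∑ a, ∑ b, So (Cr e) bar c B a b (To (An e) bar c B a b y) := by
      rw [← hleft]
      refine hcas2.trans ?_
      simp only [LinearMap.add_apply, LinearMap.sub_apply, LinearMap.smul_apply,
        LinearMap.sum_apply, Module.End.mul_apply]
      rw [No_apply B y μ hμ]
      congr 2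
      exact sum_congr rfl fun a _ => sum_congr rfl fun b _ => hw2 a b
    have hmem : ((((B.card : ℤ) + m + δ) * (∑ a, (μ a : ℤ)) - ∑ a, ∑ b, sc μ a b : ℤ) : K) • y ∈
        Ad e bar c E := by
      have h1 : ((((B.card : ℤ) + m + δ) * (∑ a, (μ a : ℤ)) - ∑ a, ∑ b, sc μ a b : ℤ) : K) • y =
          ∑ a, ∑ b, w a b - ∑ a, ∑ b, So (Cr e) bar c B a b (To (An e) bar c B a b y) := by
        simp only [sum_add_distrib, ← sum_smul] at hcas3
        rw [Int.cast_sub, sub_smul, Int.cast_mul, mul_smul]
        have h2 : ((∑ a, (μ a : ℤ) : ℤ) : K) = ((∑ a, μ a : ℕ) : K) := by push_cast; rfl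
        have h3 : (((B.card : ℤ) + m + δ : ℤ) : K) = (B.card : K) + (m : K) + (δ : K) := by
          push_cast; rfl
        have h4 : ((∑ a, ∑ b, sc μ a b : ℤ) : K) = ∑ a, ∑ b, ((sc μ a b : ℤ) : K) := by
          push_cast; rfl
        rw [h2, h3, h4]
        rw [eq_sub_iff_add_eq, sub_add_eq_add_sub, sub_eq_iff_eq_add]
        have h5 := hcas3.symm
        rw [sub_add_eq_add_sub, sub_eq_zero] at h5
        rw [h5]
        abel
      rw [h1]
      exact sub_mem (sum_mem fun a _ => sum_mem fun b _ => hw1 a b)
        (sum_mem fun a _ => sum_mem fun b _ => So_Ad i0 a b (hTo a b))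
    have hpos : 0 < ((B.card : ℤ) + m + δ) * (∑ a, (μ a : ℤ)) - ∑ a, ∑ b, sc μ a b := by
      have h1 := sc_bound μ B.card hμN
      have h2 : 0 < ∑ a, (μ a : ℤ) := by
        apply sum_pos'
        · intro a _; positivity
        · exact ⟨a0, mem_univ _, by positivity⟩
      have h3 : (0 : ℤ) ≤ δ := by positivity
      nlinarith
    have hne : ((((B.card : ℤ) + m + δ) * (∑ a, (μ a : ℤ)) - ∑ a, ∑ b, sc μ a b : ℤ) : K) ≠ 0 := by
      exact_mod_cast hpos.ne'
    have := Subalgebra.smul_mem _ hmem
      ((((B.card : ℤ) + m + δ) * (∑ a, (μ a : ℤ)) - ∑ a, ∑ b, sc μ a b : ℤ) : K)⁻¹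
    rwa [smul_smul, inv_mul_cancel₀ hne, one_smul] at this

/-- fixed degree -/
lemma fft_deg (h : Blk bar c E) (k : ℕ) : ∀ y ∈ Iv e bar c E, dv e 1 y = (k : K) • y →
    y ∈ Ad e bar c E := by
  induction k using Nat.strong_induction_on with
  | _ k IH =>
    intro y hy hky
    rcases Nat.eq_zero_or_pos k with hk | hk
    · subst hk
      have h1 := (idem_zero (nb e) (fun p => nb_idem e _) (fun p q => nb_comm e _ _) univ 0 y (by
        rw [← dv_id, hky, Nat.cast_zero, zero_smul, add_zero])).2
      obtain ⟨r, hr⟩ := scalar_of_zero e y fun p => h1 p (mem_univ _)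
      rw [hr]
      exact Subalgebra.smul_mem _ (one_mem _) r
    · let W : Submodule K (ExteriorAlgebra K U) :=
        { carrier := {y | y ∈ Iv e bar c E ∧ dv e 1 y = (k : K) • y}
          add_mem' := fun {a b} ha hb => ⟨add_mem ha.1 hb.1, by rw [map_add, ha.2, hb.2, smul_add]⟩
          zero_mem' := ⟨zero_mem _, by rw [map_zero, smul_zero]⟩
          smul_mem' := fun r a ha => ⟨Submodule.smul_mem _ _ ha.1, by
            rw [map_smul, ha.2, smul_comm]⟩ }
      have hj := joint_eig (fun q : I × Fin m => Go (Cr e) (An e) (cls E q.1) q.2 q.2)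
        (fun q => (cls E q.1).card)
        (fun q => aeval_sum_idem (fun i => nb e (i, q.2)) (fun i => nb_idem e _)
          (fun i j => nb_comm e _ _) _)
        (fun q q' => by
          show Go (Cr e) (An e) (cls E q.1) q.2 q.2 * Go (Cr e) (An e) (cls E q'.1) q'.2 q'.2 =
            Go (Cr e) (An e) (cls E q'.1) q'.2 q'.2 * Go (Cr e) (An e) (cls E q.1) q.2 q.2
          rw [Go_diag, Go_diag, sum_mul_sum, sum_mul_sum, sum_comm]
          exact sum_congr rfl fun i _ => sum_congr rfl fun j _ => nb_comm e _ _)
        W (fun q y hy => ⟨Go_mem h q.1 q.2 q.2 hy.1, by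
          show dv e 1 (Go (Cr e) (An e) (cls E q.1) q.2 q.2 y) = _
          rw [← dv_ga, dv_id_comm, hy.2, map_smul]⟩) univ y ⟨hy, hky⟩
      have hle : Submodule.span K {y | y ∈ W ∧ ∀ q ∈ (univ : Finset (I × Fin m)), ∃ j : ℕ,
          Go (Cr e) (An e) (cls E q.1) q.2 q.2 y = (j : K) • y} ≤
          Subalgebra.toSubmodule (Ad e bar c E) := by
        rw [Submodule.span_le]
        rintro x ⟨hx, hq⟩
        show x ∈ Ad e bar c E
        choose lam hlam using fun q => hq q (mem_univ q)
        by_cases hall : ∀ q, lam q = 0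
        · have h1 : ∀ p, nb e p x = 0 := by
            rintro ⟨j, a⟩
            have h2 := hlam (j, a)
            rw [hall, Nat.cast_zero, zero_smul, Go_diag] at h2
            exact (idem_zero (fun i => nb e (i, a)) (fun i => nb_idem e _)
              (fun i j => nb_comm e _ _) _ 0 x
              (by rw [Nat.cast_zero, zero_smul, add_zero]; exact h2)).2 j (mem_cls.2 (h.refl j))
          have h2 : dv e 1 x = 0 := by
            rw [dv_id, LinearMap.sum_apply]
            exact sum_eq_zero fun p _ => h1 p
          rw [hx.2] at h2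
          rcases smul_eq_zero.1 h2 with h3 | h3
          · exact absurd h3 (by exact_mod_cast hk.ne')
          · rw [h3]; exact zero_mem _
        · push Not at hall
          obtain ⟨⟨i0, a0⟩, hq0⟩ := hall
          exact inner h k hk IH i0 _ (fun a => lam (i0, a)) rfl x hx.1 hx.2
            (fun a => hlam (i0, a)) ⟨a0, hq0⟩
      exact hle hj

/-- **First fundamental theorem, exterior form.** -/
theorem fft (h : Blk bar c E) {z : ExteriorAlgebra K U} (hz : z ∈ Iv e bar c E) :
    z ∈ Ad e bar c E := by
  have hj := joint_eig (fun _ : Unit => dv e 1) (fun _ => Fintype.card (I × Fin m))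
    (fun _ => by
      rw [dv_id]
      have := aeval_sum_idem (nb e) (fun p => nb_idem e _) (fun p q => nb_comm e _ _) univ
      rw [card_univ] at this
      exact this)
    (fun _ _ => rfl) (Iv e bar c E) (fun _ y hy => by
      intro k l hkl
      rw [← dv_id_comm, hy k l hkl, map_zero]) univ z hz
  have hle : Submodule.span K {y | y ∈ Iv e bar c E ∧ ∀ q ∈ (univ : Finset Unit), ∃ j : ℕ,
      dv e 1 y = (j : K) • y} ≤ Subalgebra.toSubmodule (Ad e bar c E) := by
    rw [Submodule.span_le]
    rintro x ⟨hx, hq⟩
    obtain ⟨k, hk⟩ := hq () (mem_univ _)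
    exact fft_deg h k x hx hk
  exact hle hj

end Pool.Agent.H93Tate.Fft
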