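import Pool.Agent.H91.Mono.Sym3
import Pool.Agent.H93Tate.Fft5
import Pool.Agent.H93Tate.LieExt

/-! Tate classes of a group containing an element of maximal angle rank, over a large field. -/

set_option linter.unusedSectionVars false

namespace Pool.Agent.H93Tate.Fft

open MvPolynomial Pool.Agent.H91.Mono
open scoped Classical

variable {K : Type*} [Field K] [CharZero K] {V : Type*} [AddCommGroup V] [Module K V]
variable {ι : Type*} [Fintype ι] [DecidableEq ι]
variable {ψ : V →ₗ[K] V →ₗ[K] K} {Γ : Subgroup (V ≃ₗ[K] V)} {b : Module.Basis ι K V}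
    {bar : ι → ι} {lam : ι → K} {F : V ≃ₗ[K] V} {m : ℕ}

/-- the basis of the power -/
noncomputable def be (b : Module.Basis ι K V) (m : ℕ) : Module.Basis (ι × Fin m) K (Fin m → V) :=
  (Pi.basis (fun _ : Fin m => b)).reindex
    ((Equiv.sigmaEquivProd (Fin m) ι).trans (Equiv.prodComm (Fin m) ι))

lemma be_apply (b : Module.Basis ι K V) (i : ι) (a : Fin m) :
    be b m (i, a) = Pi.single a (b i) := by
  rw [be, Module.Basis.reindex_apply, Pi.basis_apply]
  rfl

lemma blk (h : Setup ψ Γ b bar lam F) (hmn : ∀ i, Mn ψ Γ b bar i) :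
    Blk bar (cc ψ b bar) (Rr ψ Γ b bar) where
  inv := h.inv
  c0 := h.ne
  cneg := cc_neg h
  refl := Rr_refl
  symm := fun _ _ h1 => Rr_symm hmn h1
  trans := fun _ _ _ h1 h2 => Rr_trans h h1 h2
  dual := fun _ _ h1 => Rr_symm hmn (Rr_dual h h1)

lemma root_b (c : ι → K) (k l j : ι) :
    Matrix.toLin b b (root bar c k l) (b j) =
      c l • (if j = l then b k else 0) - c k • (if j = bar k then b (bar l) else 0) := by
  rw [Matrix.toLin_self]
  have h1 : ∀ i, root bar c k l i j • b i = (if i = k then (if j = l then c l • b k else 0) else 0) -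
      (if i = bar l then (if j = bar k then c k • b (bar l) else 0) else 0) := by
    intro i
    rw [root_apply, sub_smul]
    congr 1
    · by_cases h1 : i = k
      · subst h1
        by_cases h2 : j = l
        · subst h2
          simp
        · simp [h2, Ne.symm h2]
      · simp [h1, Ne.symm h1]
    · by_cases h1 : i = bar l
      · subst h1
        by_cases h2 : j = bar k
        · subst h2
          simp
        · simp [h2, Ne.symm h2]
      · simp [h1, Ne.symm h1]
  rw [Finset.sum_congr rfl fun i _ => h1 i, Finset.sum_sub_distrib, Finset.sum_ite_eq',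
    Finset.sum_ite_eq', if_pos (Finset.mem_univ _), if_pos (Finset.mem_univ _)]
  congr 1
  · split_ifs <;> simp
  · split_ifs <;> simp

lemma rt_eq (c : ι → K) (k l : ι) :
    rt (be b m) bar c k l = (Matrix.toLin b b (root bar c k l)).compLeft (Fin m) := by
  apply (be b m).ext
  rintro ⟨j, a⟩
  rw [rt_apply, be_apply, be_apply, be_apply]
  have h1 : (Matrix.toLin b b (root bar c k l)).compLeft (Fin m) (Pi.single a (b j)) =
      Pi.single a (Matrix.toLin b b (root bar c k l) (b j)) := by
    ext x
    show Matrix.toLin b b (root bar c k l) ((Pi.single a (b j) : Fin m → V) x) = _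
    by_cases hx : x = a
    · subst hx
      rw [Pi.single_eq_same, Pi.single_eq_same]
    · rw [Pi.single_eq_of_ne hx, Pi.single_eq_of_ne hx, map_zero]
  rw [h1, root_b]
  have h2 : ∀ v : V, (Pi.single a v : Fin m → V) = LinearMap.single K (fun _ : Fin m => V) a v :=
    fun _ => rfl
  rw [h2, h2, h2, map_sub, map_smul, map_smul]
  congr 2
  · split_ifs
    · rfl
    · rw [map_zero]
  · split_ifs
    · rfl
    · rw [map_zero]

lemma psi_b (h : Setup ψ Γ b bar lam F) (i j : ι) :
    ψ (b i) (b j) = if j = bar i then cc ψ b bar i else 0 := by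
  by_cases h1 : j = bar i
  · rw [if_pos h1, h1]; rfl
  · rw [if_neg h1, h.zero i j h1]

lemma skew_b (h : Setup ψ Γ b bar lam F) (k l : ι) (u v : V) :
    ψ (Matrix.toLin b b (root bar (cc ψ b bar) k l) u) v +
      ψ u (Matrix.toLin b b (root bar (cc ψ b bar) k l) v) = 0 := by
  set X := Matrix.toLin b b (root bar (cc ψ b bar) k l) with hX
  have key : ∀ p q, ψ (X (b p)) (b q) + ψ (b p) (X (b q)) = 0 := by
    intro p q
    rw [hX, root_b, root_b]
    simp only [map_sub, map_smul, LinearMap.sub_apply, LinearMap.smul_apply, smul_eq_mul]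
    have e1 : ψ (if p = l then b k else 0) (b q) = if p = l then (if q = bar k then
        cc ψ b bar k else 0) else 0 := by
      split_ifs with h1 h2
      · rw [psi_b h, if_pos h2]
      · rw [psi_b h, if_neg h2]
      · simp
    have e2 : ψ (if p = bar k then b (bar l) else 0) (b q) = if p = bar k then (if q = l then
        - cc ψ b bar l else 0) else 0 := by
      by_cases h1 : p = bar k
      · rw [if_pos h1, if_pos h1, psi_b h, h.inv]
        by_cases h2 : q = l
        · rw [if_pos h2, if_pos h2, cc_neg h]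
        · rw [if_neg h2, if_neg h2]
      · rw [if_neg h1, if_neg h1]; simp
    have e3 : ψ (b p) (if q = l then b k else 0) = if p = bar k then (if q = l then
        - cc ψ b bar k else 0) else 0 := by
      by_cases h1 : q = l
      · rw [if_pos h1, psi_b h]
        by_cases h2 : p = bar k
        · rw [if_pos h2, if_pos h1, h2, if_pos (h.inv k).symm, cc_neg h]
        · rw [if_neg h2, if_neg]
          rintro rfl
          exact h2 (h.inv p).symm
      · rw [if_neg h1, map_zero]
        split_ifs <;> rfl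
    have e4 : ψ (b p) (if q = bar k then b (bar l) else 0) = if p = l then (if q = bar k then
        cc ψ b bar l else 0) else 0 := by
      by_cases h1 : q = bar k
      · rw [if_pos h1, psi_b h]
        by_cases h2 : p = l
        · rw [if_pos h2, if_pos h1, h2, if_pos rfl]
        · rw [if_neg h2, if_neg]
          intro h3
          apply h2
          rw [← h.inv p, ← h3, h.inv]
      · rw [if_neg h1, map_zero]
        split_ifs <;> rfl
    rw [e1, e2, e3, e4]
    split_ifs <;> ring
  have hB : (ψ ∘ₗ X) + (ψ.compl₂ X) = 0 := by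
    apply b.ext
    intro p
    apply b.ext
    intro q
    exact key p q
  have := congrArg (fun f => f u v) hB
  exact this

lemma root_mem (h : Setup ψ Γ b bar lam F) {k l : ι} (hkl : Rr ψ Γ b bar k l) :
    Matrix.toLin b b (root bar (cc ψ b bar) k l) ∈ lie Γ := by
  rcases hkl with rfl | h1
  · have h1 : root bar (cc ψ b bar) k k = Matrix.diagonal (fun i => (if i = k then cc ψ b bar k else 0)
        - (if i = bar k then cc ψ b bar k else 0)) := by
      ext i j
      rw [root_apply, Matrix.diagonal_apply]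
      by_cases hij : i = j
      · subst hij
        rw [if_pos rfl]
        simp only [and_self]
        simp only [eq_comm]
      · rw [if_neg hij, if_neg (fun h2 => hij (h2.1.symm.trans h2.2)),
          if_neg (fun h2 => hij (h2.1.symm.trans h2.2)), sub_zero]
    have h2 := (good h).tor (fun i => (if i = k then cc ψ b bar k else 0)
        - (if i = bar k then cc ψ b bar k else 0)) (by
      intro i
      have e1 : (bar i = k) ↔ (i = bar k) :=
        ⟨fun h3 => by rw [← h3, h.inv], fun h3 => by rw [h3, h.inv]⟩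
      have e2 : (bar i = bar k) ↔ (i = k) :=
        ⟨fun h3 => by rw [← h.inv i, h3, h.inv], fun h3 => by rw [h3]⟩
      simp only [e1, e2]
      ring)
    rw [← h1] at h2
    exact h2
  · exact h1

/-- Tate classes are generated by the block invariants of degree two. -/
theorem tate_mem_Ad [FiniteDimensional K V] (h : Setup ψ Γ b bar lam F)
    (hmn : ∀ i, Mn ψ Γ b bar i) (Δ : Subgroup Γ) (hΔ : Δ.FiniteIndex) (i : ℕ)
    (t : ExteriorAlgebra K (Fin m → V))
    (ht : ∀ γ ∈ Δ, ∃ μ : K, (∀ u v, ψ ((γ : V ≃ₗ[K] V) u) ((γ : V ≃ₗ[K] V) v) = μ * ψ u v) ∧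
      ExteriorAlgebra.map (((γ : V ≃ₗ[K] V) : V →ₗ[K] V).compLeft (Fin m)) t = μ ^ i • t) :
    t ∈ Ad (be b m) bar (cc ψ b bar) (Rr ψ Γ b bar) := by
  apply fft (blk h hmn)
  intro k l hkl
  have h1 := lie_finiteIndex Δ hΔ (root_mem h hkl)
  refine lie_kills b ψ (b k) (b (bar k)) (h.ne k) h1 (skew_b h k l) i t ?_ _ (dv_one _ _) ?_
  · rintro _ ⟨γ, hγ, rfl⟩
    exact ht γ hγ
  · intro v s
    rw [← rt_eq]
    exact dv_ι_mul _ _ _ _

/-- the block invariants of degree two are Tate classes for the group preserving the blocks -/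
theorem sl_tate (h : Setup ψ Γ b bar lam F) (hmn : ∀ i, Mn ψ Γ b bar i) (γ : Γ)
    (hγ : γ ∈ fixSub Γ) (μ : K)
    (hμ : ∀ u v, ψ ((γ : V ≃ₗ[K] V) u) ((γ : V ≃ₗ[K] V) v) = μ * ψ u v) (i : ι) (a a' : Fin m) :
    ExteriorAlgebra.map (((γ : V ≃ₗ[K] V) : V →ₗ[K] V).compLeft (Fin m))
      (sl (be b m) bar (cc ψ b bar) (Rr ψ Γ b bar) i a a') =
      μ • sl (be b m) bar (cc ψ b bar) (Rr ψ Γ b bar) i a a' := by
  set g : V ≃ₗ[K] V := (γ : V ≃ₗ[K] V) with hg
  set c := cc ψ b bar with hc
  have hB := blk h hmn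
  -- coordinates through the form
  have hrep1 : ∀ (w : V) (l : ι), b.repr w (bar l) = (c l)⁻¹ * ψ (b l) w := by
    intro w l
    have h1 : ψ (b l) w = c l * b.repr w (bar l) := by
      conv_lhs => rw [← b.sum_repr w]
      rw [map_sum, Finset.sum_eq_single (bar l)]
      · rw [map_smul, smul_eq_mul, mul_comm]
        rfl
      · intro j _ hj
        rw [map_smul, h.zero l j hj, smul_zero]
      · simp
    have h2 : c l ≠ 0 := h.ne l
    rw [h1, ← mul_assoc, inv_mul_cancel₀ h2, one_mul]
  have hrep2 : ∀ (w : V) (j : ι), ψ w (b (bar j)) = b.repr w j * c j := by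
    intro w j
    conv_lhs => rw [← b.sum_repr w]
    rw [map_sum, LinearMap.sum_apply, Finset.sum_eq_single j]
    · rw [map_smul, LinearMap.smul_apply, smul_eq_mul]
      rfl
    · intro k _ hk
      rw [map_smul, LinearMap.smul_apply, h.zero k (bar j) (fun h1 => hk (by rw [← h.inv k, ← h1, h.inv])),
        smul_zero]
    · simp
  -- the group element preserves the classes
  have hcl : ∀ (l : ι) (w : V), w ∈ co b (fun k => Rr ψ Γ b bar k l) →
      g w ∈ co b (fun k => Rr ψ Γ b bar k l) ∧ g.symm w ∈ co b (fun k => Rr ψ Γ b bar k l) := by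
    intro l w hw
    have hW : Stab Γ (co b (fun k => Rr ψ Γ b bar k l)) :=
      stab_co h (fun k m h1 h2 => Rr_trans h h1 h2)
    have h1 := mem_fixSub hγ hW
    constructor
    · rw [← h1]; exact Submodule.mem_map_of_mem hw
    · have h2 : w ∈ (co b (fun k => Rr ψ Γ b bar k l)).map (g : V →ₗ[K] V) := by rw [h1]; exact hw
      obtain ⟨w', hw', rfl⟩ := h2
      have : g.symm ((g : V →ₗ[K] V) w') = w' := g.symm_apply_apply w'
      rw [this]
      exact hw'
  have hz1 : ∀ j l, ¬ Rr ψ Γ b bar l j → b.repr (g (b j)) l = 0 := by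
    intro j l hjl
    by_contra hne
    exact hjl ((hcl j (b j) (basis_mem_co.2 (Rr_refl j))).1 l hne)
  have hz2 : ∀ j l, ¬ Rr ψ Γ b bar l j → b.repr (g.symm (b j)) l = 0 := by
    intro j l hjl
    by_contra hne
    exact hjl ((hcl j (b j) (basis_mem_co.2 (Rr_refl j))).2 l hne)
  -- the main identity
  have key : ∀ l, l ∈ cls (Rr ψ Γ b bar) i →
      ∑ j ∈ cls (Rr ψ Γ b bar) i, ((c j)⁻¹ * b.repr (g (b (bar j))) (bar l)) • g (b j) =
        (μ * (c l)⁻¹) • b l := by
    intro l hl
    rw [mem_cls] at hl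
    have h1 : ∀ j, ((c j)⁻¹ * b.repr (g (b (bar j))) (bar l)) • g (b j) =
        (μ * (c l)⁻¹) • (b.repr (g.symm (b l)) j • g (b j)) := by
      intro j
      rw [hrep1]
      have h2 : ψ (b l) (g (b (bar j))) = μ * (b.repr (g.symm (b l)) j * c j) := by
        rw [← hrep2, ← hμ, g.apply_symm_apply]
      rw [h2, smul_smul]
      congr 1
      have h3 := h.ne j
      have h4 : c j ≠ 0 := h3
      field_simp
    rw [Finset.sum_congr rfl fun j _ => h1 j, ← Finset.smul_sum]
    congr 1
    have h2 : ∑ j ∈ cls (Rr ψ Γ b bar) i, b.repr (g.symm (b l)) j • g (b j) =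
        ∑ j, b.repr (g.symm (b l)) j • g (b j) := by
      apply Finset.sum_subset (Finset.subset_univ _)
      intro j _ hj
      rw [mem_cls] at hj
      rw [hz2 l j, zero_smul]
      intro h3
      exact hj (Rr_trans h hl (Rr_symm hmn h3))
    rw [h2]
    have h3 : ∑ j, b.repr (g.symm (b l)) j • g (b j) = g (∑ j, b.repr (g.symm (b l)) j • b j) := by
      rw [map_sum]
      exact Finset.sum_congr rfl fun j _ => (map_smul _ _ _).symm
    rw [h3, b.sum_repr, g.apply_symm_apply]
  have hsing : ∀ (v : V) (x : Fin m), (g : V →ₗ[K] V).compLeft (Fin m) (Pi.single x v) =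
      Pi.single x (g v) := by
    intro v x
    ext y
    show g ((Pi.single x v : Fin m → V) y) = _
    by_cases hy : y = x
    · subst hy
      rw [Pi.single_eq_same, Pi.single_eq_same]
    · rw [Pi.single_eq_of_ne hy, Pi.single_eq_of_ne hy, map_zero]
  have hsm : ∀ (x : Fin m) (v : V), (Pi.single x v : Fin m → V) =
      LinearMap.single K (fun _ : Fin m => V) x v := fun _ _ => rfl
  have hexp : ∀ j ∈ cls (Rr ψ Γ b bar) i, g (b (bar j)) =
      ∑ l ∈ cls (Rr ψ Γ b bar) i, b.repr (g (b (bar j))) (bar l) • b (bar l) := by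
    intro j hj
    rw [mem_cls] at hj
    conv_lhs => rw [← b.sum_repr (g (b (bar j)))]
    have h1 : ∑ l, b.repr (g (b (bar j))) l • b l =
        ∑ l, b.repr (g (b (bar j))) (bar l) • b (bar l) := by
      have hbij : Function.Bijective bar :=
        ⟨fun x y hxy => by rw [← h.inv x, hxy, h.inv], fun x => ⟨bar x, h.inv x⟩⟩
      exact (hbij.sum_comp (fun l => b.repr (g (b (bar j))) l • b l)).symm
    rw [h1]
    symm
    apply Finset.sum_subset (Finset.subset_univ _)
    intro l _ hl
    rw [mem_cls] at hl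
    rw [hz1, zero_smul]
    intro h3
    apply hl
    have h4 := hB.dual _ _ h3
    rw [h.inv, h.inv] at h4
    exact Rr_trans h hj (Rr_symm hmn h4)
  rw [sl, map_sum, Finset.smul_sum]
  have e1 : ∀ j ∈ cls (Rr ψ Γ b bar) i, ExteriorAlgebra.map ((g : V →ₗ[K] V).compLeft (Fin m))
      ((c j)⁻¹ • (ExteriorAlgebra.ι K (be b m (j, a)) *
        ExteriorAlgebra.ι K (be b m (bar j, a')))) =
      ∑ l ∈ cls (Rr ψ Γ b bar) i, ExteriorAlgebra.ι K (Pi.single a
        (((c j)⁻¹ * b.repr (g (b (bar j))) (bar l)) • g (b j))) *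
          ExteriorAlgebra.ι K (Pi.single a' (b (bar l))) := by
    intro j hj
    rw [map_smul, map_mul, ExteriorAlgebra.map_apply_ι, ExteriorAlgebra.map_apply_ι, be_apply,
      be_apply, hsing, hsing]
    conv_lhs => rw [hexp j hj]
    rw [hsm a', map_sum, map_sum, Finset.mul_sum, Finset.smul_sum]
    refine Finset.sum_congr rfl fun l _ => ?_
    rw [map_smul, map_smul, mul_smul_comm, smul_smul, ← hsm a', hsm a, hsm a, map_smul, map_smul,
      smul_mul_assoc]
  rw [Finset.sum_congr rfl e1, Finset.sum_comm]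
  refine Finset.sum_congr rfl fun l hl => ?_
  rw [← Finset.sum_mul, ← map_sum]
  have e2 : ∑ j ∈ cls (Rr ψ Γ b bar) i, (Pi.single a
      (((c j)⁻¹ * b.repr (g (b (bar j))) (bar l)) • g (b j)) : Fin m → V) =
      Pi.single a ((μ * (c l)⁻¹) • b l) := by
    rw [← key l hl, hsm a, map_sum]
    rfl
  rw [e2, hsm a, map_smul, map_smul, smul_mul_assoc, be_apply, be_apply, smul_smul]
  rfl

end Pool.Agent.H93Tate.Fft
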