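import Pool.Agent.H91.Mono.Ss2
import Pool.Agent.H93Tate.FftK
import Pool.Agent.H93Tate.BaseChange2

/-! All Tate classes on all powers are generated in degree two. -/

set_option linter.unusedSectionVars false

namespace Pool.Agent.H93Tate.Fft

open Polynomial TensorProduct Pool.Agent.H91.Mono Pool.Agent.H93Tate
open scoped Classical

section Desc

variable {E : Type*} [Field E] [CharZero E] {K : Type*} [Field K] [CharZero K] [Algebra E K]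
variable {V : Type*} [AddCommGroup V] [Module E V] [FiniteDimensional E V]
variable {ι : Type*} [Fintype ι] [DecidableEq ι]

variable (E K V) in
/-- base change of a power -/
noncomputable def pr (m : ℕ) : K ⊗[E] (Fin m → V) ≃ₗ[K] (Fin m → K ⊗[E] V) :=
  TensorProduct.piRight E K K (fun _ : Fin m => V)

lemma pr_tmul (m : ℕ) (a : K) (f : Fin m → V) : pr E K V m (a ⊗ₜ f) = fun i => a ⊗ₜ f i := by
  ext i
  simp [pr]

lemma pr_map (m : ℕ) (γ : V ≃ₗ[E] V) (x : K ⊗[E] (Fin m → V)) :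
    ((bcE K γ : K ⊗[E] V ≃ₗ[K] K ⊗[E] V) : K ⊗[E] V →ₗ[K] K ⊗[E] V).compLeft (Fin m)
      (pr E K V m x) =
      pr E K V m ((((γ : V →ₗ[E] V).compLeft (Fin m)).baseChange K) x) := by
  induction x using TensorProduct.induction_on with
  | zero => simp
  | add x y hx hy => rw [map_add, map_add, map_add, map_add, hx, hy]
  | tmul a f =>
    rw [LinearMap.baseChange_tmul, pr_tmul, pr_tmul]
    rfl

lemma map_pr (m : ℕ) (γ : V ≃ₗ[E] V) (x : ExteriorAlgebra K (K ⊗[E] (Fin m → V))) :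
    ExteriorAlgebra.map
      (((bcE K γ : K ⊗[E] V ≃ₗ[K] K ⊗[E] V) : K ⊗[E] V →ₗ[K] K ⊗[E] V).compLeft (Fin m))
      (ExteriorAlgebra.map (pr E K V m : K ⊗[E] (Fin m → V) →ₗ[K] (Fin m → K ⊗[E] V)) x) =
      ExteriorAlgebra.map (pr E K V m : K ⊗[E] (Fin m → V) →ₗ[K] (Fin m → K ⊗[E] V))
        (ExteriorAlgebra.map (((γ : V →ₗ[E] V).compLeft (Fin m)).baseChange K) x) := by
  have h := ExteriorAlgebra.map_comp_map
    (pr E K V m : K ⊗[E] (Fin m → V) →ₗ[K] (Fin m → K ⊗[E] V))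
    (((bcE K γ : K ⊗[E] V ≃ₗ[K] K ⊗[E] V) : K ⊗[E] V →ₗ[K] K ⊗[E] V).compLeft (Fin m))
  have h' := ExteriorAlgebra.map_comp_map
    (((γ : V →ₗ[E] V).compLeft (Fin m)).baseChange K)
    (pr E K V m : K ⊗[E] (Fin m → V) →ₗ[K] (Fin m → K ⊗[E] V))
  have h1 := congrArg (fun f => f x) h
  have h2 := congrArg (fun f => f x) h'
  have h3 : (((bcE K γ : K ⊗[E] V ≃ₗ[K] K ⊗[E] V) :
      K ⊗[E] V →ₗ[K] K ⊗[E] V).compLeft (Fin m)) ∘ₗ
      (pr E K V m : K ⊗[E] (Fin m → V) →ₗ[K] (Fin m → K ⊗[E] V)) =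
      (pr E K V m : K ⊗[E] (Fin m → V) →ₗ[K] (Fin m → K ⊗[E] V)) ∘ₗ
        (((γ : V →ₗ[E] V).compLeft (Fin m)).baseChange K) := by
    apply LinearMap.ext
    intro y
    exact pr_map m γ y
  rw [h3, ← h'] at h
  exact congrArg (fun f => f x) h

lemma symm_map_pr (m : ℕ) (x : ExteriorAlgebra K (K ⊗[E] (Fin m → V))) :
    ExteriorAlgebra.map ((pr E K V m).symm : (Fin m → K ⊗[E] V) →ₗ[K] K ⊗[E] (Fin m → V))
      (ExteriorAlgebra.map (pr E K V m : K ⊗[E] (Fin m → V) →ₗ[K] (Fin m → K ⊗[E] V)) x) = x := by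
  have h := ExteriorAlgebra.map_comp_map
    (pr E K V m : K ⊗[E] (Fin m → V) →ₗ[K] (Fin m → K ⊗[E] V))
    ((pr E K V m).symm : (Fin m → K ⊗[E] V) →ₗ[K] K ⊗[E] (Fin m → V))
  have h1 : ((pr E K V m).symm : (Fin m → K ⊗[E] V) →ₗ[K] K ⊗[E] (Fin m → V)) ∘ₗ
      (pr E K V m : K ⊗[E] (Fin m → V) →ₗ[K] (Fin m → K ⊗[E] V)) = LinearMap.id := by
    apply LinearMap.ext
    intro y
    exact (pr E K V m).symm_apply_apply y
  rw [h1, ExteriorAlgebra.map_id] at h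
  exact congrArg (fun f => f x) h

lemma map_pr_symm (m : ℕ) (x : ExteriorAlgebra K (Fin m → K ⊗[E] V)) :
    ExteriorAlgebra.map (pr E K V m : K ⊗[E] (Fin m → V) →ₗ[K] (Fin m → K ⊗[E] V))
      (ExteriorAlgebra.map ((pr E K V m).symm : (Fin m → K ⊗[E] V) →ₗ[K] K ⊗[E] (Fin m → V))
        x) = x := by
  have h := ExteriorAlgebra.map_comp_map
    ((pr E K V m).symm : (Fin m → K ⊗[E] V) →ₗ[K] K ⊗[E] (Fin m → V))
    (pr E K V m : K ⊗[E] (Fin m → V) →ₗ[K] (Fin m → K ⊗[E] V))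
  have h1 : (pr E K V m : K ⊗[E] (Fin m → V) →ₗ[K] (Fin m → K ⊗[E] V)) ∘ₗ
      ((pr E K V m).symm : (Fin m → K ⊗[E] V) →ₗ[K] K ⊗[E] (Fin m → V)) = LinearMap.id := by
    apply LinearMap.ext
    intro y
    exact (pr E K V m).apply_symm_apply y
  rw [h1, ExteriorAlgebra.map_id] at h
  exact congrArg (fun f => f x) h

/-- Descent of the generation statement to the small field. -/
theorem descend_powers {ψ : V →ₗ[E] V →ₗ[E] E} {Γ : Subgroup (V ≃ₗ[E] V)}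
    {b : Module.Basis ι K (K ⊗[E] V)} {bar : ι → ι} {lam : ι → K} {F : K ⊗[E] V ≃ₗ[K] K ⊗[E] V}
    (hset : Setup (fK K ψ) (Γ.map (bcE K)) b bar lam F)
    (hmn : ∀ i, Mn (fK K ψ) (Γ.map (bcE K)) b bar i)
    (hsim : ∀ γ ∈ Γ, ∃ μ : E, ∀ u v, ψ ((γ : V ≃ₗ[E] V) u) ((γ : V ≃ₗ[E] V) v) = μ * ψ u v)
    (hne : ∃ u v, ψ u v ≠ 0) (m i : ℕ) (Δ : Subgroup Γ) (hΔ : Δ.FiniteIndex)
    (t : ExteriorAlgebra E (Fin m → V))
    (ht : ∀ γ ∈ Δ, ∀ μ : E,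
      (∀ u v, ψ ((γ : V ≃ₗ[E] V) u) ((γ : V ≃ₗ[E] V) v) = μ * ψ u v) →
      ExteriorAlgebra.map (((γ : V ≃ₗ[E] V) : V →ₗ[E] V).compLeft (Fin m)) t = μ ^ i • t) :
    t ∈ Algebra.adjoin E {c | c ∈ (⋀[E]^2 (Fin m → V)) ∧ ∃ Δ' : Subgroup Γ, Δ'.FiniteIndex ∧
      ∀ γ ∈ Δ', ∀ μ : E, (∀ u v, ψ ((γ : V ≃ₗ[E] V) u) ((γ : V ≃ₗ[E] V) v) = μ * ψ u v) →
        ExteriorAlgebra.map (((γ : V ≃ₗ[E] V) : V →ₗ[E] V).compLeft (Fin m)) c = μ • c} := by
  obtain ⟨u₀, v₀, h₀⟩ := hne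
  have huniq : ∀ (γ : V ≃ₗ[E] V) (μ μ' : E), (∀ u v, ψ (γ u) (γ v) = μ * ψ u v) →
      (∀ u v, ψ (γ u) (γ v) = μ' * ψ u v) → μ = μ' := by
    intro γ μ μ' h1 h2
    have h3 := h1 u₀ v₀
    rw [h2 u₀ v₀] at h3
    exact (mul_right_cancel₀ h₀ h3).symm
  set tK := ExteriorAlgebra.map (pr E K V m : K ⊗[E] (Fin m → V) →ₗ[K] (Fin m → K ⊗[E] V))
    (theta K t) with htK
  have hsurj := (bcE K).subgroupMap_surjective Γ
  -- membership over the large field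
  have hmem : tK ∈ Ad (be b m) bar (cc (fK K ψ) b bar) (Rr (fK K ψ) (Γ.map (bcE K)) b bar) := by
    have hfd : FiniteDimensional K (K ⊗[E] V) := inferInstance
    refine tate_mem_Ad hset hmn (Δ.map ((bcE K).subgroupMap Γ)) ?_ i tK ?_
    · refine ⟨?_⟩
      intro h0
      have h1 := Subgroup.index_map_dvd (H := Δ) (f := (bcE K).subgroupMap Γ) hsurj
      rw [h0, zero_dvd_iff] at h1
      exact hΔ.index_ne_zero h1
    · rintro _ ⟨γ, hγ, rfl⟩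
      obtain ⟨μ, hμ⟩ := hsim γ γ.2
      refine ⟨algebraMap E K μ, fK_sim (γ : V ≃ₗ[E] V) μ hμ, ?_⟩
      have h3 : (((bcE K).subgroupMap Γ γ : Γ.map (bcE K)) : K ⊗[E] V ≃ₗ[K] K ⊗[E] V) =
          bcE K (γ : V ≃ₗ[E] V) := rfl
      rw [h3, htK, map_pr, ← theta_map, ht γ hγ μ hμ, map_smul, ← algebraMap_smul K (μ ^ i),
        map_smul, map_pow]
  -- the group preserving the blocks
  let Δ'' : Subgroup Γ := (fixSub (Γ.map (bcE K))).comap ((bcE K).subgroupMap Γ)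
  have hΔ'' : Δ''.FiniteIndex := by
    refine ⟨?_⟩
    rw [Subgroup.index_comap_of_surjective _ hsurj]
    exact (fixSub_finite hset).index_ne_zero
  set G := {c : ExteriorAlgebra E (Fin m → V) | c ∈ (⋀[E]^2 (Fin m → V)) ∧
    ∃ Δ' : Subgroup Γ, Δ'.FiniteIndex ∧
      ∀ γ ∈ Δ', ∀ μ : E, (∀ u v, ψ ((γ : V ≃ₗ[E] V) u) ((γ : V ≃ₗ[E] V) v) = μ * ψ u v) →
        ExteriorAlgebra.map (((γ : V ≃ₗ[E] V) : V →ₗ[E] V).compLeft (Fin m)) c = μ • c} with hG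
  choose χ hχ using fun γ : Γ => hsim γ γ.2
  have hsub : tate2 (fun γ : Δ'' => (((γ : Γ) : V ≃ₗ[E] V) : V →ₗ[E] V).compLeft (Fin m))
      (fun γ : Δ'' => χ γ) ⊆ G := by
    rintro c ⟨hc1, hc2⟩
    refine ⟨hc1, Δ'', hΔ'', ?_⟩
    intro γ hγ μ hμ
    rw [huniq _ μ (χ γ) hμ (hχ γ)]
    exact hc2 ⟨γ, hγ⟩
  have hsl : ∀ (j : ι) (a a' : Fin m), ExteriorAlgebra.map
      ((pr E K V m).symm : (Fin m → K ⊗[E] V) →ₗ[K] K ⊗[E] (Fin m → V))
      (sl (be b m) bar (cc (fK K ψ) b bar) (Rr (fK K ψ) (Γ.map (bcE K)) b bar) j a a') ∈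
      Algebra.adjoin K (theta K '' G) := by
    intro j a a'
    have h1 : ExteriorAlgebra.map
      ((pr E K V m).symm : (Fin m → K ⊗[E] V) →ₗ[K] K ⊗[E] (Fin m → V))
      (sl (be b m) bar (cc (fK K ψ) b bar) (Rr (fK K ψ) (Γ.map (bcE K)) b bar) j a a') ∈
      Submodule.span K (theta K '' (tate2
        (fun γ : Δ'' => (((γ : Γ) : V ≃ₗ[E] V) : V →ₗ[E] V).compLeft (Fin m))
        (fun γ : Δ'' => χ γ))) := by
      apply tate2_le
      · rw [sl, map_sum]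
        apply Submodule.sum_mem
        intro k _
        rw [map_smul, map_mul, ExteriorAlgebra.map_apply_ι, ExteriorAlgebra.map_apply_ι]
        apply Submodule.smul_mem
        show _ ∈ LinearMap.range (ExteriorAlgebra.ι K (M := K ⊗[E] (Fin m → V))) ^ 2
        rw [pow_two]
        exact Submodule.mul_mem_mul ⟨_, rfl⟩ ⟨_, rfl⟩
      · rintro ⟨γ, hγ⟩
        have h2 := sl_tate (m := m) hset hmn ((bcE K).subgroupMap Γ γ) hγ (algebraMap E K (χ γ))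
          (fK_sim (γ : V ≃ₗ[E] V) (χ γ) (hχ γ)) j a a'
        have h3 : (((bcE K).subgroupMap Γ γ : Γ.map (bcE K)) : K ⊗[E] V ≃ₗ[K] K ⊗[E] V) =
          bcE K (γ : V ≃ₗ[E] V) := rfl
        rw [h3] at h2
        have h4 := map_pr (K := K) m (γ : V ≃ₗ[E] V) (ExteriorAlgebra.map
          ((pr E K V m).symm : (Fin m → K ⊗[E] V) →ₗ[K] K ⊗[E] (Fin m → V))
          (sl (be b m) bar (cc (fK K ψ) b bar) (Rr (fK K ψ) (Γ.map (bcE K)) b bar) j a a'))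
        rw [map_pr_symm, h2] at h4
        have h5 := congrArg (ExteriorAlgebra.map
          ((pr E K V m).symm : (Fin m → K ⊗[E] V) →ₗ[K] K ⊗[E] (Fin m → V))) h4
        rw [symm_map_pr, map_smul] at h5
        exact h5.symm
    have h2 : Submodule.span K (theta K '' (tate2
        (fun γ : Δ'' => (((γ : Γ) : V ≃ₗ[E] V) : V →ₗ[E] V).compLeft (Fin m))
        (fun γ : Δ'' => χ γ))) ≤ Subalgebra.toSubmodule (Algebra.adjoin K (theta K '' G)) := by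
      rw [Submodule.span_le]
      rintro _ ⟨c, hc, rfl⟩
      exact Algebra.subset_adjoin ⟨c, hsub hc, rfl⟩
    exact h2 h1
  apply descend' K G t
  have hpull : ∀ x ∈ Ad (be b m) bar (cc (fK K ψ) b bar) (Rr (fK K ψ) (Γ.map (bcE K)) b bar),
      ExteriorAlgebra.map
        ((pr E K V m).symm : (Fin m → K ⊗[E] V) →ₗ[K] K ⊗[E] (Fin m → V)) x ∈
        Algebra.adjoin K (theta K '' G) := by
    intro x hx
    unfold Ad at hx
    induction hx using Algebra.adjoin_induction with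
    | mem x hx =>
      obtain ⟨j, a, a', rfl⟩ := hx
      exact hsl j a a'
    | algebraMap r => rw [AlgHom.commutes]; exact Subalgebra.algebraMap_mem _ r
    | add x y _ _ hx hy => rw [map_add]; exact add_mem hx hy
    | mul x y _ _ hx hy => rw [map_mul]; exact mul_mem hx hy
  have := hpull tK hmem
  rwa [htK, symm_map_pr] at this

end Desc

section

variable {p n : ℕ} [hp : Fact p.Prime] {P : ℚ[X]}

/-- **All Tate classes on all powers are generated in degree two.** -/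
theorem allPowers (hn : 0 < n) (hP : Irreducible P) (hdeg : 2 < P.natDegree)
    (hweil : ∀ z : ℂ, aeval z P = 0 → ‖z‖ ^ 2 = (p : ℝ) ^ n) (hmr : MaxRank ((p : ℂ) ^ n) P)
    {E : Type*} [Field E] [CharZero E] (K : Type*) [Field K] [Algebra E K] [IsAlgClosure E K]
    {V : Type*} [AddCommGroup V] [Module E V] [FiniteDimensional E V] (ψ : V →ₗ[E] V →ₗ[E] E)
    (halt : ∀ v, ψ v v = 0) (hnd : ∀ v, (∀ w, ψ v w = 0) → v = 0)
    (Γ : Subgroup (V ≃ₗ[E] V))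
    (hsim : ∀ γ ∈ Γ, ∃ μ : E, ∀ u v, ψ ((γ : V ≃ₗ[E] V) u) ((γ : V ≃ₗ[E] V) v) = μ * ψ u v)
    (hss : ∀ W : Submodule E V, (∀ γ ∈ Γ, ∀ w ∈ W, (γ : V ≃ₗ[E] V) w ∈ W) →
      ∃ W' : Submodule E V, (∀ γ ∈ Γ, ∀ w ∈ W', (γ : V ≃ₗ[E] V) w ∈ W') ∧ IsCompl W W')
    (F : V ≃ₗ[E] V) (hF : F ∈ Γ)
    (hchar : LinearMap.charpoly (F : V →ₗ[E] V) = P.map (algebraMap ℚ E))
    (hmult : ∀ u v, ψ (F u) (F v) = (p : E) ^ n * ψ u v)
    (m i : ℕ) (Δ : Subgroup Γ) (hΔ : Δ.FiniteIndex) (t : ExteriorAlgebra E (Fin m → V))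
    (ht : ∀ γ ∈ Δ, ∀ μ : E,
      (∀ u v, ψ ((γ : V ≃ₗ[E] V) u) ((γ : V ≃ₗ[E] V) v) = μ * ψ u v) →
      ExteriorAlgebra.map (((γ : V ≃ₗ[E] V) : V →ₗ[E] V).compLeft (Fin m)) t = μ ^ i • t) :
    t ∈ Algebra.adjoin E {c | c ∈ (⋀[E]^2 (Fin m → V)) ∧ ∃ Δ' : Subgroup Γ, Δ'.FiniteIndex ∧
      ∀ γ ∈ Δ', ∀ μ : E, (∀ u v, ψ ((γ : V ≃ₗ[E] V) u) ((γ : V ≃ₗ[E] V) v) = μ * ψ u v) →
        ExteriorAlgebra.map (((γ : V ≃ₗ[E] V) : V →ₗ[E] V).compLeft (Fin m)) c = μ • c} := by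
  classical
  have hac : IsAlgClosed K := IsAlgClosure.isAlgClosed E
  have halg : Algebra.IsAlgebraic E K := IsAlgClosure.isAlgebraic
  have hcz : CharZero K := charZero_of_injective_algebraMap (algebraMap E K).injective
  let jE : P.SplittingField →ₐ[ℚ] K := IsAlgClosed.lift
  have hmapP : (P.map (algebraMap ℚ E)).map (algebraMap E K) = P.map (algebraMap ℚ K) := by
    rw [Polynomial.map_map]
    congr 1
    exact Subsingleton.elim _ _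
  have hsimK : ∀ γ ∈ Γ.map (bcE K), ∃ μ : K, ∀ u v, fK K ψ ((γ : K ⊗[E] V ≃ₗ[K] K ⊗[E] V) u)
      ((γ : K ⊗[E] V ≃ₗ[K] K ⊗[E] V) v) = μ * fK K ψ u v := by
    rintro _ ⟨γ, hγ, rfl⟩
    obtain ⟨μ, hμ⟩ := hsim γ hγ
    exact ⟨algebraMap E K μ, fK_sim γ μ hμ⟩
  have hcharK : LinearMap.charpoly ((bcE K F : K ⊗[E] V ≃ₗ[K] K ⊗[E] V) :
      K ⊗[E] V →ₗ[K] K ⊗[E] V) = P.map (algebraMap ℚ K) := by
    rw [bcE_coe, LinearMap.charpoly_baseChange, hchar, hmapP]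
  have hmultK : ∀ u v, fK K ψ (bcE K F u) (bcE K F v) = (p : K) ^ n * fK K ψ u v := by
    intro u v
    rw [fK_sim F _ hmult, map_pow, map_natCast]
  have hnz : Nonempty (Rt P) := by
    rw [← Fintype.card_pos_iff, card_rt hP]
    exact hP.natDegree_pos
  have hsw : ∀ u v, ψ v u = - ψ u v := fun u v => psi_swap halt u v
  obtain ⟨b, hset⟩ := setup_of hn hP hdeg hweil hmr (fK K ψ) (fK_alt halt)
    (fK_nondeg hsw hnd) (Γ.map (bcE K)) hsimK (bcE K F) ⟨F, hF, rfl⟩ hcharK hmultK jE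
  have hmn : ∀ i, Mn (fK K ψ) (Γ.map (bcE K)) b (inv hweil) i := by
    intro i
    apply mn_of_omn hset
    refine omn_of_ss hF b _ (lam_inj hset) hset.eig hss
      (fun W hW w hw k hk => stab_coord hset hW hw hk) ?_ i
    intro σ
    obtain ⟨s, hs, hl, hR⟩ := perm_R hset (semiSym_bc K σ Γ)
    refine ⟨s, hs, hl, ?_⟩
    intro i j
    rw [← rr_iff_rch hset, ← rr_iff_rch hset]
    exact hR i j
  have hne : ∃ u v, ψ u v ≠ 0 := by
    by_contra hcon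
    push Not at hcon
    have h1 : ∀ v : V, v = 0 := fun v => hnd v (hcon v)
    have h2 : Subsingleton V := ⟨fun x y => by rw [h1 x, h1 y]⟩
    have h3 := LinearMap.charpoly_natDegree (F : V →ₗ[E] V)
    rw [hchar, natDegree_map, Module.finrank_zero_of_subsingleton] at h3
    omega
  exact descend_powers hset hmn hsim hne m i Δ hΔ t ht

end

end Pool.Agent.H93Tate.Fft
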