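import Mathlib

/-! The classes of a form on a power: definitions. -/

set_option autoImplicit false

namespace Pool.Agent.H93Tate

/-- `c` is the class of the form `ψ` on the factors `a` and `b` of `V ^ m`: the sum of the products
of `x k` on the factor `a` and `y k` on the factor `b`, where the sum of the `ψ (u, x k) y k` is
`u` for every `u`. -/
def IsFormClass {E : Type*} [Field E] {V : Type*} [AddCommGroup V] [Module E V]
    (ψ : V →ₗ[E] V →ₗ[E] E) {m : ℕ} (a b : Fin m) (c : ExteriorAlgebra E (Fin m → V)) : Prop :=
  ∃ (N : ℕ) (x y : Fin N → V), (∀ u, ∑ k, ψ u (x k) • y k = u) ∧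
    c = ∑ k, ExteriorAlgebra.ι E (Pi.single a (x k)) * ExteriorAlgebra.ι E (Pi.single b (y k))

end Pool.Agent.H93Tate
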