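import Pool.Agent.H91.Mono.Gal4
import Pool.Agent.H93Tate.FftMain
import Pool.Agent.H93Tate.FormDefs

/-! Tate classes on all powers for the full symplectic similitude group. -/

set_option linter.unusedSectionVars false

namespace Pool.Agent.H93Tate.Fft

open Polynomial TensorProduct Pool.Agent.H91.Mono Pool.Agent.H93Tate
open scoped Classical

section Uniq

variable {K : Type*} [Field K] [CharZero K] {V : Type*} [AddCommGroup V] [Module K V]
variable {ι : Type*} [Fintype ι] [DecidableEq ι]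
variable {ψ : V →ₗ[K] V →ₗ[K] K} {Γ : Subgroup (V ≃ₗ[K] V)} {b : Module.Basis ι K V}
    {bar : ι → ι} {lam : ι → K} {F : V ≃ₗ[K] V} {m : ℕ}

/-- the class of the form in the adapted basis -/
lemma form_unique (h : Setup ψ Γ b bar lam F) (hall : ∀ i j, Rr ψ Γ b bar i j) {N : ℕ}
    (x y : Fin N → V) (hxy : ∀ u, ∑ k, ψ u (x k) • y k = u) (j : ι) (a a' : Fin m) :
    sl (be b m) bar (cc ψ b bar) (Rr ψ Γ b bar) j a a' =
      - ∑ k, ExteriorAlgebra.ι K (Pi.single a (x k) : Fin m → V) *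
        ExteriorAlgebra.ι K (Pi.single a' (y k)) := by
  have hsm : ∀ (x : Fin m) (v : V), (Pi.single x v : Fin m → V) =
      LinearMap.single K (fun _ : Fin m => V) x v := fun _ _ => rfl
  have hrep : ∀ (w : V) (l : ι), b.repr w l = - ((cc ψ b bar l)⁻¹ * ψ (b (bar l)) w) := by
    intro w l
    have h1 : ψ (b (bar l)) w = cc ψ b bar (bar l) * b.repr w l := by
      conv_lhs => rw [← b.sum_repr w]
      rw [map_sum, Finset.sum_eq_single l]
      · rw [map_smul, smul_eq_mul, psi_b h, if_pos (h.inv l).symm, mul_comm]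
      · intro i _ hi
        rw [map_smul, h.zero (bar l) i (by rwa [h.inv]), smul_zero]
      · simp
    have h2 : cc ψ b bar l ≠ 0 := h.ne l
    rw [h1, cc_neg h]
    field_simp
  have h1 : ∀ k, ExteriorAlgebra.ι K (Pi.single a (x k) : Fin m → V) *
        ExteriorAlgebra.ι K (Pi.single a' (y k)) =
      ∑ l, (-(cc ψ b bar l)⁻¹) • (ExteriorAlgebra.ι K (Pi.single a (b l)) *
        ExteriorAlgebra.ι K (Pi.single a' (ψ (b (bar l)) (x k) • y k))) := by
    intro k
    conv_lhs => rw [← b.sum_repr (x k)]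
    rw [hsm a, map_sum, map_sum, Finset.sum_mul]
    refine Finset.sum_congr rfl fun l _ => ?_
    rw [map_smul, map_smul, hrep, hsm a' (ψ (b (bar l)) (x k) • y k), map_smul, map_smul,
      smul_mul_assoc, mul_smul_comm, smul_smul]
    congr 1
    ring
  rw [Finset.sum_congr rfl fun k _ => h1 k, Finset.sum_comm, ← Finset.sum_neg_distrib, sl]
  have h2 : cls (Rr ψ Γ b bar) j = Finset.univ := by
    ext l
    simp [mem_cls, hall]
  rw [h2]
  refine Finset.sum_congr rfl fun l _ => ?_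
  rw [← Finset.smul_sum, ← Finset.mul_sum, neg_smul, neg_neg, be_apply, be_apply]
  congr 2
  conv_lhs => rw [← hxy (b (bar l))]
  rw [hsm a', map_sum, map_sum]
  rfl

end Uniq

section Desc

variable {E : Type*} [Field E] [CharZero E] {K : Type*} [Field K] [CharZero K] [Algebra E K]
variable {V : Type*} [AddCommGroup V] [Module E V] [FiniteDimensional E V]
variable {ι : Type*} [Fintype ι] [DecidableEq ι]

/-- dual families for a nondegenerate form -/
lemma exists_form {ψ : V →ₗ[E] V →ₗ[E] E} (hnd : ∀ v, (∀ w, ψ w v = 0) → v = 0) :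
    ∃ (N : ℕ) (x y : Fin N → V), ∀ u, ∑ k, ψ u (x k) • y k = u := by
  let e := Module.finBasis E V
  have hinj : Function.Injective ψ.flip := by
    rw [← LinearMap.ker_eq_bot, LinearMap.ker_eq_bot']
    intro v hv
    apply hnd
    intro w
    have : ψ.flip v w = 0 := by rw [hv]; rfl
    exact this
  have hsurj : Function.Surjective ψ.flip :=
    (LinearMap.injective_iff_surjective_of_finrank_eq_finrank
      (by rw [Subspace.dual_finrank_eq])).1 hinj
  have hcoord : ∀ j, ∃ w : V, ∀ u, ψ u w = e.coord j u := by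
    intro j
    obtain ⟨w, hw⟩ := hsurj (e.coord j)
    exact ⟨w, fun u => by rw [← hw]; rfl⟩
  choose w hw using hcoord
  refine ⟨_, w, e, fun u => ?_⟩
  simp only [hw]
  exact e.sum_repr u

/-- Descent of the generation statement to the small field, full symplectic case. -/
theorem descend_form {ψ : V →ₗ[E] V →ₗ[E] E} {Γ : Subgroup (V ≃ₗ[E] V)}
    (hnd : ∀ v, (∀ w, ψ w v = 0) → v = 0)
    {b : Module.Basis ι K (K ⊗[E] V)} {bar : ι → ι} {lam : ι → K} {F : K ⊗[E] V ≃ₗ[K] K ⊗[E] V}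
    (hset : Setup (fK K ψ) (Γ.map (bcE K)) b bar lam F)
    (hall : ∀ i j, Rr (fK K ψ) (Γ.map (bcE K)) b bar i j)
    (hmn : ∀ i, Mn (fK K ψ) (Γ.map (bcE K)) b bar i)
    (hsim : ∀ γ ∈ Γ, ∃ μ : E, ∀ u v, ψ ((γ : V ≃ₗ[E] V) u) ((γ : V ≃ₗ[E] V) v) = μ * ψ u v)
    (m i : ℕ) (Δ : Subgroup Γ) (hΔ : Δ.FiniteIndex)
    (t : ExteriorAlgebra E (Fin m → V))
    (ht : ∀ γ ∈ Δ, ∀ μ : E,
      (∀ u v, ψ ((γ : V ≃ₗ[E] V) u) ((γ : V ≃ₗ[E] V) v) = μ * ψ u v) →
      ExteriorAlgebra.map (((γ : V ≃ₗ[E] V) : V →ₗ[E] V).compLeft (Fin m)) t = μ ^ i • t) :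
    t ∈ Algebra.adjoin E {c | ∃ a a' : Fin m, IsFormClass ψ a a' c} := by
  set tK := ExteriorAlgebra.map (pr E K V m : K ⊗[E] (Fin m → V) →ₗ[K] (Fin m → K ⊗[E] V))
    (theta K t) with htK
  have hsurj := (bcE K).subgroupMap_surjective Γ
  have hmem : tK ∈ Ad (be b m) bar (cc (fK K ψ) b bar) (Rr (fK K ψ) (Γ.map (bcE K)) b bar) := by
    have hfd : FiniteDimensional K (K ⊗[E] V) := inferInstance
    refine tate_mem_Ad hset hmn (Δ.map ((bcE K).subgroupMap Γ)) ?_ i tK ?_
    · refine ⟨?_⟩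
      intro h0
      have h1 := Subgroup.index_map_dvd (H := Δ) (f := (bcE K).subgroupMap Γ) hsurj
      rw [h0, zero_dvd_iff] at h1
      exact hΔ.index_ne_zero h1
    · rintro _ ⟨γ, hγ, rfl⟩
      obtain ⟨μ, hμ⟩ := hsim γ γ.2
      refine ⟨algebraMap E K μ, fK_sim (γ : V ≃ₗ[E] V) μ hμ, ?_⟩
      have h3 : (((bcE K).subgroupMap Γ γ : Γ.map (bcE K)) : K ⊗[E] V ≃ₗ[K] K ⊗[E] V) =
          bcE K (γ : V ≃ₗ[E] V) := rfl
      rw [h3, htK, map_pr, ← theta_map, ht γ hγ μ hμ, map_smul, ← algebraMap_smul K (μ ^ i),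
        map_smul, map_pow]
  obtain ⟨N, x, y, hxy⟩ := exists_form hnd
  have hxyK : ∀ u : K ⊗[E] V, ∑ k, fK K ψ u (1 ⊗ₜ[E] x k) • (1 ⊗ₜ[E] y k : K ⊗[E] V) = u := by
    intro u
    induction u using TensorProduct.induction_on with
    | zero => simp
    | add u u' hu hu' =>
      conv_rhs => rw [← hu, ← hu']
      rw [← Finset.sum_add_distrib]
      refine Finset.sum_congr rfl fun k _ => ?_
      rw [map_add, LinearMap.add_apply, add_smul]
    | tmul r u =>
      conv_rhs => rw [← hxy u]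
      rw [TensorProduct.tmul_sum]
      refine Finset.sum_congr rfl fun k _ => ?_
      rw [fK_tmul, mul_one, TensorProduct.smul_tmul', TensorProduct.tmul_smul,
        TensorProduct.smul_tmul', smul_eq_mul, mul_one, Algebra.smul_def, mul_comm]
  set G := {c : ExteriorAlgebra E (Fin m → V) | ∃ a a' : Fin m, IsFormClass ψ a a' c} with hG
  have hsl : ∀ (j : ι) (a a' : Fin m), ExteriorAlgebra.map
      ((pr E K V m).symm : (Fin m → K ⊗[E] V) →ₗ[K] K ⊗[E] (Fin m → V))
      (sl (be b m) bar (cc (fK K ψ) b bar) (Rr (fK K ψ) (Γ.map (bcE K)) b bar) j a a') ∈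
      Algebra.adjoin K (theta K '' G) := by
    intro j a a'
    have h1 : theta K (∑ k, ExteriorAlgebra.ι E (Pi.single a (x k) : Fin m → V) *
        ExteriorAlgebra.ι E (Pi.single a' (y k))) ∈ Algebra.adjoin K (theta K '' G) :=
      Algebra.subset_adjoin ⟨_, ⟨a, a', N, x, y, hxy, rfl⟩, rfl⟩
    have h2 : ∀ (c : Fin m) (v : V), (pr E K V m).symm (Pi.single c (1 ⊗ₜ[E] v)) =
        (1 : K) ⊗ₜ[E] (Pi.single c v : Fin m → V) := by
      intro c v
      rw [LinearEquiv.symm_apply_eq, pr_tmul]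
      ext l
      by_cases hl : l = c
      · subst hl
        rw [Pi.single_eq_same, Pi.single_eq_same]
      · rw [Pi.single_eq_of_ne hl, Pi.single_eq_of_ne hl, TensorProduct.tmul_zero]
    have h3 : ExteriorAlgebra.map
        ((pr E K V m).symm : (Fin m → K ⊗[E] V) →ₗ[K] K ⊗[E] (Fin m → V))
        (sl (be b m) bar (cc (fK K ψ) b bar) (Rr (fK K ψ) (Γ.map (bcE K)) b bar) j a a') =
        - theta K (∑ k, ExteriorAlgebra.ι E (Pi.single a (x k) : Fin m → V) *
          ExteriorAlgebra.ι E (Pi.single a' (y k))) := by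
      rw [form_unique hset hall (fun k => (1 : K) ⊗ₜ[E] x k) (fun k => (1 : K) ⊗ₜ[E] y k) hxyK,
        map_neg, map_sum, map_sum]
      congr 1
      refine Finset.sum_congr rfl fun k _ => ?_
      rw [map_mul, map_mul, ExteriorAlgebra.map_apply_ι, ExteriorAlgebra.map_apply_ι, theta_ι,
        theta_ι]
      congr 2
      · exact h2 a (x k)
      · exact h2 a' (y k)
    rw [h3]
    exact neg_mem h1
  apply descend' K G t
  have hpull : ∀ x ∈ Ad (be b m) bar (cc (fK K ψ) b bar) (Rr (fK K ψ) (Γ.map (bcE K)) b bar),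
      ExteriorAlgebra.map
        ((pr E K V m).symm : (Fin m → K ⊗[E] V) →ₗ[K] K ⊗[E] (Fin m → V)) x ∈
        Algebra.adjoin K (theta K '' G) := by
    intro x hx
    unfold Ad at hx
    induction hx using Algebra.adjoin_induction with
    | mem x hx =>
      obtain ⟨j, a, a', rfl⟩ := hx
      exact hsl j a a'
    | algebraMap r => rw [AlgHom.commutes]; exact Subalgebra.algebraMap_mem _ r
    | add x y _ _ hx hy => rw [map_add]; exact add_mem hx hy
    | mul x y _ _ hx hy => rw [map_mul]; exact mul_mem hx hy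
  have := hpull tK hmem
  rwa [htK, symm_map_pr] at this

end Desc

section

variable {p n : ℕ} [hp : Fact p.Prime] {P : ℚ[X]}

/-- **Tate classes on all powers from finitely many Frobenius elements.** -/
theorem fewFrob (hn : 0 < n) (hP : Irreducible P) (hdeg : 2 < P.natDegree)
    (hweil : ∀ z : ℂ, aeval z P = 0 → ‖z‖ ^ 2 = (p : ℝ) ^ n) (hmr : MaxRank ((p : ℂ) ^ n) P)
    {E : Type*} [Field E] [CharZero E] (K : Type*) [Field K] [Algebra E K] [IsAlgClosure E K]
    {V : Type*} [AddCommGroup V] [Module E V] [FiniteDimensional E V] (ψ : V →ₗ[E] V →ₗ[E] E)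
    (halt : ∀ v, ψ v v = 0) (hnd : ∀ v, (∀ w, ψ v w = 0) → v = 0)
    (Γ : Subgroup (V ≃ₗ[E] V))
    (hsim : ∀ γ ∈ Γ, ∃ μ : E, ∀ u v, ψ ((γ : V ≃ₗ[E] V) u) ((γ : V ≃ₗ[E] V) v) = μ * ψ u v)
    (F : V ≃ₗ[E] V) (hF : F ∈ Γ)
    (hchar : LinearMap.charpoly (F : V →ₗ[E] V) = P.map (algebraMap ℚ E))
    (hirr : Irreducible (P.map (algebraMap ℚ E)))
    (hmult : ∀ u v, ψ (F u) (F v) = (p : E) ^ n * ψ u v)
    (hprime : ∀ r : ℕ, r.Prime → r ∣ P.natDegree → ∃ G ∈ Γ, ∃ α : K,
      NondegRoot G α ∧ ¬ r ∣ (minpoly E α).natDegree)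
    (m i : ℕ) (Δ : Subgroup Γ) (hΔ : Δ.FiniteIndex)
    (t : ExteriorAlgebra E (Fin m → V))
    (ht : ∀ γ ∈ Δ, ∀ μ : E,
      (∀ u v, ψ ((γ : V ≃ₗ[E] V) u) ((γ : V ≃ₗ[E] V) v) = μ * ψ u v) →
      ExteriorAlgebra.map (((γ : V ≃ₗ[E] V) : V →ₗ[E] V).compLeft (Fin m)) t = μ ^ i • t) :
    t ∈ Algebra.adjoin E {c | ∃ a a' : Fin m, IsFormClass ψ a a' c} := by
  classical
  have hac : IsAlgClosed K := IsAlgClosure.isAlgClosed E
  have halg : Algebra.IsAlgebraic E K := IsAlgClosure.isAlgebraic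
  have hcz : CharZero K := charZero_of_injective_algebraMap (algebraMap E K).injective
  let jE : P.SplittingField →ₐ[ℚ] K := IsAlgClosed.lift
  have hsw : ∀ u v, ψ v u = - ψ u v := fun u v => psi_swap halt u v
  have hmapP : (P.map (algebraMap ℚ E)).map (algebraMap E K) = P.map (algebraMap ℚ K) := by
    rw [Polynomial.map_map]
    congr 1
    exact Subsingleton.elim _ _
  obtain ⟨b, hset⟩ := setup_of hn hP hdeg hweil hmr (fK K ψ) (fK_alt halt)
    (fK_nondeg hsw hnd) (Γ.map (bcE K)) (by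
      rintro _ ⟨γ, hγ, rfl⟩
      obtain ⟨μ, hμ⟩ := hsim γ hγ
      exact ⟨algebraMap E K μ, fK_sim γ μ hμ⟩) (bcE K F) ⟨F, hF, rfl⟩
    (by rw [bcE_coe, LinearMap.charpoly_baseChange, hchar, hmapP])
    (by
      intro u v
      rw [fK_sim F _ hmult, map_pow, map_natCast]) jE
  -- the Galois group acts transitively on the roots
  have hconj : ∀ x y : Rt P, ∃ σ : K ≃ₐ[E] K, σ (jE x.1) = jE y.1 := by
    intro x y
    have hroot : ∀ z : Rt P, aeval (jE z.1) (P.map (algebraMap ℚ E)) = 0 := by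
      intro z
      rw [← eval_map_algebraMap, hmapP, eval_map_algebraMap, aeval_algHom_apply, rt_root, map_zero]
    have hmin : ∀ z : Rt P, minpoly E (jE z.1) = P.map (algebraMap ℚ E) * C
        (P.map (algebraMap ℚ E)).leadingCoeff⁻¹ := fun z =>
      (minpoly.eq_of_irreducible hirr (hroot z)).symm
    have h1 : minpoly E (jE y.1) = minpoly E (jE x.1) := by rw [hmin, hmin]
    obtain ⟨σ, hσ⟩ := (Normal.minpoly_eq_iff_mem_orbit K).1 h1
    exact ⟨σ, hσ⟩
  have hmn := all_mn_gal hset (fun i => by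
    obtain ⟨σ, hσ⟩ := hconj i (inv hweil i)
    exact ⟨σ, semiSym_bc K σ Γ, hσ⟩)
  -- the action on the roots
  have hex : ∀ (σ : K ≃ₐ[E] K) (x : Rt P), ∃ y : Rt P, jE y.1 = σ (jE x.1) := by
    intro σ x
    apply exists_rt hP
    have h1 : aeval (jE x.1) P = 0 := by rw [aeval_algHom_apply, rt_root, map_zero]
    have h2 : aeval ((σ : K →ₐ[E] K).restrictScalars ℚ (jE x.1)) P = 0 := by
      rw [aeval_algHom_apply, h1, map_zero]
    exact h2
  choose act hact using hex
  have hinj : ∀ x y : Rt P, jE x.1 = jE y.1 → x = y := fun x y hxy =>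
    Subtype.ext (jE.toRingHom.injective hxy)
  let A : MulAction (K ≃ₐ[E] K) (Rt P) :=
    { smul := act
      one_smul := fun x => hinj _ _ (hact 1 x)
      mul_smul := fun σ τ x => hinj _ _ (by
        show jE (act (σ * τ) x).1 = jE (act σ (act τ x)).1
        rw [hact, hact, hact]
        rfl) }
  have hsm : ∀ (σ : K ≃ₐ[E] K) (x : Rt P), jE (σ • x).1 = σ (jE x.1) := hact
  have htr : MulAction.IsPretransitive (K ≃ₐ[E] K) (Rt P) := by
    refine ⟨fun x y => ?_⟩
    obtain ⟨σ, hσ⟩ := hconj x y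
    exact ⟨σ, hinj _ _ (by rw [hsm, hσ])⟩
  have hall := single_block (G := K ≃ₐ[E] K) (X := Rt P)
    (Rr (fK K ψ) (Γ.map (bcE K)) b (inv hweil)) Rr_refl (fun x y => Rr_symm hmn)
    (fun x y z => Rr_trans hset)
    (by
      intro σ x y hxy
      obtain ⟨T, hT, hΓ⟩ := semiSym_bc K σ Γ
      obtain ⟨s, a, hs, ha, hb, hl⟩ := exists_perm hset _ T hT hΓ
      have hsx : ∀ z, s z = σ • z := fun z => hinj _ _ (by rw [hsm]; exact hl z)
      have := Rr_gal hset hT hΓ hs ha hb hxy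
      rwa [hsx, hsx] at this)
    (by
      intro r hr hrd
      rw [card_rt hP] at hrd
      obtain ⟨G, hG, α, ⟨hα1, hα2⟩, hα3⟩ := hprime r hr hrd
      have hchG : LinearMap.charpoly ((bcE K G : K ⊗[E] V ≃ₗ[K] K ⊗[E] V) :
          K ⊗[E] V →ₗ[K] K ⊗[E] V) = (LinearMap.charpoly (G : V →ₗ[E] V)).map
          (algebraMap E K) := by
        rw [bcE_coe, LinearMap.charpoly_baseChange]
      obtain ⟨v, hv⟩ := nondeg_of (bcE K G) α (by rw [hchG]; exact hα1) (by
        intro β hβ N hN hβN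
        apply hα2 β _ N hN hβN
        rw [hchG, IsRoot.def, eval_map_algebraMap] at hβ
        exact hβ)
      have hGm : bcE K G ∈ Γ.map (bcE K) := ⟨G, hG, rfl⟩
      obtain ⟨i₀, hi₀⟩ := eig_class hset hmn hGm hv
      refine ⟨i₀, MulAction.stabilizer (K ≃ₐ[E] K) α, ?_, ?_⟩
      · intro σ hσ
        exact class_fixed hset hmn hGm hv hi₀ (semiSym_bc K σ Γ)
          (MulAction.mem_stabilizer_iff.1 hσ) _ (hsm σ i₀)
      · rw [index_stab]
        exact hα3)
  have hnd' : ∀ v, (∀ w, ψ w v = 0) → v = 0 := by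
    intro v hv
    apply hnd
    intro w
    rw [psi_swap halt, hv, neg_zero]
  exact descend_form hnd' hset hall hmn hsim m i Δ hΔ t ht

end

end Pool.Agent.H93Tate.Fft
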