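import Pool.Agent.H93Tate.Group
import Pool.Agent.H93Tate.Defs

/-! Multiplicative relations between the roots of a Weil polynomial whose degree is twice a
prime power. -/

set_option linter.unusedSectionVars false

namespace Pool.Agent.H93Tate

open Polynomial

/-- roots in the splitting field -/
def Rt (P : ℚ[X]) : Type := {x : P.SplittingField // x ∈ P.rootSet P.SplittingField}

noncomputable instance (P : ℚ[X]) : Fintype (Rt P) :=
  inferInstanceAs (Fintype (P.rootSet P.SplittingField))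

noncomputable instance (P : ℚ[X]) : DecidableEq (Rt P) := Classical.decEq _

/-- the Galois group acts on the roots -/
noncomputable instance (P : ℚ[X]) :
    MulAction (P.SplittingField ≃ₐ[ℚ] P.SplittingField) (Rt P) where
  smul g x := ⟨g x.1, by
    have hx := x.2
    rw [mem_rootSet] at hx ⊢
    refine ⟨hx.1, ?_⟩
    have := aeval_algHom_apply g.toAlgHom x.1 P
    rw [hx.2] at this
    simpa using this⟩
  one_smul x := rfl
  mul_smul g h x := rfl

lemma smul_val {P : ℚ[X]} (g : P.SplittingField ≃ₐ[ℚ] P.SplittingField) (x : Rt P) :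
    (g • x).1 = g x.1 := rfl

lemma rt_root {P : ℚ[X]} (x : Rt P) : aeval x.1 P = 0 := (mem_rootSet.1 x.2).2

lemma card_rt {P : ℚ[X]} (hP : Irreducible P) : Fintype.card (Rt P) = P.natDegree :=
  card_rootSet_eq_natDegree hP.separable (SplittingField.splits P)

lemma splitting_any (Q : ℚ[X]) (A : Algebra ℚ Q.SplittingField) :
    @IsSplittingField ℚ Q.SplittingField _ _ A Q := by
  have h := IsSplittingField.splittingField Q
  have e : A = SplittingField.instAlgebra_1 Q := Subsingleton.elim _ _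
  rw [e]
  exact h

lemma pretransitive {P : ℚ[X]} (hP : Irreducible P) :
    MulAction.IsPretransitive (P.SplittingField ≃ₐ[ℚ] P.SplittingField) (Rt P) := by
  refine ⟨fun x y => ?_⟩
  have h1 : minpoly ℚ x.1 = P * C P.leadingCoeff⁻¹ :=
    (minpoly.eq_of_irreducible hP (rt_root x)).symm
  have h2 : minpoly ℚ y.1 = P * C P.leadingCoeff⁻¹ :=
    (minpoly.eq_of_irreducible hP (rt_root y)).symm
  have h3 : IsConjRoot ℚ y.1 x.1 := by
    rw [IsConjRoot, h1, h2]
  have hs : IsSplittingField ℚ P.SplittingField P := splitting_any P _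
  have hn : Normal ℚ P.SplittingField := Normal.of_isSplittingField P
  obtain ⟨σ, hσ⟩ := isConjRoot_iff_exists_algEquiv.1 h3
  exact ⟨σ, Subtype.ext hσ⟩

section Slope

variable {p c : ℕ} [hp : Fact p.Prime]

lemma one_lt_pow (hc : 0 < c) : (1 : ℝ) < (p : ℝ) ^ c :=
  one_lt_pow₀ (by exact_mod_cast hp.out.one_lt) hc.ne'

lemma slope_mul {x y : PadicAlgCl p} (hx : x ≠ 0) (hy : y ≠ 0) :
    slope p c (x * y) = slope p c x + slope p c y := by
  unfold slope
  rw [norm_mul, Real.logb_mul (norm_ne_zero_iff.2 hx) (norm_ne_zero_iff.2 hy)]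
  ring

lemma norm_p : ‖((p : ℕ) : PadicAlgCl p)‖ = (p : ℝ)⁻¹ := by
  have h : ((p : ℕ) : PadicAlgCl p) = ((p : ℚ_[p]) : PadicAlgCl p) := by
    exact (map_natCast (algebraMap ℚ_[p] (PadicAlgCl p)) p).symm
  rw [h, PadicAlgCl.norm_extends, Padic.norm_p]

lemma slope_N (hc : 0 < c) : slope p c ((p : PadicAlgCl p) ^ c) = 1 := by
  unfold slope
  rw [norm_pow, norm_p, inv_pow, Real.logb_inv, neg_neg, Real.logb_self_eq_one (one_lt_pow hc)]

lemma slope_pow (x : PadicAlgCl p) (n : ℕ) : slope p c (x ^ n) = n * slope p c x := by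
  unfold slope
  rw [norm_pow, Real.logb_pow]
  ring

lemma slope_prod {ι : Type*} (s : Finset ι) (f : ι → PadicAlgCl p) (hf : ∀ i ∈ s, f i ≠ 0) :
    slope p c (∏ i ∈ s, f i) = ∑ i ∈ s, slope p c (f i) := by
  classical
  induction s using Finset.induction_on with
  | empty => simp [slope]
  | insert a s ha ih =>
    rw [Finset.prod_insert ha, Finset.sum_insert ha, slope_mul (hf a (Finset.mem_insert_self a s))
      (Finset.prod_ne_zero_iff.2 fun i hi => hf i (Finset.mem_insert_of_mem hi)),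
      ih fun i hi => hf i (Finset.mem_insert_of_mem hi)]

end Slope

section Weil

variable {p c : ℕ} [hp : Fact p.Prime] {P : ℚ[X]}

/-- `N / x` is a root again -/
lemma inv_root (hweil : ∀ z : ℂ, aeval z P = 0 → ‖z‖ ^ 2 = (p : ℝ) ^ c)
    {x : P.SplittingField} (hx : x ∈ P.rootSet P.SplittingField) :
    (p : P.SplittingField) ^ c / x ∈ P.rootSet P.SplittingField := by
  rw [mem_rootSet] at hx ⊢
  refine ⟨hx.1, ?_⟩
  let j : P.SplittingField →ₐ[ℚ] ℂ := IsAlgClosed.lift
  have h1 : aeval (j x) P = 0 := by rw [aeval_algHom_apply, hx.2, map_zero]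
  have h2 : aeval ((starRingEnd ℂ) (j x)) P = 0 := by
    have h3 : (starRingEnd ℂ) (aeval (j x) P) = 0 := by rw [h1, map_zero]
    rw [aeval_def, hom_eval₂] at h3
    rw [aeval_def, ← h3]
    congr 1
    exact (RingHom.ext fun q => by simp)
  have h3 : (starRingEnd ℂ) (j x) = (p : ℂ) ^ c / j x := by
    have h4 := hweil _ h1
    have h5 : j x ≠ 0 := by
      intro h0
      rw [h0, norm_zero] at h4
      have : (0 : ℝ) < (p : ℝ) ^ c := pow_pos (by exact_mod_cast hp.out.pos) c
      simp at h4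
      rw [← h4] at this
      exact lt_irrefl _ this
    rw [eq_div_iff h5, mul_comm, Complex.mul_conj, Complex.normSq_eq_norm_sq, h4]
    push_cast
    rfl
  rw [h3] at h2
  have h4 : j ((p : P.SplittingField) ^ c / x) = (p : ℂ) ^ c / j x := by
    rw [map_div₀, map_pow, map_natCast]
  rw [← h4, aeval_algHom_apply] at h2
  exact (map_eq_zero j).1 h2

lemma root_ne_zero (hweil : ∀ z : ℂ, aeval z P = 0 → ‖z‖ ^ 2 = (p : ℝ) ^ c)
    {x : P.SplittingField} (hx : x ∈ P.rootSet P.SplittingField) : x ≠ 0 := by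
  rintro rfl
  rw [mem_rootSet] at hx
  let j : P.SplittingField →ₐ[ℚ] ℂ := IsAlgClosed.lift
  have h1 : aeval (j 0) P = 0 := by rw [aeval_algHom_apply, hx.2, map_zero]
  have h2 := hweil _ h1
  rw [map_zero, norm_zero] at h2
  have : (0 : ℝ) < (p : ℝ) ^ c := pow_pos (by exact_mod_cast hp.out.pos) c
  rw [← h2] at this
  norm_num at this

/-- a root is never its own partner as soon as the degree exceeds two -/
lemma inv_ne (hP : Irreducible P) (hdeg : 2 < P.natDegree)
    (hweil : ∀ z : ℂ, aeval z P = 0 → ‖z‖ ^ 2 = (p : ℝ) ^ c)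
    {x : P.SplittingField} (hx : x ∈ P.rootSet P.SplittingField) :
    (p : P.SplittingField) ^ c / x ≠ x := by
  intro h
  have hx0 := root_ne_zero hweil hx
  rw [div_eq_iff hx0] at h
  have h1 : aeval x (X ^ 2 - C ((p : ℚ) ^ c) : ℚ[X]) = 0 := by
    rw [map_sub, map_pow, aeval_X, aeval_C, map_pow, map_natCast, h]
    ring
  have h2 : minpoly ℚ x ∣ (X ^ 2 - C ((p : ℚ) ^ c) : ℚ[X]) := minpoly.dvd ℚ x h1
  have h3 : (X ^ 2 - C ((p : ℚ) ^ c) : ℚ[X]).natDegree = 2 := natDegree_X_pow_sub_C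
  have h4 : (X ^ 2 - C ((p : ℚ) ^ c) : ℚ[X]) ≠ 0 := by
    intro h0
    rw [h0] at h3
    simp at h3
  have h5 := natDegree_le_of_dvd h2 h4
  rw [h3] at h5
  have h6 : minpoly ℚ x = P * C P.leadingCoeff⁻¹ :=
    (minpoly.eq_of_irreducible hP (mem_rootSet.1 hx).2).symm
  rw [h6, natDegree_mul_C] at h5
  · omega
  · exact inv_ne_zero (leadingCoeff_ne_zero.2 hP.ne_zero)

end Weil

/-- **Only trivial multiplicative relations.** -/
theorem key {p c r a : ℕ} [hp : Fact p.Prime] (hc : 0 < c) (hr : r.Prime) (ha : 0 < a)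
    {P : ℚ[X]} (hP : Irreducible P) (hdeg : P.natDegree = 2 * r ^ a)
    (hweil : ∀ z : ℂ, aeval z P = 0 → ‖z‖ ^ 2 = (p : ℝ) ^ c)
    (D : ℤ) (u : PadicAlgCl p → ℤ)
    (hu : ∀ y : PadicAlgCl p, aeval y P = 0 → (u y : ℝ) = D * (2 * slope p c y - 1))
    (hΦ : ∀ Φ : Finset (PadicAlgCl p), (∀ y ∈ Φ, aeval y P = 0) →
      (∀ y, aeval y P = 0 → (y ∈ Φ ↔ (p : PadicAlgCl p) ^ c / y ∉ Φ)) →
      ¬ (r : ℤ) ∣ ∑ y ∈ Φ, u y)
    {E : Type*} [Field E] [CharZero E] [IsAlgClosed E] [DecidableEq E] (s T : ℕ) (hs : 0 < s)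
    (xs : List E) (hxs : ∀ x ∈ xs, aeval x P = 0) (h : xs.prod ^ s = ((p : E) ^ c) ^ T)
    (x : E) (hx : aeval x P = 0) : xs.count x = xs.count ((p : E) ^ c / x) := by
  classical
  have hrF : Fact r.Prime := ⟨hr⟩
  have hdeg2 : 2 < P.natDegree := by
    rw [hdeg]
    have h1 : r ^ 1 ≤ r ^ a := Nat.pow_le_pow_right hr.pos ha
    have h2 := hr.two_le
    rw [pow_one] at h1
    omega
  have hp0 : (0 : ℝ) < (p : ℝ) ^ c := pow_pos (by exact_mod_cast hp.out.pos) c
  let L := P.SplittingField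
  let jE : L →ₐ[ℚ] E := IsAlgClosed.lift
  let jp : L →ₐ[ℚ] PadicAlgCl p := IsAlgClosed.lift
  let jC : L →ₐ[ℚ] ℂ := IsAlgClosed.lift
  let m : Rt P → ℕ := fun x => xs.count (jE x.1)
  -- every root in `E` comes from the splitting field
  have hsurj : ∀ y : E, aeval y P = 0 → ∃ x : Rt P, jE x.1 = y := by
    intro y hy
    have h1 := (SplittingField.splits P).image_rootSet jE
    have h2 : y ∈ P.rootSet E := mem_rootSet.2 ⟨hP.ne_zero, hy⟩
    rw [← h1] at h2
    obtain ⟨z, hz, hzy⟩ := h2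
    exact ⟨⟨z, hz⟩, hzy⟩
  have hinjE : Function.Injective (fun x : Rt P => jE x.1) :=
    fun x y hxy => Subtype.ext (jE.toRingHom.injective hxy)
  -- the product in `E`
  have hprod : xs.prod = ∏ x : Rt P, (jE x.1) ^ (m x) := by
    rw [Finset.prod_list_count]
    symm
    rw [← Finset.prod_image (s := Finset.univ) (g := fun x : Rt P => jE x.1)
      (f := fun y => y ^ xs.count y) (fun x _ y _ hxy => hinjE hxy)]
    symm
    apply Finset.prod_subset
    · intro y hy
      rw [List.mem_toFinset] at hy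
      obtain ⟨x, hx⟩ := hsurj y (hxs y hy)
      exact Finset.mem_image.2 ⟨x, Finset.mem_univ _, hx⟩
    · intro y _ hy
      rw [List.mem_toFinset] at hy
      rw [List.count_eq_zero_of_not_mem hy, pow_zero]
  -- the relation in the splitting field
  have hrelL : (∏ x : Rt P, x.1 ^ (m x)) ^ s = ((p : L) ^ c) ^ T := by
    apply jE.toRingHom.injective
    show jE _ = jE _
    rw [map_pow, map_prod, map_pow, map_pow, map_natCast, ← h, hprod]
    simp only [map_pow]
  -- archimedean size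
  have harch : (s : ℝ) * ∑ x : Rt P, (m x : ℝ) = 2 * T := by
    have h1 : ∀ x : Rt P, Real.log ‖jC x.1‖ = (1 / 2) * Real.log ((p : ℝ) ^ c) := by
      intro x
      have h2 := hweil (jC x.1) (by rw [aeval_algHom_apply, rt_root, map_zero])
      rw [← h2, Real.log_pow]
      push_cast
      ring
    have hne : ∀ x : Rt P, ‖jC x.1‖ ≠ 0 := by
      intro x
      rw [norm_ne_zero_iff, Ne, map_eq_zero]
      exact root_ne_zero hweil x.2
    have h2 : Real.log ‖jC ((∏ x : Rt P, x.1 ^ (m x)) ^ s)‖ =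
        Real.log ‖jC (((p : L) ^ c) ^ T)‖ := by rw [hrelL]
    rw [map_pow, map_prod, norm_pow, Real.log_pow, norm_prod, Real.log_prod, map_pow, map_pow,
      map_natCast, norm_pow, norm_pow, Complex.norm_natCast, Real.log_pow] at h2
    · have h3 : ∀ x : Rt P, Real.log ‖jC (x.1 ^ m x)‖ =
          (m x : ℝ) * ((1 / 2) * Real.log ((p : ℝ) ^ c)) := by
        intro x
        rw [map_pow, norm_pow, Real.log_pow, h1]
      rw [Finset.sum_congr rfl (fun x _ => h3 x), ← Finset.sum_mul] at h2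
      have h4 : 0 < Real.log ((p : ℝ) ^ c) := Real.log_pos (one_lt_pow hc)
      have h5 : ((s : ℝ) * ∑ x : Rt P, (m x : ℝ) - 2 * T) * Real.log ((p : ℝ) ^ c) = 0 := by
        linear_combination 2 * h2
      rcases mul_eq_zero.1 h5 with h6 | h6
      · linarith
      · exact absurd h6 h4.ne'
    · intro x _
      rw [map_pow, norm_pow]
      exact pow_ne_zero _ (hne x)
  -- p-adic size for every translate
  have hpadic : ∀ g : L ≃ₐ[ℚ] L,
      (s : ℝ) * ∑ x : Rt P, (m x : ℝ) * slope p c (jp (g • x).1) = T := by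
    intro g
    have hne : ∀ x : Rt P, jp (g x.1) ≠ 0 := by
      intro x
      rw [Ne, map_eq_zero, map_eq_zero]
      exact root_ne_zero hweil x.2
    have h2 : slope p c (jp (g ((∏ x : Rt P, x.1 ^ (m x)) ^ s))) =
        slope p c (jp (g (((p : L) ^ c) ^ T))) := by rw [hrelL]
    rw [map_pow, map_pow, slope_pow, map_prod, map_prod, slope_prod] at h2
    · have h3 : slope p c (jp (g (((p : L) ^ c) ^ T))) = T := by
        rw [map_pow, map_pow, slope_pow, map_pow, map_pow, map_natCast, map_natCast, slope_N hc,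
          mul_one]
      rw [h3] at h2
      rw [← h2]
      congr 1
      refine Finset.sum_congr rfl fun x _ => ?_
      rw [map_pow, map_pow, slope_pow, smul_val]
    · intro x _
      rw [map_pow, map_pow]
      exact pow_ne_zero _ (hne x)
  have hrootp : ∀ x : Rt P, aeval (jp x.1) P = 0 := fun x => by
    rw [aeval_algHom_apply, rt_root, map_zero]
  -- the integral relation
  have hrel : IsRel (L ≃ₐ[ℚ] L) (fun x : Rt P => u (jp x.1)) (fun x => (m x : ℤ)) := by
    intro g
    have h1 : ((∑ x : Rt P, (m x : ℤ) * u (jp (g • x).1) : ℤ) : ℝ) = 0 := by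
      push_cast
      have h2 : ∀ x : Rt P, (m x : ℝ) * (u (jp (g • x).1) : ℝ) =
          D * (2 * ((m x : ℝ) * slope p c (jp (g • x).1)) - (m x : ℝ)) := by
        intro x
        rw [hu _ (hrootp (g • x))]
        ring
      rw [Finset.sum_congr rfl (fun x _ => h2 x), ← Finset.mul_sum, Finset.sum_sub_distrib,
        ← Finset.mul_sum]
      have h3 : (s : ℝ) * (2 * ∑ x : Rt P, (m x : ℝ) * slope p c (jp (g • x).1)
          - ∑ x : Rt P, (m x : ℝ)) = 0 := by
        linear_combination 2 * hpadic g - harch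
      rcases mul_eq_zero.1 h3 with h4 | h4
      · exact absurd h4 (by positivity)
      · rw [h4, mul_zero]
    exact_mod_cast h1
  let ι : Rt P → Rt P := fun x => ⟨(p : L) ^ c / x.1, inv_root hweil x.2⟩
  have hN0 : (p : L) ^ c ≠ 0 := pow_ne_zero _ (by exact_mod_cast hp.out.ne_zero)
  have hι : ∀ x, ι (ι x) = x := by
    intro x
    apply Subtype.ext
    show (p : L) ^ c / ((p : L) ^ c / x.1) = x.1
    rw [div_div_cancel₀ hN0]
  have hιf : ∀ x, ι x ≠ x := fun x hx => inv_ne hP hdeg2 hweil x.2 (congrArg Subtype.val hx)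
  have hιG : ∀ (g : L ≃ₐ[ℚ] L) x, ι (g • x) = g • ι x := by
    intro g x
    apply Subtype.ext
    show (p : L) ^ c / g x.1 = g ((p : L) ^ c / x.1)
    rw [map_div₀, map_pow, map_natCast]
  have hNp : (p : PadicAlgCl p) ^ c ≠ 0 := pow_ne_zero _ (by exact_mod_cast hp.out.ne_zero)
  have hjpι : ∀ x : Rt P, jp (ι x).1 = (p : PadicAlgCl p) ^ c / jp x.1 := by
    intro x
    show jp ((p : L) ^ c / x.1) = _
    rw [map_div₀, map_pow, map_natCast]
  have hodd : ∀ x, u (jp (ι x).1) = - u (jp x.1) := by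
    intro x
    have hx0 : jp x.1 ≠ 0 := by
      rw [Ne, map_eq_zero]; exact root_ne_zero hweil x.2
    have hy0 : (p : PadicAlgCl p) ^ c / jp x.1 ≠ 0 := div_ne_zero hNp hx0
    have h1 : slope p c ((p : PadicAlgCl p) ^ c / jp x.1) + slope p c (jp x.1) = 1 := by
      rw [← slope_mul hy0 hx0, div_mul_cancel₀ _ hx0, slope_N hc]
    have h2 := hu _ (hrootp (ι x))
    have h3 := hu _ (hrootp x)
    rw [hjpι] at h2
    have h4 : ((u (jp (ι x).1) : ℤ) : ℝ) = ((- u (jp x.1) : ℤ) : ℝ) := by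
      rw [hjpι, h2]
      push_cast
      rw [h3]
      linear_combination 2 * (D : ℝ) * h1
    exact_mod_cast h4
  have hinjp : Function.Injective (fun x : Rt P => jp x.1) :=
    fun x y hxy => Subtype.ext (jp.toRingHom.injective hxy)
  have hsurjp : ∀ y : PadicAlgCl p, aeval y P = 0 → ∃ x : Rt P, jp x.1 = y := by
    intro y hy
    have h1 := (SplittingField.splits P).image_rootSet jp
    have h2 : y ∈ P.rootSet (PadicAlgCl p) := mem_rootSet.2 ⟨hP.ne_zero, hy⟩
    rw [← h1] at h2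
    obtain ⟨z, hz, hzy⟩ := h2
    exact ⟨⟨z, hz⟩, hzy⟩
  have H : ∀ Φ : Finset (Rt P), (∀ x, x ∈ Φ ↔ ι x ∉ Φ) →
      ¬ (r : ℤ) ∣ ∑ x ∈ Φ, u (jp x.1) := by
    intro Φ h1 h2
    refine hΦ (Φ.image fun x => jp x.1) ?_ ?_ ?_
    · intro y hy
      obtain ⟨x, _, rfl⟩ := Finset.mem_image.1 hy
      exact hrootp x
    · intro y hy
      obtain ⟨x, rfl⟩ := hsurjp y hy
      rw [← hjpι]
      have h3 : ∀ z : Rt P, jp z.1 ∈ (Φ.image fun x => jp x.1) ↔ z ∈ Φ := by
        intro z
        constructor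
        · intro hz
          obtain ⟨w, hw, hwz⟩ := Finset.mem_image.1 hz
          rwa [← hinjp hwz]
        · intro hz
          exact Finset.mem_image.2 ⟨z, hz, rfl⟩
      rw [h3, h3]
      exact h1 x
    · rwa [Finset.sum_image (fun x _ y _ hxy => hinjp hxy)]
  have htrans := pretransitive hP
  obtain ⟨x0, rfl⟩ := hsurj x hx
  have hfin := rel_trivial (G := L ≃ₐ[ℚ] L) (X := Rt P) (r := r) (a := a)
    (by rw [card_rt hP, hdeg]) hι hιf hιG (fun x : Rt P => u (jp x.1)) hodd H
    (fun x => (m x : ℤ)) hrel x0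
  have hjEι : jE (ι x0).1 = (p : E) ^ c / jE x0.1 := by
    show jE ((p : L) ^ c / x0.1) = _
    rw [map_div₀, map_pow, map_natCast]
  have h9 : m (ι x0) = m x0 := by exact_mod_cast hfin
  show m x0 = xs.count ((p : E) ^ c / jE x0.1)
  rw [← hjEι]
  exact h9.symm

end Pool.Agent.H93Tate
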