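import Mathlib

/-! Sylow argument: a transitive action on `2 r^a` points with an equivariant fixed point free
involution; an odd integer function whose sums over half systems are prime to `r` has only
trivial relations. -/

set_option linter.unusedSectionVars false

namespace Pool.Agent.H93Tate

open Finset

section Basic

variable {X : Type*} [Fintype X] [DecidableEq X]

/-- sum over a half system is half of the total sum for an even function -/
lemma sum_half {ι : X → X} (hι : ∀ x, ι (ι x) = x) (Φ : Finset X)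
    (hΦ : ∀ x, x ∈ Φ ↔ ι x ∉ Φ) (h : X → ℤ) (he : ∀ x, h (ι x) = h x) :
    ∑ x, h x = 2 * ∑ x ∈ Φ, h x := by
  have h1 : ∑ x, h x = ∑ x ∈ Φ, h x + ∑ x ∈ Φᶜ, h x := (Finset.sum_add_sum_compl Φ h).symm
  have h2 : ∑ x ∈ Φᶜ, h x = ∑ x ∈ Φ, h x := by
    refine Finset.sum_nbij' ι ι ?_ ?_ ?_ ?_ ?_
    · intro x hx
      rw [Finset.mem_compl] at hx
      by_contra hc
      exact hx ((hΦ x).2 hc)
    · intro x hx
      rw [Finset.mem_compl]
      exact (hΦ x).1 hx
    · intro x _; exact hι x
    · intro x _; exact hι x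
    · intro x _; exact (he x).symm
  rw [h1, h2]; ring

/-- a half system exists for any fixed point free involution -/
lemma exists_half {ι : X → X} (hι : ∀ x, ι (ι x) = x) (hf : ∀ x, ι x ≠ x) :
    ∃ Φ : Finset X, ∀ x, x ∈ Φ ↔ ι x ∉ Φ := by
  classical
  obtain ⟨e⟩ : Nonempty (X ≃ Fin (Fintype.card X)) := ⟨Fintype.equivFin X⟩
  refine ⟨Finset.univ.filter (fun x => e x < e (ι x)), fun x => ?_⟩
  simp only [Finset.mem_filter, Finset.mem_univ, true_and, hι, not_lt]
  constructor
  · intro h; exact h.le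
  · intro h
    refine lt_of_le_of_ne h ?_
    intro hc
    exact hf x (e.injective hc).symm

end Basic

variable {G X : Type*} [Group G] [Finite G] [Fintype X] [DecidableEq X] [MulAction G X]

lemma card_orbit_mul (x : X) :
    Nat.card (MulAction.orbit G x) * Nat.card (MulAction.stabilizer G x) = Nat.card G := by
  rw [Nat.card_congr (MulAction.orbitEquivQuotientStabilizer G x),
    ← Subgroup.card_eq_card_quotient_mul_card_subgroup]

/-- orbits of a Sylow subgroup have cardinality divisible by the full `r`-part of the degree -/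
lemma dvd_card_orbit {r : ℕ} [Fact r.Prime] (S : Sylow r G) [MulAction.IsPretransitive G X]
    (b : ℕ) (hb : r ^ b ∣ Fintype.card X) (x : X) :
    r ^ b ∣ Nat.card (MulAction.orbit S x) := by
  classical
  have hr : r.Prime := Fact.out
  have h1 := card_orbit_mul (G := G) x
  have h2 := card_orbit_mul (G := S) x
  have h3 : Nat.card (MulAction.orbit G x) = Fintype.card X := by
    rw [MulAction.orbit_eq_univ, Nat.card_univ, Nat.card_eq_fintype_card]
  have h4 : Nat.card (MulAction.stabilizer S x) ∣ Nat.card (MulAction.stabilizer G x) := by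
    let φ : MulAction.stabilizer S x →* MulAction.stabilizer G x :=
      { toFun := fun s => ⟨((s : S) : G), s.2⟩
        map_one' := rfl
        map_mul' := fun _ _ => rfl }
    have hφ : Function.Injective φ := by
      intro s t h
      have := congrArg (fun z : MulAction.stabilizer G x => (z : G)) h
      exact Subtype.ext (Subtype.ext this)
    exact Subgroup.card_dvd_of_injective φ hφ
  obtain ⟨c, hc⟩ := h4
  obtain ⟨d, hd⟩ := hb
  have hS : IsPGroup r (MulAction.stabilizer S x) := S.isPGroup'.to_subgroup _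
  obtain ⟨e, he⟩ := hS.exists_card_eq
  have hdiv : r ^ (b + e) ∣ Nat.card G := by
    rw [← h1, h3, hd, hc, he, pow_add]
    exact ⟨d * c, by ring⟩
  have hcS : r ^ (b + e) ∣ Nat.card S := by
    rw [S.card_eq_multiplicity]
    refine pow_dvd_pow r ?_
    have hG : Nat.card G ≠ 0 := Nat.card_pos.ne'
    exact (hr.pow_dvd_iff_le_factorization hG).1 hdiv
  rw [← h2, he, pow_add] at hcS
  exact Nat.dvd_of_mul_dvd_mul_right (pow_pos hr.pos e) hcS

/-- orbits of an `r`-group have `r`-power cardinality -/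
lemma card_orbit_pow {r : ℕ} [Fact r.Prime] (S : Sylow r G) (x : X) :
    ∃ e, Nat.card (MulAction.orbit S x) = r ^ e := by
  have h2 := card_orbit_mul (G := S) x
  obtain ⟨n, hn⟩ := S.isPGroup'.exists_card_eq
  have hr : r.Prime := Fact.out
  have : Nat.card (MulAction.orbit S x) ∣ r ^ n := ⟨_, by rw [← hn, ← h2]⟩
  obtain ⟨e, _, he⟩ := (Nat.dvd_prime_pow hr).1 this
  exact ⟨e, he⟩

/-- `m` is odd with respect to `ι` -/
def IsOdd (ι : X → X) (m : X → ℤ) : Prop := ∀ x, m (ι x) = - m x

/-- `m` is a relation for all translates of `u` -/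
def IsRel (G : Type*) {X : Type*} [Group G] [Fintype X] [MulAction G X] (u m : X → ℤ) : Prop :=
  ∀ g : G, ∑ x, m x * u (g • x) = 0

lemma exists_fixed {r : ℕ} [Fact r.Prime] (S : Sylow r G) {ι : X → X}
    (hG : ∀ (g : G) x, ι (g • x) = g • ι x) (u m : X → ℤ)
    (hodd : IsOdd ι m) (hrel : IsRel G u m) (hm : ∃ x, ¬ (r : ℤ) ∣ m x) :
    ∃ l : X → ℤ, IsOdd ι l ∧ IsRel G u l ∧ (∃ x, ¬ (r : ℤ) ∣ l x) ∧
      ∀ (s : S) x, (l ((s : G) • x) : ZMod r) = (l x : ZMod r) := by
  classical
  have hr : r.Prime := Fact.out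
  have : NeZero r := ⟨hr.ne_zero⟩
  let N : AddSubgroup (X → ZMod r) :=
    { carrier := {f | ∃ l : X → ℤ, IsOdd ι l ∧ IsRel G u l ∧ ∀ x, f x = (l x : ZMod r)}
      zero_mem' := ⟨0, fun x => by simp, fun g => by simp, fun x => by simp⟩
      add_mem' := by
        rintro f f' ⟨l, h1, h2, h3⟩ ⟨l', h1', h2', h3'⟩
        refine ⟨l + l', fun x => ?_, fun g => ?_, fun x => ?_⟩
        · simp only [Pi.add_apply, h1 x, h1' x]; ring
        · simp only [Pi.add_apply, add_mul, Finset.sum_add_distrib, h2 g, h2' g, add_zero]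
        · simp only [Pi.add_apply, h3 x, h3' x, Int.cast_add]
      neg_mem' := by
        rintro f ⟨l, h1, h2, h3⟩
        refine ⟨-l, fun x => ?_, fun g => ?_, fun x => ?_⟩
        · simp only [Pi.neg_apply, h1 x]
        · simp only [Pi.neg_apply, neg_mul, Finset.sum_neg_distrib, h2 g, neg_zero]
        · simp only [Pi.neg_apply, h3 x, Int.cast_neg] }
  let act : MulAction S N :=
    { smul := fun s f => ⟨fun x => f.1 ((s : G)⁻¹ • x), by
        obtain ⟨l, h1, h2, h3⟩ := f.2
        refine ⟨fun x => l ((s : G)⁻¹ • x), fun x => ?_, fun g => ?_, fun x => h3 _⟩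
        · show l ((s : G)⁻¹ • ι x) = - l ((s : G)⁻¹ • x)
          rw [← hG, h1]
        · have := h2 (g * (s : G))
          rw [← this]
          refine Finset.sum_nbij' (fun x => (s : G)⁻¹ • x) (fun x => (s : G) • x) ?_ ?_ ?_ ?_ ?_
          · intro x _; exact Finset.mem_univ _
          · intro x _; exact Finset.mem_univ _
          · intro x _; simp
          · intro x _; simp
          · intro x _
            show l ((s : G)⁻¹ • x) * u (g • x) = l ((s : G)⁻¹ • x) * u ((g * (s : G)) • (s : G)⁻¹ • x)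
            rw [smul_smul, mul_assoc, mul_inv_cancel, mul_one]⟩
      one_smul := by
        intro f
        apply Subtype.ext
        funext x
        show f.1 (((1 : S) : G)⁻¹ • x) = f.1 x
        simp
      mul_smul := by
        intro s t f
        apply Subtype.ext
        funext x
        show f.1 (((s * t : S) : G)⁻¹ • x) = f.1 ((t : G)⁻¹ • (s : G)⁻¹ • x)
        rw [Subgroup.coe_mul, mul_inv_rev, smul_smul] }
  obtain ⟨x0, hx0⟩ := hm
  let f0 : N := ⟨fun x => (m x : ZMod r), m, hodd, hrel, fun x => rfl⟩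
  have hf0 : f0 ≠ 0 := by
    intro h
    have : (m x0 : ZMod r) = 0 := by
      have := congrArg (fun f : N => f.1 x0) h
      exact this
    exact hx0 ((ZMod.intCast_zmod_eq_zero_iff_dvd _ _).1 this)
  have hord : addOrderOf f0 = r := by
    apply addOrderOf_eq_prime _ hf0
    apply Subtype.ext
    funext x
    show (r • (fun x => (m x : ZMod r))) x = 0
    simp
  have hcard : r ∣ Nat.card N := by
    have := addOrderOf_dvd_natCard f0
    rwa [hord] at this
  have h0 : (0 : N) ∈ MulAction.fixedPoints S N := by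
    intro s
    apply Subtype.ext
    funext x
    rfl
  obtain ⟨b, hb, hb0⟩ :=
    S.isPGroup'.exists_fixed_point_of_prime_dvd_card_of_fixed_point N hcard h0
  obtain ⟨l, h1, h2, h3⟩ := b.2
  refine ⟨l, h1, h2, ?_, ?_⟩
  · by_contra hc
    push Not at hc
    apply hb0
    apply Subtype.ext
    funext x
    show (0 : ZMod r) = b.1 x
    rw [h3, (ZMod.intCast_zmod_eq_zero_iff_dvd _ _).2 (hc x)]
  · intro s x
    have := congrArg (fun f : N => f.1 ((s : G) • x)) (hb s)
    have h4 : b.1 ((s : G)⁻¹ • (s : G) • x) = b.1 ((s : G) • x) := this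
    rw [inv_smul_smul] at h4
    rw [← h3, ← h3, h4]

/-- the key contradiction -/
lemma no_primitive_rel {r a : ℕ} [Fact r.Prime] [MulAction.IsPretransitive G X]
    (hcard : Fintype.card X = 2 * r ^ a) {ι : X → X} (hι : ∀ x, ι (ι x) = x)
    (hf : ∀ x, ι x ≠ x) (hG : ∀ (g : G) x, ι (g • x) = g • ι x) (u : X → ℤ)
    (hu : ∀ x, u (ι x) = - u x)
    (H : ∀ Φ : Finset X, (∀ x, x ∈ Φ ↔ ι x ∉ Φ) → ¬ (r : ℤ) ∣ ∑ x ∈ Φ, u x)
    (m : X → ℤ) (hodd : IsOdd ι m) (hrel : IsRel G u m) (hm : ∃ x, ¬ (r : ℤ) ∣ m x) : False := by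
  classical
  have hr : r.Prime := Fact.out
  have : NeZero r := ⟨hr.ne_zero⟩
  obtain ⟨S⟩ : Nonempty (Sylow r G) := inferInstance
  obtain ⟨l, hlo, hlr, ⟨x0, hx0⟩, hfix⟩ := exists_fixed S hG u m hodd hrel hm
  -- reduction: it suffices to find a half system on which `l` is constant mod `r`
  suffices hs : ∃ Φ : Finset X, (∀ x, x ∈ Φ ↔ ι x ∉ Φ) ∧
      ∀ x ∈ Φ, (l x : ZMod r) = (l x0 : ZMod r) by
    obtain ⟨Φ, hΦ, hc⟩ := hs
    have h1 : ∑ x, l x * u x = 0 := by
      have := hlr 1
      simpa using this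
    have h2 := sum_half hι Φ hΦ (fun x => l x * u x) (fun x => by
      show l (ι x) * u (ι x) = l x * u x
      rw [hlo x, hu x]; ring)
    have h3 : ∑ x ∈ Φ, l x * u x = 0 := by
      have : (2 : ℤ) * ∑ x ∈ Φ, l x * u x = 0 := by rw [← h2, h1]
      omega
    have h4 : ((∑ x ∈ Φ, l x * u x : ℤ) : ZMod r) = 0 := by rw [h3]; simp
    have h5 : (l x0 : ZMod r) * ((∑ x ∈ Φ, u x : ℤ) : ZMod r) = 0 := by
      rw [← h4]
      push_cast
      rw [Finset.mul_sum]
      refine Finset.sum_congr rfl fun x hx => ?_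
      rw [hc x hx]
    rcases mul_eq_zero.1 h5 with h6 | h6
    · exact hx0 ((ZMod.intCast_zmod_eq_zero_iff_dvd _ _).1 h6)
    · exact H Φ hΦ ((ZMod.intCast_zmod_eq_zero_iff_dvd _ _).1 h6)
  have horb : ∀ x ∈ MulAction.orbit S x0, (l x : ZMod r) = (l x0 : ZMod r) := by
    rintro x ⟨s, rfl⟩
    exact hfix s x0
  by_cases hr2 : r = 2
  · -- the Sylow subgroup is transitive
    obtain ⟨Φ, hΦ⟩ := exists_half hι hf
    refine ⟨Φ, hΦ, fun x _ => horb x ?_⟩
    have h1 : r ^ (a + 1) ∣ Nat.card (MulAction.orbit S x0) := by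
      apply dvd_card_orbit S
      rw [hcard, hr2, pow_succ]
      exact ⟨1, by ring⟩
    have h2 : Nat.card (MulAction.orbit S x0) ≤ Fintype.card X := by
      rw [← Nat.card_eq_fintype_card]
      exact Nat.card_le_card_of_injective _ Subtype.val_injective
    have h3 : Nat.card (MulAction.orbit S x0) = Fintype.card X := by
      apply le_antisymm h2
      refine le_trans (le_of_eq ?_) (Nat.le_of_dvd ?_ h1)
      · rw [hcard, hr2, pow_succ]; ring
      · have : Nonempty (MulAction.orbit S x0) := ⟨⟨x0, MulAction.mem_orbit_self x0⟩⟩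
        exact Nat.card_pos
    have h4 : (MulAction.orbit S x0) = Set.univ := by
      apply Set.eq_of_subset_of_ncard_le (Set.subset_univ _)
      rw [Set.ncard_univ, Nat.card_eq_fintype_card, ← h3]
      exact le_of_eq (Nat.card_coe_set_eq _)
    rw [h4]; exact Set.mem_univ x
  · -- two orbits, exchanged by the involution
    have hra : ∀ x : X, Nat.card (MulAction.orbit S x) = r ^ a := by
      intro x
      have h1 : r ^ a ∣ Nat.card (MulAction.orbit S x) := by
        apply dvd_card_orbit S
        rw [hcard]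
        exact ⟨2, by ring⟩
      obtain ⟨e, he⟩ := card_orbit_pow S x
      have h2 : Nat.card (MulAction.orbit S x) ≤ Fintype.card X := by
        rw [← Nat.card_eq_fintype_card]
        exact Nat.card_le_card_of_injective _ Subtype.val_injective
      rw [he] at h1 h2 ⊢
      have h3 : a ≤ e := (Nat.pow_dvd_pow_iff_le_right hr.one_lt).1 h1
      have h4 : e < a + 1 := by
        by_contra hc
        push Not at hc
        have h5 : r ^ (a + 1) ≤ r ^ e := Nat.pow_le_pow_right hr.pos hc
        have h6 : 3 ≤ r := by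
          have := hr.two_le
          omega
        have h7 : 3 * r ^ a ≤ r ^ (a + 1) := by
          rw [pow_succ, mul_comm]
          exact Nat.mul_le_mul_left _ h6
        have h8 : 0 < r ^ a := pow_pos hr.pos a
        rw [hcard] at h2
        omega
      have : e = a := by omega
      rw [this]
    -- the orbit as a finset
    let Φ : Finset X := (MulAction.orbit S x0).toFinset
    have hmem : ∀ x, x ∈ Φ ↔ x ∈ MulAction.orbit S x0 := fun x => Set.mem_toFinset
    have hcardΦ : Φ.card = r ^ a := by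
      rw [← hra x0, ← Set.ncard_eq_toFinset_card', Nat.card_coe_set_eq]
    have hl0 : (l x0 : ZMod r) ≠ 0 := fun h =>
      hx0 ((ZMod.intCast_zmod_eq_zero_iff_dvd _ _).1 h)
    have hneg : -(l x0 : ZMod r) ≠ (l x0 : ZMod r) := by
      intro h
      have h2 : (2 : ZMod r) * (l x0 : ZMod r) = 0 := by
        calc (2 : ZMod r) * (l x0 : ZMod r) = (l x0 : ZMod r) + (l x0 : ZMod r) := by ring
          _ = (l x0 : ZMod r) + -(l x0 : ZMod r) := by rw [h]
          _ = 0 := by ring
      rcases mul_eq_zero.1 h2 with h3 | h3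
      · have h4 : ((2 : ℕ) : ZMod r) = 0 := by exact_mod_cast h3
        rw [ZMod.natCast_eq_zero_iff] at h4
        rcases (Nat.dvd_prime Nat.prime_two).1 h4 with h5 | h5
        · exact hr.one_lt.ne' h5
        · exact hr2 h5
      · exact hl0 h3
    have hdisj : ∀ x ∈ Φ, ι x ∉ Φ := by
      intro x hx hιx
      have h1 := horb x ((hmem x).1 hx)
      have h2 := horb _ ((hmem _).1 hιx)
      rw [hlo x, Int.cast_neg, h1] at h2
      exact hneg h2
    have hinj : Function.Injective ι := fun x y h => by rw [← hι x, h, hι y]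
    have hunion : Φ ∪ Φ.image ι = Finset.univ := by
      apply Finset.eq_univ_of_card
      rw [Finset.card_union_of_disjoint, Finset.card_image_of_injective _ hinj, hcardΦ, hcard]
      · ring
      · rw [Finset.disjoint_left]
        intro x hx hx'
        obtain ⟨y, hy, rfl⟩ := Finset.mem_image.1 hx'
        exact hdisj y hy hx
    refine ⟨Φ, fun x => ⟨fun hx => hdisj x hx, fun hx => ?_⟩, fun x hx => horb x ((hmem x).1 hx)⟩
    have h1 : x ∈ Φ ∪ Φ.image ι := by rw [hunion]; exact Finset.mem_univ x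
    rcases Finset.mem_union.1 h1 with h2 | h2
    · exact h2
    · exfalso
      obtain ⟨y, hy, rfl⟩ := Finset.mem_image.1 h2
      rw [hι] at hx
      exact hx hy

/-- **Main combinatorial theorem.** -/
theorem rel_trivial {r a : ℕ} [Fact r.Prime] [MulAction.IsPretransitive G X]
    (hcard : Fintype.card X = 2 * r ^ a) {ι : X → X} (hι : ∀ x, ι (ι x) = x)
    (hf : ∀ x, ι x ≠ x) (hG : ∀ (g : G) x, ι (g • x) = g • ι x) (u : X → ℤ)
    (hu : ∀ x, u (ι x) = - u x)
    (H : ∀ Φ : Finset X, (∀ x, x ∈ Φ ↔ ι x ∉ Φ) → ¬ (r : ℤ) ∣ ∑ x ∈ Φ, u x)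
    (m : X → ℤ) (hrel : IsRel G u m) (x : X) : m (ι x) = m x := by
  classical
  have hr : r.Prime := Fact.out
  -- odd part of the relation
  let d : X → ℤ := fun x => m x - m (ι x)
  have hdodd : IsOdd ι d := fun x => by
    show m (ι x) - m (ι (ι x)) = -(m x - m (ι x))
    rw [hι]; ring
  have hι' : Function.Bijective ι :=
    ⟨fun x y h => by rw [← hι x, h, hι y], fun x => ⟨ι x, hι x⟩⟩
  have hdrel : IsRel G u d := by
    intro g
    have h1 : ∑ x, m (ι x) * u (g • x) = - ∑ x, m x * u (g • x) := by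
      rw [← Finset.sum_neg_distrib]
      rw [← hι'.sum_comp (fun x => -(m x * u (g • x)))]
      refine Finset.sum_congr rfl fun x _ => ?_
      show m (ι x) * u (g • x) = -(m (ι x) * u (g • ι x))
      rw [← hG, hu]; ring
    show ∑ x, (m x - m (ι x)) * u (g • x) = 0
    simp only [sub_mul, Finset.sum_sub_distrib, h1, hrel g]
    ring
  -- divide by the content
  by_contra hne
  have hd : ∃ x, d x ≠ 0 := ⟨x, fun h => hne (by have : m x - m (ι x) = 0 := h; omega)⟩
  obtain ⟨y, hy⟩ := hd
  obtain ⟨d', hd', hgcd⟩ := Finset.extract_gcd d (Finset.univ_nonempty_iff.2 ⟨x⟩)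
  set c := Finset.univ.gcd d with hc
  have hc0 : c ≠ 0 := by
    intro h
    exact hy (by rw [hd' y (Finset.mem_univ _), h, zero_mul])
  have hodd' : IsOdd ι d' := fun z => by
    have h1 := hdodd z
    rw [hd' _ (Finset.mem_univ _), hd' z (Finset.mem_univ _)] at h1
    have h2 : c * (d' (ι z) + d' z) = 0 := by linear_combination h1
    rcases mul_eq_zero.1 h2 with h3 | h3
    · exact absurd h3 hc0
    · omega
  have hrel' : IsRel G u d' := fun g => by
    have h1 := hdrel g
    have h2 : ∑ x, d x * u (g • x) = c * ∑ x, d' x * u (g • x) := by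
      rw [Finset.mul_sum]
      refine Finset.sum_congr rfl fun z hz => ?_
      rw [hd' z hz]; ring
    rw [h2] at h1
    rcases mul_eq_zero.1 h1 with h3 | h3
    · exact absurd h3 hc0
    · exact h3
  refine no_primitive_rel hcard hι hf hG u hu H d' hodd' hrel' ?_
  by_contra hcon
  push Not at hcon
  have h1 : (r : ℤ) ∣ Finset.univ.gcd d' := Finset.dvd_gcd fun z _ => hcon z
  rw [hgcd] at h1
  have h2 : (r : ℤ) ≤ 1 := Int.le_of_dvd one_pos h1
  have h3 := hr.two_le
  omega

end Pool.Agent.H93Tate
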