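import Pool.Agent.H93Tate.Galois
import Pool.Agent.H93Tate.BaseChange

/-! Frobenius Tate classes in the exterior algebra are generated in degree two. -/

set_option linter.unusedSectionVars false

namespace Pool.Agent.H93Tate

open Polynomial TensorProduct ExteriorAlgebra

/-- the combinatorial hypothesis on the slopes -/
def SlopeCond (p n r : ℕ) [Fact p.Prime] (P : ℚ[X]) (D : ℤ) (u : PadicAlgCl p → ℤ) : Prop :=
  (∀ y : PadicAlgCl p, aeval y P = 0 → (u y : ℝ) = D * (2 * slope p n y - 1)) ∧
  ∀ Φ : Finset (PadicAlgCl p), (∀ y ∈ Φ, aeval y P = 0) →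
      (∀ y, aeval y P = 0 → (y ∈ Φ ↔ (p : PadicAlgCl p) ^ n / y ∉ Φ)) →
      ¬ (r : ℤ) ∣ ∑ y ∈ Φ, u y

section Closed

variable {p n r a : ℕ} [hp : Fact p.Prime] {P : ℚ[X]}

lemma root_facts (hP : Irreducible P) (hdeg : 2 < P.natDegree)
    (hweil : ∀ z : ℂ, aeval z P = 0 → ‖z‖ ^ 2 = (p : ℝ) ^ n)
    {K : Type*} [Field K] [CharZero K] [IsAlgClosed K] (x : K) (hx : aeval x P = 0) :
    x ≠ 0 ∧ (p : K) ^ n / x ≠ x := by
  let j : P.SplittingField →ₐ[ℚ] K := IsAlgClosed.lift
  have h1 := (SplittingField.splits P).image_rootSet j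
  have h2 : x ∈ P.rootSet K := mem_rootSet.2 ⟨hP.ne_zero, hx⟩
  rw [← h1] at h2
  obtain ⟨z, hz, rfl⟩ := h2
  refine ⟨?_, ?_⟩
  · intro h
    apply root_ne_zero hweil hz
    apply j.toRingHom.injective
    show j z = j 0
    have h0 : j 0 = 0 := map_zero j
    rw [h0]
    exact h
  · intro h
    apply inv_ne hP hdeg hweil hz
    apply j.toRingHom.injective
    show j ((p : P.SplittingField) ^ n / z) = j z
    rw [map_div₀, map_pow, map_natCast]
    exact h

/-- the statement over an algebraically closed coefficient field -/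
theorem tate_closed (hn : 0 < n) (hr : r.Prime) (ha : 0 < a) (hP : Irreducible P)
    (hdeg : P.natDegree = 2 * r ^ a)
    (hweil : ∀ z : ℂ, aeval z P = 0 → ‖z‖ ^ 2 = (p : ℝ) ^ n)
    (D : ℤ) (u : PadicAlgCl p → ℤ) (hu : SlopeCond p n r P D u)
    {K : Type*} [Field K] [CharZero K] [IsAlgClosed K] {W : Type*} [AddCommGroup W] [Module K W]
    [FiniteDimensional K W] (F : W →ₗ[K] W) (hF : aeval F (P.map (algebraMap ℚ K)) = 0)
    (s i : ℕ) (hs : 0 < s) (t : ExteriorAlgebra K W)
    (ht : ExteriorAlgebra.map (F ^ s) t = (((p : K) ^ n) ^ i) • t) :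
    t ∈ Algebra.adjoin K (deg2 F ((p : K) ^ n)) := by
  classical
  have hdeg2 : 2 < P.natDegree := by
    rw [hdeg]
    have h1 : r ^ 1 ≤ r ^ a := Nat.pow_le_pow_right hr.pos ha
    have h2 := hr.two_le
    rw [pow_one] at h1
    omega
  have hfacts := fun (x : K) (hx : aeval x P = 0) => root_facts (n := n) hP hdeg2 hweil x hx
  -- eigenvectors span
  have hsq : Squarefree (P.map (algebraMap ℚ K)) :=
    (Polynomial.separable_map (algebraMap ℚ K)).2 hP.separable |>.squarefree
  have hss : Module.End.IsSemisimple F := Module.End.isSemisimple_of_squarefree_aeval_eq_zero hsq hF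
  have htop := hss.iSup_eigenspace_eq_top
  have heig : ∀ (μ : K) (w : W), F w = μ • w → w ≠ 0 → aeval μ P = 0 := by
    intro μ w hw hne
    have h1 : aeval F (P.map (algebraMap ℚ K)) w = 0 := by rw [hF]; rfl
    have h2 := Module.End.aeval_apply_of_hasEigenvector (p := P.map (algebraMap ℚ K))
      (f := F) (μ := μ) (x := w) ⟨Module.End.mem_eigenspace_iff.2 hw, hne⟩
    rw [h1] at h2
    rcases smul_eq_zero.1 h2.symm with h3 | h3
    · rw [eval_map_algebraMap] at h3
      exact h3
    · exact absurd h3 hne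
  have hFs : ∀ (μ : K) (w : W), F w = μ • w → ∀ k : ℕ, (F ^ k) w = μ ^ k • w := by
    intro μ w hw k
    induction k with
    | zero => simp
    | succ k ih =>
      rw [pow_succ', Module.End.mul_apply, ih, map_smul, hw, smul_smul, pow_succ]
  have hmain := tate_gen (E := K) (R := ExteriorAlgebra K W) (Φ := ExteriorAlgebra.map F)
    (Ψ := ExteriorAlgebra.map (F ^ s)) (V := LinearMap.range (ι K (M := W)))
    (X := {x : K | aeval x P = 0}) (s := s) (ε := -1) (q := (p : K) ^ n)
    (ν := ((p : K) ^ n) ^ i) ?_ (fun x hx => (hfacts x hx).1) (fun x hx => (hfacts x hx).2) ?_ ?_ ?_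
    t ht
  · exact hmain
  · rintro _ ⟨v, rfl⟩ _ ⟨w, rfl⟩
    have h := ι_add_mul_swap (R := K) v w
    rw [neg_one_smul, eq_neg_iff_add_eq_zero]
    exact h
  · have := CliffordAlgebra.adjoin_range_ι (Q := (0 : QuadraticForm K W))
    exact this
  · rintro _ ⟨v, rfl⟩
    have hv : v ∈ ⨆ μ : K, Module.End.eigenspace F μ := by rw [htop]; trivial
    induction hv using Submodule.iSup_induction' with
    | mem μ w hw =>
      by_cases hw0 : w = 0
      · rw [hw0, map_zero]; exact Submodule.zero_mem _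
      · rw [Module.End.mem_eigenspace_iff] at hw
        apply Submodule.subset_span
        refine ⟨μ, ⟨w, rfl⟩, heig μ w hw hw0, ?_, ?_⟩
        · show ExteriorAlgebra.map F (ι K w) = μ • ι K w
          rw [map_apply_ι, hw, map_smul]
        · show ExteriorAlgebra.map (F ^ s) (ι K w) = μ ^ s • ι K w
          rw [map_apply_ι, hFs μ w hw s, map_smul]
    | zero => rw [map_zero]; exact Submodule.zero_mem _
    | add x y _ _ hx hy => rw [map_add]; exact Submodule.add_mem _ hx hy
  · intro xs hxs hprod x hx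
    exact key hn hr ha hP hdeg hweil D u hu.1 hu.2 s i hs xs hxs hprod x hx

/-- the statement over any coefficient field of characteristic zero -/
theorem tate_general (hn : 0 < n) (hr : r.Prime) (ha : 0 < a) (hP : Irreducible P)
    (hdeg : P.natDegree = 2 * r ^ a)
    (hweil : ∀ z : ℂ, aeval z P = 0 → ‖z‖ ^ 2 = (p : ℝ) ^ n)
    (D : ℤ) (u : PadicAlgCl p → ℤ) (hu : SlopeCond p n r P D u)
    {E : Type*} [Field E] [CharZero E] {V : Type*} [AddCommGroup V] [Module E V]
    [FiniteDimensional E V] (F : V →ₗ[E] V) (hF : aeval F (P.map (algebraMap ℚ E)) = 0)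
    (s i : ℕ) (hs : 0 < s) (t : ExteriorAlgebra E V)
    (ht : ExteriorAlgebra.map (F ^ s) t = (((p : E) ^ n) ^ i) • t) :
    t ∈ Algebra.adjoin E (deg2 F ((p : E) ^ n)) := by
  let K := AlgebraicClosure E
  have hcz : CharZero K := charZero_of_injective_algebraMap (algebraMap E K).injective
  apply descend K F ((p : E) ^ n) t
  rw [map_pow, map_natCast]
  have hpow : (F ^ s).baseChange K = (F.baseChange K) ^ s := by
    exact map_pow (Module.End.baseChangeHom E K V) F s
  apply tate_closed hn hr ha hP hdeg hweil D u hu (F.baseChange K) ?_ s i hs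
  · rw [← hpow, ← theta_map, ht, map_smul, ← map_natCast (algebraMap E K), ← map_pow, ← map_pow,
      algebraMap_smul]
  · have h1 : aeval (F.baseChange K) (P.map (algebraMap ℚ E)) = 0 := by
      have h2 := aeval_algHom_apply (Module.End.baseChangeHom E K V) F (P.map (algebraMap ℚ E))
      rw [hF, map_zero] at h2
      exact h2
    have h2 : P.map (algebraMap ℚ K) = (P.map (algebraMap ℚ E)).map (algebraMap E K) := by
      rw [Polynomial.map_map]
      congr 1
    rw [h2, aeval_map_algebraMap]
    exact h1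

end Closed

end Pool.Agent.H93Tate
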