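import Mathlib

/-! Tate classes on powers: definitions. -/

set_option autoImplicit false

namespace Pool.Agent.H93Tate

/-- `μ` is a multiplier of `γ` for the form `ψ`. -/
def Mult {E : Type*} [Field E] {V : Type*} [AddCommGroup V] [Module E V]
    (ψ : V →ₗ[E] V →ₗ[E] E) (γ : V ≃ₗ[E] V) (μ : E) : Prop :=
  ∀ u v, ψ (γ u) (γ v) = μ * ψ u v

/-- Every `Γ`-stable subspace has a `Γ`-stable complement. -/
def ActsSemisimply {E : Type*} [Field E] {V : Type*} [AddCommGroup V] [Module E V]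
    (Γ : Subgroup (V ≃ₗ[E] V)) : Prop :=
  ∀ W : Submodule E V, (∀ γ ∈ Γ, ∀ w ∈ W, γ w ∈ W) →
    ∃ W' : Submodule E V, (∀ γ ∈ Γ, ∀ w ∈ W', γ w ∈ W') ∧ IsCompl W W'

/-- `γ t = μ(γ) ^ i t` for all `γ` in a subgroup of finite index of `Γ`, where `Γ` acts on the
exterior algebra of `V ^ m` and `μ(γ)` is the multiplier of `γ`. -/
def TateClass {E : Type*} [Field E] {V : Type*} [AddCommGroup V] [Module E V]
    (ψ : V →ₗ[E] V →ₗ[E] E) (Γ : Subgroup (V ≃ₗ[E] V)) {m : ℕ} (i : ℕ)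
    (t : ExteriorAlgebra E (Fin m → V)) : Prop :=
  ∃ Δ : Subgroup Γ, Δ.FiniteIndex ∧ ∀ γ ∈ Δ, ∀ μ : E, Mult ψ (γ : V ≃ₗ[E] V) μ →
    ExteriorAlgebra.map (((γ : V ≃ₗ[E] V) : V →ₗ[E] V).compLeft (Fin m)) t = μ ^ i • t

end Pool.Agent.H93Tate
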