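import Pool.Agent.H93Tate.Separate

/-! Classes of conjugate pairs that are not separated by automorphisms preserving all pairs. -/

set_option linter.unusedSectionVars false

namespace Pool.Agent.H93Tate

open Polynomial

section Comb

variable {G X : Type*} [Group G] [Finite G] [Fintype X] [DecidableEq X] [MulAction G X]

/-- real valued version of `IsRel` -/
def IsRelR (G : Type*) {X : Type*} [Group G] [Fintype X] [MulAction G X] (w : X → ℝ)
    (m : X → ℤ) : Prop :=
  ∀ g : G, ∑ x, (m x : ℝ) * w (g • x) = 0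

lemma relR_translate {w : X → ℝ} {m : X → ℤ} (h : IsRelR G w m) (σ : G) :
    IsRelR G w (fun x => m (σ⁻¹ • x)) := by
  intro g
  have h1 := h (g * σ)
  rw [← h1]
  refine Finset.sum_nbij' (fun x => σ⁻¹ • x) (fun x => σ • x) ?_ ?_ ?_ ?_ ?_
  · intro x _; exact Finset.mem_univ _
  · intro x _; exact Finset.mem_univ _
  · intro x _; simp
  · intro x _; simp
  · intro x _
    show (m (σ⁻¹ • x) : ℝ) * w (g • x) = m (σ⁻¹ • x) * w ((g * σ) • σ⁻¹ • x)
    rw [smul_smul, mul_assoc, mul_inv_cancel, mul_one]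

/-- `σ` preserves every pair -/
def PresPairs (ι : X → X) (σ : G) : Prop := ∀ z, σ • z = z ∨ σ • z = ι z

/-- `x` and `y` are fixed by the same pair preserving elements -/
def SameClass (G : Type*) {X : Type*} [Group G] [MulAction G X] (ι : X → X) (x y : X) : Prop :=
  ∀ σ : G, (∀ z, σ • z = z ∨ σ • z = ι z) → (σ • x = x ↔ σ • y = y)

lemma sameClass_refl {ι : X → X} (x : X) : SameClass G ι x x := fun _ _ => Iff.rfl

lemma sameClass_symm {ι : X → X} {x y : X} (h : SameClass G ι x y) : SameClass G ι y x :=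
  fun σ hσ => (h σ hσ).symm

lemma sameClass_trans {ι : X → X} {x y z : X} (h : SameClass G ι x y) (h' : SameClass G ι y z) :
    SameClass G ι x z :=
  fun σ hσ => (h σ hσ).trans (h' σ hσ)

lemma sameClass_smul {ι : X → X} (hG : ∀ (g : G) x, ι (g • x) = g • ι x) {x y : X}
    (h : SameClass G ι x y) (g : G) : SameClass G ι (g • x) (g • y) := by
  intro σ hσ
  have h1 : ∀ z, (g⁻¹ * σ * g) • z = z ∨ (g⁻¹ * σ * g) • z = ι z := by
    intro z
    rcases hσ (g • z) with h2 | h2
    · left
      rw [mul_smul, mul_smul, h2, inv_smul_smul]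
    · right
      rw [mul_smul, mul_smul, h2, hG, inv_smul_smul]
  have h2 := h _ h1
  have h3 : ∀ z : X, (g⁻¹ * σ * g) • z = z ↔ σ • g • z = g • z := by
    intro z
    rw [mul_smul, mul_smul, inv_smul_eq_iff]
  rw [h3, h3] at h2
  exact h2

lemma sameClass_inv {ι : X → X} (hι : ∀ x, ι (ι x) = x)
    (hG : ∀ (g : G) x, ι (g • x) = g • ι x) (x : X) : SameClass G ι x (ι x) := by
  intro σ _
  rw [← hG]
  constructor
  · intro h; rw [h]
  · intro h
    have := congrArg ι h
    rwa [hι, hι] at this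

/-- reduction to relations supported on one class -/
lemma exists_class_support {ι : X → X} (hι : ∀ x, ι (ι x) = x) (hf : ∀ x, ι x ≠ x)
    (hG : ∀ (g : G) x, ι (g • x) = g • ι x) (w : X → ℝ) :
    ∀ (N : ℕ) (m : X → ℤ), (Finset.univ.filter (fun x => m x ≠ 0)).card ≤ N → IsOdd ι m →
      IsRelR G w m → ∀ x, m x ≠ 0 → ∃ m' : X → ℤ, IsOdd ι m' ∧ IsRelR G w m' ∧ m' x ≠ 0 ∧
        ∀ y, m' y ≠ 0 → SameClass G ι x y := by
  intro N
  induction N with
  | zero =>
    intro m hN _ _ x hx
    exfalso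
    have h1 : x ∈ Finset.univ.filter (fun x => m x ≠ 0) :=
      Finset.mem_filter.2 ⟨Finset.mem_univ _, hx⟩
    have h2 := Finset.card_pos.2 ⟨x, h1⟩
    omega
  | succ N ih =>
    intro m hN hodd hrel x hx
    by_cases hex : ∃ y, m y ≠ 0 ∧ ¬ SameClass G ι x y
    · obtain ⟨y, hy, hxy⟩ := hex
      obtain ⟨σ, hσ, hdiff⟩ : ∃ σ : G, (∀ z, σ • z = z ∨ σ • z = ι z) ∧
          ¬ (σ • x = x ↔ σ • y = y) := by
        by_contra hc
        apply hxy
        intro σ hσ
        by_contra hcc
        exact hc ⟨σ, hσ, hcc⟩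
      have hσinv : ∀ z, m (σ⁻¹ • z) = m z ∨ m (σ⁻¹ • z) = - m z := by
        intro z
        rcases hσ (σ⁻¹ • z) with h | h
        · rw [smul_inv_smul] at h
          left; rw [← h]
        · rw [smul_inv_smul] at h
          right
          conv_rhs => rw [h, hodd, neg_neg]
      -- value on a fixed point and on an exchanged point
      have hfix : ∀ z, σ • z = z → m (σ⁻¹ • z) = m z := by
        intro z hz
        have : σ⁻¹ • z = z := by rw [inv_smul_eq_iff, hz]
        rw [this]
      have hexc : ∀ z, σ • z ≠ z → m (σ⁻¹ • z) = - m z := by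
        intro z hz
        have h1 : σ • z = ι z := (hσ z).resolve_left hz
        have : σ⁻¹ • z = ι z := by
          rw [inv_smul_eq_iff, ← hG, h1, hι]
        rw [this, hodd]
      -- the sign with which `σ` acts on `x`
      have hgen : ∀ e : ℤ, (e = 1 ∨ e = -1) → m x + e * m (σ⁻¹ • x) ≠ 0 →
          m y + e * m (σ⁻¹ • y) = 0 → ∃ m' : X → ℤ, IsOdd ι m' ∧ IsRelR G w m' ∧ m' x ≠ 0 ∧
            ∀ y, m' y ≠ 0 → SameClass G ι x y := by
        intro e he hxe hye
        let m' : X → ℤ := fun z => m z + e * m (σ⁻¹ • z)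
        have hm'odd : IsOdd ι m' := by
          intro z
          show m (ι z) + e * m (σ⁻¹ • ι z) = -(m z + e * m (σ⁻¹ • z))
          rw [← hG, hodd, hodd]; ring
        have hm'rel : IsRelR G w m' := by
          intro g
          have h1 := hrel g
          have h2 := relR_translate hrel σ g
          have h3 : ∀ z, ((m z + e * m (σ⁻¹ • z) : ℤ) : ℝ) * w (g • z) =
              (m z : ℝ) * w (g • z) + e * ((m (σ⁻¹ • z) : ℝ) * w (g • z)) := by
            intro z; push_cast; ring
          show ∑ z, ((m z + e * m (σ⁻¹ • z) : ℤ) : ℝ) * w (g • z) = 0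
          rw [Finset.sum_congr rfl (fun z _ => h3 z), Finset.sum_add_distrib, ← Finset.mul_sum,
            h1, h2]
          ring
        have hsub : Finset.univ.filter (fun z => m' z ≠ 0) ⊂
            Finset.univ.filter (fun z => m z ≠ 0) := by
          refine ⟨?_, ?_⟩
          · intro z hz
            rw [Finset.mem_filter] at hz ⊢
            refine ⟨hz.1, fun h0 => hz.2 ?_⟩
            show m z + e * m (σ⁻¹ • z) = 0
            rcases hσinv z with h | h
            · rw [h, h0]; ring
            · rw [h, h0]; ring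
          · intro hc
            have h1 : y ∈ Finset.univ.filter (fun z => m z ≠ 0) :=
              Finset.mem_filter.2 ⟨Finset.mem_univ _, hy⟩
            have h2 := hc h1
            rw [Finset.mem_filter] at h2
            exact h2.2 hye
        have hlt := Finset.card_lt_card hsub
        exact ih m' (by omega) hm'odd hm'rel x hxe
      by_cases h1 : σ • x = x
      · have h2 : σ • y ≠ y := fun h => hdiff ⟨fun _ => h, fun _ => h1⟩
        apply hgen 1 (Or.inl rfl)
        · rw [hfix x h1]; omega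
        · rw [hexc y h2]; ring
      · have h2 : σ • y = y := by
          by_contra h
          exact hdiff ⟨fun h' => absurd h' h1, fun h' => absurd h' h⟩
        apply hgen (-1) (Or.inr rfl)
        · rw [hexc x h1]; omega
        · rw [hfix y h2]; ring
    · push Not at hex
      exact ⟨m, hodd, hrel, hx, fun y hy => hex y hy⟩

/-- **Combinatorial theorem for classes of prime power size.** -/
theorem class_trivial {r a : ℕ} [Fact r.Prime] [MulAction.IsPretransitive G X] {ι : X → X}
    (hι : ∀ x, ι (ι x) = x) (hf : ∀ x, ι x ≠ x) (hG : ∀ (g : G) x, ι (g • x) = g • ι x)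
    (w : X → ℝ) (hw : ∀ x, w (ι x) = - w x) (x₀ : X) (b : Finset X)
    (hb : ∀ y, y ∈ b ↔ SameClass G ι x₀ y) (hcard : b.card = 2 * r ^ a)
    (D : ℤ) (hD : D ≠ 0) (u : X → ℤ) (hu : ∀ y ∈ b, (u y : ℝ) = D * w y)
    (H : ∀ Φ : Finset X, Φ ⊆ b → (∀ y ∈ b, (y ∈ Φ ↔ ι y ∉ Φ)) → ¬ (r : ℤ) ∣ ∑ y ∈ Φ, u y)
    (m : X → ℤ) (hodd : IsOdd ι m) (hrel : IsRelR G w m) : ∀ x, m x = 0 := by
  classical
  intro x
  by_contra hx
  obtain ⟨m₁, h1o, h1r, h1x, h1s⟩ := exists_class_support hι hf hG w _ m le_rfl hodd hrel x hx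
  -- translate to the class of `x₀`
  obtain ⟨g₀, hg₀⟩ := MulAction.exists_smul_eq G x x₀
  let m₂ : X → ℤ := fun z => m₁ (g₀⁻¹ • z)
  have h2o : IsOdd ι m₂ := fun z => by
    show m₁ (g₀⁻¹ • ι z) = - m₁ (g₀⁻¹ • z)
    rw [← hG, h1o]
  have h2r : IsRelR G w m₂ := relR_translate h1r g₀
  have h2x : m₂ x₀ ≠ 0 := by
    show m₁ (g₀⁻¹ • x₀) ≠ 0
    rw [← hg₀, inv_smul_smul]
    exact h1x
  have h2s : ∀ y, m₂ y ≠ 0 → y ∈ b := by
    intro y hy
    rw [hb, ← hg₀]
    have h3 := sameClass_smul hG (h1s _ hy) g₀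
    rwa [smul_inv_smul] at h3
  have hx₀b : x₀ ∈ b := (hb x₀).2 (sameClass_refl x₀)
  have hιb : ∀ y ∈ b, ι y ∈ b := fun y hy =>
    (hb _).2 (sameClass_trans ((hb y).1 hy) (sameClass_inv hι hG y))
  -- the stabiliser of the class
  let K : Subgroup G :=
    { carrier := {g | ∀ y ∈ b, g • y ∈ b ∧ g⁻¹ • y ∈ b}
      one_mem' := fun y hy => by simp [hy]
      mul_mem' := by
        intro g h hg hh y hy
        refine ⟨?_, ?_⟩
        · rw [mul_smul]; exact (hg _ (hh y hy).1).1
        · rw [mul_inv_rev, mul_smul]; exact (hh _ (hg y hy).2).2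
      inv_mem' := by
        intro g hg y hy
        exact ⟨(hg y hy).2, by rw [inv_inv]; exact (hg y hy).1⟩ }
  let actK : MulAction K b :=
    { smul := fun g y => ⟨(g : G) • (y : X), (g.2 y.1 y.2).1⟩
      one_smul := fun y => Subtype.ext (one_smul G y.1)
      mul_smul := fun g h y => Subtype.ext (mul_smul (g : G) (h : G) y.1) }
  have hblock : ∀ (g : G) (y z : X), y ∈ b → z ∈ b → g • y = z → g ∈ K := by
    intro g y z hy hz hgy v hv
    have hxy := (hb y).1 hy
    have hxz := (hb z).1 hz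
    have hxv := (hb v).1 hv
    refine ⟨(hb _).2 ?_, (hb _).2 ?_⟩
    · have h3 := sameClass_smul hG (sameClass_trans (sameClass_symm hxy) hxv) g
      rw [hgy] at h3
      exact sameClass_trans hxz h3
    · have h3 := sameClass_smul hG (sameClass_trans (sameClass_symm hxz) hxv) g⁻¹
      have h4 : g⁻¹ • z = y := by rw [← hgy, inv_smul_smul]
      rw [h4] at h3
      exact sameClass_trans hxy h3
  have htr : MulAction.IsPretransitive K b := by
    refine ⟨fun y z => ?_⟩
    obtain ⟨g, hg⟩ := MulAction.exists_smul_eq G (y : X) (z : X)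
    exact ⟨⟨g, hblock g y z y.2 z.2 hg⟩, Subtype.ext hg⟩
  let ιb : b → b := fun y => ⟨ι y.1, hιb y.1 y.2⟩
  have hfin := rel_trivial (G := K) (X := b) (r := r) (a := a)
    (by rw [Fintype.card_coe, hcard]) (ι := ιb) (fun y => Subtype.ext (hι y.1))
    (fun y h => hf y.1 (congrArg Subtype.val h))
    (fun g y => Subtype.ext (hG (g : G) y.1)) (fun y => u y.1)
    (by
      intro y
      have h3 := hu y.1 y.2
      have h4 := hu (ι y.1) (hιb y.1 y.2)
      rw [hw] at h4
      have h5 : ((u (ι y.1) : ℤ) : ℝ) = ((- u y.1 : ℤ) : ℝ) := by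
        rw [h4]; push_cast; rw [h3]; ring
      exact_mod_cast h5)
    (by
      intro Φ hΦ
      have h3 := H (Φ.map ⟨Subtype.val, Subtype.val_injective⟩) ?_ ?_
      · rwa [Finset.sum_map] at h3
      · intro y hy
        obtain ⟨z, _, rfl⟩ := Finset.mem_map.1 hy
        exact z.2
      · intro y hy
        have h4 : ∀ (v : X) (hv : v ∈ b), v ∈ Φ.map ⟨Subtype.val, Subtype.val_injective⟩ ↔
            (⟨v, hv⟩ : b) ∈ Φ := by
          intro v hv
          rw [Finset.mem_map]
          constructor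
          · rintro ⟨z, hz, hzv⟩
            have : z = ⟨v, hv⟩ := Subtype.ext hzv
            rwa [← this]
          · intro h5
            exact ⟨⟨v, hv⟩, h5, rfl⟩
        rw [h4 y hy, h4 (ι y) (hιb y hy)]
        exact hΦ ⟨y, hy⟩)
    (fun y => m₂ y.1)
    (by
      intro g
      have h3 : ((∑ y : b, m₂ y.1 * u (g • y).1 : ℤ) : ℝ) = 0 := by
        push_cast
        have h4 : ∀ y : b, (m₂ y.1 : ℝ) * (u (g • y).1 : ℝ) =
            D * ((m₂ y.1 : ℝ) * w ((g : G) • y.1)) := by
          intro y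
          rw [hu (g • y).1 (g • y).2]
          show (m₂ y.1 : ℝ) * (D * w ((g : G) • y.1)) = _
          ring
        rw [Finset.sum_congr rfl (fun y _ => h4 y), ← Finset.mul_sum]
        have h5 : ∑ y : b, (m₂ y.1 : ℝ) * w ((g : G) • y.1) =
            ∑ y, (m₂ y : ℝ) * w ((g : G) • y) := by
          rw [← Finset.sum_subset (Finset.subset_univ b)]
          · exact Finset.sum_coe_sort b (fun y => (m₂ y : ℝ) * w ((g : G) • y))
          · intro y _ hy
            have : m₂ y = 0 := by
              by_contra h6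
              exact hy (h2s y h6)
            rw [this]; simp
        rw [h5, h2r (g : G), mul_zero]
      exact_mod_cast h3)
    ⟨x₀, hx₀b⟩
  have h3 : m₂ (ι x₀) = m₂ x₀ := hfin
  rw [h2o] at h3
  omega

end Comb

end Pool.Agent.H93Tate
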