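import Pool.Agent.H93Tate.FftSq
import Pool.Agent.H93Tate.CondDefs

/-!
# Maximal angle rank of products

Let `P i` be finitely many polynomials of maximal angle rank and let `L i` be the field generated by
the `N`-th powers of the complex roots of `P i`. If `L i` and `L j` meet in a real field for
`i ≠ j`, the product of the `P i` has maximal angle rank: the product of the conjugates over
`Gal (L / L i)` of (the `N`-th power of) a relation is a power of its part for `P i`, since
the product `y` of the conjugates of the `N`-th power of a root of `P j` over `Gal (L / L i)` is in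
`L i` and in `L j`, so that `y ^ 2 = |y| ^ 2` is a power of `q`.
-/

set_option autoImplicit false

namespace Pool.Agent.H93Tate

open Polynomial Pool.Agent.H91.Mono

/-- `powField` inside `L`. -/
noncomputable def powFieldL (L : IntermediateField ℚ ℂ) (N : ℕ) (P : ℚ[X]) :
    IntermediateField ℚ L :=
  IntermediateField.adjoin ℚ {z | ∃ x : L, aeval x P = 0 ∧ z = x ^ N}

variable {L : IntermediateField ℚ ℂ}

lemma aeval_coe (P : ℚ[X]) (x : L) : aeval (x : ℂ) P = ((aeval x P : L) : ℂ) :=
  aeval_algebraMap_apply ℂ x P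

lemma powFieldL_le {N : ℕ} {P : ℚ[X]} {z : L} (hz : z ∈ powFieldL L N P) :
    (z : ℂ) ∈ powField N P := by
  unfold powFieldL at hz
  induction hz using IntermediateField.adjoin_induction with
  | mem z hz =>
    obtain ⟨x, hx, rfl⟩ := hz
    refine IntermediateField.subset_adjoin ℚ _ ⟨(x : ℂ), ?_, by simp⟩
    rw [aeval_coe, hx]
    rfl
  | algebraMap r =>
    have : ((algebraMap ℚ L r : L) : ℂ) = algebraMap ℚ ℂ r := by
      simp
    rw [this]
    exact (powField N P).algebraMap_mem r
  | add x y _ _ hx hy =>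
    rw [IntermediateField.coe_add]
    exact add_mem hx hy
  | inv x _ hx =>
    rw [IntermediateField.coe_inv]
    exact inv_mem hx
  | mul x y _ _ hx hy =>
    rw [IntermediateField.coe_mul]
    exact mul_mem hx hy

lemma pow_mem_powFieldL {N : ℕ} {P : ℚ[X]} {x : L} (hx : aeval x P = 0) (g : L ≃ₐ[ℚ] L) :
    (g x) ^ N ∈ powFieldL L N P := by
  refine IntermediateField.subset_adjoin ℚ _ ⟨g x, ?_, rfl⟩
  have h1 : aeval (g x) P = g (aeval x P) := aeval_algHom_apply (g : L →ₐ[ℚ] L) x P
  rw [h1, hx, map_zero]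

lemma sq_of_real {y : ℂ} (h : starRingEnd ℂ y = y) : y ^ 2 = ((‖y‖ ^ 2 : ℝ) : ℂ) := by
  rw [← Complex.normSq_eq_norm_sq, ← Complex.mul_conj, h, pow_two]

/-- The product of the conjugates. -/
lemma avg_sq [FiniteDimensional ℚ L] [IsGalois ℚ L] {q : ℕ} {N : ℕ} (E F : IntermediateField ℚ L)
    {x : L} (hx : ∀ g : L ≃ₐ[ℚ] L, ‖((g x : L) : ℂ)‖ ^ 2 = (q : ℝ))
    (hF : ∀ g : L ≃ₐ[ℚ] L, (g x) ^ N ∈ F)
    (hreal : ∀ z : L, z ∈ E → z ∈ F → starRingEnd ℂ (z : ℂ) = z)
    (T : Finset (L ≃ₐ[ℚ] L)) (hT : ∀ g, g ∈ T ↔ g ∈ E.fixingSubgroup) :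
    (∏ g ∈ T, (g x) ^ N) ^ 2 = (q : L) ^ (N * T.card) := by
  set y : L := ∏ g ∈ T, (g x) ^ N with hy
  have hyE : y ∈ E := by
    rw [← IsGalois.fixedField_fixingSubgroup E, IntermediateField.mem_fixedField_iff]
    intro τ hτ
    rw [hy, map_prod]
    refine Finset.prod_bij (fun g _ => τ * g) ?_ ?_ ?_ ?_
    · intro g hg
      exact (hT _).2 (mul_mem hτ ((hT g).1 hg))
    · intro g _ g' _ h
      exact mul_left_cancel h
    · intro g hg
      exact ⟨τ⁻¹ * g, (hT _).2 (mul_mem (inv_mem hτ) ((hT g).1 hg)), by group⟩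
    · intro g _
      rw [map_pow]
      rfl
  have hyF : y ∈ F := prod_mem fun g _ => hF g
  have h1 := sq_of_real (hreal y hyE hyF)
  have h2 : ‖(y : ℂ)‖ ^ 2 = (q : ℝ) ^ (N * T.card) := by
    have e1 : (y : ℂ) = ∏ g ∈ T, ((g x : L) : ℂ) ^ N := by
      rw [hy]
      exact (map_prod (algebraMap L ℂ) _ _).trans (Finset.prod_congr rfl fun g _ => map_pow _ _ _)
    rw [e1, norm_prod, ← Finset.prod_pow]
    have e2 : ∀ g ∈ T, (‖((g x : L) : ℂ) ^ N‖) ^ 2 = (q : ℝ) ^ N := by
      intro g _
      rw [norm_pow, ← pow_mul, mul_comm, pow_mul, hx]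
    rw [Finset.prod_congr rfl e2, Finset.prod_const, ← pow_mul]
  apply Subtype.ext
  show ((y ^ 2 : L) : ℂ) = (((q : L) ^ (N * T.card) : L) : ℂ)
  rw [h2] at h1
  push_cast
  rw [h1]
  push_cast
  rfl

lemma key_prod [FiniteDimensional ℚ L] [IsGalois ℚ L] {q : ℕ} (hq : 1 < q) {ι : Type*}
    {P : ι → ℚ[X]} (hweil : ∀ i (z : ℂ), aeval z (P i) = 0 → ‖z‖ ^ 2 = (q : ℝ)) {N : ℕ}
    (hN : 0 < N)
    (hreal : ∀ i j, i ≠ j → ∀ z ∈ powField N (P i) ⊓ powField N (P j), starRingEnd ℂ z = z)
    {S : Multiset L} (hS : ∀ x ∈ S, ∃ j, aeval x (P j) = 0) {t : ℕ}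
    (hprod : S.prod = (q : L) ^ t) (i : ι) [DecidablePred fun x : L => aeval x (P i) = 0] :
    ∃ c, 0 < c ∧ ((2 * c) • S.filter (fun x => aeval x (P i) = 0)).prod =
      (q : L) ^ (c * (S.filter (fun x => aeval x (P i) = 0)).card) := by
  classical
  set E := powFieldL L N (P i) with hE
  set T : Finset (L ≃ₐ[ℚ] L) := Finset.univ.filter (fun g => g ∈ E.fixingSubgroup) with hTdef
  have hT : ∀ g, g ∈ T ↔ g ∈ E.fixingSubgroup := by
    intro g
    rw [hTdef, Finset.mem_filter]
    exact ⟨fun h => h.2, fun h => ⟨Finset.mem_univ _, h⟩⟩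
  have hTc : 0 < T.card := Finset.card_pos.2 ⟨1, (hT 1).2 (one_mem _)⟩
  have hgx : ∀ (j : ι) (x : L), aeval x (P j) = 0 → ∀ g : L ≃ₐ[ℚ] L,
      ‖((g x : L) : ℂ)‖ ^ 2 = (q : ℝ) := by
    intro j x hx g
    apply hweil j
    have h1 : aeval (g x) (P j) = g (aeval x (P j)) := aeval_algHom_apply (g : L →ₐ[ℚ] L) x (P j)
    rw [aeval_coe, h1, hx, map_zero]
    rfl
  have hq0 : (q : L) ≠ 0 := Nat.cast_ne_zero.2 (by omega)
  -- the number of factors
  have hcard : S.card = 2 * t := by
    have h1 : ∀ R : Multiset L, (∀ x ∈ R, ∃ j, aeval x (P j) = 0) →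
        ‖((R.prod : L) : ℂ)‖ ^ 2 = (q : ℝ) ^ R.card := by
      intro R
      induction R using Multiset.induction_on with
      | empty => intro _; simp
      | cons x R ih =>
        intro hR
        obtain ⟨j, hj⟩ := hR x (Multiset.mem_cons_self x R)
        have h2 := hgx j x hj 1
        rw [Multiset.prod_cons, IntermediateField.coe_mul, norm_mul, mul_pow,
          ih fun y hy => hR y (Multiset.mem_cons_of_mem hy), Multiset.card_cons, pow_succ, mul_comm]
        congr 1
    have h2 := h1 S hS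
    rw [hprod] at h2
    have h3 : ((((q : L) ^ t : L)) : ℂ) = (q : ℂ) ^ t := by push_cast; rfl
    rw [h3, norm_pow, Complex.norm_natCast, ← pow_mul] at h2
    have h4 : (1 : ℝ) < q := by exact_mod_cast hq
    have := pow_right_injective₀ (lt_trans one_pos h4) h4.ne' h2
    omega
  set Y : L → L := fun x => ∏ g ∈ T, (g x) ^ N with hY
  have hYA : ∀ x, aeval x (P i) = 0 → Y x = x ^ (N * T.card) := by
    intro x hx
    rw [hY]
    beta_reduce
    have h1 : ∀ g ∈ T, (g x) ^ N = x ^ N := by
      intro g hg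
      rw [← map_pow]
      have h2 : x ^ N ∈ E := pow_mem_powFieldL (N := N) hx (1 : L ≃ₐ[ℚ] L)
      exact (IntermediateField.mem_fixingSubgroup_iff E g).1 ((hT g).1 hg) _ h2
    rw [Finset.prod_congr rfl h1, Finset.prod_const, ← pow_mul]
  have hYB : ∀ x ∈ S, ¬ aeval x (P i) = 0 → Y x ^ 2 = (q : L) ^ (N * T.card) := by
    intro x hx hxi
    obtain ⟨j, hj⟩ := hS x hx
    have hij : i ≠ j := fun h => hxi (h ▸ hj)
    exact avg_sq E (powFieldL L N (P j)) (hgx j x hj) (fun g => pow_mem_powFieldL hj g)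
      (fun z hz hz' => hreal i j hij _ ⟨powFieldL_le hz, powFieldL_le hz'⟩) T hT
  have hYprod : (S.map Y).prod = (q : L) ^ (t * (N * T.card)) := by
    have h1 : (S.map Y).prod = ∏ g ∈ T, (g S.prod) ^ N := by
      have : ∀ R : Multiset L, (R.map Y).prod = ∏ g ∈ T, (g R.prod) ^ N := by
        intro R
        induction R using Multiset.induction_on with
        | empty => simp
        | cons x R ih =>
          rw [Multiset.map_cons, Multiset.prod_cons, ih, hY]
          beta_reduce
          rw [← Finset.prod_mul_distrib]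
          refine Finset.prod_congr rfl fun g _ => ?_
          rw [Multiset.prod_cons, map_mul, mul_pow]
      exact this S
    rw [h1, hprod]
    have h2 : ∀ g ∈ T, (g ((q : L) ^ t)) ^ N = (q : L) ^ (t * N) := by
      intro g _
      rw [map_pow, map_natCast, ← pow_mul]
    rw [Finset.prod_congr rfl h2, Finset.prod_const, ← pow_mul, mul_assoc]
  refine ⟨N * T.card, Nat.mul_pos hN hTc, ?_⟩
  set c := N * T.card with hc
  set A := S.filter (fun x => aeval x (P i) = 0) with hA
  set B := S.filter (fun x => ¬ aeval x (P i) = 0) with hB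
  have hAB : A + B = S := Multiset.filter_add_not _ S
  have h1 : (A.map Y).prod ^ 2 = ((2 * c) • A).prod := by
    rw [Multiset.prod_nsmul]
    have : (A.map Y) = A.map (fun x => x ^ c) := by
      refine Multiset.map_congr rfl fun x hx => ?_
      exact hYA x (Multiset.mem_filter.1 hx).2
    rw [this, Multiset.prod_map_pow, Multiset.map_id', ← pow_mul, mul_comm]
  have h2 : (B.map Y).prod ^ 2 = (q : L) ^ (c * B.card) := by
    rw [← Multiset.prod_map_pow]
    have : B.map (fun x => Y x ^ 2) = B.map (fun _ => (q : L) ^ c) := by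
      refine Multiset.map_congr rfl fun x hx => ?_
      exact hYB x (Multiset.mem_filter.1 hx).1 (Multiset.mem_filter.1 hx).2
    rw [this, Multiset.map_const', Multiset.prod_replicate, ← pow_mul]
  have h3 : (A.map Y).prod * (B.map Y).prod = (q : L) ^ (t * c) := by
    rw [← Multiset.prod_add, ← Multiset.map_add, hAB, hYprod]
  have h4 : A.card + B.card = 2 * t := by
    rw [← Multiset.card_add, hAB, hcard]
  have h5 : ((2 * c) • A).prod * (q : L) ^ (c * B.card) = (q : L) ^ (c * A.card) *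
      (q : L) ^ (c * B.card) := by
    have h6 : ((A.map Y).prod * (B.map Y).prod) ^ 2 = (q : L) ^ (c * A.card + c * B.card) := by
      rw [h3, ← pow_mul, ← mul_add, h4]
      congr 1
      ring
    rw [← h1, ← pow_add, ← h6, mul_pow, h2]
  exact mul_right_cancel₀ (pow_ne_zero _ hq0) h5

/-- The product of polynomials of maximal angle rank whose fields meet in real fields has maximal
angle rank. -/
theorem maxRank_prod {p n : ℕ} [Fact p.Prime] (hn : 0 < n) {ι : Type*} [Fintype ι] {P : ι → ℚ[X]}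
    (hsq : ∀ i, Squarefree (P i))
    (hweil : ∀ i (z : ℂ), aeval z (P i) = 0 → ‖z‖ ^ 2 = (p : ℝ) ^ n)
    (hr : ∀ i (z : ℂ), aeval z (P i) = 0 → z ^ 2 ≠ (p : ℂ) ^ n)
    (hmr : ∀ i, MaxRank ((p : ℂ) ^ n) (P i)) {N : ℕ} (hN : 0 < N)
    (hreal : ∀ i j, i ≠ j → ∀ z ∈ powField N (P i) ⊓ powField N (P j), starRingEnd ℂ z = z) :
    Squarefree (∏ i, P i) ∧ (∀ z : ℂ, aeval z (∏ i, P i) = 0 → ‖z‖ ^ 2 = (p : ℝ) ^ n) ∧
      (∀ z : ℂ, aeval z (∏ i, P i) = 0 → z ^ 2 ≠ (p : ℂ) ^ n) ∧
      MaxRank ((p : ℂ) ^ n) (∏ i, P i) := by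
  classical
  have hp1 : 1 < p := (Fact.out : p.Prime).one_lt
  have hq : 1 < p ^ n := Nat.one_lt_pow hn.ne' hp1
  have hweil' : ∀ i (z : ℂ), aeval z (P i) = 0 → ‖z‖ ^ 2 = ((p ^ n : ℕ) : ℝ) := by
    intro i z hz
    rw [hweil i z hz]
    push_cast
    rfl
  have hroot : ∀ z : ℂ, aeval z (∏ i, P i) = 0 ↔ ∃ i, aeval z (P i) = 0 := by
    intro z
    rw [map_prod, Finset.prod_eq_zero_iff]
    simp
  -- no common roots
  have hdis : ∀ i j, i ≠ j → ∀ z : ℂ, aeval z (P i) = 0 → aeval z (P j) ≠ 0 := by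
    intro i j hij z hi hj
    have h1 : z ^ N ∈ powField N (P i) ⊓ powField N (P j) :=
      ⟨IntermediateField.subset_adjoin ℚ _ ⟨z, hi, rfl⟩,
        IntermediateField.subset_adjoin ℚ _ ⟨z, hj, rfl⟩⟩
    have h2 := sq_of_real (hreal i j hij _ h1)
    have h3 := hmr i (List.replicate (2 * N) z) N
      (fun x hx => by rw [List.eq_of_mem_replicate hx]; exact hi) (by
        rw [List.prod_replicate, mul_comm, pow_mul, h2, norm_pow, ← pow_mul, mul_comm, pow_mul,
          hweil i z hi]
        push_cast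
        rfl) z hi
    rw [List.count_replicate_self] at h3
    have h4 : (p : ℂ) ^ n / z ∈ List.replicate (2 * N) z := by
      rw [← List.count_pos_iff, ← h3]
      omega
    have h5 := List.eq_of_mem_replicate h4
    have hz0 : z ≠ 0 := by
      intro h0
      have := hweil i z hi
      rw [h0, norm_zero] at this
      have hp0 : (0 : ℝ) < (p : ℝ) ^ n := by positivity
      rw [← this] at hp0
      simp at hp0
    rw [div_eq_iff hz0] at h5
    exact hr i z hi (by rw [pow_two, ← h5])
  have hcop : ∀ i j, i ≠ j → IsCoprime (P i) (P j) := by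
    intro i j hij
    rw [Polynomial.isCoprime_iff_aeval_ne_zero_of_isAlgClosed ℚ ℂ]
    intro z
    by_cases h : aeval z (P i) = 0
    · exact Or.inr (hdis i j hij z h)
    · exact Or.inl h
  refine ⟨?_, ?_, ?_, ?_⟩
  · exact Finset.squarefree_prod_of_pairwise_isCoprime (fun i _ j _ hij => (hcop i j hij).isRelPrime)
      fun i _ => hsq i
  · intro z hz
    obtain ⟨i, hi⟩ := (hroot z).1 hz
    exact hweil i z hi
  · intro z hz
    obtain ⟨i, hi⟩ := (hroot z).1 hz
    exact hr i z hi
  · intro xs t hxs hprod x hx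
    obtain ⟨i, hi⟩ := (hroot x).1 hx
    set f : ℚ[X] := ∏ i, P i with hf
    have hf0 : f ≠ 0 := Finset.prod_ne_zero_iff.2 fun i _ => (hsq i).ne_zero
    have hsp : (f.map (algebraMap ℚ ℂ)).Splits := IsAlgClosed.splits _
    have hsf : IsSplittingField ℚ (IntermediateField.adjoin ℚ (f.rootSet ℂ)) f :=
      IntermediateField.adjoin_rootSet_isSplittingField hsp
    obtain ⟨L, hfd, hgal, hL⟩ : ∃ L : IntermediateField ℚ ℂ, FiniteDimensional ℚ L ∧
        IsGalois ℚ L ∧ ∀ z : ℂ, aeval z f = 0 → z ∈ L := by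
      refine ⟨IntermediateField.adjoin ℚ (f.rootSet ℂ), ?_, ?_, ?_⟩
      · exact IsSplittingField.finiteDimensional _ f
      · have hn : Normal ℚ (IntermediateField.adjoin ℚ (f.rootSet ℂ)) :=
          Normal.of_isSplittingField f
        exact ⟨⟩
      · intro z hz
        exact IntermediateField.subset_adjoin ℚ _ (mem_rootSet.2 ⟨hf0, hz⟩)
    obtain ⟨S, hS⟩ : ∃ S : Multiset L, S.map (fun z : L => (z : ℂ)) = (xs : Multiset ℂ) := by
      have h1 : ∀ z ∈ (xs : Multiset ℂ), z ∈ L := fun z hz => hL z (hxs z (by simpa using hz))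
      refine ⟨(xs : Multiset ℂ).pmap (fun z hz => (⟨z, hz⟩ : L)) h1, ?_⟩
      rw [Multiset.map_pmap]
      exact (Multiset.pmap_eq_map _ (fun z : ℂ => z) _ h1).trans (Multiset.map_id' _)
    have hSr : ∀ z ∈ S, ∃ j, aeval z (P j) = 0 := by
      intro z hz
      have h1 : (z : ℂ) ∈ (xs : Multiset ℂ) := by
        rw [← hS]
        exact Multiset.mem_map_of_mem (fun z : L => (z : ℂ)) hz
      obtain ⟨j, hj⟩ := (hroot z).1 (hxs z (by simpa using h1))
      refine ⟨j, ?_⟩
      rw [aeval_coe] at hj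
      exact_mod_cast hj
    have hSp : S.prod = (((p ^ n : ℕ)) : L) ^ t := by
      apply Subtype.ext
      have h1 : ((S.prod : L) : ℂ) = (S.map (fun z : L => (z : ℂ))).prod :=
        map_multiset_prod (algebraMap L ℂ) S
      rw [h1, hS, Multiset.prod_coe, hprod]
      push_cast
      rfl
    obtain ⟨c, hc, hA⟩ := key_prod hq hweil' hN hreal hSr hSp i
    set A := S.filter (fun x => aeval x (P i) = 0) with hAdef
    set A' : Multiset ℂ := (xs : Multiset ℂ).filter (fun x => aeval x (P i) = 0) with hA'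
    have hAA' : A.map (fun z : L => (z : ℂ)) = A' := by
      rw [hA', ← hS, Multiset.filter_map]
      congr 1
      refine Multiset.filter_congr fun z _ => ?_
      show _ ↔ aeval (z : ℂ) (P i) = 0
      rw [aeval_coe]
      exact ⟨fun h => by rw [h]; rfl, fun h => by exact_mod_cast h⟩
    have h1 := hmr i ((2 * c) • A').toList (c * A.card) (by
      intro z hz
      rw [Multiset.mem_toList] at hz
      have := Multiset.mem_of_mem_nsmul hz
      exact (Multiset.mem_filter.1 this).2) (by
      rw [Multiset.prod_toList, ← hAA', ← Multiset.map_nsmul]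
      have h2 : (((((2 * c) • A).prod : L)) : ℂ) =
          (((2 * c) • A).map (fun z : L => (z : ℂ))).prod :=
        map_multiset_prod (algebraMap L ℂ) _
      rw [← h2, hA]
      push_cast
      rfl) x hi
    have hcnt : ∀ z : ℂ, aeval z (P i) = 0 →
        ((2 * c) • A').toList.count z = (2 * c) * xs.count z := by
      intro z hz
      rw [← Multiset.coe_count, Multiset.coe_toList, Multiset.count_nsmul, hA',
        Multiset.count_filter_of_pos (p := fun x : ℂ => aeval x (P i) = 0) hz, Multiset.coe_count]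
    have hconj : aeval ((p : ℂ) ^ n / x) (P i) = 0 := by
      have h2 : (p : ℂ) ^ n / x = starRingEnd ℂ x := by
        have hx0 : x ≠ 0 := by
          intro h0
          have := hweil i x hi
          rw [h0, norm_zero] at this
          have hp0 : (0 : ℝ) < (p : ℝ) ^ n := by positivity
          rw [← this] at hp0
          simp at hp0
        rw [div_eq_iff hx0, mul_comm, Complex.mul_conj, Complex.normSq_eq_norm_sq, hweil i x hi]
        push_cast
        rfl
      rw [h2]
      have h3 : aeval (starRingEnd ℂ x) (P i) = starRingEnd ℂ (aeval x (P i)) :=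
        aeval_algHom_apply (Complex.conjAe.toAlgHom.restrictScalars ℚ) x (P i)
      rw [h3, hi, map_zero]
    rw [hcnt x hi, hcnt _ hconj] at h1
    exact Nat.eq_of_mul_eq_mul_left (by omega) h1

end Pool.Agent.H93Tate
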