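import Pool.Agent.H93Tate.SymGen

/-! Descent of the generation statement for the symmetric algebra along an extension of
coefficient fields. -/

set_option linter.unusedSectionVars false

namespace Pool.Agent.H93Tate.Sym

open TensorProduct SymmetricAlgebra Pool.Agent.H93Tate

variable {E : Type*} [Field E] {V : Type*} [AddCommGroup V] [Module E V]
variable (K : Type*) [Field K] [Algebra E K]

/-- functoriality of the symmetric algebra -/
noncomputable def smap {E : Type*} [Field E] {V : Type*} [AddCommGroup V] [Module E V]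
    (F : V →ₗ[E] V) : SymmetricAlgebra E V →ₐ[E] SymmetricAlgebra E V :=
  SymmetricAlgebra.lift (SymmetricAlgebra.ι E V ∘ₗ F)

lemma smap_ι (F : V →ₗ[E] V) (v : V) :
    smap F (SymmetricAlgebra.ι E V v) = SymmetricAlgebra.ι E V (F v) := by
  unfold smap
  rw [SymmetricAlgebra.lift_ι_apply]
  rfl

/-- the canonical map of symmetric algebras along a field extension -/
noncomputable def theta : SymmetricAlgebra E V →ₐ[E] SymmetricAlgebra K (K ⊗[E] V) :=
  SymmetricAlgebra.lift (((SymmetricAlgebra.ι K (K ⊗[E] V)).restrictScalars E) ∘ₗ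
    ((TensorProduct.mk E K V) 1))

lemma theta_ι (v : V) : theta K (SymmetricAlgebra.ι E V v) =
    SymmetricAlgebra.ι K (K ⊗[E] V) ((1 : K) ⊗ₜ[E] v) := by
  unfold theta
  rw [SymmetricAlgebra.lift_ι_apply]
  rfl

/-- retraction of scalar extension -/
noncomputable def eta : SymmetricAlgebra K (K ⊗[E] V) →ₐ[K] K ⊗[E] SymmetricAlgebra E V :=
  SymmetricAlgebra.lift ((SymmetricAlgebra.ι E V).baseChange K)

lemma eta_theta (t : SymmetricAlgebra E V) : eta K (theta K t) = (1 : K) ⊗ₜ[E] t := by
  have h : ((eta (V := V) K).restrictScalars E).comp (theta K) =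
      (Algebra.TensorProduct.includeRight :
        SymmetricAlgebra E V →ₐ[E] K ⊗[E] SymmetricAlgebra E V) := by
    apply SymmetricAlgebra.algHom_ext
    ext v
    show eta K (theta K (SymmetricAlgebra.ι E V v)) = (1 : K) ⊗ₜ[E] (SymmetricAlgebra.ι E V v)
    rw [theta_ι]
    unfold eta
    rw [SymmetricAlgebra.lift_ι_apply, LinearMap.baseChange_tmul]
  exact congrArg (fun f => f t) h

/-- elements of a scalar extension whose coordinates over a family of independent scalars are
determined -/
lemma indep_theta {κ : Type*} (a : κ → K) (ha : LinearIndependent E a) (s : Finset κ)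
    (t : κ → SymmetricAlgebra E V) (h : ∑ i ∈ s, a i • theta K (t i) = 0) :
    ∀ i ∈ s, t i = 0 := by
  have h1 : ∑ i ∈ s, a i ⊗ₜ[E] t i = (0 : K ⊗[E] SymmetricAlgebra E V) := by
    have h2 : eta K (∑ i ∈ s, a i • theta K (t i)) = 0 := by rw [h, map_zero]
    rw [map_sum] at h2
    rw [← h2]
    refine Finset.sum_congr rfl fun i _ => ?_
    rw [map_smul, eta_theta, TensorProduct.smul_tmul', smul_eq_mul, mul_one]
  intro i hi
  rw [← Module.forall_dual_apply_eq_zero_iff E]
  intro f
  have h3 := congrArg (fun z => TensorProduct.rid E K (f.lTensor K z)) h1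
  simp only [map_sum, LinearMap.lTensor_tmul, TensorProduct.rid_tmul, map_zero] at h3
  exact linearIndependent_iff'.1 ha s (fun j => f (t j)) h3 i hi

/-- the `K`-span of the image of an `E`-submodule -/
lemma exists_basis_repr (W : Submodule E (SymmetricAlgebra E V)) {κ : Type*}
    (b : Module.Basis κ E K) (z : SymmetricAlgebra K (K ⊗[E] V))
    (hz : z ∈ Submodule.span K (theta K '' (W : Set (SymmetricAlgebra E V)))) :
    ∃ (s : Finset κ) (t : κ → SymmetricAlgebra E V), (∀ i, t i ∈ W) ∧
      z = ∑ i ∈ s, b i • theta K (t i) := by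
  classical
  induction hz using Submodule.span_induction with
  | mem x hx =>
    obtain ⟨w, hw, rfl⟩ := hx
    refine ⟨(b.repr 1).support, fun i => b.repr 1 i • w, fun i => W.smul_mem _ hw, ?_⟩
    have h1 : (1 : K) = ∑ i ∈ (b.repr 1).support, b.repr 1 i • b i := by
      conv_lhs => rw [← b.linearCombination_repr 1]
      rfl
    calc theta K w = (1 : K) • theta K w := (one_smul _ _).symm
      _ = (∑ i ∈ (b.repr 1).support, b.repr 1 i • b i) • theta K w := by rw [← h1]
      _ = _ := by
        rw [Finset.sum_smul]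
        refine Finset.sum_congr rfl fun i _ => ?_
        rw [map_smul, smul_assoc, smul_comm]
  | zero => exact ⟨∅, fun _ => 0, fun _ => W.zero_mem, by simp⟩
  | add x y _ _ hx hy =>
    obtain ⟨s₁, t₁, h₁, rfl⟩ := hx
    obtain ⟨s₂, t₂, h₂, rfl⟩ := hy
    refine ⟨s₁ ∪ s₂, fun i => (if i ∈ s₁ then t₁ i else 0) + (if i ∈ s₂ then t₂ i else 0),
      fun i => W.add_mem ?_ ?_, ?_⟩
    · split
      · exact h₁ i
      · exact W.zero_mem
    · split
      · exact h₂ i
      · exact W.zero_mem
    · simp only [map_add, smul_add, Finset.sum_add_distrib]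
      congr 1
      · rw [← Finset.sum_subset Finset.subset_union_left]
        · refine Finset.sum_congr rfl fun i hi => ?_
          rw [if_pos hi]
        · intro i _ hi
          rw [if_neg hi, map_zero, smul_zero]
      · rw [← Finset.sum_subset Finset.subset_union_right]
        · refine Finset.sum_congr rfl fun i hi => ?_
          rw [if_pos hi]
        · intro i _ hi
          rw [if_neg hi, map_zero, smul_zero]
  | smul a x _ hx =>
    obtain ⟨s₁, t₁, h₁, rfl⟩ := hx
    -- multiply by `a` and expand again in the basis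
    have h2 : ∀ i, ∃ (s : Finset κ) (c : κ → E), a * b i = ∑ j ∈ s, c j • b j := by
      intro i
      refine ⟨(b.repr (a * b i)).support, fun j => b.repr (a * b i) j, ?_⟩
      conv_lhs => rw [← b.linearCombination_repr (a * b i)]
      rfl
    choose S c hc using h2
    refine ⟨s₁.biUnion S, fun j => ∑ i ∈ s₁, (if j ∈ S i then c i j else 0) • t₁ i,
      fun j => W.sum_mem fun i _ => W.smul_mem _ (h₁ i), ?_⟩
    simp only [map_sum, map_smul, Finset.smul_sum]
    rw [Finset.sum_comm]
    refine Finset.sum_congr rfl fun i hi => ?_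
    rw [← mul_smul, hc, Finset.sum_smul]
    rw [← Finset.sum_subset (Finset.subset_biUnion_of_mem S hi)]
    · refine Finset.sum_congr rfl fun j hj => ?_
      rw [if_pos hj, smul_assoc, smul_comm]
    · intro j _ hj
      rw [if_neg hj, zero_smul, smul_zero]

lemma theta_map (F : V →ₗ[E] V) (t : SymmetricAlgebra E V) :
    theta K (smap F t) = smap (F.baseChange K) (theta K t) := by
  have h : (theta (V := V) K).comp (smap F) =
      ((smap (F.baseChange K)).restrictScalars E).comp (theta K) := by
    apply SymmetricAlgebra.algHom_ext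
    ext v
    show theta K (smap F (SymmetricAlgebra.ι E V v)) =
      smap (F.baseChange K) (theta K (SymmetricAlgebra.ι E V v))
    rw [smap_ι, theta_ι, theta_ι, smap_ι, LinearMap.baseChange_tmul]
  exact congrArg (fun f => f t) h

lemma range_le : LinearMap.range (SymmetricAlgebra.ι K (K ⊗[E] V)) ≤
    Submodule.span K (theta K '' (LinearMap.range (SymmetricAlgebra.ι E V) :
      Set (SymmetricAlgebra E V))) := by
  rintro _ ⟨x, rfl⟩
  induction x using TensorProduct.induction_on with
  | zero => rw [map_zero]; exact Submodule.zero_mem _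
  | add x y hx hy => rw [map_add]; exact Submodule.add_mem _ hx hy
  | tmul a v =>
    have h : (a ⊗ₜ[E] v : K ⊗[E] V) = a • ((1 : K) ⊗ₜ[E] v) := by
      rw [TensorProduct.smul_tmul', smul_eq_mul, mul_one]
    rw [h, map_smul, ← theta_ι]
    exact Submodule.smul_mem _ _ (Submodule.subset_span ⟨SymmetricAlgebra.ι E V v, ⟨v, rfl⟩, rfl⟩)

lemma ext2_le : (LinearMap.range (SymmetricAlgebra.ι K (K ⊗[E] V)) ^ 2) ≤
    Submodule.span K (theta K '' ((LinearMap.range (SymmetricAlgebra.ι E V) ^ 2 :
      Submodule E (SymmetricAlgebra E V)) : Set (SymmetricAlgebra E V))) := by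
  rw [pow_two]
  refine le_trans (mul_le_mul' (range_le K) (range_le K)) ?_
  rw [Submodule.span_mul_span]
  refine Submodule.span_mono ?_
  rintro _ ⟨_, ⟨x, hx, rfl⟩, _, ⟨y, hy, rfl⟩, rfl⟩
  refine ⟨x * y, ?_, map_mul _ _ _⟩
  show x * y ∈ LinearMap.range (SymmetricAlgebra.ι E V) ^ 2
  rw [pow_two]
  exact Submodule.mul_mem_mul hx hy

/-- classes in a subspace on which the Frobenius acts by a scalar descend -/
lemma part_le (F : V →ₗ[E] V) (q : E) (W : Submodule E (SymmetricAlgebra E V))
    (W' : Submodule K (SymmetricAlgebra K (K ⊗[E] V)))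
    (hW : W' ≤ Submodule.span K (theta K '' (W : Set (SymmetricAlgebra E V))))
    (z : SymmetricAlgebra K (K ⊗[E] V)) (hz : z ∈ W')
    (hz2 : smap (F.baseChange K) z = algebraMap E K q • z) :
    z ∈ Submodule.span K (theta K '' {c | c ∈ W ∧ smap F c = q • c}) := by
  let b := Module.Basis.ofVectorSpace E K
  obtain ⟨s, t, ht, rfl⟩ := exists_basis_repr K _ b z (hW hz)
  have h1 : ∑ i ∈ s, b i • theta K (smap F (t i) - q • t i) = 0 := by
    have h2 : ∀ i, b i • theta K (smap F (t i) - q • t i) =
        smap (F.baseChange K) (b i • theta K (t i)) -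
          algebraMap E K q • (b i • theta K (t i)) := by
      intro i
      rw [map_sub, theta_map, map_smul, smul_sub, map_smul, algebraMap_smul, smul_comm]
    rw [Finset.sum_congr rfl (fun i _ => h2 i), Finset.sum_sub_distrib, ← map_sum,
      ← Finset.smul_sum, hz2, sub_self]
  have h3 := indep_theta K b b.linearIndependent s _ h1
  refine Submodule.sum_mem _ fun i hi => Submodule.smul_mem _ _ (Submodule.subset_span ?_)
  exact ⟨t i, ⟨ht i, sub_eq_zero.1 (h3 i hi)⟩, rfl⟩

lemma gen12_le (F : V →ₗ[E] V) (ρ q : E) :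
    gen12 (smap (F.baseChange K)) (LinearMap.range (SymmetricAlgebra.ι K (K ⊗[E] V)))
      (algebraMap E K ρ) (algebraMap E K q) ⊆
      Submodule.span K (theta K '' (gen12 (smap F) (LinearMap.range (SymmetricAlgebra.ι E V))
        ρ q)) := by
  rintro z (⟨hz, hz2⟩ | ⟨hz, hz2⟩)
  · have h := part_le K F ρ (LinearMap.range (SymmetricAlgebra.ι E V)) _ (range_le K) z hz hz2
    exact Submodule.span_mono (Set.image_mono fun c hc => Or.inl hc) h
  · have h := part_le K F q (LinearMap.range (SymmetricAlgebra.ι E V) ^ 2) _ (ext2_le K) z hz hz2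
    exact Submodule.span_mono (Set.image_mono fun c hc => Or.inr hc) h

lemma adjoin_le_span (G : Set (SymmetricAlgebra E V)) (G' : Set (SymmetricAlgebra K (K ⊗[E] V)))
    (hG : G' ⊆ Submodule.span K (theta K '' G)) :
    (Algebra.adjoin K G' : Set (SymmetricAlgebra K (K ⊗[E] V))) ⊆
    Submodule.span K (theta K '' (Algebra.adjoin E G : Set (SymmetricAlgebra E V))) := by
  set B : Subalgebra E (SymmetricAlgebra E V) := Algebra.adjoin E G with hB
  -- the span is the adjoined algebra
  have h1 : Submodule.span K (theta K '' (B : Set (SymmetricAlgebra E V))) =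
      Subalgebra.toSubmodule (Algebra.adjoin K (theta K '' (B : Set (SymmetricAlgebra E V)))) := by
    rw [Algebra.adjoin_eq_span]
    congr 1
    have h2 : theta K '' (B : Set (SymmetricAlgebra E V)) =
        ((B.toSubmonoid.map (theta (V := V) K).toRingHom.toMonoidHom :
          Submonoid (SymmetricAlgebra K (K ⊗[E] V))) : Set (SymmetricAlgebra K (K ⊗[E] V))) := rfl
    rw [h2, Submonoid.closure_eq]
  rw [h1]
  have h3 : Algebra.adjoin K G' ≤
      Algebra.adjoin K (theta K '' (B : Set (SymmetricAlgebra E V))) := by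
    apply Algebra.adjoin_le
    intro z hz
    have h4 := hG hz
    have h5 : Submodule.span K (theta K '' G) ≤ Subalgebra.toSubmodule
        (Algebra.adjoin K (theta K '' (B : Set (SymmetricAlgebra E V)))) := by
      refine Submodule.span_le.2 ?_
      rintro _ ⟨w, hw, rfl⟩
      exact Algebra.subset_adjoin ⟨w, Algebra.subset_adjoin hw, rfl⟩
    exact h5 h4
  exact h3

/-- **Descent.** -/
theorem descend (G : Set (SymmetricAlgebra E V)) (G' : Set (SymmetricAlgebra K (K ⊗[E] V)))
    (hG : G' ⊆ Submodule.span K (theta K '' G)) (t : SymmetricAlgebra E V)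
    (h : theta K t ∈ Algebra.adjoin K G') : t ∈ Algebra.adjoin E G := by
  set B : Subalgebra E (SymmetricAlgebra E V) := Algebra.adjoin E G with hB
  let b := Module.Basis.ofVectorSpace E K
  obtain ⟨s, w, hw, hsum⟩ := exists_basis_repr K (Subalgebra.toSubmodule B) b _
    (adjoin_le_span K G G' hG h)
  by_contra hne
  obtain ⟨f, hf, hker⟩ := Submodule.exists_le_ker_of_notMem (p := Subalgebra.toSubmodule B) hne
  have h1 := congrArg (fun z => TensorProduct.rid E K (f.lTensor K (eta K z))) hsum
  simp only [map_sum, map_smul, eta_theta] at h1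
  simp only [LinearMap.lTensor_tmul, TensorProduct.smul_tmul', smul_eq_mul, mul_one,
    TensorProduct.rid_tmul] at h1
  rw [Finset.sum_eq_zero] at h1
  · have h2 : algebraMap E K (f t) = 0 := by
      rw [Algebra.algebraMap_eq_smul_one]; exact h1
    exact hf ((map_eq_zero _).1 h2)
  · intro i _
    rw [show f (w i) = 0 from hker (hw i), zero_smul]

end Pool.Agent.H93Tate.Sym
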