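import Pool.Agent.H93Tate.Ext

/-! Generation of Tate classes in degrees one and two, abstract form. -/

set_option linter.unusedSectionVars false

namespace Pool.Agent.H93Tate

open Submodule

variable {E R : Type*} [Field E] [Ring R] [Algebra E R]

/-- the generators in degrees one and two -/
def gen12 (Φ : R →ₐ[E] R) (V : Submodule E R) (ρ q : E) : Set R :=
  {c : R | (c ∈ V ∧ Φ c = ρ • c) ∨ (c ∈ V ^ 2 ∧ Φ c = q • c)}

/-- balanced monomials are products of Tate classes of degrees one and two -/
lemma balanced_mem12 [DecidableEq E] {Φ Ψ : R →ₐ[E] R} {V : Submodule E R} {X : Set E} {s : ℕ}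
    {ε q ρ : E}
    (hcomm : ∀ v ∈ V, ∀ w ∈ V, v * w = ε • (w * v))
    (hX0 : ∀ x ∈ X, x ≠ 0) (hρ0 : ρ ≠ 0) (hρ : ρ * ρ = q)
    (hXne : ∀ x ∈ X, q / x ≠ x) :
    ∀ (n : ℕ) (L : List (R × E)), L.length ≤ n →
      (∀ c ∈ L, EigPair Φ Ψ V (insert ρ X) s c) →
      (∀ x ∈ X, (L.map Prod.snd).count x = (L.map Prod.snd).count (q / x)) →
      (L.map Prod.fst).prod ∈ Algebra.adjoin E (gen12 Φ V ρ q) := by
  intro n
  have hq0 : q ≠ 0 := by rw [← hρ]; exact mul_ne_zero hρ0 hρ0
  have hY0 : ∀ y ∈ insert ρ X, y ≠ 0 := by
    rintro y (rfl | hy)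
    · exact hρ0
    · exact hX0 y hy
  induction n with
  | zero =>
    intro L hn _ _
    have : L = [] := List.length_eq_zero_iff.1 (Nat.le_zero.1 hn)
    subst this
    simp
  | succ n ih =>
    intro L hn hL hbal
    match L, hn, hL, hbal with
    | [], _, _, _ => simp
    | (v, x) :: L', hn, hL, hbal =>
      have hv := hL (v, x) List.mem_cons_self
      by_cases hx : x ∈ X
      · have hq : q / x ≠ x := hXne x hx
        have h1 := hbal x hx
        have h2 : (L'.map Prod.snd).count (q / x) ≠ 0 := by
          rw [List.map_cons, List.count_cons_self, List.count_cons_of_ne hq.symm] at h1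
          omega
        have h3 : q / x ∈ L'.map Prod.snd := by
          by_contra hc
          exact h2 (List.count_eq_zero_of_not_mem hc)
        obtain ⟨⟨w, y⟩, hw, hy⟩ := List.mem_map.1 h3
        have hy' : y = q / x := hy
        obtain ⟨A, B, hAB⟩ := List.append_of_mem hw
        subst hAB
        have hwp := hL (w, y) (List.mem_cons_of_mem _ hw)
        have hAV : ∀ a ∈ A.map Prod.fst, a ∈ V := by
          intro a ha
          obtain ⟨c, hc, rfl⟩ := List.mem_map.1 ha
          exact (hL c (List.mem_cons_of_mem _ (List.mem_append_left _ hc))).1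
        obtain ⟨δ, hδ⟩ := prod_mul_comm hcomm (A.map Prod.fst) hAV w hwp.1
        have hprod : (((v, x) :: (A ++ (w, y) :: B)).map Prod.fst).prod
            = δ • ((v * w) * ((A ++ B).map Prod.fst).prod) := by
          simp only [List.map_cons, List.map_append, List.prod_cons, List.prod_append]
          rw [← mul_assoc (A.map Prod.fst).prod w, hδ, smul_mul_assoc, mul_smul_comm]
          simp only [mul_assoc]
        rw [hprod]
        refine Subalgebra.smul_mem _ (Subalgebra.mul_mem _ ?_ ?_) _
        · apply Algebra.subset_adjoin
          refine Or.inr ⟨?_, ?_⟩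
          · rw [pow_two]
            exact Submodule.mul_mem_mul hv.1 hwp.1
          · rw [map_mul, hv.2.2.1, hwp.2.2.1, smul_mul_smul_comm]
            show (x * y) • (v * w) = q • (v * w)
            rw [hy', mul_div_cancel₀ q (hX0 x hx)]
        · apply ih (A ++ B)
          · simp only [List.length_cons, List.length_append] at hn ⊢
            omega
          · intro c hc
            apply hL c
            apply List.mem_cons_of_mem
            rcases List.mem_append.1 hc with h | h
            · exact List.mem_append_left _ h
            · exact List.mem_append_right _ (List.mem_cons_of_mem _ h)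
          · intro z hz
            have h4 := hbal z hz
            simp only [List.map_cons, List.map_append, List.count_cons, List.count_append] at h4 ⊢
            -- the pair `x`, `q / x` is removed
            have hx0 := hX0 x hx
            have hz0 := hX0 z hz
            have h5 : (x == z) = (y == q / z) := by
              rw [Bool.eq_iff_iff, beq_iff_eq, beq_iff_eq, hy']
              constructor
              · intro h; rw [h]
              · intro h
                rw [div_eq_div_iff hx0 hz0] at h
                exact (mul_left_cancel₀ hq0 h).symm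
            have h6 : (y == z) = (x == q / z) := by
              rw [Bool.eq_iff_iff, beq_iff_eq, beq_iff_eq, hy']
              rw [div_eq_iff hx0, eq_div_iff hz0]
              constructor
              · intro h; rw [h, mul_comm]
              · intro h; rw [← h, mul_comm]
            rw [h5, h6] at h4
            omega
      · have hxρ : x = ρ := by
          rcases hv.2.1 with h | h
          · exact h
          · exact absurd h hx
        rw [List.map_cons, List.prod_cons]
        refine Subalgebra.mul_mem _ ?_ ?_
        · apply Algebra.subset_adjoin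
          refine Or.inl ⟨hv.1, ?_⟩
          rw [hv.2.2.1, ← hxρ]
        · apply ih L'
          · simp only [List.length_cons] at hn
            omega
          · intro c hc
            exact hL c (List.mem_cons_of_mem _ hc)
          · intro z hz
            have h4 := hbal z hz
            rw [List.map_cons, List.count_cons_of_ne, List.count_cons_of_ne] at h4
            · exact h4
            · show x ≠ q / z
              intro h
              apply hx
              have hz0 := hX0 z hz
              have h5 : z = x := by
                rw [eq_div_iff hz0, hxρ, ← hρ] at h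
                rw [hxρ]
                exact mul_left_cancel₀ hρ0 h
              rw [← h5]; exact hz
            · show x ≠ z
              intro h
              rw [h] at hx
              exact hx hz

/-- **Abstract generation theorem in degrees one and two.** -/
theorem tate_gen12 [DecidableEq E] {Φ Ψ : R →ₐ[E] R} {V : Submodule E R} {X : Set E} {s : ℕ}
    {ε q ν ρ : E}
    (hcomm : ∀ v ∈ V, ∀ w ∈ V, v * w = ε • (w * v))
    (hX0 : ∀ x ∈ X, x ≠ 0) (hρ0 : ρ ≠ 0) (hρ : ρ * ρ = q) (hXne : ∀ x ∈ X, q / x ≠ x)
    (htop : Algebra.adjoin E (V : Set R) = ⊤)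
    (hspan : V ≤ span E {v : R | ∃ x, EigPair Φ Ψ V (insert ρ X) s (v, x)})
    (key : ∀ xs : List E, (∀ x ∈ xs, x ∈ insert ρ X) → xs.prod ^ s = ν →
      ∀ x ∈ X, xs.count x = xs.count (q / x))
    (t : R) (ht : Ψ t = ν • t) :
    t ∈ Algebra.adjoin E (gen12 Φ V ρ q) := by
  classical
  let f : Module.End E R := Ψ.toLinearMap
  let A : E → Submodule E R := fun μ => span E {m : R | ∃ L : List (R × E),
    (∀ c ∈ L, EigPair Φ Ψ V (insert ρ X) s c) ∧ ((L.map Prod.snd).prod) ^ s = μ ∧
      (L.map Prod.fst).prod = m}
  have hA : ∀ μ, A μ ≤ f.eigenspace μ := by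
    intro μ
    refine span_le.2 ?_
    rintro m ⟨L, hL, hμ, rfl⟩
    rw [SetLike.mem_coe, Module.End.mem_eigenspace_iff]
    show Ψ _ = _
    rw [map_prod_list L hL, hμ]
  have hAtop : ⨆ μ, A μ = ⊤ := by
    rw [eq_top_iff]
    have h1 : (⊤ : Submodule E R) = Subalgebra.toSubmodule
        (Algebra.adjoin E {v : R | ∃ x, EigPair Φ Ψ V (insert ρ X) s (v, x)}) := by
      symm
      rw [← Algebra.top_toSubmodule]
      congr 1
      rw [eq_top_iff, ← htop]
      apply Algebra.adjoin_le
      intro v hv
      have h2 := hspan hv
      exact (span_le.2 (fun w hw => Algebra.subset_adjoin hw) :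
        span E {v : R | ∃ x, EigPair Φ Ψ V (insert ρ X) s (v, x)} ≤ Subalgebra.toSubmodule
          (Algebra.adjoin E {v : R | ∃ x, EigPair Φ Ψ V (insert ρ X) s (v, x)})) h2
    rw [h1, Algebra.adjoin_eq_span]
    refine span_le.2 ?_
    intro m hm
    obtain ⟨l, hl, rfl⟩ := Submonoid.exists_list_of_mem_closure hm
    -- attach eigenvalues
    obtain ⟨L, hL, hLl⟩ : ∃ L : List (R × E), (∀ c ∈ L, EigPair Φ Ψ V (insert ρ X) s c) ∧
        L.map Prod.fst = l := by
      clear hm
      induction l with
      | nil => exact ⟨[], by simp, rfl⟩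
      | cons a l ih =>
        obtain ⟨L, hL, h⟩ := ih (fun b hb => hl b (List.mem_cons_of_mem _ hb))
        obtain ⟨x, hx⟩ := hl a List.mem_cons_self
        refine ⟨(a, x) :: L, ?_, by simp [h]⟩
        intro c hc
        rcases List.mem_cons.1 hc with rfl | h'
        · exact hx
        · exact hL c h'
    apply Submodule.mem_iSup_of_mem (((L.map Prod.snd).prod) ^ s)
    apply subset_span
    exact ⟨L, hL, rfl, by rw [hLl]⟩
  have hmem : t ∈ A ν := by
    apply eq_of_iSup_eq_top A (fun μ => f.eigenspace μ) (Module.End.eigenspaces_iSupIndep f) hA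
      hAtop ν
    rw [Module.End.mem_eigenspace_iff]
    exact ht
  have hle : A ν ≤ Subalgebra.toSubmodule (Algebra.adjoin E (gen12 Φ V ρ q)) := by
    refine span_le.2 ?_
    rintro m ⟨L, hL, hμ, rfl⟩
    refine balanced_mem12 hcomm hX0 hρ0 hρ hXne L.length L le_rfl hL ?_
    refine key _ ?_ hμ
    intro x hx
    obtain ⟨c, hc, rfl⟩ := List.mem_map.1 hx
    exact (hL c hc).2.1
  exact hle hmem

end Pool.Agent.H93Tate
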