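import Pool.Agent.H93Tate.SymBase
import Pool.Agent.H93Tate.Main

/-! Frobenius Tate classes in the symmetric algebra are generated in degrees one and two. -/

set_option linter.unusedSectionVars false

namespace Pool.Agent.H93Tate.Sym

open Polynomial TensorProduct Pool.Agent.H93Tate

section Key

/-- relations which may also involve the square root `ρ` of `q` -/
theorem key12 {E : Type*} [Field E] [DecidableEq E] {X : Set E} {ρ q : E} (hρ0 : ρ ≠ 0)
    (hρ : ρ * ρ = q) (hX0 : ∀ x ∈ X, x ≠ 0) (hXinv : ∀ x ∈ X, q / x ∈ X)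
    (hXne : ∀ x ∈ X, q / x ≠ x) (hne : X.Nonempty) (s T : ℕ)
    (KEY : ∀ xs : List E, (∀ x ∈ xs, x ∈ X) → xs.prod ^ s = q ^ T →
      ∀ x ∈ X, xs.count x = xs.count (q / x))
    (xs : List E) (hxs : ∀ x ∈ xs, x ∈ insert ρ X) (h : xs.prod ^ s = ρ ^ T) :
    ∀ x ∈ X, xs.count x = xs.count (q / x) := by
  intro x hx
  obtain ⟨x₀, hx₀⟩ := hne
  have hq0 : q ≠ 0 := by rw [← hρ]; exact mul_ne_zero hρ0 hρ0
  have hρX : ρ ∉ X := by
    intro h1
    apply hXne ρ h1
    rw [← hρ, mul_div_cancel_right₀ _ hρ0]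
  -- split off the elements equal to `ρ`
  have hsplit : ∀ l : List E, l.prod = ρ ^ (l.count ρ) * (l.filter (fun y => y ≠ ρ)).prod := by
    intro l
    induction l with
    | nil => simp
    | cons a l ih =>
      by_cases ha : a = ρ
      · rw [List.prod_cons, ih, ha, List.count_cons_self, List.filter_cons_of_neg (by simp),
          pow_succ]
        ring
      · rw [List.prod_cons, ih, List.count_cons_of_ne ha, List.filter_cons_of_pos (by simpa using ha),
          List.prod_cons]
        ring
  set ys := xs.filter (fun y => y ≠ ρ) with hys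
  set N := xs.count ρ with hN
  have hysX : ∀ y ∈ ys, y ∈ X := by
    intro y hy
    rw [hys, List.mem_filter] at hy
    rcases hxs y hy.1 with h1 | h1
    · exact absurd h1 (by simpa using hy.2)
    · exact h1
  have hcount : ∀ z ∈ X, xs.count z = ys.count z := by
    intro z hz
    rw [hys, List.count_filter]
    rw [decide_eq_true_eq]
    intro h1
    exact hρX (h1 ▸ hz)
  let zs := ys ++ ys ++ List.replicate N x₀ ++ List.replicate N (q / x₀)
  have hzsX : ∀ z ∈ zs, z ∈ X := by
    intro z hz
    simp only [zs, List.mem_append, List.mem_replicate] at hz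
    rcases hz with ((h1 | h1) | ⟨_, h1⟩) | ⟨_, h1⟩
    · exact hysX z h1
    · exact hysX z h1
    · rw [h1]; exact hx₀
    · rw [h1]; exact hXinv _ hx₀
  have hzsprod : zs.prod = xs.prod ^ 2 := by
    have h1 : x₀ ^ N * (q / x₀) ^ N = ρ ^ N * ρ ^ N := by
      rw [← mul_pow, ← mul_pow, mul_div_cancel₀ q (hX0 _ hx₀), hρ]
    simp only [zs, List.prod_append, List.prod_replicate]
    rw [hsplit xs, ← hys, ← hN]
    linear_combination (ys.prod * ys.prod) * h1
  have hrel : zs.prod ^ s = q ^ T := by
    rw [hzsprod, ← pow_mul, mul_comm 2 s, pow_mul, h, ← pow_mul, mul_comm T 2, pow_mul, pow_two, hρ]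
  have h1 := KEY zs hzsX hrel x hx
  simp only [zs, List.count_append, List.count_replicate] at h1
  have hx0 := hX0 x hx
  have hx00 := hX0 x₀ hx₀
  have e1 : (x₀ == x) = (q / x₀ == q / x) := by
    rw [Bool.eq_iff_iff, beq_iff_eq, beq_iff_eq]
    constructor
    · intro h2; rw [h2]
    · intro h2
      rw [div_eq_div_iff hx00 hx0] at h2
      exact (mul_left_cancel₀ hq0 h2).symm
  have e2 : (q / x₀ == x) = (x₀ == q / x) := by
    rw [Bool.eq_iff_iff, beq_iff_eq, beq_iff_eq, div_eq_iff hx00, eq_div_iff hx0]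
    constructor
    · intro h2; rw [h2, mul_comm]
    · intro h2; rw [← h2, mul_comm]
  rw [hcount x hx, hcount (q / x) (hXinv x hx)]
  rw [e1, e2] at h1
  omega

end Key

section Closed

variable {p c : ℕ} [hp : Fact p.Prime] {P : ℚ[X]}

lemma coprime_lin (hP : Irreducible P) (hdeg : 2 < P.natDegree) (a : ℚ) :
    IsCoprime (X - C a) P := by
  rw [(irreducible_X_sub_C a).coprime_iff_not_dvd]
  rintro ⟨Q, hQ⟩
  rcases hP.isUnit_or_isUnit hQ with h | h
  · exact (irreducible_X_sub_C a).not_isUnit h
  · have h1 : P.natDegree = (X - C a).natDegree + Q.natDegree := by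
      rw [hQ, natDegree_mul (irreducible_X_sub_C a).ne_zero h.ne_zero]
    rw [natDegree_X_sub_C, natDegree_eq_zero_of_isUnit h] at h1
    omega

/-- the statement over an algebraically closed coefficient field -/
theorem sym_closed (hP : Irreducible P) (hdeg : 2 < P.natDegree)
    (hweil : ∀ z : ℂ, aeval z P = 0 → ‖z‖ ^ 2 = (p : ℝ) ^ (2 * c))
    {K : Type*} [Field K] [CharZero K] [IsAlgClosed K] (s i : ℕ)
    (KEY : ∀ [DecidableEq K] (xs : List K), (∀ x ∈ xs, aeval x P = 0) →
      xs.prod ^ s = ((p : K) ^ (2 * c)) ^ i →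
      ∀ x : K, aeval x P = 0 → xs.count x = xs.count ((p : K) ^ (2 * c) / x))
    {W : Type*} [AddCommGroup W] [Module K W]
    [FiniteDimensional K W] (F : W →ₗ[K] W)
    (hF : aeval F (((X - C ((p : ℚ) ^ c)) * P).map (algebraMap ℚ K)) = 0)
    (t : SymmetricAlgebra K W)
    (ht : smap (F ^ s) t = ((p : K) ^ c) ^ i • t) :
    t ∈ Algebra.adjoin K (gen12 (smap F) (LinearMap.range (SymmetricAlgebra.ι K W))
      ((p : K) ^ c) ((p : K) ^ (2 * c))) := by
  classical
  have hfacts := fun (x : K) (hx : aeval x P = 0) => root_facts (n := 2 * c) hP hdeg hweil x hx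
  have hp0 : (p : K) ≠ 0 := by exact_mod_cast hp.out.ne_zero
  have hρ0 : (p : K) ^ c ≠ 0 := pow_ne_zero _ hp0
  have hρ : (p : K) ^ c * (p : K) ^ c = (p : K) ^ (2 * c) := by rw [← pow_add]; congr 1; ring
  -- eigenvectors span
  have hsepQ : ((X - C ((p : ℚ) ^ c)) * P).Separable :=
    (separable_X_sub_C).mul hP.separable (coprime_lin hP hdeg _)
  have hsq : Squarefree (((X - C ((p : ℚ) ^ c)) * P).map (algebraMap ℚ K)) :=
    ((Polynomial.separable_map (algebraMap ℚ K)).2 hsepQ).squarefree
  have hss : Module.End.IsSemisimple F := Module.End.isSemisimple_of_squarefree_aeval_eq_zero hsq hF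
  have htop := hss.iSup_eigenspace_eq_top
  have heig : ∀ (μ : K) (w : W), F w = μ • w → w ≠ 0 →
      μ ∈ insert ((p : K) ^ c) {x : K | aeval x P = 0} := by
    intro μ w hw hne
    have h1 : aeval F (((X - C ((p : ℚ) ^ c)) * P).map (algebraMap ℚ K)) w = 0 := by rw [hF]; rfl
    have h2 := Module.End.aeval_apply_of_hasEigenvector
      (p := ((X - C ((p : ℚ) ^ c)) * P).map (algebraMap ℚ K))
      (f := F) (μ := μ) (x := w) ⟨Module.End.mem_eigenspace_iff.2 hw, hne⟩
    rw [h1] at h2
    rcases smul_eq_zero.1 h2.symm with h3 | h3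
    · rw [eval_map_algebraMap, map_mul] at h3
      rcases mul_eq_zero.1 h3 with h4 | h4
      · left
        rw [map_sub, aeval_X, aeval_C, map_pow, map_natCast, sub_eq_zero] at h4
        exact h4
      · right; exact h4
    · exact absurd h3 hne
  have hFs : ∀ (μ : K) (w : W), F w = μ • w → ∀ k : ℕ, (F ^ k) w = μ ^ k • w := by
    intro μ w hw k
    induction k with
    | zero => simp
    | succ k ih =>
      rw [pow_succ', Module.End.mul_apply, ih, map_smul, hw, smul_smul, pow_succ]
  -- roots in `K`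
  have hrootex : ∃ x : K, aeval x P = 0 := by
    have h1 : (P.map (algebraMap ℚ K)).degree ≠ 0 := by
      rw [degree_map]
      intro h2
      have := natDegree_eq_zero_iff_degree_le_zero.2 h2.le
      omega
    obtain ⟨x, hx⟩ := IsAlgClosed.exists_root _ h1
    refine ⟨x, ?_⟩
    rwa [IsRoot, eval_map_algebraMap] at hx
  have hinvroot : ∀ x : K, aeval x P = 0 → aeval ((p : K) ^ (2 * c) / x) P = 0 := by
    intro x hx
    let j : P.SplittingField →ₐ[ℚ] K := IsAlgClosed.lift
    have h1 := (SplittingField.splits P).image_rootSet j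
    have h2 : x ∈ P.rootSet K := mem_rootSet.2 ⟨hP.ne_zero, hx⟩
    rw [← h1] at h2
    obtain ⟨z, hz, rfl⟩ := h2
    have h3 := inv_root hweil hz
    have h4 := (mem_rootSet.1 h3).2
    have h5 : (p : K) ^ (2 * c) / j z = j ((p : P.SplittingField) ^ (2 * c) / z) := by
      rw [map_div₀, map_pow, map_natCast]
    have h6 : aeval (j ((p : P.SplittingField) ^ (2 * c) / z)) P = 0 := by
      rw [aeval_algHom_apply, h4, map_zero]
    rw [← h5] at h6
    exact h6
  refine tate_gen12 (E := K) (R := SymmetricAlgebra K W) (Φ := smap F)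
    (Ψ := smap (F ^ s)) (V := LinearMap.range (SymmetricAlgebra.ι K W))
    (X := {x : K | aeval x P = 0}) (s := s) (ε := 1) (q := (p : K) ^ (2 * c))
    (ν := ((p : K) ^ c) ^ i) (ρ := (p : K) ^ c) ?_ (fun x hx => (hfacts x hx).1) hρ0 hρ
    (fun x hx => (hfacts x hx).2) ?_ ?_ ?_ t ht
  · intro v _ w _
    rw [one_smul, mul_comm]
  · rw [eq_top_iff]
    intro z _
    induction z using SymmetricAlgebra.induction with
    | algebraMap r => exact Subalgebra.algebraMap_mem _ r
    | ι x => exact Algebra.subset_adjoin ⟨x, rfl⟩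
    | mul a b ha hb => exact Subalgebra.mul_mem _ (ha trivial) (hb trivial)
    | add a b ha hb => exact Subalgebra.add_mem _ (ha trivial) (hb trivial)
  · rintro _ ⟨v, rfl⟩
    have hv : v ∈ ⨆ μ : K, Module.End.eigenspace F μ := by rw [htop]; trivial
    induction hv using Submodule.iSup_induction' with
    | mem μ w hw =>
      by_cases hw0 : w = 0
      · rw [hw0, map_zero]; exact Submodule.zero_mem _
      · rw [Module.End.mem_eigenspace_iff] at hw
        apply Submodule.subset_span
        refine ⟨μ, ⟨w, rfl⟩, heig μ w hw hw0, ?_, ?_⟩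
        · show smap F (SymmetricAlgebra.ι K W w) = μ • SymmetricAlgebra.ι K W w
          rw [smap_ι, hw, map_smul]
        · show smap (F ^ s) (SymmetricAlgebra.ι K W w) = μ ^ s • SymmetricAlgebra.ι K W w
          rw [smap_ι, hFs μ w hw s, map_smul]
    | zero => rw [map_zero]; exact Submodule.zero_mem _
    | add x y _ _ hx hy => rw [map_add]; exact Submodule.add_mem _ hx hy
  · intro xs hxs hprod
    refine key12 hρ0 hρ (fun x hx => (hfacts x hx).1) hinvroot (fun x hx => (hfacts x hx).2)
      hrootex s i ?_ xs hxs hprod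
    intro ys hys hprod' x hx
    exact KEY ys hys hprod' x hx

/-- the statement over any coefficient field of characteristic zero -/
theorem sym_general {r a : ℕ} (hc : 0 < c) (hr : r.Prime) (ha : 0 < a) (hP : Irreducible P)
    (hdeg : P.natDegree = 2 * r ^ a)
    (hweil : ∀ z : ℂ, aeval z P = 0 → ‖z‖ ^ 2 = (p : ℝ) ^ (2 * c))
    (D : ℤ) (u : PadicAlgCl p → ℤ) (hu : SlopeCond p (2 * c) r P D u)
    {E : Type*} [Field E] [CharZero E] {V : Type*} [AddCommGroup V] [Module E V]
    [FiniteDimensional E V] (F : V →ₗ[E] V)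
    (hF : aeval F (((X - C ((p : ℚ) ^ c)) * P).map (algebraMap ℚ E)) = 0)
    (s i : ℕ) (hs : 0 < s) (t : SymmetricAlgebra E V)
    (ht : smap (F ^ s) t = ((p : E) ^ c) ^ i • t) :
    t ∈ Algebra.adjoin E (gen12 (smap F) (LinearMap.range (SymmetricAlgebra.ι E V))
      ((p : E) ^ c) ((p : E) ^ (2 * c))) := by
  let K := AlgebraicClosure E
  have hcz : CharZero K := charZero_of_injective_algebraMap (algebraMap E K).injective
  have hdeg2 : 2 < P.natDegree := by
    rw [hdeg]
    have h1 : r ^ 1 ≤ r ^ a := Nat.pow_le_pow_right hr.pos ha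
    have h2 := hr.two_le
    rw [pow_one] at h1
    omega
  apply descend K _ _ (gen12_le K F ((p : E) ^ c) ((p : E) ^ (2 * c))) t
  rw [map_pow, map_natCast, map_pow, map_natCast]
  have hpow : (F ^ s).baseChange K = (F.baseChange K) ^ s := by
    exact map_pow (Module.End.baseChangeHom E K V) F s
  refine sym_closed (c := c) hP hdeg2 hweil s i ?_ (F.baseChange K) ?_ (theta K t) ?_
  · intro _ xs hxs hprod x hx
    exact key (by omega) hr ha hP hdeg hweil D u hu.1 hu.2 s i hs xs hxs hprod x hx
  · have h1 : aeval (F.baseChange K) (((X - C ((p : ℚ) ^ c)) * P).map (algebraMap ℚ E)) = 0 := by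
      have h2 := aeval_algHom_apply (Module.End.baseChangeHom E K V) F
        (((X - C ((p : ℚ) ^ c)) * P).map (algebraMap ℚ E))
      rw [hF, map_zero] at h2
      exact h2
    have h2 : ((X - C ((p : ℚ) ^ c)) * P).map (algebraMap ℚ K) =
        (((X - C ((p : ℚ) ^ c)) * P).map (algebraMap ℚ E)).map (algebraMap E K) := by
      rw [Polynomial.map_map]
      congr 1
    rw [h2, aeval_map_algebraMap]
    exact h1
  · rw [← hpow, ← theta_map, ht, map_smul, ← map_natCast (algebraMap E K), ← map_pow, ← map_pow,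
      algebraMap_smul]

end Closed

end Pool.Agent.H93Tate.Sym
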