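import Pool.Agent.H93Tate.Main

/-! The slope condition for polynomials of K3 type. -/

set_option linter.unusedSectionVars false

namespace Pool.Agent.H93Tate.Sym

open Polynomial Pool.Agent.H93Tate

variable {p c : ℕ} [hp : Fact p.Prime] {P : ℚ[X]}

lemma slope_two (hc : 0 < c) (y : PadicAlgCl p) :
    2 * slope p (2 * c) y = slope p c y := by
  unfold slope
  have h1 : (1 : ℝ) < (p : ℝ) ^ c := one_lt_pow hc
  have h2 : Real.log ((p : ℝ) ^ c) ≠ 0 := (Real.log_pos h1).ne'
  rw [pow_mul', Real.logb, Real.logb, Real.log_pow]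
  field_simp
  push_cast
  ring

lemma inv_root_padic (hP : Irreducible P)
    (hweil : ∀ z : ℂ, aeval z P = 0 → ‖z‖ ^ 2 = (p : ℝ) ^ (2 * c))
    (y : PadicAlgCl p) (hy : aeval y P = 0) :
    y ≠ 0 ∧ aeval ((p : PadicAlgCl p) ^ (2 * c) / y) P = 0 := by
  let j : P.SplittingField →ₐ[ℚ] PadicAlgCl p := IsAlgClosed.lift
  have h1 := (SplittingField.splits P).image_rootSet j
  have h2 : y ∈ P.rootSet (PadicAlgCl p) := mem_rootSet.2 ⟨hP.ne_zero, hy⟩
  rw [← h1] at h2
  obtain ⟨z, hz, rfl⟩ := h2
  refine ⟨?_, ?_⟩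
  · intro h
    apply root_ne_zero hweil hz
    apply j.toRingHom.injective
    show j z = j 0
    have h0 : j 0 = 0 := map_zero j
    rw [h0]
    exact h
  · have h3 := inv_root hweil hz
    have h4 := (mem_rootSet.1 h3).2
    have h5 : (p : PadicAlgCl p) ^ (2 * c) / j z =
        j ((p : P.SplittingField) ^ (2 * c) / z) := by
      rw [map_div₀, map_pow, map_natCast]
    have h6 : aeval (j ((p : P.SplittingField) ^ (2 * c) / z)) P = 0 := by
      rw [aeval_algHom_apply, h4, map_zero]
    rw [← h5] at h6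
    exact h6

lemma slope_partner (hc : 0 < c) (y : PadicAlgCl p) (hy : y ≠ 0) :
    slope p c ((p : PadicAlgCl p) ^ (2 * c) / y) = 2 - slope p c y := by
  have hNp : (p : PadicAlgCl p) ^ (2 * c) ≠ 0 := pow_ne_zero _ (by exact_mod_cast hp.out.ne_zero)
  have h1 : slope p (2 * c) ((p : PadicAlgCl p) ^ (2 * c) / y) + slope p (2 * c) y = 1 := by
    rw [← slope_mul (div_ne_zero hNp hy) hy, div_mul_cancel₀ _ hy, slope_N (by omega)]
  rw [← slope_two hc, ← slope_two hc y]
  linarith

/-- the integral slope function of K3 type -/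
noncomputable def uK3 (p c h : ℕ) [Fact p.Prime] (y : PadicAlgCl p) : ℤ := by
  classical
  exact if slope p c y = 1 - 1 / h then -1 else if slope p c y = 1 + 1 / h then 1 else 0

/-- **Slope condition.** -/
theorem slopeCond_K3 (hc : 0 < c) {r : ℕ} (hr : r.Prime) (hP : Irreducible P)
    (hweil : ∀ z : ℂ, aeval z P = 0 → ‖z‖ ^ 2 = (p : ℝ) ^ (2 * c))
    (h k : ℕ) (hh : 0 < h) (hk : Odd k) (hkr : r = 2 ∨ k < r)
    (hslope : ∀ y : PadicAlgCl p, aeval y P = 0 →
      slope p c y = 1 - 1 / h ∨ slope p c y = 1 ∨ slope p c y = 1 + 1 / h)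
    (hcount : {y : PadicAlgCl p | aeval y P = 0 ∧ slope p c y = 1 - 1 / h}.ncard = k) :
    SlopeCond p (2 * c) r P h (uK3 p c h) := by
  classical
  have hh' : (0 : ℝ) < 1 / (h : ℝ) := by positivity
  have hu1 : ∀ y : PadicAlgCl p, slope p c y = 1 - 1 / h → uK3 p c h y = -1 := by
    intro y hy
    unfold uK3
    rw [if_pos hy]
  have hu2 : ∀ y : PadicAlgCl p, slope p c y = 1 + 1 / h → uK3 p c h y = 1 := by
    intro y hy
    unfold uK3
    rw [if_neg (by rw [hy]; intro h1; linarith), if_pos hy]
  have hu3 : ∀ y : PadicAlgCl p, slope p c y = 1 → uK3 p c h y = 0 := by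
    intro y hy
    unfold uK3
    rw [if_neg (by rw [hy]; intro h1; linarith), if_neg (by rw [hy]; intro h1; linarith)]
  refine ⟨?_, ?_⟩
  · intro y hy
    rw [slope_two hc]
    have hh0 : (h : ℝ) ≠ 0 := by positivity
    rcases hslope y hy with h1 | h1 | h1
    · rw [hu1 y h1, h1]; push_cast; field_simp; ring
    · rw [hu3 y h1, h1]; push_cast; ring
    · rw [hu2 y h1, h1]; push_cast; field_simp; ring
  · intro Φ hΦ hΦ2 hdvd
    set A := Φ.filter (fun y => slope p c y = 1 - 1 / h) with hA
    set B := Φ.filter (fun y => slope p c y = 1 + 1 / h) with hB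
    have hsum : ∑ y ∈ Φ, uK3 p c h y = (B.card : ℤ) - A.card := by
      have h1 : ∀ y ∈ Φ, uK3 p c h y = (if slope p c y = 1 + 1 / h then (1 : ℤ) else 0) -
          (if slope p c y = 1 - 1 / h then (1 : ℤ) else 0) := by
        intro y hy
        rcases hslope y (hΦ y hy) with h1 | h1 | h1
        · rw [hu1 y h1, if_neg (by rw [h1]; intro h2; linarith), if_pos h1]; ring
        · rw [hu3 y h1, if_neg (by rw [h1]; intro h2; linarith),
            if_neg (by rw [h1]; intro h2; linarith)]; ring
        · rw [hu2 y h1, if_pos h1, if_neg (by rw [h1]; intro h2; linarith)]; ring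
      rw [Finset.sum_congr rfl h1, Finset.sum_sub_distrib, Finset.sum_boole, Finset.sum_boole]
    have hpart : ∀ y : PadicAlgCl p, aeval y P = 0 →
        y ≠ 0 ∧ aeval ((p : PadicAlgCl p) ^ (2 * c) / y) P = 0 := inv_root_padic hP hweil
    have hNp : (p : PadicAlgCl p) ^ (2 * c) ≠ 0 :=
      pow_ne_zero _ (by exact_mod_cast hp.out.ne_zero)
    have hAB : A.card + B.card = k := by
      rw [← hcount]
      have h1 : {y : PadicAlgCl p | aeval y P = 0 ∧ slope p c y = 1 - 1 / h} =
          ((A ∪ B.image (fun y => (p : PadicAlgCl p) ^ (2 * c) / y) : Finset (PadicAlgCl p)) :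
            Set (PadicAlgCl p)) := by
        ext y
        simp only [Set.mem_ofPred_eq, Finset.coe_union, Set.mem_union, Finset.mem_coe]
        constructor
        · rintro ⟨hy, hys⟩
          by_cases hyΦ : y ∈ Φ
          · left
            exact Finset.mem_filter.2 ⟨hyΦ, hys⟩
          · right
            obtain ⟨hy0, hyi⟩ := hpart y hy
            refine Finset.mem_image.2 ⟨(p : PadicAlgCl p) ^ (2 * c) / y, ?_, ?_⟩
            · refine Finset.mem_filter.2 ⟨?_, ?_⟩
              · by_contra h2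
                exact hyΦ ((hΦ2 y hy).2 h2)
              · rw [slope_partner hc y hy0, hys]; ring
            · rw [div_div_cancel₀ hNp]
        · rintro (hy | hy)
          · rw [hA, Finset.mem_filter] at hy
            exact ⟨hΦ y hy.1, hy.2⟩
          · obtain ⟨z, hz, rfl⟩ := Finset.mem_image.1 hy
            rw [hB, Finset.mem_filter] at hz
            obtain ⟨hz0, hzi⟩ := hpart z (hΦ z hz.1)
            exact ⟨hzi, by rw [slope_partner hc z hz0, hz.2]; ring⟩
      rw [h1, Set.ncard_coe_finset, Finset.card_union_of_disjoint,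
        Finset.card_image_of_injOn]
      · intro y hy z hz hyz
        have hy0 := (hpart y (hΦ y (Finset.mem_filter.1 hy).1)).1
        have hz0 := (hpart z (hΦ z (Finset.mem_filter.1 hz).1)).1
        have h2 : (p : PadicAlgCl p) ^ (2 * c) / y = (p : PadicAlgCl p) ^ (2 * c) / z := hyz
        rw [div_eq_div_iff hy0 hz0] at h2
        exact (mul_left_cancel₀ hNp h2).symm
      · rw [Finset.disjoint_left]
        intro y hy hy2
        obtain ⟨z, hz, rfl⟩ := Finset.mem_image.1 hy2
        rw [hA, Finset.mem_filter] at hy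
        rw [hB, Finset.mem_filter] at hz
        exact ((hΦ2 z (hΦ z hz.1)).1 hz.1) hy.1
    rw [hsum] at hdvd
    obtain ⟨k', hk'⟩ := hk
    rcases hkr with rfl | hkr
    · obtain ⟨d, hd⟩ := hdvd
      push_cast at hd
      omega
    · have h1 : (B.card : ℤ) - A.card = 0 := by
        apply Int.eq_zero_of_abs_lt_dvd hdvd
        rw [abs_lt]
        constructor <;> omega
      omega

end Pool.Agent.H93Tate.Sym
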